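import Mathlib

-- part Pool.Agent.Lib.MP_f7f352_co.Count
section

set_option autoImplicit false
set_option linter.unusedSectionVars false

namespace Pool.Agent.Lib.MP_f7f352_co

open Finset

section general

variable {R C W : Type} [Fintype R] [Fintype C] [Fintype W]
  [DecidableEq R] [DecidableEq C] [DecidableEq W]

/-- adjacency of the gadget graph -/
def gAdj (x : R → C → Bool) (A : W → Finset R) (B : W → Finset C) :
    R ⊕ C ⊕ W → R ⊕ C ⊕ W → Prop
  | Sum.inl r, Sum.inl r' => r ≠ r'
  | Sum.inl r, Sum.inr (Sum.inl s) => x r s = false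
  | Sum.inr (Sum.inl s), Sum.inl r => x r s = false
  | Sum.inr (Sum.inl s), Sum.inr (Sum.inl s') => s ≠ s'
  | Sum.inl r, Sum.inr (Sum.inr w) => r ∈ A w
  | Sum.inr (Sum.inr w), Sum.inl r => r ∈ A w
  | Sum.inr (Sum.inl s), Sum.inr (Sum.inr w) => s ∈ B w
  | Sum.inr (Sum.inr w), Sum.inr (Sum.inl s) => s ∈ B w
  | Sum.inr (Sum.inr _), Sum.inr (Sum.inr _) => False

/-- the gadget graph -/
def gGraph (x : R → C → Bool) (A : W → Finset R) (B : W → Finset C) :
    SimpleGraph (R ⊕ C ⊕ W) where
  Adj := gAdj x A B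
  symm := ⟨by
    rintro (r | s | w) (r' | s' | w') h <;> simp_all [gAdj, ne_comm]⟩
  loopless := ⟨by
    rintro (r | s | w) h <;> simp_all [gAdj]⟩

/-- valid partial matchings -/
def valid (x : R → C → Bool) : Finset (R → Option C) :=
  univ.filter fun μ => (∀ r s, μ r = some s → x r s = true) ∧
    (∀ r r' s, μ r = some s → μ r' = some s → r = r')

/-- number of unmatched rows -/
def free (μ : R → Option C) : ℕ := (univ.filter fun r => μ r = none).card

/-- number of matched pairs inside a row set and a column set -/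
def inside (μ : R → Option C) (A : Finset R) (B : Finset C) : ℕ :=
  (A.filter fun r => ∃ s ∈ B, μ r = some s).card

/-- base colourings with a given pattern -/
def fib (k : ℕ) (μ : R → Option C) : Finset ((R → Fin k) × (C → Fin k)) :=
  univ.filter fun ab => Function.Injective ab.1 ∧ Function.Injective ab.2 ∧
    ∀ r s, (ab.1 r = ab.2 s ↔ μ r = some s)

lemma card_fib (k : ℕ) (μ : R → Option C)
    (hμ : ∀ r r' s, μ r = some s → μ r' = some s → r = r') :
    (fib k μ).card = k.descFactorial (free μ + Fintype.card C) := by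
  classical
  let ρ : R → ({r // μ r = none} ⊕ C) := fun r =>
    if h : μ r = none then Sum.inl ⟨r, h⟩ else Sum.inr ((μ r).get (Option.ne_none_iff_isSome.mp h))
  have hρ1 : ∀ r (h : μ r = none), ρ r = Sum.inl ⟨r, h⟩ := fun r h => by simp [ρ, h]
  have hρ2 : ∀ r s, μ r = some s → ρ r = Sum.inr s := fun r s h => by
    have h' : ¬ μ r = none := by simp [h]
    simp only [ρ, dif_neg h']
    congr 1
    simp [h]
  have hρ3 : ∀ r s, ρ r = Sum.inr s → μ r = some s := fun r s h => by
    cases hr : μ r with
    | none => rw [hρ1 r hr] at h; cases h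
    | some s' => rw [hρ2 r s' hr] at h; cases h; rfl
  have hρinj : Function.Injective ρ := fun r r' h => by
    cases hr : μ r with
    | none =>
      cases hr' : μ r' with
      | none => rw [hρ1 r hr, hρ1 r' hr'] at h; simpa using h
      | some s' => rw [hρ1 r hr, hρ2 r' s' hr'] at h; cases h
    | some s =>
      have := hρ2 r s hr
      rw [this] at h
      exact hμ r r' s hr (hρ3 r' s h.symm)
  have hcard : Fintype.card (({r // μ r = none} ⊕ C) ↪ Fin k) =
      k.descFactorial (free μ + Fintype.card C) := by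
    rw [Fintype.card_embedding_eq, Fintype.card_fin, Fintype.card_sum, Fintype.card_subtype]
    rfl
  rw [← hcard, ← Finset.card_univ]
  symm
  refine Finset.card_bij (fun f _ => (fun r => f (ρ r), fun s => f (Sum.inr s))) ?_ ?_ ?_
  · intro f _
    simp only [fib, mem_filter, mem_univ, true_and]
    refine ⟨f.injective.comp hρinj, f.injective.comp Sum.inr_injective, fun r s => ?_⟩
    constructor
    · intro h; exact hρ3 r s (f.injective h)
    · intro h; rw [hρ2 r s h]
  · intro f _ g _ h
    ext z
    simp only [Prod.mk.injEq] at h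
    rcases z with ⟨r, hr⟩ | s
    · have := congrFun h.1 r
      simp only [hρ1 r hr] at this
      rw [this]
    · have := congrFun h.2 s
      rw [this]
  · rintro ⟨a, b⟩ hab
    simp only [fib, mem_filter, mem_univ, true_and] at hab
    obtain ⟨ha, hb, hab⟩ := hab
    refine ⟨⟨Sum.elim (fun r => a r.1) b, ?_⟩, mem_univ _, ?_⟩
    · rintro (⟨r, hr⟩ | s) (⟨r', hr'⟩ | s') h
      · simp only [Sum.elim_inl] at h
        have := ha h
        subst this; rfl
      · simp only [Sum.elim_inl, Sum.elim_inr] at h
        have := (hab r s').1 h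
        rw [hr] at this; cases this
      · simp only [Sum.elim_inl, Sum.elim_inr] at h
        have := (hab r' s).1 h.symm
        rw [hr'] at this; cases this
      · simp only [Sum.elim_inr] at h
        rw [hb h]
    · refine Prod.ext ?_ rfl
      funext r
      show Sum.elim (fun r : {r // μ r = none} => a r.1) b (ρ r) = a r
      cases hr : μ r with
      | none => rw [hρ1 r hr]; rfl
      | some s => rw [hρ2 r s hr]; exact ((hab r s).2 hr).symm

lemma card_image_union {k : ℕ} {μ : R → Option C} {ab : (R → Fin k) × (C → Fin k)}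
    (hab : ab ∈ fib k μ) (A : Finset R) (B : Finset C) :
    ((A.image ab.1 ∪ B.image ab.2).card : ℤ) = A.card + B.card - inside μ A B := by
  simp only [fib, mem_filter, mem_univ, true_and] at hab
  obtain ⟨ha, hb, hab⟩ := hab
  have h1 := Finset.card_union_add_card_inter (A.image ab.1) (B.image ab.2)
  rw [Finset.card_image_of_injective _ ha, Finset.card_image_of_injective _ hb] at h1
  have h2 : (A.image ab.1 ∩ B.image ab.2) = (A.filter fun r => ∃ s ∈ B, μ r = some s).image ab.1 := by
    ext z
    simp only [mem_inter, mem_image, mem_filter]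
    constructor
    · rintro ⟨⟨r, hr, rfl⟩, s, hs, h⟩
      exact ⟨r, ⟨hr, s, hs, (hab r s).1 h.symm⟩, rfl⟩
    · rintro ⟨r, ⟨hr, s, hs, h⟩, rfl⟩
      exact ⟨⟨r, hr, rfl⟩, s, hs, ((hab r s).2 h).symm⟩
  rw [h2, Finset.card_image_of_injective _ ha] at h1
  unfold inside
  omega

/-- base colourings -/
def base (x : R → C → Bool) (k : ℕ) : Finset ((R → Fin k) × (C → Fin k)) :=
  univ.filter fun ab => Function.Injective ab.1 ∧ Function.Injective ab.2 ∧
    ∀ r s, ab.1 r = ab.2 s → x r s = true

lemma base_eq (x : R → C → Bool) (k : ℕ) :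
    base x k = (valid x).biUnion (fib k) := by
  classical
  ext ⟨a, b⟩
  simp only [base, valid, fib, mem_filter, mem_univ, true_and, mem_biUnion]
  constructor
  · rintro ⟨ha, hb, hx⟩
    refine ⟨fun r => if h : ∃ s, a r = b s then some h.choose else none, ⟨?_, ?_⟩, ha, hb, ?_⟩
    · intro r s h
      by_cases h' : ∃ s, a r = b s
      · simp only [dif_pos h', Option.some.injEq] at h
        exact hx r s (h ▸ h'.choose_spec)
      · simp [dif_neg h'] at h
    · intro r r' s h h2
      by_cases h' : ∃ s, a r = b s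
      · by_cases h'' : ∃ s, a r' = b s
        · simp only [dif_pos h', dif_pos h'', Option.some.injEq] at h h2
          apply ha
          rw [h'.choose_spec, h''.choose_spec, h, h2]
        · simp [dif_neg h''] at h2
      · simp [dif_neg h'] at h
    · intro r s
      by_cases h' : ∃ s, a r = b s
      · simp only [dif_pos h', Option.some.injEq]
        constructor
        · intro h; apply hb; rw [← h'.choose_spec, h]
        · intro h; rw [← h]; exact h'.choose_spec
      · simp only [dif_neg h']
        constructor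
        · intro h; exact absurd ⟨s, h⟩ h'
        · intro h; cases h
  · rintro ⟨μ, ⟨h1, _⟩, ha, hb, hab⟩
    exact ⟨ha, hb, fun r s h => h1 r s ((hab r s).1 h)⟩

lemma fib_disj (k : ℕ) (S : Finset (R → Option C)) :
    (S : Set (R → Option C)).PairwiseDisjoint (fib k) := by
  intro μ _ ν _ hne
  rw [Function.onFun, Finset.disjoint_left]
  intro ab h1 h2
  apply hne
  simp only [fib, mem_filter, mem_univ, true_and] at h1 h2
  funext r
  apply Option.ext
  intro s
  exact (h1.2.2 r s).symm.trans (h2.2.2 r s)

lemma card_col (x : R → C → Bool) (A : W → Finset R) (B : W → Finset C) (k : ℕ) :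
    Nat.card {c : (R ⊕ C ⊕ W) → Fin k // ∀ u v, (gGraph x A B).Adj u v → c u ≠ c v} =
      ∑ ab ∈ base x k, ∏ w, (k - ((A w).image ab.1 ∪ (B w).image ab.2).card) := by
  classical
  rw [Nat.card_eq_fintype_card, Fintype.card_subtype]
  have : ∀ ab : (R → Fin k) × (C → Fin k),
      ∏ w, (k - ((A w).image ab.1 ∪ (B w).image ab.2).card) =
      (Fintype.piFinset fun w => ((A w).image ab.1 ∪ (B w).image ab.2)ᶜ).card := by
    intro ab
    rw [Fintype.card_piFinset]
    refine Finset.prod_congr rfl fun w _ => ?_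
    rw [Finset.card_compl, Fintype.card_fin]
  simp_rw [this]
  rw [← Finset.card_sigma]
  refine Finset.card_bij (fun c _ => ⟨(fun r => c (Sum.inl r), fun s => c (Sum.inr (Sum.inl s))),
    fun w => c (Sum.inr (Sum.inr w))⟩) ?_ ?_ ?_
  · intro c hc
    simp only [mem_filter, mem_univ, true_and] at hc
    simp only [mem_sigma, base, mem_filter, mem_univ, true_and, Fintype.mem_piFinset, mem_compl,
      mem_union, mem_image, not_or, not_exists, not_and]
    refine ⟨⟨?_, ?_, ?_⟩, fun w => ⟨?_, ?_⟩⟩
    · intro r r' h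
      by_contra hne
      exact hc (Sum.inl r) (Sum.inl r') hne h
    · intro s s' h
      by_contra hne
      exact hc (Sum.inr (Sum.inl s)) (Sum.inr (Sum.inl s')) hne h
    · intro r s h
      by_contra hne
      exact hc (Sum.inl r) (Sum.inr (Sum.inl s)) (by simpa [gGraph, gAdj] using hne) h
    · intro r hr h
      exact hc (Sum.inl r) (Sum.inr (Sum.inr w)) hr h
    · intro s hs h
      exact hc (Sum.inr (Sum.inl s)) (Sum.inr (Sum.inr w)) hs h
  · intro c _ c' _ h
    simp only [Sigma.mk.injEq, Prod.mk.injEq, heq_eq_eq] at h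
    obtain ⟨⟨h1, h2⟩, h3⟩ := h
    funext z
    rcases z with r | s | w
    · exact congrFun h1 r
    · exact congrFun h2 s
    · exact congrFun h3 w
  · rintro ⟨⟨a, b⟩, g⟩ h
    simp only [mem_sigma, base, mem_filter, mem_univ, true_and, Fintype.mem_piFinset, mem_compl,
      mem_union, mem_image, not_or, not_exists, not_and] at h
    obtain ⟨⟨ha, hb, hx⟩, hg⟩ := h
    refine ⟨Sum.elim a (Sum.elim b g), ?_, rfl⟩
    simp only [mem_filter, mem_univ, true_and]
    rintro (r | s | w) (r' | s' | w') hadj h <;>
      simp only [gGraph, gAdj, Sum.elim_inl, Sum.elim_inr] at hadj h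
    · exact hadj (ha h)
    · have := hx r s' h; simp [this] at hadj
    · exact (hg w').1 r hadj h
    · have := hx r' s h.symm; simp [this] at hadj
    · exact hadj (hb h)
    · exact (hg w').2 s hadj h
    · exact (hg w).1 r' hadj h.symm
    · exact (hg w).2 s' hadj h.symm

/-- the reduced polynomial, as a function on the integers -/
def Q (x : R → C → Bool) (A : W → Finset R) (B : W → Finset C) (l : ℤ) : ℤ :=
  ∑ μ ∈ valid x, (∏ j ∈ range (free μ), (l - Fintype.card C - j)) *
    ∏ w, (l - ((A w).card + (B w).card) + inside μ (A w) (B w))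

lemma free_le (μ : R → Option C) : free μ ≤ Fintype.card R := by
  unfold free
  exact Finset.card_le_univ _

lemma card_col_eq (x : R → C → Bool) (A : W → Finset R) (B : W → Finset C) (k : ℕ)
    (hk : Fintype.card R + Fintype.card C ≤ k) :
    (Nat.card {c : (R ⊕ C ⊕ W) → Fin k // ∀ u v, (gGraph x A B).Adj u v → c u ≠ c v} : ℤ) =
      (k.descFactorial (Fintype.card C) : ℤ) * Q x A B k := by
  classical
  rw [card_col, base_eq, Finset.sum_biUnion (fib_disj k _), Q, Finset.mul_sum]
  push_cast
  refine Finset.sum_congr rfl fun μ hμ => ?_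
  have hμ' : ∀ r r' s, μ r = some s → μ r' = some s → r = r' := by
    simp only [valid, mem_filter, mem_univ, true_and] at hμ
    exact hμ.2
  have h1 : ∀ ab ∈ fib k μ, ∏ w, (((k - ((A w).image ab.1 ∪ (B w).image ab.2).card : ℕ)) : ℤ) =
      ∏ w, ((k : ℤ) - ((A w).card + (B w).card) + inside μ (A w) (B w)) := by
    intro ab hab
    refine Finset.prod_congr rfl fun w _ => ?_
    have h2 : ((A w).image ab.1 ∪ (B w).image ab.2).card ≤ k := by
      simpa using Finset.card_le_univ ((A w).image ab.1 ∪ (B w).image ab.2)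
    rw [Nat.cast_sub h2, card_image_union hab]
    ring
  rw [Finset.sum_congr rfl h1, Finset.sum_const, card_fib k μ hμ', nsmul_eq_mul, ← mul_assoc]
  congr 1
  have h3 := Nat.descFactorial_mul_descFactorial (n := k) (k := Fintype.card C)
    (m := free μ + Fintype.card C) (by omega)
  rw [← h3, Nat.add_sub_cancel, Nat.descFactorial_eq_prod_range (k - Fintype.card C)]
  push_cast
  rw [mul_comm]
  congr 1
  refine Finset.prod_congr rfl fun j hj => ?_
  have := free_le μ
  have hj' := Finset.mem_range.mp hj
  rw [Nat.cast_sub (by omega), Nat.cast_sub (by omega)]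

lemma Q_eq_of_col_eq (x y : R → C → Bool) (A : W → Finset R) (B : W → Finset C)
    (h : ∀ k : ℕ,
      Nat.card {c : (R ⊕ C ⊕ W) → Fin k // ∀ u v, (gGraph x A B).Adj u v → c u ≠ c v} =
      Nat.card {c : (R ⊕ C ⊕ W) → Fin k // ∀ u v, (gGraph y A B).Adj u v → c u ≠ c v})
    (l : ℤ) : Q x A B l = Q y A B l := by
  classical
  let P : (R → C → Bool) → Polynomial ℤ := fun x =>
    ∑ μ ∈ valid x, (∏ j ∈ range (free μ),
      (Polynomial.X - Polynomial.C (Fintype.card C : ℤ) - Polynomial.C (j : ℤ))) *
    ∏ w, (Polynomial.X - Polynomial.C (((A w).card + (B w).card : ℤ)) +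
      Polynomial.C (inside μ (A w) (B w) : ℤ))
  have hP : ∀ x l, (P x).eval l = Q x A B l := by
    intro x l
    simp only [P, Q, Polynomial.eval_finsetSum, Polynomial.eval_mul, Polynomial.eval_prod,
      Polynomial.eval_add, Polynomial.eval_sub, Polynomial.eval_X, Polynomial.eval_C]
  have : P x = P y := by
    apply Polynomial.eq_of_infinite_eval_eq
    refine Set.infinite_of_injective_forall_mem
      (f := fun i : ℕ => ((Fintype.card R + Fintype.card C + i : ℕ) : ℤ)) ?_ ?_
    · intro i j hij
      simp only [Nat.cast_inj] at hij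
      omega
    · intro i
      simp only [Set.mem_ofPred_eq, hP]
      have h1 := card_col_eq x A B (Fintype.card R + Fintype.card C + i) (by omega)
      have h2 := card_col_eq y A B (Fintype.card R + Fintype.card C + i) (by omega)
      rw [h, h2] at h1
      have h3 : ((Fintype.card R + Fintype.card C + i).descFactorial (Fintype.card C) : ℤ) ≠ 0 := by
        rw [Nat.cast_ne_zero, Ne, Nat.descFactorial_eq_zero_iff_lt]
        omega
      exact (mul_left_cancel₀ h3 h1).symm
  rw [← hP, ← hP, this]

end general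

end Pool.Agent.Lib.MP_f7f352_co
end

-- part Pool.Agent.Lib.MP_f7f352_co.Code
section

set_option autoImplicit false

namespace Pool.Agent.Lib.MP_f7f352_co

open Finset

lemma good_many {m : ℕ} (U : Finset (Fin m)) (hU : 2 ≤ U.card) :
    2 ^ m ≤ 4 * (univ.filter fun T : Finset (Fin m) => (U ∩ T).card % 3 = 2).card := by
  classical
  obtain ⟨a, ha, b, hb, hab⟩ := Finset.one_lt_card.mp (show 1 < U.card by omega)
  let f : Finset (Fin m) → Finset (Fin m) := fun T =>
    let Z := T \ {a, b}
    if (U ∩ Z).card % 3 = 2 then Z else if (U ∩ Z).card % 3 = 1 then insert a Z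
      else insert a (insert b Z)
  have hf : ∀ T, f T \ {a, b} = T \ {a, b} := by
    intro T
    simp only [f]
    split_ifs
    · ext z; simp
    · ext z; simp only [mem_sdiff, mem_insert, mem_singleton]; tauto
    · ext z; simp only [mem_sdiff, mem_insert, mem_singleton]; tauto
  have h1 : (univ : Finset (Finset (Fin m))).card = 2 ^ m := by simp
  rw [← h1]
  refine Finset.card_le_mul_card_image_of_maps_to (f := f) ?_ 4 ?_
  · intro T _
    simp only [mem_filter, mem_univ, true_and, f]
    have haZ : a ∉ T \ {a, b} := by simp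
    have hbZ : b ∉ T \ {a, b} := by simp
    split_ifs with h2 h3
    · exact h2
    · rw [Finset.inter_insert_of_mem ha, Finset.card_insert_of_notMem (by simp)]
      omega
    · rw [Finset.inter_insert_of_mem ha, Finset.inter_insert_of_mem hb,
        Finset.card_insert_of_notMem (by simp [hab]), Finset.card_insert_of_notMem (by simp)]
      omega
  · intro Y _
    have : ((({a, b} : Finset (Fin m))).powerset).card = 4 := by
      rw [Finset.card_powerset, Finset.card_pair hab]; norm_num
    rw [← this]
    refine Finset.card_le_card_of_injOn (fun T => T ∩ {a, b}) ?_ ?_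
    · intro T _
      simp only [coe_powerset, Set.mem_preimage, Set.mem_powerset_iff, coe_subset]
      exact Finset.inter_subset_right
    · intro T hT T' hT' h
      simp only [coe_filter, mem_univ, true_and, Set.mem_ofPred_eq] at hT hT' h
      have h3 : T \ {a, b} = T' \ {a, b} := by rw [← hf T, ← hf T', hT, hT']
      rw [← Finset.sdiff_union_inter T {a, b}, ← Finset.sdiff_union_inter T' {a, b}, h3, h]

lemma exists_code (m L D : ℕ) (hL : 6 * (m + D) ≤ L) :
    ∃ S : Fin L → Finset (Fin m), ∀ U : Finset (Fin m), 2 ≤ U.card →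
      D ≤ (univ.filter fun i => (U ∩ S i).card % 3 = 2).card := by
  classical
  let g : Finset (Fin m) → Finset (Fin m) → ℚ := fun U T =>
    if (U ∩ T).card % 3 = 2 then 1 / 2 else 1
  let 𝒰 : Finset (Finset (Fin m)) := univ.filter fun U => 2 ≤ U.card
  have hg : ∀ U ∈ 𝒰, ∑ T, g U T ≤ 7 / 8 * 2 ^ m := by
    intro U hU
    have hU' : 2 ≤ U.card := by simpa [𝒰] using hU
    have h1 := good_many U hU'
    have h2 : ∑ T, g U T = 2 ^ m - 1 / 2 *
        ((univ.filter fun T : Finset (Fin m) => (U ∩ T).card % 3 = 2).card : ℚ) := by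
      have : ∀ T, g U T = 1 - 1 / 2 * (if (U ∩ T).card % 3 = 2 then 1 else 0) := by
        intro T; simp only [g]; split_ifs <;> norm_num
      simp_rw [this]
      rw [Finset.sum_sub_distrib, ← Finset.mul_sum, Finset.sum_boole]
      simp
    have h3 : ((2 : ℚ)) ^ m ≤ 4 *
        ((univ.filter fun T : Finset (Fin m) => (U ∩ T).card % 3 = 2).card : ℚ) := by
      exact_mod_cast h1
    rw [h2]; linarith
  have hsum : ∑ S : Fin L → Finset (Fin m), ∑ U ∈ 𝒰, ∏ i, g U (S i) ≤
      ∑ _S : Fin L → Finset (Fin m), (2 : ℚ) ^ m * (7 / 8) ^ L := by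
    rw [Finset.sum_comm]
    have h1 : ∀ U ∈ 𝒰, ∑ S : Fin L → Finset (Fin m), ∏ i, g U (S i) ≤ (7 / 8 * 2 ^ m) ^ L := by
      intro U hU
      have := Finset.prod_univ_sum (fun _ : Fin L => (univ : Finset (Finset (Fin m))))
        (fun _ T => g U T)
      rw [Fintype.piFinset_univ] at this
      rw [← this, Finset.prod_const, Finset.card_univ, Fintype.card_fin]
      refine pow_le_pow_left₀ (Finset.sum_nonneg fun T _ => ?_) (hg U hU) L
      simp only [g]; split_ifs <;> norm_num
    refine (Finset.sum_le_card_nsmul _ _ _ h1).trans ?_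
    have h2 : (𝒰.card : ℚ) ≤ 2 ^ m := by
      have : 𝒰.card ≤ 2 ^ m := by simpa using Finset.card_le_univ 𝒰
      exact_mod_cast this
    rw [Finset.sum_const, nsmul_eq_mul, nsmul_eq_mul, Finset.card_univ, Fintype.card_fun,
      Fintype.card_finset, Fintype.card_fin, Fintype.card_fin, mul_pow]
    push_cast
    calc (𝒰.card : ℚ) * ((7 / 8) ^ L * (2 ^ m) ^ L) ≤ 2 ^ m * ((7 / 8) ^ L * (2 ^ m) ^ L) := by
          gcongr
      _ = _ := by ring
  obtain ⟨S, -, hS⟩ := Finset.exists_le_of_sum_le Finset.univ_nonempty hsum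
  refine ⟨S, fun U hU => ?_⟩
  have hU' : U ∈ 𝒰 := by simpa [𝒰] using hU
  have h1 : ∏ i, g U (S i) ≤ (2 : ℚ) ^ m * (7 / 8) ^ L := by
    refine le_trans ?_ hS
    refine Finset.single_le_sum (f := fun U => ∏ i, g U (S i)) (fun U _ => ?_) hU'
    refine Finset.prod_nonneg fun i _ => ?_
    simp only [g]; split_ifs <;> norm_num
  have h2 : ∏ i, g U (S i) =
      (1 / 2) ^ (univ.filter fun i => (U ∩ S i).card % 3 = 2).card := by
    simp only [g]
    rw [Finset.prod_ite]
    simp
  have h3 : (7 / 8 : ℚ) ^ L ≤ (1 / 2) ^ (m + D) := by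
    calc (7 / 8 : ℚ) ^ L ≤ (7 / 8) ^ (6 * (m + D)) :=
          pow_le_pow_of_le_one (by norm_num) (by norm_num) hL
      _ = ((7 / 8) ^ 6) ^ (m + D) := by rw [pow_mul]
      _ ≤ (1 / 2) ^ (m + D) := pow_le_pow_left₀ (by norm_num) (by norm_num) _
  have h4 : (2 : ℚ) ^ m * (1 / 2) ^ (m + D) = (1 / 2) ^ D := by
    rw [pow_add, ← mul_assoc, ← mul_pow]; norm_num
  have h5 : (1 / 2 : ℚ) ^ (univ.filter fun i => (U ∩ S i).card % 3 = 2).card ≤ (1 / 2) ^ D := by
    rw [← h2, ← h4]
    refine h1.trans ?_
    gcongr
  by_contra hlt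
  push Not at hlt
  have := pow_lt_pow_right_of_lt_one₀ (a := (1 / 2 : ℚ)) (by norm_num) (by norm_num) hlt
  linarith

end Pool.Agent.Lib.MP_f7f352_co
end

-- part Pool.Agent.Lib.MP_f7f352_co.Decode
section

set_option autoImplicit false

namespace Pool.Agent.Lib.MP_f7f352_co

open Finset

lemma prod_dvd_fact {ι : Type} (I : Finset ι) (f : ι → ℕ) (N : ℕ) (hinj : Set.InjOn f I)
    (h : ∀ i ∈ I, 1 ≤ f i ∧ f i ≤ N) : ∏ i ∈ I, f i ∣ N.factorial := by
  classical
  rw [← Finset.prod_Ico_id_eq_factorial, ← Finset.prod_image (f := fun z => z) (g := f) hinj]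
  apply Finset.prod_dvd_prod_of_subset
  intro z hz
  obtain ⟨i, hi, rfl⟩ := Finset.mem_image.mp hz
  have := h i hi
  simp only [mem_Ico]; omega

lemma val_bound (m κ : ℕ)
    (h : 3 ^ κ ∣ 9 ^ m * ((10 * m).factorial * (m.factorial * m.factorial))) : κ ≤ 8 * m := by
  have : Fact (Nat.Prime 3) := ⟨by norm_num⟩
  have h0 : ∀ n : ℕ, n.factorial ≠ 0 := Nat.factorial_ne_zero
  rw [padicValNat_dvd_iff_le (by positivity), padicValNat.mul (by positivity) (by positivity),
    padicValNat.mul (by positivity) (by positivity),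
    padicValNat.mul (by positivity) (by positivity)] at h
  have h1 := sub_one_mul_padicValNat_factorial (p := 3) (10 * m)
  have h2 := sub_one_mul_padicValNat_factorial (p := 3) m
  have h3 : padicValNat 3 (9 ^ m) = 2 * m := by
    rw [show (9 : ℕ) = 3 ^ 2 by norm_num, ← pow_mul, padicValNat.prime_pow]
  omega

abbrev Col (m : ℕ) := Fin m ⊕ Fin (9 * m)
abbrev Gad (m L : ℕ) := Fin m ⊕ Fin m ⊕ Fin L

variable {m L : ℕ}

def xx (X : Fin m → Fin m → Bool) : Fin m → Col m → Bool
  | r, Sum.inl s => X r s
  | _, Sum.inr _ => false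

def pad (m j : ℕ) : Finset (Fin (9 * m)) := univ.filter fun i => i.val < j

lemma card_pad {j : ℕ} (h : j ≤ 9 * m) : (pad m j).card = j := by
  rw [pad, Fin.card_filter_val_lt]; omega

def AA (S : Fin L → Finset (Fin m)) : Gad m L → Finset (Fin m)
  | Sum.inl j => {j}
  | Sum.inr (Sum.inl _) => univ
  | Sum.inr (Sum.inr i) => S i

def BB (S : Fin L → Finset (Fin m)) : Gad m L → Finset (Col m)
  | Sum.inl j => (univ : Finset (Fin m)).disjSum (pad m (9 * j.val))
  | Sum.inr (Sum.inl i) => (Ioi i).disjSum (pad m (9 * m - 1 - (Ioi i).card))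
  | Sum.inr (Sum.inr i) => (univ : Finset (Fin m)).disjSum (pad m (3 * m - (S i).card))

def term (S : Fin L → Finset (Fin m)) (l : ℤ) (μ : Fin m → Option (Col m)) : ℤ :=
  (∏ j ∈ range (free μ), (l - Fintype.card (Col m) - j)) *
    ∏ w, (l - ((AA S w).card + (BB S w).card) + inside μ (AA S w) (BB S w))

def lam (t : Fin m) : ℤ := m + 9 * t.val + 1

lemma size_row (S : Fin L → Finset (Fin m)) (j : Fin m) :
    (((AA S (Sum.inl j)).card : ℤ) + (BB S (Sum.inl j)).card) = lam j := by
  have := j.isLt
  simp only [AA, BB, card_singleton, card_disjSum, card_univ, Fintype.card_fin, lam]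
  rw [card_pad (by omega)]
  push_cast; ring

lemma size_col (S : Fin L → Finset (Fin m)) (i : Fin m) :
    (((AA S (Sum.inr (Sum.inl i))).card : ℤ) + (BB S (Sum.inr (Sum.inl i))).card) =
      10 * m - 1 := by
  have := i.isLt
  have h2 : (Ioi i).card ≤ m := by simpa using Finset.card_le_univ (Ioi i)
  simp only [AA, BB, card_disjSum, card_univ, Fintype.card_fin]
  rw [card_pad (by omega)]
  omega

lemma size_code (S : Fin L → Finset (Fin m)) (i : Fin L) :
    (((AA S (Sum.inr (Sum.inr i))).card : ℤ) + (BB S (Sum.inr (Sum.inr i))).card) =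
      4 * m := by
  have h2 : (S i).card ≤ m := by simpa using Finset.card_le_univ (S i)
  simp only [AA, BB, card_disjSum, card_univ, Fintype.card_fin]
  rw [card_pad (by omega)]
  omega

lemma inside_full {X : Fin m → Fin m → Bool} {μ : Fin m → Option (Col m)}
    (hμ : μ ∈ valid (xx X)) (A : Finset (Fin m)) (P : Finset (Fin (9 * m))) :
    inside μ A ((univ : Finset (Fin m)).disjSum P) =
      ((univ.filter fun r => μ r ≠ none) ∩ A).card := by
  simp only [valid, mem_filter, mem_univ, true_and] at hμ
  unfold inside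
  congr 1
  ext r
  simp only [mem_filter, mem_inter, mem_univ, true_and]
  constructor
  · rintro ⟨hr, s, _, h⟩
    exact ⟨by simp [h], hr⟩
  · rintro ⟨h, hr⟩
    refine ⟨hr, ?_⟩
    obtain ⟨c, hc⟩ := Option.ne_none_iff_exists'.mp h
    rcases c with s | z
    · exact ⟨Sum.inl s, by simp, hc⟩
    · have := hμ.1 r _ hc
      simp [xx] at this

lemma term_zero {X : Fin m → Fin m → Bool} (S : Fin L → Finset (Fin m))
    {μ : Fin m → Option (Col m)} (hμ : μ ∈ valid (xx X)) (t : Fin m) (ht : μ t = none) :
    term S (lam t) μ = 0 := by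
  unfold term
  apply mul_eq_zero_of_right
  apply Finset.prod_eq_zero (mem_univ (Sum.inl t))
  rw [size_row]
  simp only [AA, BB]
  rw [inside_full hμ]
  have : ((univ.filter fun r => μ r ≠ none) ∩ {t}) = ∅ := by
    ext r
    simp only [mem_inter, mem_filter, mem_univ, true_and, mem_singleton, notMem_empty, iff_false,
      not_and]
    rintro h rfl
    exact h ht
  rw [this]; simp

lemma term_multi {X : Fin m → Fin m → Bool} (S : Fin L → Finset (Fin m)) (D : ℕ)
    (hS : ∀ U : Finset (Fin m), 2 ≤ U.card →
      D ≤ (univ.filter fun i => (U ∩ S i).card % 3 = 2).card)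
    {μ : Fin m → Option (Col m)} (hμ : μ ∈ valid (xx X)) (t : Fin m)
    (h2 : 2 ≤ (univ.filter fun r => μ r ≠ none).card) :
    (3 : ℤ) ^ D ∣ term S (lam t) μ := by
  unfold term
  apply Dvd.dvd.mul_left
  rw [Fintype.prod_sum_type, Fintype.prod_sum_type]
  apply Dvd.dvd.mul_left
  apply Dvd.dvd.mul_left
  set U := univ.filter fun r => μ r ≠ none
  refine (pow_dvd_pow (3 : ℤ) (hS U h2)).trans ?_
  rw [← Finset.prod_const]
  refine (Finset.prod_dvd_prod_of_dvd _ (fun i => lam t -
    (((AA S (Sum.inr (Sum.inr i))).card : ℤ) + (BB S (Sum.inr (Sum.inr i))).card) +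
    inside μ (AA S (Sum.inr (Sum.inr i))) (BB S (Sum.inr (Sum.inr i)))) ?_).trans
    (Finset.prod_dvd_prod_of_subset _ _ _ (Finset.subset_univ _))
  intro i hi
  simp only [mem_filter, mem_univ, true_and] at hi
  rw [size_code]
  simp only [AA, BB]
  rw [inside_full hμ, lam]
  change (3 : ℤ) ∣ m + 9 * (t.val : ℤ) + 1 - 4 * m + ((U ∩ S i).card : ℤ)
  omega

def single (t s : Fin m) : Fin m → Option (Col m) :=
  fun r => if r = t then some (Sum.inl s) else none

lemma single_valid {X : Fin m → Fin m → Bool} {t s : Fin m} (h : X t s = true) :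
    single t s ∈ valid (xx X) := by
  simp only [valid, mem_filter, mem_univ, true_and, single]
  constructor
  · intro r c hc
    split_ifs at hc with hr
    · cases hc; subst hr; exact h
  · intro r r' c h1 h2
    split_ifs at h1 h2 with hr hr'
    rw [hr, hr']

lemma single_inj (t : Fin m) : Function.Injective (single t) := by
  intro s s' h
  have := congrFun h t
  simpa [single] using this

lemma inside_single (t s : Fin m) (B : Finset (Col m)) :
    inside (single t s) univ B = if Sum.inl s ∈ B then 1 else 0 := by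
  unfold inside
  split_ifs with h
  · rw [Finset.card_eq_one]
    refine ⟨t, ?_⟩
    ext r
    rw [mem_filter, mem_singleton]
    constructor
    · rintro ⟨_, c, _, hc⟩
      by_contra hr
      simp [single, hr] at hc
    · rintro rfl
      exact ⟨mem_univ _, Sum.inl s, h, by simp [single]⟩
  · rw [Finset.card_eq_zero, Finset.filter_eq_empty_iff]
    rintro r _ ⟨c, hc, hc'⟩
    by_cases hr : r = t
    · simp only [single, if_pos hr, Option.some.injEq] at hc'
      exact h (hc' ▸ hc)
    · simp [single, hr] at hc'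

lemma Q_mod (X : Fin m → Fin m → Bool) (S : Fin L → Finset (Fin m)) (D : ℕ)
    (hS : ∀ U : Finset (Fin m), 2 ≤ U.card →
      D ≤ (univ.filter fun i => (U ∩ S i).card % 3 = 2).card) (t : Fin m) :
    (3 : ℤ) ^ D ∣ Q (xx X) (AA S) (BB S) (lam t) -
      ∑ s, if X t s = true then term S (lam t) (single t s) else 0 := by
  classical
  have h1 : Q (xx X) (AA S) (BB S) (lam t) = ∑ μ ∈ valid (xx X), term S (lam t) μ := rfl
  let Sing := (univ.filter fun s => X t s = true).image (single t)
  have h2 : (∑ s, if X t s = true then term S (lam t) (single t s) else 0) =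
      ∑ μ ∈ Sing, term S (lam t) μ := by
    rw [Finset.sum_image (fun a _ b _ h => single_inj t h), Finset.sum_filter]
  have h3 : Sing ⊆ valid (xx X) := by
    intro μ hμ
    obtain ⟨s, hs, rfl⟩ := Finset.mem_image.mp hμ
    exact single_valid (by simpa using hs)
  rw [h1, h2, ← Finset.sum_sdiff h3, add_sub_cancel_right]
  refine Finset.dvd_sum fun μ hμ => ?_
  obtain ⟨hv, hn⟩ := Finset.mem_sdiff.mp hμ
  by_cases ht : μ t = none
  · rw [term_zero S hv t ht]; exact dvd_zero _
  by_cases hr : ∃ r, r ≠ t ∧ μ r ≠ none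
  · obtain ⟨r, hr, hr'⟩ := hr
    refine term_multi S D hS hv t ?_
    exact Finset.one_lt_card.mpr ⟨r, by simpa using hr', t, by simpa using ht, hr⟩
  · exfalso
    apply hn
    push Not at hr
    obtain ⟨c, hc⟩ := Option.ne_none_iff_exists'.mp ht
    have hv' := hv
    simp only [valid, mem_filter, mem_univ, true_and] at hv'
    have hx := hv'.1 t c hc
    rcases c with s | z
    · refine Finset.mem_image.mpr ⟨s, by simpa [xx] using hx, ?_⟩
      funext r
      by_cases h : r = t
      · subst h; simp [single, hc]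
      · simp [single, h, hr r h]
    · simp [xx] at hx

/-- the part of a single term that does not depend on the column -/
def M1 (t : Fin m) : ℤ := ∏ j ∈ range (m - 1), (lam t - 10 * m - j)
def M2 (t : Fin m) : ℤ := ∏ j : Fin m, (lam t - lam j + if j = t then 1 else 0)
def M3 (S : Fin L → Finset (Fin m)) (t : Fin m) : ℤ :=
  ∏ i : Fin L, (lam t - 4 * m + if t ∈ S i then 1 else 0)

lemma term_single (S : Fin L → Finset (Fin m)) (t s : Fin m) :
    term S (lam t) (single t s) = M1 t * M2 t * M3 S t *
      ((3 * (3 * t.val + 1 - 3 * m)) ^ s.val * (9 * t.val + 2 - 9 * m) ^ (m - s.val)) := by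
  have hv : single t s ∈ valid (xx fun _ _ => true) := single_valid rfl
  have hU : (univ.filter fun r => single t s r ≠ none) = {t} := by
    ext r; simp [single]
  have hfree : free (single t s) = m - 1 := by
    unfold free
    have : (univ.filter fun r => single t s r = none) = univ.erase t := by
      ext r; simp [single]
    rw [this, card_erase_of_mem (mem_univ _)]; simp
  unfold term
  rw [hfree, Fintype.prod_sum_type, Fintype.prod_sum_type]
  have e1 : (∏ j ∈ range (m - 1), (lam t - Fintype.card (Col m) - j)) = M1 t := by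
    unfold M1
    refine Finset.prod_congr rfl fun j _ => ?_
    simp only [Fintype.card_sum, Fintype.card_fin]
    push_cast; ring
  have e2 : (∏ j : Fin m, (lam t - (((AA S (Sum.inl j)).card : ℤ) + (BB S (Sum.inl j)).card) +
      inside (single t s) (AA S (Sum.inl j)) (BB S (Sum.inl j)))) = M2 t := by
    unfold M2
    refine Finset.prod_congr rfl fun j _ => ?_
    rw [size_row]
    simp only [AA, BB]
    rw [inside_full hv, hU]
    by_cases h : j = t
    · simp [h]
    · simp [h]
  have e3 : (∏ i : Fin L, (lam t - (((AA S (Sum.inr (Sum.inr i))).card : ℤ) +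
      (BB S (Sum.inr (Sum.inr i))).card) +
      inside (single t s) (AA S (Sum.inr (Sum.inr i))) (BB S (Sum.inr (Sum.inr i))))) =
      M3 S t := by
    unfold M3
    refine Finset.prod_congr rfl fun i _ => ?_
    rw [size_code]
    simp only [AA, BB]
    rw [inside_full hv, hU]
    by_cases h : t ∈ S i
    · simp [h]
    · simp [h]
  have e4 : (∏ i : Fin m, (lam t - (((AA S (Sum.inr (Sum.inl i))).card : ℤ) +
      (BB S (Sum.inr (Sum.inl i))).card) +
      inside (single t s) (AA S (Sum.inr (Sum.inl i))) (BB S (Sum.inr (Sum.inl i))))) =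
      (3 * (3 * t.val + 1 - 3 * m)) ^ s.val * (9 * t.val + 2 - 9 * m) ^ (m - s.val) := by
    have : ∀ i : Fin m, (lam t - (((AA S (Sum.inr (Sum.inl i))).card : ℤ) +
      (BB S (Sum.inr (Sum.inl i))).card) +
      inside (single t s) (AA S (Sum.inr (Sum.inl i))) (BB S (Sum.inr (Sum.inl i)))) =
      if i < s then (3 * (3 * t.val + 1 - 3 * m) : ℤ) else (9 * t.val + 2 - 9 * m) := by
      intro i
      rw [size_col]
      simp only [AA, BB, lam]
      rw [inside_single]
      simp only [inl_mem_disjSum, mem_Ioi]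
      split_ifs with h
      · simp; ring
      · simp; ring
    simp_rw [this]
    rw [Finset.prod_ite, Finset.prod_const, Finset.prod_const]
    have c1 : (univ.filter fun i : Fin m => i < s).card = s.val := by
      rw [← Fin.card_Iio s]; congr 1; ext i; simp
    have c2 := Finset.card_filter_add_card_filter_not (s := (univ : Finset (Fin m)))
      (fun i => i < s)
    rw [card_univ, Fintype.card_fin, c1] at c2
    rw [c1, show (univ.filter fun i : Fin m => ¬ i < s).card = m - s.val by omega]
  rw [e1, e2, e3, e4]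
  ring

lemma M12_dvd (t : Fin m) :
    (M1 t * M2 t).natAbs ∣ 9 ^ m * ((10 * m).factorial * (m.factorial * m.factorial)) := by
  classical
  have ht := t.isLt
  have h1 : (M1 t).natAbs ∣ (10 * m).factorial := by
    have : (M1 t).natAbs = ∏ j ∈ range (m - 1), (9 * (m - t.val) - 1 + j) := by
      unfold M1
      rw [← Int.natAbsHom_apply, map_prod]
      refine Finset.prod_congr rfl fun j _ => ?_
      rw [Int.natAbsHom_apply, lam]
      omega
    rw [this]
    apply prod_dvd_fact
    · intro a _ b _ h
      exact Nat.add_left_cancel h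
    · intro i hi
      have := mem_range.mp hi
      omega
  have h2 : (M2 t).natAbs ∣ 9 ^ m * (m.factorial * m.factorial) := by
    have e : (M2 t).natAbs ∣ ∏ j : Fin m, (9 * ((if j < t then t.val - j.val else 1) *
        (if t < j then j.val - t.val else 1))) := by
      unfold M2
      rw [← Int.natAbsHom_apply, map_prod]
      refine Finset.prod_dvd_prod_of_dvd _ _ fun j _ => ?_
      rw [Int.natAbsHom_apply, lam, lam]
      rcases lt_trichotomy j t with h | h | h
      · have h' : j.val < t.val := h
        rw [if_neg h.ne, if_pos h, if_neg (not_lt.mpr h.le)]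
        apply Dvd.intro 1
        omega
      · subst h; simp
      · have h' : t.val < j.val := h
        rw [if_neg h.ne', if_neg (not_lt.mpr h.le), if_pos h]
        apply Dvd.intro 1
        omega
    refine e.trans ?_
    rw [Finset.prod_mul_distrib, Finset.prod_mul_distrib, Finset.prod_const, card_univ,
      Fintype.card_fin, ← Finset.prod_filter, ← Finset.prod_filter]
    refine Nat.mul_dvd_mul_left _ (Nat.mul_dvd_mul ?_ ?_)
    · apply prod_dvd_fact
      · intro a ha b hb h
        simp only [coe_filter, mem_univ, true_and, Set.mem_ofPred_eq] at ha hb h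
        have ha' : a.val < t.val := ha
        have hb' : b.val < t.val := hb
        apply Fin.ext; omega
      · intro i hi
        simp only [mem_filter, mem_univ, true_and] at hi
        have hi' : i.val < t.val := hi
        omega
    · apply prod_dvd_fact
      · intro a ha b hb h
        simp only [coe_filter, mem_univ, true_and, Set.mem_ofPred_eq] at ha hb h
        have ha' : t.val < a.val := ha
        have hb' : t.val < b.val := hb
        apply Fin.ext; omega
      · intro i hi
        simp only [mem_filter, mem_univ, true_and] at hi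
        have hi' : t.val < i.val := hi
        have := i.isLt
        omega
  rw [Int.natAbs_mul]
  calc (M1 t).natAbs * (M2 t).natAbs ∣ (10 * m).factorial * (9 ^ m * (m.factorial * m.factorial)) :=
        Nat.mul_dvd_mul h1 h2
    _ = _ := by ring

lemma M3_unit (S : Fin L → Finset (Fin m)) (t : Fin m) : ¬ (3 : ℤ) ∣ M3 S t := by
  unfold M3
  rw [Int.prime_three.dvd_finsetProd_iff]
  rintro ⟨i, _, h⟩
  rw [lam] at h
  split_ifs at h <;> omega

lemma decode (S : Fin L → Finset (Fin m))
    (hS : ∀ U : Finset (Fin m), 2 ≤ U.card →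
      9 * m ≤ (univ.filter fun i => (U ∩ S i).card % 3 = 2).card)
    (X Y : Fin m → Fin m → Bool)
    (h : ∀ l, Q (xx X) (AA S) (BB S) l = Q (xx Y) (AA S) (BB S) l) : X = Y := by
  classical
  by_contra hne
  obtain ⟨t, ht⟩ := Function.ne_iff.mp hne
  obtain ⟨s, hs, hmin⟩ := Finset.exists_min_image (univ.filter fun s => X t s ≠ Y t s) id
    (by obtain ⟨s, hs⟩ := Function.ne_iff.mp ht; exact ⟨s, by simpa using hs⟩)
  simp only [mem_filter, mem_univ, true_and, id] at hs hmin
  have hX := Q_mod X S (9 * m) hS t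
  have hY := Q_mod Y S (9 * m) hS t
  rw [h] at hX
  have hd := dvd_sub hY hX
  rw [sub_sub_sub_cancel_left, ← Finset.sum_sub_distrib] at hd
  have hM := M12_dvd t
  have hM0 : M1 t * M2 t ≠ 0 := by
    intro h0
    rw [h0, Int.natAbs_zero, zero_dvd_iff] at hM
    have : 0 < 9 ^ m * ((10 * m).factorial * (m.factorial * m.factorial)) := by positivity
    omega
  obtain ⟨κ, M', hM', hκ⟩ := WfDvdMonoid.max_power_factor hM0 Int.prime_three.irreducible
  have hκ8 : κ ≤ 8 * m := by
    apply val_bound
    refine Dvd.dvd.trans ?_ hM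
    rw [hκ, Int.natAbs_mul, Int.natAbs_pow]
    exact Dvd.intro _ rfl
  have hs' := s.isLt
  have hd2 := (pow_dvd_pow (3 : ℤ) (show κ + s.val + 1 ≤ 9 * m by omega)).trans hd
  rw [← Finset.add_sum_erase _ _ (mem_univ s)] at hd2
  have hrest : (3 : ℤ) ^ (κ + s.val + 1) ∣ ∑ s' ∈ univ.erase s,
      ((if X t s' = true then term S (lam t) (single t s') else 0) -
        if Y t s' = true then term S (lam t) (single t s') else 0) := by
    refine Finset.dvd_sum fun s' hs' => ?_
    by_cases he : X t s' = Y t s'
    · rw [he, sub_self]; exact dvd_zero _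
    · have h1 : s < s' := lt_of_le_of_ne (hmin s' he) (Finset.ne_of_mem_erase hs').symm
      have h2 : s.val + 1 ≤ s'.val := h1
      have h3 : (3 : ℤ) ^ (κ + s.val + 1) ∣ term S (lam t) (single t s') := by
        rw [term_single, hκ, mul_pow, add_assoc, pow_add]
        obtain ⟨e, he⟩ := Nat.exists_eq_add_of_le h2
        rw [he, pow_add (3 : ℤ) (s.val + 1) e]
        exact Dvd.intro (M' * M3 S t * 3 ^ e * (3 * (t.val : ℤ) + 1 - 3 * m) ^ (s.val + 1 + e) *
          (9 * (t.val : ℤ) + 2 - 9 * m) ^ (m - (s.val + 1 + e))) (by ring)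
      apply dvd_sub <;> split_ifs <;> first | exact h3 | exact dvd_zero _
  have hd3 := (dvd_add_left hrest).mp hd2
  have hd4 : (3 : ℤ) ^ (κ + s.val + 1) ∣ term S (lam t) (single t s) := by
    cases hx : X t s <;> cases hy : Y t s <;> simp_all
  rw [term_single, hκ, mul_pow] at hd4
  have hd5 : (3 : ℤ) ^ (κ + s.val) * 3 ∣ 3 ^ (κ + s.val) * (M' * M3 S t *
      ((3 * (t.val : ℤ) + 1 - 3 * m) ^ s.val * (9 * (t.val : ℤ) + 2 - 9 * m) ^ (m - s.val))) := by
    rw [← pow_succ]
    convert hd4 using 1
    ring
  have hd6 := (mul_dvd_mul_iff_left (by positivity)).mp hd5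
  rcases Int.prime_three.dvd_or_dvd hd6 with h7 | h7
  · rcases Int.prime_three.dvd_or_dvd h7 with h8 | h8
    · exact hM' h8
    · exact M3_unit S t h8
  · rcases Int.prime_three.dvd_or_dvd h7 with h8 | h8
    · have := Int.prime_three.dvd_of_dvd_pow h8
      omega
    · have := Int.prime_three.dvd_of_dvd_pow h8
      omega

lemma exists_family (m L : ℕ) (hL : 60 * m ≤ L) :
    ∃ F : (Fin m → Fin m → Bool) → SimpleGraph (Fin m ⊕ Col m ⊕ Gad m L),
      ∀ X Y, (∀ k : ℕ,
        Nat.card {c : (Fin m ⊕ Col m ⊕ Gad m L) → Fin k // ∀ u v, (F X).Adj u v → c u ≠ c v} =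
        Nat.card {c : (Fin m ⊕ Col m ⊕ Gad m L) → Fin k // ∀ u v, (F Y).Adj u v → c u ≠ c v}) →
        X = Y := by
  obtain ⟨S, hS⟩ := exists_code m L (9 * m) (by omega)
  exact ⟨fun X => gGraph (xx X) (AA S) (BB S), fun X Y h =>
    decode S hS X Y (Q_eq_of_col_eq _ _ _ _ h)⟩

end Pool.Agent.Lib.MP_f7f352_co
end
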