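import Pool.Agent.Lib.MP_f7f352_co.LMain

-- part Pool.Agent.Lib.MP_f7f352_co.LFin
section

/-! The numerical part and the union bound. -/

set_option autoImplicit false

namespace Pool.Agent.Lib.MP_f7f352_co.L

open Finset PowerSeries U SimpleGraph
open scoped symmDiff

variable {V : Type} [Fintype V] [DecidableEq V]

lemma fixed_bound {U : Finset V} {K : SimpleGraph V} (hK : ∀ u v, K.Adj u v → u ∈ U ∧ v ∈ U)
    (h0 : K ≠ ⊥) {p d N : ℕ} [hp : Fact p.Prime] (hN : N * (d + 1) + U.card ≤ Fintype.card V)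
    (hβ : (1 - 4 / (p : ℝ) ^ 2 / 2 ^ ((U.card + (d + 1)) ^ 2 + 2 * d)) ^ N ≤
      (1 / (p : ℝ) ^ d) ^ 2 ^ d) (s : Finset (SimpleGraph V))
    (hs : ∀ G ∈ s, ∀ k, ncol G k = ncol (G ∆ K) k) :
    (s.card : ℝ) ≤ 2 / (p : ℝ) ^ d * Nat.card (SimpleGraph V) := by
  classical
  obtain ⟨u₀, w₀, h0⟩ : ∃ u w, K.Adj u w := by
    by_contra h
    exact h0 (SimpleGraph.ext (funext fun u => funext fun w => by
      simpa using fun h' => h ⟨u, w, h'⟩))
  have hp2 : (2 : ℝ) ≤ p := by exact_mod_cast hp.out.two_le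
  rw [Nat.card_eq_fintype_card]
  refine (card_zero_le (fun (G : SimpleGraph V) (i : Fin d) => coeff (i.val + 3)
    (rho (ZMod p) G U U univ - rho (ZMod p) (G ∆ K) U U univ)) (β := 1 / (p : ℝ) ^ d)
    (by positivity) (fun a ha => ?_) s fun G hG => funext fun i => ?_).trans_eq (by ring)
  · have hT : (univ.filter fun i => a i ≠ 0).Nonempty := by
      obtain ⟨i, hi⟩ := Function.ne_iff.1 ha
      exact ⟨i, mem_filter.2 ⟨mem_univ _, hi⟩⟩
    obtain ⟨top, h1, h2⟩ := exists_max_image _ (fun i : Fin d => i.val) hT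
    have h3 := top.2
    obtain ⟨e⟩ : Nonempty (Fin N × Fin (top.val + 2) ↪ (Uᶜ : Finset V)) := by
      refine Function.Embedding.nonempty_of_card_le ?_
      have := Nat.mul_le_mul_left N (by omega : top.val + 2 ≤ d + 1)
      simp only [Fintype.card_prod, Fintype.card_fin, Fintype.card_coe, card_compl]
      omega
    have h4 := char_bound (b := fun c i => (e (c, i)).1) (a := a)
      (fun c i c' i' h => Prod.mk.inj (e.injective (Subtype.ext h)))
      (fun c i => mem_compl.1 (e (c, i)).2) hK h0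
      (fun i hi => by_contra fun h => by
        have := h2 i (mem_filter.2 ⟨mem_univ _, h⟩)
        omega) rfl (mem_filter.1 h1).2
    rw [Fintype.card_fin] at h4
    refine le_of_pow_le_pow_left₀ (n := 2 ^ d) (by positivity) (by positivity) ?_
    refine (pow_le_pow_of_le_one (norm_nonneg _) (norm_av_le fun _ => by simp)
      (Nat.pow_le_pow_right two_pos (by omega : top.val + 1 ≤ d))).trans
      (h4.trans (le_trans (pow_le_pow_left₀ ?_ ?_ N) hβ))
    · rw [sub_nonneg, div_div, div_le_one (by positivity)]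
      nlinarith [one_le_pow₀ (n := (U.card + (top.val + 2)) ^ 2 + 2 * (top.val + 1))
        (one_le_two (α := ℝ))]
    · refine sub_le_sub_left (div_le_div_of_nonneg_left (by positivity) (by positivity)
        (pow_le_pow_right₀ one_le_two ?_)) _
      exact Nat.add_le_add (Nat.pow_le_pow_left (by omega) 2) (by omega)
  · have e1 : Z (ZMod p) G univ = Z (ZMod p) (G ∆ K) univ := W_top_congr (hs G hG) _
    rw [rho, rho, sdiff_union_of_subset (subset_univ U), e1,
      Zi_congr (G := G) (H := G ∆ K) fun u hu v _ =>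
        agree hK G u v fun h => (mem_sdiff.1 hu).2 h.1, sub_self, map_zero]
    rfl

lemma num_bound {p l d E : ℕ} (h0 : 2 ≤ p) (hp : p ≤ 2 ^ (l + 1)) :
    (1 - 4 / (p : ℝ) ^ 2 / 2 ^ (E + 2 * d)) ^ 2 ^ (4 * d + 3 * l + E) ≤
      (1 / (p : ℝ) ^ d) ^ 2 ^ d := by
  have hp2 : (2 : ℝ) ≤ p := by exact_mod_cast h0
  have hp' : (p : ℝ) ≤ 2 ^ (l + 1) := by exact_mod_cast hp
  set η : ℝ := 4 / (p : ℝ) ^ 2 / 2 ^ (E + 2 * d) with hη
  have h1 : η ≤ 1 := by
    rw [hη, div_div, div_le_one (by positivity)]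
    nlinarith [one_le_pow₀ (n := E + 2 * d) (one_le_two (α := ℝ))]
  have h2 : (2 : ℝ) ^ (2 * d + l) ≤ (2 ^ (4 * d + 3 * l + E) : ℕ) * η := by
    have h3 : (p : ℝ) ^ 2 ≤ (2 ^ (l + 1)) ^ 2 := pow_le_pow_left₀ (by positivity) hp' 2
    rw [hη, div_div, mul_div_assoc', le_div_iff₀ (by positivity)]
    push_cast
    calc (2 : ℝ) ^ (2 * d + l) * ((p : ℝ) ^ 2 * 2 ^ (E + 2 * d))
        ≤ 2 ^ (2 * d + l) * ((2 ^ (l + 1)) ^ 2 * 2 ^ (E + 2 * d)) := by gcongr
      _ = _ := by ring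
  have h3 : (p : ℝ) ^ (d * 2 ^ d) ≤ Real.exp (2 ^ (2 * d + l)) := by
    have h4 : (2 : ℝ) ≤ Real.exp 1 := by linarith [Real.add_one_le_exp 1]
    have h5 : (l + 1) * (d * 2 ^ d) ≤ 2 ^ (2 * d + l) := by
      rw [show 2 ^ (2 * d + l) = 2 ^ l * (2 ^ d * 2 ^ d) by ring]
      exact Nat.mul_le_mul Nat.lt_two_pow_self (Nat.mul_le_mul_right _ Nat.lt_two_pow_self.le)
    calc (p : ℝ) ^ (d * 2 ^ d) ≤ (Real.exp 1 ^ (l + 1)) ^ (d * 2 ^ d) := by
          gcongr
          exact hp'.trans (by gcongr)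
      _ = Real.exp (((l + 1) * (d * 2 ^ d) : ℕ) : ℝ) := by
          rw [← pow_mul, Real.exp_one_pow]
      _ ≤ _ := Real.exp_le_exp.2 (by exact_mod_cast h5)
  calc (1 - η) ^ 2 ^ (4 * d + 3 * l + E) ≤ Real.exp (-η) ^ 2 ^ (4 * d + 3 * l + E) :=
        pow_le_pow_left₀ (by linarith) (by linarith [Real.add_one_le_exp (-η)]) _
    _ ≤ Real.exp (-2 ^ (2 * d + l)) := by
        rw [← Real.exp_nat_mul]
        exact Real.exp_le_exp.2 (by linarith)
    _ ≤ _ := by
        rw [Real.exp_neg, one_div, inv_pow, ← pow_mul]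
        exact inv_anti₀ (by positivity) h3

theorem local_bound (n : ℕ) (r l : ℕ) (hr : 400 * r ^ 2 ≤ Nat.log 2 n) (hl : l = Nat.log 2 n / 8)
    (s : Finset (SimpleGraph (Fin n))) (hs : ∀ G ∈ s, ∃ H : SimpleGraph (Fin n), H ≠ G ∧
      (∃ U : Finset (Fin n), U.card ≤ r ∧ ∀ u v, ¬ (u ∈ U ∧ v ∈ U) → (G.Adj u v ↔ H.Adj u v)) ∧
      ∀ k, ncol G k = ncol H k) :
    s.card * 2 ^ (r * l) ≤ 2 * Nat.card (SimpleGraph (Fin n)) := by
  classical
  rcases Nat.eq_zero_or_pos r with rfl | hr0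
  · have := card_le_univ s
    rw [Nat.card_eq_fintype_card]
    simp only [zero_mul, pow_zero, mul_one]
    omega
  have hrr : r ≤ r ^ 2 := Nat.le_self_pow two_ne_zero r
  have hn : 2 ^ Nat.log 2 n ≤ n := Nat.pow_log_le_self 2 (by rintro rfl; simp at hr; omega)
  have hn' : n ≤ 2 ^ (Nat.log 2 n + 1) := (Nat.lt_pow_succ_log_self one_lt_two n).le
  obtain ⟨p, hp, hp1, hp2⟩ := Nat.exists_prime_lt_and_le_two_mul (2 ^ l) (by positivity)
  have : Fact p.Prime := ⟨hp⟩
  have hN : 2 ^ (4 * (11 * r) + 3 * l + (r + (11 * r + 1)) ^ 2) * (11 * r + 1) + r ≤ n := by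
    have h1 : 1 ≤ 2 ^ (4 * (11 * r) + 3 * l + (r + (11 * r + 1)) ^ 2) := Nat.one_le_two_pow
    have h2 : 11 * r + 1 + r ≤ 2 ^ (11 * r + 1 + r) := Nat.lt_two_pow_self.le
    calc _ ≤ 2 ^ (4 * (11 * r) + 3 * l + (r + (11 * r + 1)) ^ 2) * (11 * r + 1 + r) := by nlinarith
      _ ≤ 2 ^ (4 * (11 * r) + 3 * l + (r + (11 * r + 1)) ^ 2) * 2 ^ (11 * r + 1 + r) := by gcongr
      _ ≤ 2 ^ Nat.log 2 n := by
        rw [← pow_add]
        refine Nat.pow_le_pow_right two_pos ?_
        rw [show (r + (11 * r + 1)) ^ 2 = 144 * r ^ 2 + 24 * r + 1 by ring]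
        omega
      _ ≤ n := hn
  set S : Finset (Fin n) → Finset (SimpleGraph (Fin n)) :=
    fun U => univ.filter fun K => K ≠ ⊥ ∧ ∀ u v, K.Adj u v → u ∈ U ∧ v ∈ U with hS
  set B : SimpleGraph (Fin n) → Finset (SimpleGraph (Fin n)) :=
    fun K => univ.filter fun G => ∀ k, ncol G k = ncol (G ∆ K) k with hB
  have h1 : s ⊆ (powersetCard r univ).biUnion fun U => (S U).biUnion B := fun G hG => by
    obtain ⟨H, hH, ⟨U, hU, hU'⟩, hc⟩ := hs G hG
    obtain ⟨U', h2, -, h3⟩ := exists_subsuperset_card_eq (subset_univ U) hU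
      (by rw [card_univ, Fintype.card_fin]; omega)
    refine mem_biUnion.2 ⟨U', mem_powersetCard.2 ⟨subset_univ _, h3⟩, mem_biUnion.2 ⟨G ∆ H, ?_, ?_⟩⟩
    · refine mem_filter.2 ⟨mem_univ _, fun h => hH (symmDiff_eq_bot.1 h).symm, fun u v h => ?_⟩
      have : u ∈ U ∧ v ∈ U := by_contra fun h' => (sd_adj G H u v).1 h (hU' u v h')
      exact ⟨h2 this.1, h2 this.2⟩
    · exact mem_filter.2 ⟨mem_univ _, by rwa [symmDiff_symmDiff_cancel_left]⟩
  have h2 : (s.card : ℝ) ≤ (n ^ r : ℕ) * ((2 ^ (r ^ 2) : ℕ) *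
      (2 / (p : ℝ) ^ (11 * r) * Nat.card (SimpleGraph (Fin n)))) := by
    refine (Nat.cast_le.2 ((card_le_card h1).trans card_biUnion_le)).trans ?_
    rw [Nat.cast_sum]
    refine (sum_le_card_nsmul _ _ _ fun U hU => ?_).trans (by
      rw [nsmul_eq_mul]
      refine mul_le_mul_of_nonneg_right (Nat.cast_le.2 ?_) (by positivity)
      rw [card_powersetCard, card_univ, Fintype.card_fin]
      exact Nat.choose_le_pow n r)
    have hU' := (mem_powersetCard.1 hU).2
    refine (Nat.cast_le.2 card_biUnion_le).trans ?_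
    rw [Nat.cast_sum]
    refine (sum_le_card_nsmul _ _ _ fun K hK => fixed_bound (mem_filter.1 hK).2.2
      (mem_filter.1 hK).2.1 (d := 11 * r) (by rw [hU', Fintype.card_fin]; exact hN)
      (by rw [hU']; exact num_bound hp.two_le (by rw [pow_succ']; exact hp2)) _
      fun G hG => (mem_filter.1 hG).2).trans ?_
    rw [nsmul_eq_mul]
    refine mul_le_mul_of_nonneg_right (Nat.cast_le.2 ?_) (by positivity)
    have := card_supp U
    rw [hU', Nat.card_eq_fintype_card, Fintype.card_subtype] at this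
    exact (card_le_card fun K hK => mem_filter.2 ⟨mem_univ _, (mem_filter.1 hK).2.2⟩).trans this
  have h3 : n ^ r * 2 ^ (r ^ 2) * 2 ^ (r * l) ≤ p ^ (11 * r) :=
    calc _ ≤ (2 ^ (Nat.log 2 n + 1)) ^ r * 2 ^ (r ^ 2) * 2 ^ (r * l) := by gcongr
      _ = (2 ^ (Nat.log 2 n + 1 + r + l)) ^ r := by ring
      _ ≤ (2 ^ (l * 11)) ^ r := Nat.pow_le_pow_left (Nat.pow_le_pow_right two_pos (by omega)) r
      _ = (2 ^ l) ^ (11 * r) := by rw [← pow_mul, ← pow_mul, mul_assoc]
      _ ≤ _ := Nat.pow_le_pow_left hp1.le _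
  have h4 : (0 : ℝ) < (p : ℝ) ^ (11 * r) := pow_pos (Nat.cast_pos.2 hp.pos) _
  have h5 : ((n ^ r * 2 ^ (r ^ 2) * 2 ^ (r * l) : ℕ) : ℝ) / (p : ℝ) ^ (11 * r) ≤ 1 :=
    (div_le_one h4).2 (by exact_mod_cast h3)
  have h6 : ((s.card * 2 ^ (r * l) : ℕ) : ℝ) ≤ (2 * Nat.card (SimpleGraph (Fin n)) : ℕ) :=
    calc ((s.card * 2 ^ (r * l) : ℕ) : ℝ) = s.card * (2 ^ (r * l) : ℕ) := Nat.cast_mul _ _
      _ ≤ _ := mul_le_mul_of_nonneg_right h2 (by positivity)
      _ = ((n ^ r * 2 ^ (r ^ 2) * 2 ^ (r * l) : ℕ) : ℝ) / (p : ℝ) ^ (11 * r) *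
          (2 * Nat.card (SimpleGraph (Fin n)) : ℕ) := by push_cast; ring
      _ ≤ _ := mul_le_of_le_one_left (by positivity) h5
  exact_mod_cast h6

end Pool.Agent.Lib.MP_f7f352_co.L
end

-- part Pool.Agent.Lib.MP_f7f352_co.LAnti
section

/-! Path templates in which only the pairs at distance two are prescribed. -/

set_option autoImplicit false

namespace Pool.Agent.Lib.MP_f7f352_co.L.Anti

open Finset PowerSeries U SimpleGraph
open scoped symmDiff

variable {V : Type} [Fintype V] [DecidableEq V] {R : Type} [CommRing R]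

lemma alt_zero {n : ℕ} (f : (Fin n → Bool) → R) (i : Fin n)
    (h : ∀ ε, f (Function.update ε i (!ε i)) = f ε) : ∑ ε, sgn R ε * f ε = 0 := by
  refine sum_involution (fun ε _ => Function.update ε i (!ε i)) (fun ε _ => ?_)
    (fun ε _ _ h' => by simpa using congrFun h' i) (fun _ _ => mem_univ _) fun ε _ => by simp
  have e1 : sgn R (Function.update ε i (!ε i)) = -sgn R ε := by
    rw [sgn, sgn, ← mul_prod_erase _ _ (mem_univ i), ← mul_prod_erase _ _ (mem_univ i),
      prod_congr rfl fun j hj => by rw [Function.update_of_ne (ne_of_mem_erase hj)]]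
    cases hε : ε i <;> simp
  rw [e1, h, neg_mul, add_neg_cancel]

/-- the set of links that are not edges -/
def off {n : ℕ} (ε : Fin n → Bool) : Finset (Fin n) := univ.filter fun i => ε i = false

lemma alt_deg {n : ℕ} {k : ℤ} (hk : k < n) {g : Finset (Fin n) → R} (hg : g ∈ Deg R (Fin n) k) :
    ∑ ε, sgn R ε * g (off ε) = 0 := by
  induction hg using Submodule.span_induction with
  | mem f hf =>
    obtain ⟨T, hT, rfl⟩ := hf
    obtain ⟨i, hi⟩ : ∃ i, i ∉ T := by
      by_contra h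
      push Not at h
      rw [eq_univ_of_forall h, card_univ, Fintype.card_fin] at hT
      omega
    refine alt_zero (fun ε => if T ⊆ off ε then 1 else 0) i fun ε => if_congr ?_ rfl rfl
    refine forall_congr' fun j => imp_congr_right fun hj => ?_
    have : j ≠ i := fun h => hi (h ▸ hj)
    simp [off, Function.update_of_ne this]
  | zero => simp
  | add f g _ _ hf hg => simp [mul_add, sum_add_distrib, hf, hg]
  | smul a f _ hf =>
    simp only [Pi.smul_apply, smul_eq_mul, mul_left_comm _ a, ← mul_sum, hf, mul_zero]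

section fam

variable {W : Type} [Fintype W] [DecidableEq W] {T₀ : Finset V} {lk : Finset V → Finset W}

lemma Z_fam {Γ : Finset W → SimpleGraph V}
    (h : ∀ N, ∀ I ⊆ T₀, (I ∈ ind (Γ N) ↔ I ∈ ind (Γ univ) ∧ lk I ⊆ N)) {T : Finset V}
    (hT : T ⊆ T₀) {v : V} (hv : v ∈ T) (N : Finset W) :
    Z R (Γ N) T = ∑ I ∈ (ind (Γ univ)).filter (fun I => v ∈ I ∧ I ⊆ T),
      (if lk I ⊆ N then X ^ (I.card - 1) else 0) * Z R (Γ N) (T \ I) := by
  rw [Z_vertex _ hv]
  simp only [ite_mul, zero_mul]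
  rw [← sum_filter]
  refine sum_congr ?_ fun _ _ => rfl
  ext I
  simp only [mem_filter]
  constructor
  · rintro ⟨h1, h2, h3⟩
    exact ⟨⟨((h N I (h3.trans hT)).1 h1).1, h2, h3⟩, ((h N I (h3.trans hT)).1 h1).2⟩
  · rintro ⟨⟨h1, h2, h3⟩, h4⟩
    exact ⟨(h N I (h3.trans hT)).2 ⟨h1, h4⟩, h2, h3⟩

lemma loc_fam {Γ : Finset W → SimpleGraph V}
    (h : ∀ N, ∀ I ⊆ T₀, (I ∈ ind (Γ N) ↔ I ∈ ind (Γ univ) ∧ lk I ⊆ N))
    (h2 : ∀ I ⊆ T₀, I ∈ ind (Γ univ) → (lk I).card + 1 ≤ I.card) (T : Finset V) :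
    T ⊆ T₀ → Loc 0 fun N => Z R (Γ N) T := by
  induction T using Finset.strongInduction with
  | H T ih =>
    intro hT
    rcases T.eq_empty_or_nonempty with rfl | ⟨v, hv⟩
    · exact loc_one.congr fun N => (Z_empty _).symm
    refine (loc_sum _ fun I hI => ?_).congr fun N => (Z_fam h hT hv N).symm
    obtain ⟨a1, a2, a3⟩ := mem_filter.1 hI
    have := h2 I (a3.trans hT) a1
    exact ((loc_mon (d := 0) (lk I) (I.card - 1) (by omega)).mul
      (ih _ (sdiff_ss hv a2) (sdiff_subset.trans hT))).mono (by simp)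

lemma loc_fam_diff {Γ Γ' : Finset W → SimpleGraph V}
    (h : ∀ N, ∀ I ⊆ T₀, (I ∈ ind (Γ N) ↔ I ∈ ind (Γ univ) ∧ lk I ⊆ N))
    (h' : ∀ N, ∀ I ⊆ T₀, (I ∈ ind (Γ' N) ↔ I ∈ ind (Γ' univ) ∧ lk I ⊆ N))
    (h2 : ∀ I ⊆ T₀, I ∈ ind (Γ univ) → (lk I).card + 1 ≤ I.card)
    (h3 : ind (Γ' univ) ⊆ ind (Γ univ))
    (h4 : ∀ I ⊆ T₀, I ∈ ind (Γ univ) → I ∉ ind (Γ' univ) → (lk I).card + 2 ≤ I.card)
    (T : Finset V) : T ⊆ T₀ → Loc 1 fun N => Z R (Γ N) T - Z R (Γ' N) T := by
  induction T using Finset.strongInduction with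
  | H T ih =>
    intro hT
    rcases T.eq_empty_or_nonempty with rfl | ⟨v, hv⟩
    · exact (loc_zero 1).congr fun N => by rw [Z_empty, Z_empty, sub_self]
    refine (loc_sum ((ind (Γ univ)).filter (fun I => v ∈ I ∧ I ⊆ T))
      (F := fun I N => (if lk I ⊆ N then X ^ (I.card - 1) else 0) * (Z R (Γ N) (T \ I) -
        if I ∈ ind (Γ' univ) then Z R (Γ' N) (T \ I) else 0)) fun I hI => ?_).congr fun N => ?_
    · obtain ⟨a1, a2, a3⟩ := mem_filter.1 hI
      by_cases hI' : I ∈ ind (Γ' univ)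
      · have := h2 I (a3.trans hT) a1
        simp only [if_pos hI']
        exact ((loc_mon (d := 0) (lk I) (I.card - 1) (by omega)).mul
          (ih _ (sdiff_ss hv a2) (sdiff_subset.trans hT))).mono (by simp)
      · have := h4 I (a3.trans hT) a1 hI'
        simp only [if_neg hI', sub_zero]
        exact ((loc_mon (d := 1) (lk I) (I.card - 1) (by omega)).mul
          (loc_fam h h2 _ (sdiff_subset.trans hT))).mono (by simp)
    · rw [Z_fam h hT hv N, Z_fam h' hT hv N]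
      simp only [mul_sub, sum_sub_distrib, mul_ite, mul_zero]
      congr 1
      rw [← sum_filter]
      refine sum_congr ?_ fun _ _ => rfl
      ext I
      simp only [mem_filter]
      exact ⟨fun h => ⟨h.2, h.1.2⟩, fun h => ⟨⟨h3 h.1, h.2⟩, h.1⟩⟩

omit [Fintype W] in
lemma loc_ratio {A A' B B' Bi Bi' : Finset W → R⟦X⟧} (a : Loc 0 A') (b : Loc 0 B) (b' : Loc 0 B')
    (da : Loc 1 fun N => A N - A' N) (db : Loc 1 fun N => B N - B' N)
    (z : ∀ N, coeff 0 (B N) = 1) (z' : ∀ N, coeff 0 (B' N) = 1) (i : ∀ N, B N * Bi N = 1)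
    (i' : ∀ N, B' N * Bi' N = 1) : Loc 1 fun N => A N * Bi N - A' N * Bi' N := by
  have c := b.inv z i
  have c' := b'.inv z' i'
  refine ((da.mul c).sub (((a.mul (c.mul c')).mul db).mono (by simp))).congr fun N => ?_
  linear_combination (-A' N * Bi' N) * i N + (A' N * Bi N) * i' N

end fam

section path

variable {κ : Type} {m : ℕ} {p : κ → Fin (m + 2) → V} {c : κ}

omit [Fintype V] [DecidableEq V] in
lemma lnk_adj (hp : Function.Injective (p c)) (ε : Fin (m + 1) → Bool) (i j : Fin (m + 2)) :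
    (lnk p c ε).Adj (p c i) (p c j) ↔ ∃ l, ε l = true ∧
      (i = l.castSucc ∧ j = l.succ ∨ j = l.castSucc ∧ i = l.succ) := by
  simp only [lnk, fromRel_adj, hp.eq_iff, ne_eq]
  constructor
  · rintro ⟨-, ⟨l, h1, h2⟩ | ⟨l, h1, h2⟩⟩
    · exact ⟨l, h1, Or.inl h2⟩
    · exact ⟨l, h1, Or.inr h2⟩
  · rintro ⟨l, h1, ⟨rfl, rfl⟩ | ⟨rfl, rfl⟩⟩
    · exact ⟨Fin.castSucc_lt_succ.ne, Or.inl ⟨l, h1, rfl, rfl⟩⟩
    · exact ⟨Fin.castSucc_lt_succ.ne', Or.inr ⟨l, h1, rfl, rfl⟩⟩

variable (p c) in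
/-- the links inside a vertex set -/
def lks (I : Finset V) : Finset (Fin (m + 1)) :=
  univ.filter fun l => p c l.castSucc ∈ I ∧ p c l.succ ∈ I

variable (p c) in
/-- the base graph with the links outside `N` added -/
def fam (B : SimpleGraph V) (N : Finset (Fin (m + 1))) : SimpleGraph V :=
  B ⊔ lnk p c fun l => decide (l ∉ N)

omit [Fintype V] [DecidableEq V] in
lemma fam_univ (B : SimpleGraph V) : fam p c B univ = B := by
  ext u w
  simp [fam, lnk]

lemma fam_ind (B : SimpleGraph V) (hp : Function.Injective (p c)) (N : Finset (Fin (m + 1)))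
    (I : Finset V) : I ∈ ind (fam p c B N) ↔ I ∈ ind (fam p c B univ) ∧ lks p c I ⊆ N := by
  rw [fam_univ]
  simp only [mem_ind, fam, sup_adj, not_or]
  constructor
  · rintro ⟨h1, h2⟩
    refine ⟨⟨h1, fun u hu w hw => (h2 u hu w hw).1⟩, fun l hl => by_contra fun hN => ?_⟩
    obtain ⟨-, a, b⟩ := mem_filter.1 hl
    exact (h2 _ a _ b).2 ((lnk_adj hp _ _ _).2 ⟨l, by simpa using hN, Or.inl ⟨rfl, rfl⟩⟩)
  · rintro ⟨⟨h1, h2⟩, h3⟩
    refine ⟨h1, fun u hu w hw => ⟨h2 u hu w hw, ?_⟩⟩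
    rintro ⟨-, ⟨l, a, rfl, rfl⟩ | ⟨l, a, rfl, rfl⟩⟩
    · exact (by simpa using a : l ∉ N) (h3 (mem_filter.2 ⟨mem_univ _, hu, hw⟩))
    · exact (by simpa using a : l ∉ N) (h3 (mem_filter.2 ⟨mem_univ _, hw, hu⟩))

lemma two_lks {B : SimpleGraph V} (hp : Function.Injective (p c))
    (hB : ∀ i j : Fin (m + 2), i.val + 2 = j.val → B.Adj (p c i) (p c j)) {I : Finset V}
    (hI : I ∈ ind B) : 2 * (lks p c I).card ≤ I.card := by
  have hd : Disjoint ((lks p c I).image fun l => p c l.castSucc)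
      ((lks p c I).image fun l => p c l.succ) := by
    rw [Finset.disjoint_left]
    intro x h1 h2
    obtain ⟨l, hl, rfl⟩ := mem_image.1 h1
    obtain ⟨l', hl', e⟩ := mem_image.1 h2
    have e' := congrArg Fin.val (hp e)
    simp only [Fin.val_succ, Fin.val_castSucc] at e'
    exact (mem_ind.1 hI).2 _ (mem_filter.1 hl').2.1 _ (mem_filter.1 hl).2.2
      (hB _ _ (by simp; omega))
  have h1 := card_union_of_disjoint hd
  rw [card_image_of_injective (f := fun l : Fin (m + 1) => p c l.castSucc) _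
      (hp.comp (Fin.castSucc_injective _)),
    card_image_of_injective (f := fun l : Fin (m + 1) => p c l.succ) _
      (hp.comp (Fin.succ_injective _))] at h1
  rw [two_mul, ← h1]
  refine card_le_card (union_subset ?_ ?_) <;> intro x hx <;>
    obtain ⟨l, hl, rfl⟩ := mem_image.1 hx
  · exact (mem_filter.1 hl).2.1
  · exact (mem_filter.1 hl).2.2

variable (p c) in
/-- all pairs at distance at least two along the path -/
def far : SimpleGraph V :=
  fromRel fun x y => ∃ i j : Fin (m + 2), i.val + 2 ≤ j.val ∧ x = p c i ∧ y = p c j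

/-- the alternating sum of the ratio over the links does not depend on the distant pairs -/
lemma alt_ratio {B : SimpleGraph V} (hp : Function.Injective (p c))
    (hB : ∀ i j : Fin (m + 2), i.val + 2 = j.val → B.Adj (p c i) (p c j))
    (hL : ∀ l : Fin (m + 1), ¬ B.Adj (p c l.castSucc) (p c l.succ)) {k : ℕ} (hk : k ≤ m + 1) :
    ∑ ε, sgn R ε * coeff k (Z R (B ⊔ lnk p c ε) (univ.image (p c)) *
      Zi R (B ⊔ lnk p c ε) (univ.image fun i : Fin (m + 1) => p c i.succ)) =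
    coeff k (invOfUnit (rr R (m + 2)) 1 - invOfUnit (rr R (m + 1)) 1) := by
  have hfar : ∀ I ∈ ind B, I ∉ ind (B ⊔ far p c) → (lks p c I).card + 2 ≤ I.card := by
    intro I hI hI'
    have h2 := two_lks hp hB hI
    obtain ⟨i, j, hij, hi, hj⟩ : ∃ i j : Fin (m + 2), i.val + 2 ≤ j.val ∧ p c i ∈ I ∧ p c j ∈ I := by
      by_contra hc
      refine hI' (mem_ind.2 ⟨(mem_ind.1 hI).1, fun u hu w hw h => ?_⟩)
      rcases h with h | ⟨-, ⟨i, j, h, rfl, rfl⟩ | ⟨i, j, h, rfl, rfl⟩⟩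
      · exact (mem_ind.1 hI).2 u hu w hw h
      · exact hc ⟨i, j, h, hu, hw⟩
      · exact hc ⟨i, j, h, hw, hu⟩
    have h3 : 1 < I.card := one_lt_card.2 ⟨_, hi, _, hj, fun h => by
      have := congrArg Fin.val (hp h); omega⟩
    by_cases h1 : (lks p c I).card = 1
    · obtain ⟨l, hl⟩ := card_pos.1 (h1.ge)
      obtain ⟨-, a, b⟩ := mem_filter.1 hl
      have h4 : 2 < I.card := by
        rw [two_lt_card_iff]
        by_cases h5 : i.val < l.val
        · exact ⟨_, _, _, hi, a, b, fun h => by have := congrArg Fin.val (hp h); simp at this; omega,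
            fun h => by have := congrArg Fin.val (hp h); simp at this; omega,
            fun h => by have := congrArg Fin.val (hp h); simp at this⟩
        · exact ⟨_, _, _, hj, a, b, fun h => by have := congrArg Fin.val (hp h); simp at this; omega,
            fun h => by have := congrArg Fin.val (hp h); simp at this; omega,
            fun h => by have := congrArg Fin.val (hp h); simp at this⟩
      omega
    · omega
  have hone : ∀ {B' : SimpleGraph V}, B ≤ B' → ∀ I ⊆ (univ : Finset V),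
      I ∈ ind (fam p c B' univ) → (lks p c I).card + 1 ≤ I.card := by
    intro B' h I _ hI
    rw [fam_univ] at hI
    have h2 := two_lks hp (fun i j hij => h (hB i j hij)) hI
    have h3 := card_pos.2 (mem_ind.1 hI).1
    omega
  have f1 := fun N I (_ : I ⊆ univ) => fam_ind B hp N I
  have f2 := fun N I (_ : I ⊆ univ) => fam_ind (B ⊔ far p c) hp N I
  have dd := fun T => loc_fam_diff (R := R) f1 f2 (hone le_rfl)
    (by
      rw [fam_univ, fam_univ]
      exact fun I hI => mem_ind.2 ⟨(mem_ind.1 hI).1, fun u hu w hw h =>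
        (mem_ind.1 hI).2 u hu w hw (Or.inl h)⟩)
    (by rw [fam_univ, fam_univ]; exact fun I _ => hfar I) T (subset_univ T)
  have key := loc_ratio (loc_fam f2 (hone le_sup_left) (univ.image (p c)) (subset_univ _))
    (loc_fam f1 (hone le_rfl) (univ.image fun i : Fin (m + 1) => p c i.succ) (subset_univ _))
    (loc_fam f2 (hone le_sup_left) _ (subset_univ _)) (dd _) (dd _) (fun N => Z_zero _ _)
    (fun N => Z_zero _ _) (fun N => Z_mul_Zi _ _) (fun N => Z_mul_Zi _ _)
  have h0 := alt_deg (n := m + 1) (by push_cast; omega) (key k)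
  have e : ∀ (B' : SimpleGraph V) (ε : Fin (m + 1) → Bool),
      fam p c B' (off ε) = B' ⊔ lnk p c ε := fun B' ε => by
    rw [fam]
    congr 2
    funext l
    simp [off]
  simp only [e, map_sub, mul_sub, sum_sub_distrib] at h0
  rw [sub_eq_zero.1 h0, map_sub, ← alt_cf m fun r => coeff k (invOfUnit r 1)]
  refine sum_congr rfl fun ε _ => ?_
  have h1 := Z_path (R := R) ((B ⊔ far p c) ⊔ lnk p c ε) (m + 1) (p c) ε hp
    (fun i j hij => Or.inl (Or.inr ⟨fun h => by have := congrArg Fin.val (hp h); omega,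
      Or.inl ⟨i, j, hij, rfl, rfl⟩⟩)) (fun l => by
      rw [sup_adj, sup_adj, lnk_adj hp]
      constructor
      · rintro ((h | ⟨-, ⟨i, j, h, a, b⟩ | ⟨i, j, h, a, b⟩⟩) | ⟨l', h, ⟨a, b⟩ | ⟨a, b⟩⟩)
        · exact absurd h (hL l)
        · have := congrArg Fin.val (hp a)
          have := congrArg Fin.val (hp b)
          simp at *
          omega
        · have := congrArg Fin.val (hp a)
          have := congrArg Fin.val (hp b)
          simp at *
          omega
        · rwa [Fin.succ_injective _ b]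
        · have := congrArg Fin.val a
          have := congrArg Fin.val b
          simp at *
          omega
      · exact fun h => Or.inr ⟨l, h, Or.inl ⟨rfl, rfl⟩⟩)
  have h2 := Z_mul_Zi (R := R) ((B ⊔ far p c) ⊔ lnk p c ε)
    (univ.image fun i : Fin (m + 1) => p c i.succ)
  have h3 : constantCoeff (cf R (m + 1) ε) = 1 := by
    have := congrArg (coeff 0) h1
    rw [coeff_zero_mul, Z_zero, Z_zero, mul_one] at this
    simpa using this.symm
  have h4 := mul_invOfUnit (cf R (m + 1) ε) 1 (by simpa using h3)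
  congr 2
  rw [h1] at h2
  linear_combination (invOfUnit (cf R (m + 1) ε) 1) * h2 -
    (Z R ((B ⊔ far p c) ⊔ lnk p c ε) (univ.image (p c)) * Zi R ((B ⊔ far p c) ⊔ lnk p c ε)
      (univ.image fun i : Fin (m + 1) => p c i.succ)) * h4

lemma inv_rr (k : ℕ) : invOfUnit (rr R (k + 1)) 1 = 1 + X * rr R k := by
  have h1 := mul_sig (rr R k)
  have h2 := mul_invOfUnit (rr R (k + 1)) 1 (by simpa [rr] using sig_zero (rr R k))
  rw [rr] at h2 ⊢
  linear_combination (1 + X * rr R k) * h2 - invOfUnit (sig (rr R k)) 1 * h1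

end path

section main

variable (v : V) {d : ℕ} (a : Fin d → R)

/-- the tested combination of the coefficients of the ratio at the root -/
noncomputable def Ev (G : SimpleGraph V) (S : Finset V) : R :=
  ∑ i, a i * coeff (i.val + 1) (rho R G {v} {v} S)

/-- the part that does not see the root -/
noncomputable def Cv (z : R⟦X⟧) (G : SimpleGraph V) : R :=
  ∑ i, a i * coeff (i.val + 1) (z * Zi R G (univ \ {v}))

variable {v a}

lemma Ev_congr {G G' : SimpleGraph V} {S : Finset V}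
    (h : ∀ u ∈ {v} ∪ S, ∀ w ∈ {v} ∪ S, (G.Adj u w ↔ G'.Adj u w)) : Ev v a G S = Ev v a G' S := by
  rw [Ev, Ev, rho_congr h]

lemma Ev_deg {m : ℕ} (ha : ∀ i, m < i.val → a i = 0) (G : SimpleGraph V) :
    Ev v a G ∈ Deg R V (m + 1 : ℕ) := by
  have e : Ev v a G = ∑ i, a i • fun S => coeff (i.val + 1) (rho R G {v} {v} S) := by
    funext S
    simp [Ev]
  rw [e]
  refine Submodule.sum_mem _ fun i _ => ?_
  by_cases hi : m < i.val
  · rw [ha i hi, zero_smul]
    exact Submodule.zero_mem _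
  · exact Submodule.smul_mem _ _ (Deg_mono (by push_cast; omega)
      (loc_rho G _ {v} {v} Subset.rfl le_rfl (i.val + 1)))

variable {κ : Type} {m : ℕ} {p : κ → Fin (m + 2) → V}

omit [Fintype V] [DecidableEq V] in
lemma alt_vanish {T : Finset V} (Φ : SimpleGraph V → R)
    (hΦ : ∀ G G' : SimpleGraph V, (∀ u ∈ T, ∀ w ∈ T, (G.Adj u w ↔ G'.Adj u w)) → Φ G = Φ G')
    (G : SimpleGraph V) (y₀ y₁ : Fin (m + 1) → κ → Bool) {i : Fin (m + 1)}
    (h : ∀ c, ¬ (p c i.castSucc ∈ T ∧ p c i.succ ∈ T)) :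
    ∑ ε, sgn R ε * Φ (G ∆ ⨆ c, lnk p c fun j => mix y₀ y₁ ε j c) = 0 := by
  refine alt_zero (fun ε => Φ (G ∆ ⨆ c, lnk p c fun j => mix y₀ y₁ ε j c)) i fun ε =>
    hΦ _ _ fun u hu w hw => ?_
  have key : ∀ (ε ε' : Fin (m + 1) → Bool), (∀ j, j ≠ i → ε j = ε' j) → ∀ u ∈ T, ∀ w ∈ T,
      ∀ c, (∃ j, mix y₀ y₁ ε j c = true ∧ u = p c j.castSucc ∧ w = p c j.succ) →
        ∃ j, mix y₀ y₁ ε' j c = true ∧ u = p c j.castSucc ∧ w = p c j.succ := by
    rintro ε ε' hε _ hu _ hv c ⟨j, h1, rfl, rfl⟩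
    have hj : j ≠ i := by
      rintro rfl
      exact h c ⟨hu, hv⟩
    exact ⟨j, by rw [← h1, mix, mix, hε j hj], rfl, rfl⟩
  have k1 := key ε (Function.update ε i (!ε i)) fun j hj => by rw [Function.update_of_ne hj]
  have k2 := key (Function.update ε i (!ε i)) ε fun j hj => by rw [Function.update_of_ne hj]
  rw [sd_adj, sd_adj, iSup_adj, iSup_adj]
  refine not_congr (iff_congr Iff.rfl (exists_congr fun c => and_congr_right fun _ => ?_))
  exact ⟨Or.imp (k2 u hu w hw c) (k2 w hw u hu c), Or.imp (k1 u hu w hw c) (k1 w hw u hu c)⟩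

variable (p) in
/-- the vertices of a copy other than the root -/
def cop (c : κ) : Finset V := univ.image fun i : Fin (m + 1) => p c i.succ

variable (p) in
/-- the pairs at distance two selected by `ζ` -/
def tw (c : κ) (ζ : Fin m → Bool) : SimpleGraph V :=
  fromRel fun x y => ∃ i, ζ i = true ∧ x = p c i.castSucc.castSucc ∧ y = p c i.succ.succ

variable (v a p) in
/-- the contribution of one copy -/
noncomputable def gam (G : SimpleGraph V) (c : κ) (η₀ η₁ : Fin (m + 1) → Bool) : R :=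
  ∑ ε, sgn R ε * Ev v a (G ∆ lnk p c (mix η₀ η₁ ε)) (cop p c)

lemma gam_self (G : SimpleGraph V) (c : κ) (η : Fin (m + 1) → Bool) :
    gam v a p G c η η = 0 := by
  have e : ∀ ε, mix η η ε = η := fun ε => funext fun j => by simp [mix]
  simp only [gam, e]
  exact alt_zero (fun _ => Ev v a (G ∆ lnk p c η) (cop p c)) 0 fun _ => rfl

variable (hb : ∀ c (i : Fin (m + 1)) c' (i' : Fin (m + 1)),
    p c i.succ = p c' i'.succ → c = c' ∧ i = i') (hU : ∀ c (i : Fin (m + 1)), p c i.succ ≠ v)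

include hb hU

omit [Fintype V] in
lemma sup_loc {k : κ → SimpleGraph V}
    (hk : ∀ c u w, (k c).Adj u w → ∃ i : Fin (m + 1), u = p c i.succ ∨ w = p c i.succ)
    (G : SimpleGraph V) (c : κ) : ∀ u ∈ {v} ∪ cop p c, ∀ w ∈ {v} ∪ cop p c,
      ((G ∆ ⨆ c', k c').Adj u w ↔ (G ∆ k c).Adj u w) := by
  intro u hu w hw
  have key : ∀ c' (i : Fin (m + 1)), p c' i.succ ∈ {v} ∪ cop p c → c' = c := by
    intro c' i hx
    obtain ⟨j, -, hj⟩ := mem_image.1 ((mem_union.1 hx).resolve_left (by simpa using hU _ _))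
    exact (hb _ _ _ _ hj).1.symm
  rw [sd_adj, sd_adj, iSup_adj]
  refine not_congr (iff_congr Iff.rfl ⟨?_, fun h => ⟨c, h⟩⟩)
  rintro ⟨c', h⟩
  obtain ⟨i, rfl | rfl⟩ := hk c' u w h
  · exact key c' i hu ▸ h
  · exact key c' i hw ▸ h

omit [Fintype V] in
lemma eq_cop {S : Finset V} (hS : S.card ≤ m + 1)
    (h : ∀ i : Fin (m + 1), ∃ c, p c i.castSucc ∈ {v} ∪ S ∧ p c i.succ ∈ {v} ∪ S) :
    ∃ c, S = cop p c := by
  have h0 : ∀ c (i : Fin (m + 1)), p c i.succ ∈ {v} ∪ S → p c i.succ ∈ S := fun c i hx =>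
    (mem_union.1 hx).resolve_left (by simpa using hU _ _)
  choose c' hc' using h
  have h2 : univ.image (fun j => p (c' j) j.succ) = S := by
    refine eq_of_subset_of_card_le (image_subset_iff.2 fun j _ => h0 _ _ (hc' j).2) ?_
    rw [card_image_of_injective _ fun j j' hj => (hb _ _ _ _ hj).2]
    simpa using hS
  have h4 : ∀ j, c' j = c' 0 := fun j => by
    induction j using Fin.induction with
    | zero => rfl
    | succ i ih =>
      have e1 := h0 _ i.castSucc (hc' i.succ).1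
      rw [← h2] at e1
      obtain ⟨j', -, hj'⟩ := mem_image.1 e1
      obtain ⟨e2, rfl⟩ := hb _ _ _ _ hj'
      rw [← e2, ih]
  exact ⟨c' 0, by rw [← h2, cop]; simp only [h4]⟩

omit [Fintype V] [DecidableEq V] hb hU in
lemma lnk_end (c : κ) (η : Fin (m + 1) → Bool) (u w : V) (h : (lnk p c η).Adj u w) :
    ∃ i : Fin (m + 1), u = p c i.succ ∨ w = p c i.succ := by
  obtain ⟨-, ⟨i, -, -, h⟩ | ⟨i, -, -, h⟩⟩ := h
  · exact ⟨i, Or.inr h⟩
  · exact ⟨i, Or.inl h⟩

omit [Fintype V] [DecidableEq V] hb hU in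
lemma tw_end (c : κ) (ζ : Fin m → Bool) (u w : V) (h : (tw p c ζ).Adj u w) :
    ∃ i : Fin (m + 1), u = p c i.succ ∨ w = p c i.succ := by
  obtain ⟨-, ⟨i, -, -, h⟩ | ⟨i, -, -, h⟩⟩ := h
  · exact ⟨_, Or.inr h⟩
  · exact ⟨_, Or.inl h⟩

lemma alt_split [Fintype κ] (hv : ∀ c, p c 0 = v) (ha : ∀ i, m < i.val → a i = 0) (z : R⟦X⟧)
    (G : SimpleGraph V) (y₀ y₁ : Fin (m + 1) → κ → Bool) :
    ∑ ε, sgn R ε * (Ev v a (G ∆ ⨆ c, lnk p c fun j => mix y₀ y₁ ε j c) univ -
      Cv v a z (G ∆ ⨆ c, lnk p c fun j => mix y₀ y₁ ε j c)) =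
      ∑ c, gam v a p G c (fun j => y₀ j c) fun j => y₁ j c := by
  have h1 := alt_vanish (p := p) (T := univ \ {v}) (Cv v a z)
    (fun G G' h => by rw [Cv, Cv, Zi_congr h]) G y₀ y₁ (i := 0) fun c h => by simp [hv] at h
  simp only [mul_sub, sum_sub_distrib]
  rw [h1, sub_zero]
  have hd : (fun S => ∑ ε, sgn R ε * Ev v a (G ∆ ⨆ c, lnk p c fun j => mix y₀ y₁ ε j c) S) ∈
      Deg R V (m + 1 : ℕ) := by
    have := (Deg R V (m + 1 : ℕ)).sum_mem (t := univ) fun ε _ => Submodule.smul_mem _ (sgn R ε)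
      (Ev_deg (v := v) ha (G ∆ ⨆ c, lnk p c fun j => mix y₀ y₁ ε j c))
    refine (congrArg (· ∈ Deg R V (m + 1 : ℕ)) (funext fun S => ?_)).mp this
    simp [Finset.sum_apply]
  refine (Deg_copies hd (cop p) (fun c c' h => ?_) (fun c => ?_)
    fun S hS hne => ?_).trans (sum_congr rfl fun c _ => sum_congr rfl fun ε _ => ?_)
  · have : p c (Fin.succ 0) ∈ cop p c' := h ▸ mem_image_of_mem _ (mem_univ _)
    obtain ⟨j, -, hj⟩ := mem_image.1 this
    exact (hb _ _ _ _ hj).1.symm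
  · rw [cop, card_image_of_injective _ fun j j' hj => (hb _ _ _ _ hj).2]
    simp
  · by_contra h0
    obtain ⟨c, hc⟩ := eq_cop hb hU hS fun i => by
      by_contra h1
      exact h0 (alt_vanish (fun G => Ev v a G S) (fun _ _ => Ev_congr) G y₀ y₁
        fun c hc => h1 ⟨c, hc⟩)
    exact hne c hc
  · rw [Ev_congr (sup_loc hb hU (fun c => lnk_end c _) G c)]
    congr 4
    funext j
    simp only [mix]
    split_ifs <;> rfl

lemma gam_loc (ζ : κ → Fin m → Bool) (G : SimpleGraph V) (c : κ) (η₀ η₁ : Fin (m + 1) → Bool) :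
    gam v a p (G ∆ ⨆ c', tw p c' (ζ c')) c η₀ η₁ = gam v a p (G ∆ tw p c (ζ c)) c η₀ η₁ :=
  sum_congr rfl fun ε _ => congrArg _ (Ev_congr fun u hu w hw => by
    rw [sd_adj, sd_adj (G ∆ tw p c (ζ c)), sup_loc hb hU (fun c => tw_end c _) G c u hu w hw])

lemma gam_special [IsDomain R] (hv : ∀ c, p c 0 = v) (ha : ∀ i, m < i.val → a i = 0)
    {top : Fin d} (ht : top.val = m) (ha' : a top ≠ 0) (G : SimpleGraph V) (c : κ) :
    ∃ ζ η, gam v a p (G ∆ tw p c ζ) c η (fun l => !η l) ≠ 0 := by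
  classical
  have hp : Function.Injective (p c) := fun i j h => by
    rcases Fin.eq_zero_or_eq_succ i with rfl | ⟨i, rfl⟩ <;>
      rcases Fin.eq_zero_or_eq_succ j with rfl | ⟨j, rfl⟩
    · rfl
    · exact absurd (h.symm.trans (hv c)) (hU _ _)
    · exact absurd (h.trans (hv c)) (hU _ _)
    · rw [(hb _ _ _ _ h).2]
  have l1 : ∀ (η : Fin (m + 1) → Bool) (l : Fin (m + 1)),
      (lnk p c η).Adj (p c l.castSucc) (p c l.succ) ↔ η l = true := fun η l => by
    rw [lnk_adj hp]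
    refine ⟨?_, fun h => ⟨l, h, Or.inl ⟨rfl, rfl⟩⟩⟩
    rintro ⟨l', h, ⟨-, b⟩ | ⟨a, b⟩⟩
    · rwa [Fin.succ_injective _ b]
    · have := congrArg Fin.val a
      have := congrArg Fin.val b
      simp at *
      omega
  set G' := G ∆ tw p c fun i => decide (¬ G.Adj (p c i.castSucc.castSucc) (p c i.succ.succ))
    with hG'
  refine ⟨fun i => decide (¬ G.Adj (p c i.castSucc.castSucc) (p c i.succ.succ)),
    fun l => decide (G'.Adj (p c l.castSucc) (p c l.succ)), ?_⟩
  rw [← hG']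
  have e1 : ∀ ε, G' ∆ lnk p c (mix (fun l => decide (G'.Adj (p c l.castSucc) (p c l.succ)))
      (fun l => !decide (G'.Adj (p c l.castSucc) (p c l.succ))) ε) =
      G' \ lnk p c (fun _ => true) ⊔ lnk p c ε := fun ε => by
    ext u w
    by_cases h : (lnk p c fun _ => true).Adj u w
    · obtain ⟨-, ⟨l, -, rfl, rfl⟩ | ⟨l, -, rfl, rfl⟩⟩ := h
      · rw [sd_adj, sup_adj, sdiff_adj, l1, l1, l1]
        cases hε : ε l <;> simp [mix, hε]
      · rw [adj_comm, adj_comm (_ ⊔ _), sd_adj, sup_adj, sdiff_adj, l1, l1, l1]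
        cases hε : ε l <;> simp [mix, hε]
    · have h' : ∀ η, ¬ (lnk p c η).Adj u w := fun η h' => h ⟨h'.1, h'.2.imp
        (fun ⟨l, _, h⟩ => ⟨l, rfl, h⟩) fun ⟨l, _, h⟩ => ⟨l, rfl, h⟩⟩
      rw [sd_adj, sup_adj, sdiff_adj]
      simp [h']
  have e2 : cop p c \ {v} = cop p c := sdiff_eq_self_of_disjoint (disjoint_singleton_right.2
    fun h => by
      obtain ⟨i, -, hi⟩ := mem_image.1 h
      exact hU _ _ hi)
  have e3 : cop p c ∪ {v} = univ.image (p c) := by
    ext x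
    simp only [cop, mem_union, mem_image, mem_univ, true_and, mem_singleton, Fin.exists_fin_succ,
      hv]
    tauto
  have hB : ∀ i j : Fin (m + 2), i.val + 2 = j.val →
      (G' \ lnk p c fun _ => true).Adj (p c i) (p c j) := fun i j hij => by
    obtain ⟨t, rfl, rfl⟩ : ∃ t : Fin m, i = t.castSucc.castSucc ∧ j = t.succ.succ :=
      ⟨⟨i.val, by omega⟩, Fin.ext rfl, Fin.ext (by simp; omega)⟩
    refine ⟨?_, ?_⟩
    · have : (tw p c fun i => decide (¬ G.Adj (p c i.castSucc.castSucc) (p c i.succ.succ))).Adj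
          (p c t.castSucc.castSucc) (p c t.succ.succ) ↔
          ¬ G.Adj (p c t.castSucc.castSucc) (p c t.succ.succ) := by
        constructor
        · rintro ⟨-, ⟨s, h, -, b⟩ | ⟨s, h, a, b⟩⟩
          · rw [Fin.succ_injective _ (Fin.succ_injective _ (hp b))]
            simpa using h
          · have := congrArg Fin.val (hp a)
            have := congrArg Fin.val (hp b)
            simp at *
            omega
        · exact fun h => ⟨fun h => by have := congrArg Fin.val (hp h); omega,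
            Or.inl ⟨t, by simpa using h, rfl, rfl⟩⟩
      rw [hG', sd_adj, this]
      tauto
    · rw [lnk_adj hp]
      rintro ⟨l, -, ⟨a, b⟩ | ⟨a, b⟩⟩
      · have := congrArg Fin.val a
        have := congrArg Fin.val b
        simp at *
        omega
      · have := congrArg Fin.val a
        have := congrArg Fin.val b
        simp at *
        omega
  have key := fun k (hk : k ≤ m + 1) => alt_ratio (R := R) hp hB
    (fun l h => h.2 ((l1 _ l).2 rfl)) hk
  obtain ⟨u, hu, hu'⟩ := rr_sub (R := R) m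
  have e4 : invOfUnit (rr R (m + 2)) 1 - invOfUnit (rr R (m + 1)) 1 = X ^ (m + 1) * u := by
    rw [inv_rr, inv_rr]
    linear_combination X * hu'
  simp only [gam, e1, Ev, rho, e2, e3, mul_sum, mul_left_comm (sgn R _)]
  rw [sum_comm, sum_eq_single top]
  · rw [← mul_sum, cop, key _ (by omega), e4, ht, coeff_X_pow_mul', if_pos le_rfl, Nat.sub_self, hu]
    exact mul_ne_zero ha' (pow_ne_zero _ (by simp))
  · intro i _ hi
    rw [← mul_sum]
    by_cases h : m < i.val
    · rw [ha i h, zero_mul]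
    · rw [cop, key _ (by omega), e4, coeff_X_pow_mul',
        if_neg (by have := mt Fin.ext hi; omega), mul_zero]
  · simp

theorem char_bound [Fintype κ] {q : ℕ} [Fact q.Prime] {a : Fin d → ZMod q} (hv : ∀ c, p c 0 = v)
    (ha : ∀ i, m < i.val → a i = 0) {top : Fin d} (ht : top.val = m) (ha' : a top ≠ 0)
    (z : (ZMod q)⟦X⟧) :
    ‖av fun G => ZMod.stdAddChar (Ev v a G univ - Cv v a z G)‖ ^ 2 ^ (m + 1) ≤
      (1 - 4 / (q : ℝ) ^ 2 / 2 ^ (m + 2 * (m + 1))) ^ Fintype.card κ := by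
  classical
  rw [av_tog fun y : Fin (m + 1) → κ → Bool => ⨆ c, lnk p c fun j => y j c]
  refine (box (Y := κ → Bool) ZMod.stdAddChar (m + 1) (SimpleGraph V)
    fun G (y : Fin (m + 1) → κ → Bool) => Ev v a (G ∆ ⨆ c, lnk p c fun j => y j c) univ -
      Cv v a z (G ∆ ⨆ c, lnk p c fun j => y j c)).trans ?_
  simp only [alt_split hb hU hv ha, char_sum]
  rw [av_tog fun ζ : κ → Fin m → Bool => ⨆ c, tw p c (ζ c)]
  refine norm_av_le fun G => ?_
  simp only [gam_loc hb hU]
  let e : (κ → (Fin m → Bool) × (Fin (m + 1) → Bool) × (Fin (m + 1) → Bool)) ≃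
      (κ → Fin m → Bool) × (Fin (m + 1) → κ → Bool) × (Fin (m + 1) → κ → Bool) :=
    ⟨fun q => (fun c => (q c).1, fun j c => (q c).2.1 j, fun j c => (q c).2.2 j),
      fun q c => (q.1 c, fun j => q.2.1 j c, fun j => q.2.2 j c), fun _ => rfl, fun _ => rfl⟩
  have e2 := av_pi fun c (t : (Fin m → Bool) × (Fin (m + 1) → Bool) × (Fin (m + 1) → Bool)) =>
    ZMod.stdAddChar (gam v a p (G ∆ tw p c t.1) c t.2.1 t.2.2)
  rw [← av_equiv e.symm, av_prod] at e2
  simp only [av_prod (α := Fin (m + 1) → κ → Bool)] at e2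
  refine (congrArg _ e2).trans_le ?_
  rw [norm_prod, ← card_univ, ← prod_const]
  refine prod_le_prod (fun _ _ => norm_nonneg _) fun c _ => ?_
  obtain ⟨ζ, η, hx⟩ := gam_special hb hU hv ha ht ha' G c
  refine (norm_av_two (fun _ => by simp) (x := (ζ, η, η)) (y := (ζ, η, fun l => !η l))
    (fun h => by simpa using congrFun (congrArg (fun q => q.2.2) h) 0)
    (η := 4 / (q : ℝ) ^ 2) ?_).trans_eq ?_
  · simpa [gam_self] using norm_one_add_char hx
  · simp only [Fintype.card_prod, Fintype.card_fun, Fintype.card_bool, Fintype.card_fin]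
    push_cast
    rw [pow_add 2 m (2 * (m + 1)), two_mul, pow_add 2 (m + 1)]

end main

lemma fixed_bound {q d N : ℕ} [hq : Fact q.Prime] (hN : N * d + 1 ≤ Fintype.card V)
    (hβ : (1 - 4 / (q : ℝ) ^ 2 / 2 ^ (d + 2 * d)) ^ N ≤ (1 / (q : ℝ) ^ d) ^ 2 ^ d)
    (s : Finset (SimpleGraph V)) (G₀ : SimpleGraph V) (hs : ∀ G ∈ s, ∀ k, ncol G k = ncol G₀ k) :
    (s.card : ℝ) ≤ 2 / (q : ℝ) ^ d * Nat.card (SimpleGraph V) := by
  classical
  obtain ⟨v⟩ : Nonempty V := Fintype.card_pos_iff.1 (by omega)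
  have hp2 : (2 : ℝ) ≤ q := by exact_mod_cast hq.out.two_le
  rw [Nat.card_eq_fintype_card]
  refine (card_zero_le (fun (G : SimpleGraph V) (i : Fin d) => coeff (i.val + 1)
    (rho (ZMod q) G {v} {v} univ - Z (ZMod q) G₀ univ * Zi (ZMod q) G (univ \ {v})))
    (β := 1 / (q : ℝ) ^ d)
    (by positivity) (fun a ha => ?_) s fun G hG => funext fun i => ?_).trans_eq (by ring)
  · have hT : (univ.filter fun i => a i ≠ 0).Nonempty := by
      obtain ⟨i, hi⟩ := Function.ne_iff.1 ha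
      exact ⟨i, mem_filter.2 ⟨mem_univ _, hi⟩⟩
    obtain ⟨top, h1, h2⟩ := exists_max_image _ (fun i : Fin d => i.val) hT
    have h3 := top.2
    obtain ⟨e⟩ : Nonempty (Fin N × Fin (top.val + 1) ↪ ({v}ᶜ : Finset V)) := by
      refine Function.Embedding.nonempty_of_card_le ?_
      have := Nat.mul_le_mul_left N (by omega : top.val + 1 ≤ d)
      simp only [Fintype.card_prod, Fintype.card_fin, Fintype.card_coe, card_compl, card_singleton]
      omega
    have h4 := char_bound (v := v) (p := fun c => Fin.cons v fun i => (e (c, i)).1) (a := a)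
      (fun c i c' i' h => Prod.mk.inj (e.injective (Subtype.ext (by simpa using h))))
      (fun c i => notMem_singleton.1 (mem_compl.1 (e (c, i)).2)) (fun _ => rfl)
      (fun i hi => by_contra fun h => by
        have := h2 i (mem_filter.2 ⟨mem_univ _, h⟩)
        omega) rfl (mem_filter.1 h1).2 (Z (ZMod q) G₀ univ)
    rw [Fintype.card_fin] at h4
    simp only [map_sub, mul_sub, sum_sub_distrib]
    refine le_of_pow_le_pow_left₀ (n := 2 ^ d) (by positivity) (by positivity) ?_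
    refine (pow_le_pow_of_le_one (norm_nonneg _) (norm_av_le fun _ => by simp)
      (Nat.pow_le_pow_right two_pos (by omega : top.val + 1 ≤ d))).trans
      (h4.trans (le_trans (pow_le_pow_left₀ ?_ ?_ N) hβ))
    · rw [sub_nonneg, div_div, div_le_one (by positivity)]
      nlinarith [one_le_pow₀ (n := top.val + 2 * (top.val + 1)) (one_le_two (α := ℝ))]
    · exact sub_le_sub_left (div_le_div_of_nonneg_left (by positivity) (by positivity)
        (pow_le_pow_right₀ one_le_two (by omega))) _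
  · have e1 : Z (ZMod q) G univ = Z (ZMod q) G₀ univ := W_top_congr (hs G hG) _
    rw [rho, sdiff_union_of_subset (subset_univ _), e1, sub_self, map_zero]
    rfl

theorem fibre_bound (n d l : ℕ) (h : 6 * d + 3 * l ≤ Nat.log 2 n)
    (s : Finset (SimpleGraph (Fin n))) (f : ℕ → ℕ) (hs : ∀ G ∈ s, ∀ k, ncol G k = f k) :
    s.card * 2 ^ (d * l) ≤ 2 * Nat.card (SimpleGraph (Fin n)) := by
  classical
  rcases s.eq_empty_or_nonempty with rfl | ⟨G₀, h₀⟩
  · simp
  rcases Nat.eq_zero_or_pos d with rfl | hd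
  · have := card_le_univ s
    rw [Nat.card_eq_fintype_card]
    simp only [zero_mul, pow_zero, mul_one]
    omega
  have hn : 2 ^ Nat.log 2 n ≤ n := Nat.pow_log_le_self 2 (by rintro rfl; simp at h; omega)
  obtain ⟨q, hq, hq1, hq2⟩ := Nat.exists_prime_lt_and_le_two_mul (2 ^ l) (by positivity)
  have : Fact q.Prime := ⟨hq⟩
  have hN : 2 ^ (4 * d + 3 * l + d) * d + 1 ≤ n := by
    have h1 : 1 ≤ 2 ^ (4 * d + 3 * l + d) := Nat.one_le_two_pow
    have h2 : d + 1 ≤ 2 ^ d := Nat.lt_two_pow_self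
    calc _ ≤ 2 ^ (4 * d + 3 * l + d) * (d + 1) := by nlinarith
      _ ≤ 2 ^ (4 * d + 3 * l + d) * 2 ^ d := by gcongr
      _ ≤ 2 ^ Nat.log 2 n := by
        rw [← pow_add]
        exact Nat.pow_le_pow_right two_pos (by omega)
      _ ≤ n := hn
  have h2 := fixed_bound (V := Fin n) (by rw [Fintype.card_fin]; exact hN)
    (num_bound hq.two_le (by rw [pow_succ']; exact hq2)) s G₀
    fun G hG k => (hs G hG k).trans (hs G₀ h₀ k).symm
  have h3 : 2 ^ (d * l) ≤ q ^ d := by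
    rw [mul_comm, pow_mul]
    exact Nat.pow_le_pow_left hq1.le _
  have h4 : (0 : ℝ) < (q : ℝ) ^ d := pow_pos (Nat.cast_pos.2 hq.pos) _
  rw [div_mul_eq_mul_div, le_div_iff₀ h4] at h2
  exact (Nat.mul_le_mul_left _ h3).trans (by exact_mod_cast h2)

end Pool.Agent.Lib.MP_f7f352_co.L.Anti
end
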