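import Pool.Agent.Lib.MP_f7f352_co.UStat

-- part Pool.Agent.Lib.MP_f7f352_co.LDeg
section

/-! Ratios of independent-partition series are local functions of the vertex set. -/

set_option autoImplicit false

namespace Pool.Agent.Lib.MP_f7f352_co.L

open Finset PowerSeries U

variable {V : Type} [Fintype V] [DecidableEq V] {R : Type} [CommRing R]

/-- functions of degree at most `k` on the cube of vertex sets -/
noncomputable def Deg (R : Type) [CommRing R] (V : Type) [DecidableEq V] (k : ℤ) :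
    Submodule R (Finset V → R) :=
  Submodule.span R {f | ∃ T : Finset V, (T.card : ℤ) ≤ k ∧ f = fun S => if T ⊆ S then 1 else 0}

omit [Fintype V] in
lemma Deg_mono {k l : ℤ} (h : k ≤ l) : Deg R V k ≤ Deg R V l :=
  Submodule.span_mono fun _ ⟨T, h1, h2⟩ => ⟨T, h1.trans h, h2⟩

omit [Fintype V] in
lemma Deg_mul {k l : ℤ} {f g : Finset V → R} (hf : f ∈ Deg R V k) (hg : g ∈ Deg R V l) :
    f * g ∈ Deg R V (k + l) := by
  have h := Submodule.mul_mem_mul hf hg
  unfold Deg at h
  rw [Submodule.span_mul_span] at h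
  refine Submodule.span_mono ?_ h
  rintro _ ⟨_, ⟨T, hT, rfl⟩, _, ⟨T', hT', rfl⟩, rfl⟩
  refine ⟨T ∪ T', ?_, ?_⟩
  · have : ((T ∪ T').card : ℤ) ≤ T.card + T'.card := by exact_mod_cast card_union_le T T'
    omega
  · funext S
    by_cases h1 : T ⊆ S <;> by_cases h2 : T' ⊆ S <;> simp [union_subset_iff, h1, h2]

omit [Fintype V] in
lemma Deg_rep {k : ℤ} {g : Finset V → R} (hg : g ∈ Deg R V k) : ∃ c : Finset V → R,
    (∀ T, k < T.card → c T = 0) ∧ ∀ S, g S = ∑ T ∈ S.powerset, c T := by
  induction hg using Submodule.span_induction with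
  | mem f hf =>
    obtain ⟨T, hT, rfl⟩ := hf
    refine ⟨fun T' => if T' = T then 1 else 0, fun T' h => if_neg ?_, fun S => by simp⟩
    rintro rfl
    omega
  | zero => exact ⟨0, fun _ _ => rfl, fun S => by simp⟩
  | add f g _ _ hf hg =>
    obtain ⟨c, h1, h2⟩ := hf
    obtain ⟨c', h1', h2'⟩ := hg
    exact ⟨c + c', fun T h => by simp [h1 T h, h1' T h], fun S => by
      simp [h2, h2', sum_add_distrib]⟩
  | smul a f _ hf =>
    obtain ⟨c, h1, h2⟩ := hf
    exact ⟨a • c, fun T h => by simp [h1 T h], fun S => by simp [h2, mul_sum]⟩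

/-- a function of degree `k` that vanishes on the small sets other than the `C c` -/
lemma Deg_copies {κ : Type} [Fintype κ] {k : ℕ} {g : Finset V → R} (hg : g ∈ Deg R V k)
    (C : κ → Finset V) (hi : Function.Injective C) (hC : ∀ c, (C c).card = k)
    (h0 : ∀ S, S.card ≤ k → (∀ c, S ≠ C c) → g S = 0) : g univ = ∑ c, g (C c) := by
  obtain ⟨a, h1, h2⟩ := Deg_rep hg
  have key : ∀ T : Finset V, (∀ T' ⊂ T, a T' = 0) → g T = a T := fun T h => by
    rw [h2, sum_eq_single T (fun T' hT' hne => h T' (ssubset_of_subset_of_ne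
      (mem_powerset.1 hT') hne)) fun h => absurd (mem_powerset_self T) h]
  have h3 : ∀ T : Finset V, (∀ c, T ≠ C c) → a T = 0 := by
    intro T
    induction T using Finset.strongInduction with
    | H T ih =>
      intro hT
      by_cases hk : T.card ≤ k
      · rw [← key T fun T' hT' => ih T' hT' fun c hc => ?_, h0 T hk hT]
        have := card_lt_card hT'
        rw [hc, hC] at this
        omega
      · exact h1 T (by omega)
  have h4 : ∀ c, g (C c) = a (C c) := fun c => key _ fun T' hT' => h3 T' fun c' hc => by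
    have := card_lt_card hT'
    rw [hc, hC, hC] at this
    omega
  rw [h2, powerset_univ, sum_congr rfl fun c _ => h4 c, ← sum_image fun c _ c' _ h => hi h]
  refine (sum_subset (subset_univ _) fun T _ hT => h3 T fun c hc => hT ?_).symm
  exact mem_image.2 ⟨c, mem_univ _, hc.symm⟩

/-- the coefficient of `X ^ j` has degree at most `j - d` -/
def Loc (d : ℤ) (F : Finset V → R⟦X⟧) : Prop :=
  ∀ j : ℕ, (fun S => coeff j (F S)) ∈ Deg R V (j - d)

section Loc

omit [Fintype V]

variable {d e : ℤ} {F F' : Finset V → R⟦X⟧}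

lemma Loc.mono (h : Loc d F) (he : e ≤ d) : Loc e F := fun j => Deg_mono (by omega) (h j)

lemma Loc.congr (h : Loc d F) (he : ∀ S, F S = F' S) : Loc d F' := (funext he : F = F') ▸ h

lemma loc_zero (d : ℤ) : Loc d fun _ : Finset V => (0 : R⟦X⟧) := fun j => by
  simp only [map_zero]
  exact (Deg R V (j - d)).zero_mem

lemma Loc.add (h : Loc d F) (h' : Loc d F') : Loc d fun S => F S + F' S := fun j => by
  simp only [map_add]
  exact (Deg R V (j - d)).add_mem (h j) (h' j)

lemma Loc.sub (h : Loc d F) (h' : Loc d F') : Loc d fun S => F S - F' S := fun j => by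
  simp only [map_sub]
  exact (Deg R V (j - d)).sub_mem (h j) (h' j)

lemma loc_sum {κ : Type} (s : Finset κ) {F : κ → Finset V → R⟦X⟧} (h : ∀ a ∈ s, Loc d (F a)) :
    Loc d fun S => ∑ a ∈ s, F a S := fun j => by
  have := (Deg R V (j - d)).sum_mem fun a ha => h a ha j
  simpa [← sum_fn] using this

lemma Loc.mul (h : Loc d F) (h' : Loc e F') : Loc (d + e) fun S => F S * F' S := fun j => by
  have e1 : (fun S => coeff j (F S * F' S)) = ∑ p ∈ antidiagonal j,
      (fun S => coeff p.1 (F S)) * fun S => coeff p.2 (F' S) := by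
    funext S
    simp [coeff_mul]
  rw [e1]
  refine Submodule.sum_mem _ fun p hp => Deg_mono (le_of_eq ?_) (Deg_mul (h p.1) (h' p.2))
  have := mem_antidiagonal.1 hp
  omega

lemma loc_mon (T : Finset V) (a : ℕ) (h : d + T.card ≤ a) :
    Loc d fun S => if T ⊆ S then (X : R⟦X⟧) ^ a else 0 := fun j => by
  by_cases hj : j = a
  · refine Submodule.subset_span ⟨T, by omega, funext fun S => ?_⟩
    by_cases hS : T ⊆ S <;> simp [hj, hS]
  · have e1 : (fun S => coeff j (if T ⊆ S then (X : R⟦X⟧) ^ a else 0)) = 0 := by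
      funext S
      split_ifs <;> simp [coeff_X_pow, hj]
    rw [e1]
    exact Submodule.zero_mem _

lemma loc_one : Loc 0 fun _ : Finset V => (1 : R⟦X⟧) :=
  (loc_mon ∅ 0 (by simp)).congr fun _ => by simp

lemma Loc.inv (h : Loc 0 F) (h1 : ∀ S, coeff 0 (F S) = 1) (h2 : ∀ S, F S * F' S = 1) :
    Loc 0 F' := by
  intro j
  induction j using Nat.strong_induction_on with
  | _ j ih =>
    rcases j with _ | j
    · have e1 : (fun S => coeff 0 (F' S)) = fun S => coeff 0 (1 : R⟦X⟧) := by
        funext S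
        have := congrArg (coeff 0) (h2 S)
        rw [coeff_mul, Nat.antidiagonal_zero, sum_singleton, h1, one_mul] at this
        exact this
      rw [e1]
      exact loc_one 0
    · have e1 : (fun S => coeff (j + 1) (F' S)) = -∑ p ∈ antidiagonal j,
          (fun S => coeff (p.1 + 1) (F S)) * fun S => coeff p.2 (F' S) := by
        funext S
        have := congrArg (coeff (j + 1)) (h2 S)
        rw [coeff_mul, Nat.sum_antidiagonal_succ, h1, one_mul, coeff_one,
          if_neg (Nat.succ_ne_zero j)] at this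
        simpa [Finset.sum_apply] using eq_neg_of_add_eq_zero_left this
      rw [e1]
      refine Submodule.neg_mem _ (Submodule.sum_mem _ fun p hp => ?_)
      have := mem_antidiagonal.1 hp
      exact Deg_mono (le_of_eq (by push_cast; omega)) (Deg_mul (h (p.1 + 1)) (ih p.2 (by omega)))

end Loc

/-- generating series of the partitions of `S` into independent sets -/
noncomputable def Z (R : Type) [CommRing R] (G : SimpleGraph V) (S : Finset V) : R⟦X⟧ :=
  W (fun j => (X : R⟦X⟧) ^ (j - 1)) (ind G) S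

lemma Z_empty (G : SimpleGraph V) : Z R G ∅ = 1 := W_empty _ (by simp [mem_ind])

lemma Z_vertex (G : SimpleGraph V) {S : Finset V} {v : V} (hv : v ∈ S) :
    Z R G S = ∑ I ∈ (ind G).filter (fun I => v ∈ I ∧ I ⊆ S), X ^ (I.card - 1) * Z R G (S \ I) :=
  W_vertex _ _ hv

lemma Z_congr {G H : SimpleGraph V} {S : Finset V}
    (h : ∀ u ∈ S, ∀ v ∈ S, (G.Adj u v ↔ H.Adj u v)) : Z R G S = Z R H S :=
  W_congr _ fun I hI => by
    simp only [mem_ind]
    exact and_congr_right fun _ => forall₂_congr fun u hu => forall₂_congr fun v hv =>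
      not_congr (h u (hI hu) v (hI hv))

lemma single_ind (G : SimpleGraph V) (v : V) : ({v} : Finset V) ∈ ind G := by simp [mem_ind]

lemma Z_zero (G : SimpleGraph V) (S : Finset V) : coeff 0 (Z R G S) = 1 := by
  induction S using Finset.strongInduction with
  | H S ih =>
    rcases S.eq_empty_or_nonempty with rfl | ⟨v, hv⟩
    · simp [Z_empty]
    · rw [Z_vertex G hv, map_sum, sum_eq_single {v}]
      · simpa using ih _ (sdiff_ssubset (singleton_subset_iff.2 hv) (singleton_nonempty v))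
      · intro I hI hne
        have h1 := (mem_filter.1 hI).2.1
        have h2 : 1 < I.card := one_lt_card.2 (by
          obtain ⟨w, hw, hw'⟩ := exists_of_ssubset (ssubset_of_subset_of_ne
            (singleton_subset_iff.2 h1) hne.symm)
          exact ⟨w, hw, v, h1, by simpa using hw'⟩)
        obtain ⟨k, hk⟩ : ∃ k, I.card - 1 = k + 1 := ⟨I.card - 2, by omega⟩
        simp [hk, pow_succ]
      · intro h
        exact absurd (mem_filter.2 ⟨single_ind G v, mem_singleton_self v,
          singleton_subset_iff.2 hv⟩) h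

/-- the inverse series -/
noncomputable def Zi (R : Type) [CommRing R] (G : SimpleGraph V) (S : Finset V) : R⟦X⟧ :=
  invOfUnit (Z R G S) 1

lemma coeff_zero_mul (a b : R⟦X⟧) : coeff 0 (a * b) = coeff 0 a * coeff 0 b := by simp

omit [Fintype V] in
lemma sdiff_ss {A I : Finset V} {v : V} (h1 : v ∈ A) (h2 : v ∈ I) : A \ I ⊂ A :=
  (ssubset_iff_of_subset sdiff_subset).2 ⟨v, h1, by simp [h2]⟩

lemma Z_mul_Zi (G : SimpleGraph V) (S : Finset V) : Z R G S * Zi R G S = 1 :=
  mul_invOfUnit _ _ (by simpa using Z_zero G S)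

lemma Zi_zero (G : SimpleGraph V) (S : Finset V) : coeff 0 (Zi R G S) = 1 := by
  simp [Zi]

lemma Zi_congr {G H : SimpleGraph V} {S : Finset V}
    (h : ∀ u ∈ S, ∀ v ∈ S, (G.Adj u v ↔ H.Adj u v)) : Zi R G S = Zi R H S := by
  rw [Zi, Zi, Z_congr h]

/-- the effect of adding the vertices `A` -/
noncomputable def rho (R : Type) [CommRing R] (G : SimpleGraph V) (B A S : Finset V) : R⟦X⟧ :=
  Z R G (S \ B ∪ A) * Zi R G (S \ B)

noncomputable def rhi (R : Type) [CommRing R] (G : SimpleGraph V) (B A S : Finset V) : R⟦X⟧ :=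
  Z R G (S \ B) * Zi R G (S \ B ∪ A)

/-- one term of the recursion -/
noncomputable def trm (R : Type) [CommRing R] (G : SimpleGraph V) (B A I S : Finset V) : R⟦X⟧ :=
  if I ∈ ind G then (if I \ B ⊆ S then X ^ (I.card - 1) else 0) *
    (rho R G (B ∪ I) (A \ I) S * rhi R G (B ∪ I) (I \ B) S) else 0

lemma rho_vertex (G : SimpleGraph V) {B A : Finset V} (hA : A ⊆ B) {v : V} (hv : v ∈ A)
    (S : Finset V) : rho R G B A S =
      ∑ I ∈ univ.filter (fun I : Finset V => v ∈ I ∧ I ∩ B ⊆ A), trm R G B A I S := by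
  rw [rho, Z_vertex G (mem_union_right _ hv), sum_mul, sum_filter, sum_filter,
    ← sum_subset (subset_univ (ind G)) fun I _ hI => by simp [trm, hI]]
  refine sum_congr rfl fun I hI => ?_
  have e0 : I ⊆ S \ B ∪ A ↔ I ∩ B ⊆ A ∧ I \ B ⊆ S := by
    simp only [subset_iff, mem_union, mem_sdiff, mem_inter]
    constructor
    · intro h
      exact ⟨fun x hx => (h hx.1).resolve_left fun h' => h'.2 hx.2,
        fun x hx => ((h hx.1).resolve_right fun h' => hx.2 (hA h')).1⟩
    · intro h x hx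
      by_cases hB : x ∈ B
      · exact Or.inr (h.1 ⟨hx, hB⟩)
      · exact Or.inl ⟨h.2 ⟨hx, hB⟩, hB⟩
  rw [trm, if_pos hI]
  simp only [e0]
  by_cases h1 : v ∈ I ∧ I ∩ B ⊆ A
  · by_cases h2 : I \ B ⊆ S
    · have e1 : (S \ B ∪ A) \ I = S \ (B ∪ I) ∪ A \ I := by
        ext x; simp only [mem_union, mem_sdiff]; tauto
      have e2 : S \ (B ∪ I) ∪ I \ B = S \ B := by
        ext x
        have := @h2 x
        simp only [mem_union, mem_sdiff] at this ⊢
        tauto
      rw [if_pos ⟨h1.1, h1.2, h2⟩, if_pos h1, if_pos h2, rho, rhi, e1, e2]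
      linear_combination (-(X ^ (I.card - 1) * Z R G (S \ (B ∪ I) ∪ A \ I) * Zi R G (S \ B))) *
        Z_mul_Zi (R := R) G (S \ (B ∪ I))
    · rw [if_neg fun h => h2 h.2.2, if_pos h1, if_neg h2, zero_mul]
  · rw [if_neg fun h => h1 ⟨h.1, h.2.1⟩, if_neg h1]

lemma rho_empty (G : SimpleGraph V) (B S : Finset V) : rho R G B ∅ S = 1 := by
  rw [rho, union_empty, Z_mul_Zi]

lemma loc_rhi {G : SimpleGraph V} {B A : Finset V} (h : Loc 0 (rho R G B A)) :
    Loc 0 (rhi R G B A) := by
  refine h.inv (fun S => by rw [rho, coeff_zero_mul, Z_zero, Zi_zero, one_mul]) fun S => ?_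
  rw [rho, rhi]
  linear_combination (Z R G (S \ B) * Zi R G (S \ B)) * Z_mul_Zi (R := R) G (S \ B ∪ A) +
    Z_mul_Zi (R := R) G (S \ B)

omit [Fintype V] in
lemma card_sdiff_add {I B : Finset V} {T : Finset V} (h1 : T ⊆ I) (h2 : T ⊆ B) :
    (I \ B).card + T.card ≤ I.card := by
  have := card_le_card (subset_inter h1 h2)
  have := card_sdiff_add_card_inter I B
  omega

lemma loc_rho (G : SimpleGraph V) : ∀ (N : ℕ) (B A : Finset V), A ⊆ B →
    Bᶜ.card + A.card ≤ N → Loc 0 (rho R G B A) := by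
  intro N
  induction N using Nat.strong_induction_on with
  | _ N ih =>
    intro B A hA hN
    rcases A.eq_empty_or_nonempty with rfl | ⟨v, hv⟩
    · exact loc_one.congr fun S => (rho_empty G B S).symm
    refine (loc_sum _ fun I hI => ?_).congr fun S => (rho_vertex G hA hv S).symm
    have hvI := (mem_filter.1 hI).2.1
    have c1 : (B ∪ I)ᶜ.card + (I \ B).card = Bᶜ.card := by
      rw [← card_union_of_disjoint]
      · congr 1
        ext x; simp only [mem_union, mem_sdiff, mem_compl]; tauto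
      · rw [Finset.disjoint_left]
        intro x; simp only [mem_union, mem_sdiff, mem_compl]; tauto
    have c2 : (A \ I).card < A.card :=
      card_lt_card (sdiff_ss hv hvI)
    have c3 := card_sdiff_add (singleton_subset_iff.2 hvI) (singleton_subset_iff.2 (hA hv))
    rw [card_singleton] at c3
    by_cases hG : I ∈ ind G
    · have h1 := ih _ (by omega : (B ∪ I)ᶜ.card + (A \ I).card < N) (B ∪ I) (A \ I)
        (sdiff_subset.trans (hA.trans subset_union_left)) le_rfl
      have h2 := ih _ (by omega : (B ∪ I)ᶜ.card + (I \ B).card < N) (B ∪ I) (I \ B)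
        (sdiff_subset.trans subset_union_right) le_rfl
      exact (((loc_mon (d := 0) (I \ B) (I.card - 1) (by omega)).mul
        (h1.mul (loc_rhi h2))).mono (by simp)).congr fun S => by rw [trm, if_pos hG]
    · exact (loc_zero 0).congr fun S => by rw [trm, if_neg hG]

lemma loc_trm (G : SimpleGraph V) {B A I : Finset V} (hA : A ⊆ B) {u w : V} (hne : u ≠ w)
    (hI : {u, w} ⊆ I) (hB : {u, w} ⊆ B) : Loc 1 (trm R G B A I) := by
  have c3 := card_sdiff_add hI hB
  rw [card_pair hne] at c3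
  by_cases hG : I ∈ ind G
  · have h1 := loc_rho (R := R) G _ (B ∪ I) (A \ I)
      (sdiff_subset.trans (hA.trans subset_union_left)) le_rfl
    have h2 := loc_rho (R := R) G _ (B ∪ I) (I \ B) (sdiff_subset.trans subset_union_right) le_rfl
    exact (((loc_mon (d := 1) (I \ B) (I.card - 1) (by omega)).mul
      (h1.mul (loc_rhi h2))).mono (by simp)).congr fun S => by rw [trm, if_pos hG]
  · exact (loc_zero 1).congr fun S => by rw [trm, if_neg hG]

/-- if two graphs differ only inside `U`, one more order is gained -/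
lemma loc_diff {G H : SimpleGraph V} {U : Finset V}
    (h : ∀ u v, ¬ (u ∈ U ∧ v ∈ U) → (G.Adj u v ↔ H.Adj u v)) (A : Finset V) :
    ∀ B : Finset V, A ⊆ B → U ⊆ B → Loc 1 fun S => rho R G B A S - rho R H B A S := by
  induction A using Finset.strongInduction with
  | H A ih =>
    intro B hA hU
    rcases A.eq_empty_or_nonempty with rfl | ⟨v, hv⟩
    · exact (loc_zero 1).congr fun S => by rw [rho_empty, rho_empty, sub_self]
    refine (loc_sum (F := fun I S => trm R G B A I S - trm R H B A I S) _ fun I hI => ?_).congr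
      fun S => by rw [rho_vertex G hA hv, rho_vertex H hA hv, sum_sub_distrib]
    have hvI := (mem_filter.1 hI).2.1
    by_cases hp : ∃ u ∈ I, ∃ w ∈ I, ¬ (G.Adj u w ↔ H.Adj u w)
    · obtain ⟨u, hu, w, hw, huw⟩ := hp
      have hne : u ≠ w := by rintro rfl; simp at huw
      have hB : u ∈ U ∧ w ∈ U := by by_contra h'; exact huw (h u w h')
      have s1 : ({u, w} : Finset V) ⊆ I := by simp [insert_subset_iff, hu, hw]
      have s2 : ({u, w} : Finset V) ⊆ B := by simp [insert_subset_iff, hU hB.1, hU hB.2]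
      exact (loc_trm G hA hne s1 s2).sub (loc_trm H hA hne s1 s2)
    · push Not at hp
      have e0 : I ∈ ind G ↔ I ∈ ind H := by
        simp only [mem_ind]
        exact and_congr_right fun _ => forall₂_congr fun u hu => forall₂_congr fun w hw =>
          not_congr (hp u hu w hw)
      by_cases hG : I ∈ ind G
      · have c3 := card_sdiff_add (singleton_subset_iff.2 hvI) (singleton_subset_iff.2 (hA hv))
        rw [card_singleton] at c3
        have h1 := ih (A \ I) (sdiff_ss hv hvI)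
          (B ∪ I) (sdiff_subset.trans (hA.trans subset_union_left)) (hU.trans subset_union_left)
        have h2 := loc_rho (R := R) G _ (B ∪ I) (I \ B) (sdiff_subset.trans subset_union_right)
          le_rfl
        refine (((loc_mon (d := 0) (I \ B) (I.card - 1) (by omega)).mul
          (h1.mul (loc_rhi h2))).mono (by simp)).congr fun S => ?_
        have e1 : rhi R H (B ∪ I) (I \ B) S = rhi R G (B ∪ I) (I \ B) S := by
          rw [rhi, rhi, Z_congr (G := G) (H := H), Zi_congr (G := G) (H := H)]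
          · intro x hx y _
            refine h x y fun h' => ?_
            simp only [mem_union, mem_sdiff] at hx
            have := hU h'.1
            tauto
          · intro x hx y _
            refine h x y fun h' => ?_
            simp only [mem_union, mem_sdiff] at hx
            have := hU h'.1
            tauto
        rw [trm, trm, if_pos hG, if_pos (e0.1 hG), e1]
        ring
      · exact (loc_zero 1).congr fun S => by
          rw [trm, trm, if_neg hG, if_neg fun h' => hG (e0.2 h'), sub_self]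

end Pool.Agent.Lib.MP_f7f352_co.L
end

-- part Pool.Agent.Lib.MP_f7f352_co.LPath
section

/-! The series of a path template attached to the set where two graphs differ. -/

set_option autoImplicit false

namespace Pool.Agent.Lib.MP_f7f352_co.L

open Finset PowerSeries U

variable {V : Type} [Fintype V] [DecidableEq V] {R : Type} [CommRing R]

open Classical in
/-- the series after adding a vertex whose non-neighbours in `S` are the vertices of `A` -/
noncomputable def th (R : Type) [CommRing R] (G : SimpleGraph V) (S A : Finset V) : R⟦X⟧ :=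
  ∑ I ∈ A.powerset, if ∀ u ∈ I, ∀ w ∈ I, ¬ G.Adj u w then X ^ I.card * Z R G (S \ I) else 0

lemma Z_insert (G : SimpleGraph V) {S A : Finset V} {v : V} (hv : v ∉ S) (hA : A ⊆ S)
    (h : ∀ w ∈ S, (G.Adj v w ↔ w ∉ A)) : Z R G (insert v S) = th R G S A := by
  classical
  rw [Z_vertex G (mem_insert_self v S), th, ← sum_filter]
  symm
  refine sum_nbij' (fun I => insert v I) (fun I => I.erase v) ?_ ?_ ?_ ?_ ?_
  · intro I hI
    obtain ⟨h1, h2⟩ := mem_filter.1 hI
    have h3 := mem_powerset.1 h1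
    have h4 : ∀ w ∈ I, ¬ G.Adj v w := fun w hw h' => (h w (hA (h3 hw))).1 h' (h3 hw)
    refine mem_filter.2 ⟨mem_ind.2 ⟨insert_nonempty _ _, ?_⟩, mem_insert_self _ _,
      insert_subset_insert _ (h3.trans hA)⟩
    simp only [mem_insert, forall_eq_or_imp]
    exact ⟨⟨G.irrefl, h4⟩, fun u hu => ⟨fun h' => h4 u hu h'.symm, h2 u hu⟩⟩
  · intro I hI
    obtain ⟨h1, h2, h3⟩ := mem_filter.1 hI
    have h4 := (mem_ind.1 h1).2
    refine mem_filter.2 ⟨mem_powerset.2 fun w hw => ?_, fun u hu w hw =>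
      h4 u (mem_of_mem_erase hu) w (mem_of_mem_erase hw)⟩
    have h5 := mem_of_mem_erase hw
    have h6 : w ∈ S := (mem_insert.1 (h3 h5)).resolve_left (ne_of_mem_erase hw)
    by_contra h7
    exact h4 v h2 w h5 ((h w h6).2 h7)
  · intro I hI
    exact erase_insert fun h' => hv (hA (mem_powerset.1 (mem_filter.1 hI).1 h'))
  · intro I hI
    exact insert_erase (mem_filter.1 hI).2.1
  · intro I hI
    have h1 : v ∉ I := fun h' => hv (hA (mem_powerset.1 (mem_filter.1 hI).1 h'))
    rw [card_insert_of_notMem h1, Nat.add_sub_cancel]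
    congr 2
    ext x
    simp only [mem_sdiff, mem_insert]
    constructor
    · rintro ⟨h2, h3⟩
      exact ⟨Or.inr h2, fun h4 => h4.elim (fun h5 => hv (h5 ▸ h2)) h3⟩
    · tauto

lemma th_congr {G H : SimpleGraph V} {S A : Finset V} (hA : A ⊆ S)
    (h : ∀ u ∈ S, ∀ v ∈ S, (G.Adj u v ↔ H.Adj u v)) : th R G S A = th R H S A := by
  classical
  refine sum_congr rfl fun I hI => ?_
  have h1 := (mem_powerset.1 hI).trans hA
  rw [Z_congr (G := G) (H := H) fun u hu v hv => h u (mem_sdiff.1 hu).1 v (mem_sdiff.1 hv).1]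
  exact if_congr (forall₂_congr fun u hu => forall₂_congr fun w hw =>
    not_congr (h u (h1 hu) w (h1 hw))) rfl rfl

omit [Fintype V] in
lemma pow_single (u : V) : ({u} : Finset V).powerset = {∅, {u}} := by
  ext I
  simp [subset_singleton_iff]

lemma th_empty (G : SimpleGraph V) (S : Finset V) : th R G S ∅ = Z R G S := by simp [th]

lemma th_single (G : SimpleGraph V) (S : Finset V) (u : V) :
    th R G S {u} = Z R G S + X * Z R G (S \ {u}) := by
  rw [th, pow_single, sum_pair (singleton_ne_empty u).symm]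
  simp

open Classical in
lemma th_pair (G : SimpleGraph V) (S : Finset V) {u w : V} (h : u ≠ w) :
    th R G S {u, w} = Z R G S + X * Z R G (S \ {u}) + X * Z R G (S \ {w}) +
      if G.Adj u w then 0 else X ^ 2 * Z R G (S \ {u, w}) := by
  have h1 : u ∉ ({w} : Finset V) := by simpa using h
  rw [th, sum_powerset_insert h1, pow_single, sum_pair (singleton_ne_empty w).symm,
    sum_pair (singleton_ne_empty w).symm, card_pair h]
  by_cases h2 : G.Adj u w
  · simp [h2]
    ring
  · have h3 : ¬ G.Adj w u := fun h' => h2 h'.symm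
    simp [h2, h3]
    ring

lemma Z_join (G : SimpleGraph V) (B A : Finset V) (h : ∀ u ∈ A, ∀ w ∈ B, G.Adj u w) :
    Z R G (A ∪ B) = Z R G A * Z R G B := by
  induction A using Finset.strongInduction with
  | H A ih =>
    rcases A.eq_empty_or_nonempty with rfl | ⟨v, hv⟩
    · simp [Z_empty]
    rw [Z_vertex G (mem_union_left B hv), Z_vertex G hv, sum_mul]
    refine sum_congr (filter_congr fun I hI => and_congr_right fun hvI =>
      ⟨fun h1 w hw => (mem_union.1 (h1 hw)).resolve_right fun h2 =>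
        (mem_ind.1 hI).2 v hvI w hw (h v hv w h2), fun h1 => h1.trans subset_union_left⟩)
      fun I hI => ?_
    obtain ⟨-, h1, h2⟩ := mem_filter.1 hI
    rw [mul_assoc, ← ih (A \ I) (sdiff_ss hv h1) fun u hu => h u (mem_sdiff.1 hu).1]
    congr 2
    ext x
    have h3 : x ∈ B → x ∉ I := fun hB hx => G.irrefl (h x (h2 hx) x hB)
    simp only [mem_sdiff, mem_union]
    tauto

lemma Z_templ (G : SimpleGraph V) {U S A : Finset V} {v : V} (hvU : v ∉ U) (hvS : v ∉ S)
    (hA : A ⊆ U) (hj : ∀ u ∈ U, ∀ w ∈ S, G.Adj u w) (h : ∀ w ∈ U, (G.Adj v w ↔ w ∉ A)) :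
    Z R G (insert v S ∪ U) =
      Z R G U * Z R G (insert v S) + (th R G U A - Z R G U) * Z R G S := by
  classical
  have hd : ∀ x ∈ U, x ∉ S := fun x h1 h2 => G.irrefl (hj x h1 x h2)
  set N := S.filter fun w => ¬ G.Adj v w with hN
  have hNS : N ⊆ S := filter_subset _ _
  have e1 := Z_insert (R := R) G hvS hNS fun w hw => by simp [hN, hw]
  have e2 := Z_insert (R := R) G (S := U ∪ S) (A := A ∪ N) (v := v) (by simp [hvU, hvS])
    (union_subset_union hA hNS) fun w hw => by
      rcases mem_union.1 hw with h1 | h1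
      · rw [h w h1, mem_union, not_or, iff_self_and]
        exact fun _ h2 => hd w h1 (hNS h2)
      · have : w ∉ A := fun h2 => hd w (hA h2) h1
        simp [hN, h1, this]
  rw [insert_union, union_comm S U, e2, e1, th, ← sum_subset (s₁ := A.powerset ∪ N.powerset)]
  · have e3 : A.powerset ∩ N.powerset = {∅} := by
      ext I
      simp only [mem_inter, mem_powerset, mem_singleton]
      refine ⟨fun hI => eq_empty_of_forall_notMem fun x hx => hd x (hA (hI.1 hx)) (hNS (hI.2 hx)),
        ?_⟩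
      rintro rfl
      simp
    rw [← add_sub_cancel_right (∑ I ∈ A.powerset ∪ N.powerset, _) _, sum_union_inter, e3,
      sum_singleton, th, th, sub_mul, sum_mul, mul_sum]
    have s1 : ∀ I ∈ A.powerset, (if ∀ u ∈ I, ∀ w ∈ I, ¬ G.Adj u w then
        X ^ I.card * Z R G ((U ∪ S) \ I) else 0) = (if ∀ u ∈ I, ∀ w ∈ I, ¬ G.Adj u w then
        X ^ I.card * Z R G (U \ I) else 0) * Z R G S := fun I hI => by
      rw [ite_mul, zero_mul, mul_assoc, ← Z_join G S _ fun u hu => hj u (mem_sdiff.1 hu).1]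
      congr 3
      ext x
      have : x ∈ I → x ∉ S := fun hx => hd x (hA (mem_powerset.1 hI hx))
      simp only [mem_sdiff, mem_union]
      tauto
    have s2 : ∀ I ∈ N.powerset, (if ∀ u ∈ I, ∀ w ∈ I, ¬ G.Adj u w then
        X ^ I.card * Z R G ((U ∪ S) \ I) else 0) = Z R G U * (if ∀ u ∈ I, ∀ w ∈ I, ¬ G.Adj u w then
        X ^ I.card * Z R G (S \ I) else 0) := fun I hI => by
      rw [mul_ite, mul_zero, mul_left_comm,
        ← Z_join G _ U fun u hu w hw => hj u hu w (mem_sdiff.1 hw).1]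
      congr 3
      ext x
      have : x ∈ U → x ∉ I := fun hx hx' => hd x hx (hNS (mem_powerset.1 hI hx'))
      simp only [mem_sdiff, mem_union]
      tauto
    rw [sum_congr rfl s1, sum_congr rfl s2]
    simp only [notMem_empty, IsEmpty.forall_iff, implies_true, if_true, card_empty, pow_zero,
      one_mul, sdiff_empty, Z_join G S U hj]
    ring
  · exact union_subset (powerset_mono.2 subset_union_left) (powerset_mono.2 subset_union_right)
  · intro I hI hI'
    simp only [mem_union, mem_powerset, not_or] at hI hI'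
    obtain ⟨x, hx, hx'⟩ := not_subset.1 hI'.1
    obtain ⟨y, hy, hy'⟩ := not_subset.1 hI'.2
    refine if_neg fun h1 => h1 y hy x hx (hj y (hA ?_) x (hNS ?_))
    · exact (mem_union.1 (hI hy)).resolve_right hy'
    · exact (mem_union.1 (hI hx)).resolve_left hx'

lemma exists_X_mul {a b : R⟦X⟧} (h : coeff 0 a = coeff 0 b) : ∃ c, a - b = X * c :=
  X_dvd_iff.2 (by simpa [sub_eq_zero] using h)

/-- a choice of non-neighbours that detects the difference at order two -/
lemma exists_probe [Nontrivial R] (G H : SimpleGraph V) {U : Finset V} {u w : V} (hu : u ∈ U)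
    (hw : w ∈ U) (h : ¬ (G.Adj u w ↔ H.Adj u w)) : ∃ A ⊆ U, ∃ η : R⟦X⟧, coeff 0 η ≠ 0 ∧
      th R G U A - Z R G U - (th R H U A - Z R H U) = X ^ 2 * η := by
  have hne : u ≠ w := by rintro rfl; simp at h
  obtain ⟨a, ha⟩ := exists_X_mul ((Z_zero (R := R) G (U \ {u})).trans (Z_zero H (U \ {u})).symm)
  obtain ⟨b, hb⟩ := exists_X_mul ((Z_zero (R := R) G (U \ {w})).trans (Z_zero H (U \ {w})).symm)
  by_cases h1 : coeff 0 a = 0
  · by_cases h2 : coeff 0 b = 0
    · refine ⟨{u, w}, by simp [insert_subset_iff, hu, hw], ?_⟩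
      rw [th_pair G U hne, th_pair H U hne]
      by_cases hG : G.Adj u w
      · have hH : ¬ H.Adj u w := fun h' => h (iff_of_true hG h')
        refine ⟨a + b - Z R H (U \ {u, w}), by simp [map_sub, map_add, h1, h2, Z_zero,
          -coeff_zero_eq_constantCoeff], ?_⟩
        rw [if_pos hG, if_neg hH]
        linear_combination X * ha + X * hb
      · have hH : H.Adj u w := by by_contra h'; exact h (iff_of_false hG h')
        refine ⟨a + b + Z R G (U \ {u, w}), by simp [map_add, h1, h2, Z_zero,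
          -coeff_zero_eq_constantCoeff], ?_⟩
        rw [if_neg hG, if_pos hH]
        linear_combination X * ha + X * hb
    · refine ⟨{w}, by simpa using hw, b, h2, ?_⟩
      rw [th_single, th_single]
      linear_combination X * hb
  · refine ⟨{u}, by simpa using hu, a, h1, ?_⟩
    rw [th_single, th_single]
    linear_combination X * ha

/-- one step of the continued fraction -/
noncomputable def sig (r : R⟦X⟧) : R⟦X⟧ := invOfUnit (1 + X * r) 1

lemma mul_sig (r : R⟦X⟧) : (1 + X * r) * sig r = 1 := mul_invOfUnit _ _ (by simp)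

lemma sig_zero (r : R⟦X⟧) : coeff 0 (sig r) = 1 := by simp [sig]

/-- the convergents -/
noncomputable def rr (R : Type) [CommRing R] : ℕ → R⟦X⟧
  | 0 => 0
  | k + 1 => sig (rr R k)

lemma rr_one : rr R 1 = 1 := by simpa [rr] using mul_sig (0 : R⟦X⟧)

lemma rr_sub : ∀ k : ℕ, ∃ u : R⟦X⟧, coeff 0 u = (-1) ^ k ∧ rr R (k + 1) - rr R k = X ^ k * u
  | 0 => ⟨1, by simp, by rw [rr_one]; simp [rr]⟩
  | k + 1 => by
    obtain ⟨u, h1, h2⟩ := rr_sub k
    refine ⟨-(u * (sig (rr R (k + 1)) * sig (rr R k))), ?_, ?_⟩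
    · rw [map_neg, coeff_zero_mul, coeff_zero_mul, h1, sig_zero, sig_zero]
      ring
    · change sig (rr R (k + 1)) - sig (rr R k) = _
      linear_combination (-sig (rr R (k + 1))) * mul_sig (rr R k) +
        sig (rr R k) * mul_sig (rr R (k + 1)) -
        X * (sig (rr R (k + 1)) * sig (rr R k)) * h2

/-- the continued fraction of a path some of whose links are cut -/
noncomputable def cf (R : Type) [CommRing R] : (m : ℕ) → (Fin m → Bool) → R⟦X⟧
  | 0, _ => 1
  | m + 1, x => if x 0 then 1 else sig (cf R m (Fin.tail x))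

/-- the sign of a vertex of the cube -/
def sgn (R : Type) [CommRing R] {m : ℕ} (ε : Fin m → Bool) : R := ∏ i, if ε i then -1 else 1

lemma sum_cons {M : Type} [AddCommMonoid M] {Y : Type} [Fintype Y] {m : ℕ}
    (f : (Fin (m + 1) → Y) → M) :
    ∑ y, f y = ∑ t : Y, ∑ y : Fin m → Y, f (Fin.cons t y) := by
  rw [← Fintype.sum_prod_type', ← (Fin.consEquiv fun _ => Y).sum_comp]
  rfl

lemma sgn_cons {m : ℕ} (t : Bool) (ε : Fin m → Bool) :
    sgn R (Fin.cons t ε : Fin (m + 1) → Bool) = (if t then -1 else 1) * sgn R ε := by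
  simp [sgn, Fin.prod_univ_succ]

lemma alt_cf : ∀ (m : ℕ) (h : R⟦X⟧ → R), ∑ ε : Fin (m + 1) → Bool, sgn R ε * h (cf R (m + 1) ε) =
    h (rr R (m + 2)) - h (rr R (m + 1))
  | 0, h => by
    rw [sum_cons]
    have : rr R 2 = sig 1 := by rw [rr, rr_one]
    simp [cf, rr_one, this, sgn, sub_eq_neg_add]
  | m + 1, h => by
    have h1 := alt_cf m fun r => h (sig r)
    have h2 := alt_cf m fun _ => h 1
    rw [sum_cons, Fintype.sum_bool]
    simp only [sgn_cons, cf, Fin.cons_zero, Fin.tail_cons, if_true, Bool.false_eq_true, if_false,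
      one_mul, neg_mul, sum_neg_distrib] at h1 h2 ⊢
    rw [h1, h2]
    change _ = h (sig (rr R (m + 2))) - h (sig (rr R (m + 1)))
    ring

lemma Z_path (G : SimpleGraph V) : ∀ (m : ℕ) (b : Fin (m + 1) → V) (x : Fin m → Bool),
    Function.Injective b → (∀ i j : Fin (m + 1), i.val + 2 ≤ j.val → G.Adj (b i) (b j)) →
    (∀ i : Fin m, G.Adj (b i.castSucc) (b i.succ) ↔ x i = true) →
    Z R G (univ.image fun i : Fin m => b i.succ) = cf R m x * Z R G (univ.image b)
  | 0, b, x, _, _, _ => by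
    have := Z_insert (R := R) G (S := ∅) (A := ∅) (v := b 0) (by simp) (by simp) (by simp)
    rw [th_empty, Z_empty] at this
    simpa [cf, Z_empty] using this.symm
  | m + 1, b, x, hb, h1, h2 => by
    have ih := Z_path G m (fun i => b i.succ) (Fin.tail x) (hb.comp (Fin.succ_injective _))
      (fun i j hij => h1 _ _ (by simpa using hij)) fun i => h2 i.succ
    have e1 : univ.image b = insert (b 0) (univ.image fun i : Fin (m + 1) => b i.succ) := by
      rw [Fin.univ_succ, cons_eq_insert, image_insert, map_eq_image, image_image]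
      rfl
    have hv : b 0 ∉ univ.image fun i : Fin (m + 1) => b i.succ := by
      simp [hb.eq_iff, (Fin.succ_ne_zero _)]
    have hadj : ∀ i : Fin (m + 1), i ≠ 0 → G.Adj (b 0) (b i.succ) := fun i hi =>
      h1 _ _ (by have := Fin.pos_iff_ne_zero.2 hi; simp; omega)
    rw [e1, cf]
    by_cases hx : x 0 = true
    · rw [if_pos hx, one_mul, Z_insert G hv (empty_subset _), th_empty]
      intro w hw
      obtain ⟨i, -, rfl⟩ := mem_image.1 hw
      by_cases hi : i = 0
      · subst hi
        simpa using (h2 0).2 hx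
      · simpa using hadj i hi
    · rw [if_neg hx, Z_insert G hv (A := {b (0 : Fin (m + 1)).succ})
        (singleton_subset_iff.2 (mem_image_of_mem _ (mem_univ (0 : Fin (m + 1))))), th_single]
      · have e2 : (univ.image fun i : Fin (m + 1) => b i.succ) \ {b (0 : Fin (m + 1)).succ} =
            univ.image fun i : Fin m => b i.succ.succ := by
          ext w
          simp only [mem_sdiff, mem_image, mem_univ, true_and, mem_singleton]
          constructor
          · rintro ⟨⟨i, rfl⟩, hi⟩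
            obtain rfl | ⟨j, rfl⟩ := i.eq_zero_or_eq_succ
            · exact absurd rfl hi
            · exact ⟨j, rfl⟩
          · rintro ⟨j, rfl⟩
            exact ⟨⟨_, rfl⟩, fun h => Fin.succ_ne_zero _ (Fin.succ_injective _ (hb h))⟩
        rw [e2, ih]
        linear_combination (-Z R G (univ.image fun i : Fin (m + 1) => b i.succ)) *
          mul_sig (cf R m (Fin.tail x))
      · intro w hw
        obtain ⟨i, -, rfl⟩ := mem_image.1 hw
        by_cases hi : i = 0
        · subst hi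
          simpa using fun h => hx ((h2 0).1 h)
        · exact iff_of_true (hadj i hi) fun h => hi (Fin.succ_injective _ (hb (mem_singleton.1 h)))

/-- the difference of the two ratios on a path template -/
lemma diff_path {G H : SimpleGraph V} {U A : Finset V} (hA : A ⊆ U)
    (h : ∀ u v, ¬ (u ∈ U ∧ v ∈ U) → (G.Adj u v ↔ H.Adj u v)) {m : ℕ} {b : Fin (m + 1) → V}
    {x : Fin m → Bool} (hb : Function.Injective b) (hU : ∀ i, b i ∉ U)
    (h1 : ∀ i j : Fin (m + 1), i.val + 2 ≤ j.val → G.Adj (b i) (b j))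
    (h2 : ∀ i : Fin m, G.Adj (b i.castSucc) (b i.succ) ↔ x i = true)
    (h3 : ∀ u ∈ U, ∀ i : Fin m, G.Adj u (b i.succ)) (h4 : ∀ w ∈ U, (G.Adj (b 0) w ↔ w ∉ A)) :
    rho R G U U (univ.image b) - rho R H U U (univ.image b) = Z R G U - Z R H U +
      (th R G U A - Z R G U - (th R H U A - Z R H U)) * cf R m x := by
  have e1 : univ.image b = insert (b 0) (univ.image fun i : Fin m => b i.succ) := by
    rw [Fin.univ_succ, cons_eq_insert, image_insert, map_eq_image, image_image]
    rfl
  have hv : b 0 ∉ univ.image fun i : Fin m => b i.succ := by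
    simp [hb.eq_iff, (Fin.succ_ne_zero _)]
  have e2 : univ.image b \ U = univ.image b := by
    refine sdiff_eq_self_of_disjoint (Finset.disjoint_left.2 fun w hw => ?_)
    obtain ⟨i, -, rfl⟩ := mem_image.1 hw
    exact hU i
  have tG := Z_templ (R := R) G (hU 0) hv hA (fun u hu w hw => by
    obtain ⟨i, -, rfl⟩ := mem_image.1 hw
    exact h3 u hu i) h4
  have tH := Z_templ (R := R) H (hU 0) hv hA (fun u hu w hw => by
    obtain ⟨i, -, rfl⟩ := mem_image.1 hw
    exact (h _ _ fun h' => hU _ h'.2).1 (h3 u hu i))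
    fun w hw => (h _ _ fun h' => hU _ h'.1).symm.trans (h4 w hw)
  have hb' : ∀ u ∈ univ.image b, ∀ v ∈ univ.image b, (H.Adj u v ↔ G.Adj u v) := by
    intro u hu v _
    obtain ⟨i, -, rfl⟩ := mem_image.1 hu
    exact (h _ _ fun h' => hU _ h'.1).symm
  have e3 : Z R H (univ.image fun i : Fin m => b i.succ) =
      Z R G (univ.image fun i : Fin m => b i.succ) :=
    Z_congr fun u hu v hv => hb' u (e1 ▸ mem_insert_of_mem hu) v (e1 ▸ mem_insert_of_mem hv)
  rw [← e1] at tG tH
  rw [rho, rho, e2, tG, tH, Zi_congr hb', Z_congr hb', e3, Z_path G m b x hb h1 h2]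
  linear_combination (Z R G U - Z R H U + (th R G U A - Z R G U - (th R H U A - Z R H U)) *
    cf R m x) * Z_mul_Zi (R := R) G (univ.image b)

end Pool.Agent.Lib.MP_f7f352_co.L
end

-- part Pool.Agent.Lib.MP_f7f352_co.LBox
section

/-! Averages, the box inequality and character sums. -/

set_option autoImplicit false

namespace Pool.Agent.Lib.MP_f7f352_co.L

open Finset
open scoped ComplexConjugate

/-- the average over a finite type -/
noncomputable def av {α : Type} [Fintype α] (f : α → ℂ) : ℂ := (∑ x, f x) / Fintype.card α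

section av

variable {α β : Type} [Fintype α] [Fintype β]

lemma av_equiv (e : α ≃ β) (f : β → ℂ) : av (fun x => f (e x)) = av f := by
  rw [av, av, e.sum_comp, Fintype.card_congr e]

lemma av_prod (f : α × β → ℂ) : av f = av fun a => av fun b => f (a, b) := by
  simp only [av, Fintype.sum_prod_type, ← sum_div, Fintype.card_prod, Nat.cast_mul, div_div,
    mul_comm]

lemma av_comm (f : α → β → ℂ) : (av fun a => av fun b => f a b) = av fun b => av fun a => f a b := by
  simp only [av, ← sum_div, div_div]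
  rw [sum_comm, mul_comm]

lemma av_const [Nonempty α] (c : ℂ) : (av fun _ : α => c) = c := by
  have : (Fintype.card α : ℂ) ≠ 0 := Nat.cast_ne_zero.2 Fintype.card_ne_zero
  simp [av, this]

lemma norm_av_le [Nonempty α] {f : α → ℂ} {c : ℝ} (h : ∀ x, ‖f x‖ ≤ c) : ‖av f‖ ≤ c := by
  have h0 : (0 : ℝ) < Fintype.card α := Nat.cast_pos.2 Fintype.card_pos
  rw [av, norm_div, Complex.norm_natCast, div_le_iff₀ h0]
  refine (norm_sum_le _ _).trans ((sum_le_card_nsmul _ _ c fun x _ => h x).trans ?_)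
  simp [mul_comm]

lemma sq_norm_av (f : α → ℂ) : ‖av f‖ ^ 2 ≤ ‖av fun x => f x * conj (f x)‖ := by
  have e : ∑ x, f x * conj (f x) = ((∑ x, ‖f x‖ ^ 2 : ℝ) : ℂ) := by
    simp [Complex.mul_conj, Complex.normSq_eq_norm_sq]
  rcases Nat.eq_zero_or_pos (Fintype.card α) with h | h
  · simp [av, h]
  have h0 : (0 : ℝ) < Fintype.card α := Nat.cast_pos.2 h
  rw [av, av, e, norm_div, norm_div, Complex.norm_natCast, Complex.norm_real,
    Real.norm_of_nonneg (sum_nonneg fun _ _ => sq_nonneg _), div_pow, div_le_div_iff₀ (by positivity) h0]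
  have h1 := pow_le_pow_left₀ (norm_nonneg _) (norm_sum_le univ f) 2
  have h2 := sq_sum_le_card_mul_sum_sq (s := univ) (f := fun x => ‖f x‖)
  rw [card_univ] at h2
  nlinarith

lemma av_mul_conj (f : α → ℂ) : av f * conj (av f) = av fun a => av fun b => f a * conj (f b) := by
  simp only [av, map_div₀, map_sum, map_natCast, ← mul_sum, mul_div_assoc, ← sum_mul]
  ring

lemma av_pi {κ : Type} [Fintype κ] [DecidableEq κ] {P : κ → Type} [∀ c, Fintype (P c)]
    (f : ∀ c, P c → ℂ) : (av fun z : ∀ c, P c => ∏ c, f c (z c)) = ∏ c, av (f c) := by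
  simp only [av, prod_div_distrib, Fintype.prod_sum, Fintype.card_pi, Nat.cast_prod]

lemma av_cons {m : ℕ} (f : (Fin (m + 1) → α) → ℂ) :
    av f = av fun t : α => av fun y : Fin m → α => f (Fin.cons t y) := by
  rw [← av_equiv (Fin.consEquiv fun _ => α), av_prod]
  rfl

lemma norm_av_two {f : α → ℂ} (h : ∀ x, ‖f x‖ ≤ 1) {x y : α} (hne : x ≠ y) {η : ℝ}
    (h2 : ‖f x + f y‖ ≤ 2 - η) : ‖av f‖ ≤ 1 - η / Fintype.card α := by
  classical
  have h0 : (0 : ℝ) < Fintype.card α := Nat.cast_pos.2 (Fintype.card_pos_iff.2 ⟨x⟩)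
  have h1 : ‖∑ z ∈ univ \ {x, y}, f z‖ ≤ Fintype.card α - 2 := by
    refine (norm_sum_le _ _).trans ((sum_le_card_nsmul _ _ 1 fun z _ => h z).trans ?_)
    have := card_sdiff_add_card_eq_card (subset_univ {x, y})
    rw [card_pair hne, card_univ] at this
    rw [← this]
    simp
  rw [av, norm_div, Complex.norm_natCast, div_le_iff₀ h0, sub_mul, div_mul_cancel₀ _ h0.ne',
    ← sum_sdiff (subset_univ {x, y}), sum_pair hne]
  linarith [norm_add_le (∑ z ∈ univ \ {x, y}, f z) (f x + f y)]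

end av

/-- the point of the cube spanned by `y₀` and `y₁` -/
def mix {ι Y : Type} (y₀ y₁ : ι → Y) (ε : ι → Bool) : ι → Y := fun i => if ε i then y₁ i else y₀ i

lemma mix_cons {Y : Type} {m : ℕ} (t₀ t₁ : Y) (y₀ y₁ : Fin m → Y) (e : Bool) (ε : Fin m → Bool) :
    mix (Fin.cons t₀ y₀ : Fin (m + 1) → Y) (Fin.cons t₁ y₁) (Fin.cons e ε) =
      Fin.cons (if e then t₁ else t₀) (mix y₀ y₁ ε) := by
  funext i
  refine Fin.cases ?_ (fun j => ?_) i <;> simp [mix]

theorem box {R Y : Type} [CommRing R] [Finite R] [Fintype Y] [Nonempty Y] (ψ : AddChar R ℂ) :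
    ∀ (m : ℕ) (Ω : Type) [Fintype Ω] (Q : Ω → (Fin m → Y) → R),
    ‖av fun ω => av fun y => ψ (Q ω y)‖ ^ 2 ^ m ≤
      ‖av fun ω => av fun y₀ => av fun y₁ => ψ (∑ ε, sgn R ε * Q ω (mix y₀ y₁ ε))‖
  | 0, Ω, _, Q => by
    rw [pow_zero, pow_one]
    refine le_of_eq (congrArg _ (congrArg _ (funext fun ω => congrArg _ (funext fun y => ?_))))
    rw [← av_const (α := Fin 0 → Y) (ψ (Q ω y))]
    refine congrArg _ (funext fun y' => ?_)
    rw [Fintype.sum_unique, Subsingleton.elim (mix _ _ _) y]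
    simp [sgn]
  | m + 1, Ω, _, Q => by
    have h1 := sq_norm_av fun p : Ω × (Fin m → Y) => av fun t => ψ (Q p.1 (Fin.cons t p.2))
    have h2 := box ψ m (Ω × Y × Y) fun ω y =>
      Q ω.1 (Fin.cons ω.2.1 y) - Q ω.1 (Fin.cons ω.2.2 y)
    have e1 : (av fun ω => av fun y => ψ (Q ω y)) =
        av fun p : Ω × (Fin m → Y) => av fun t => ψ (Q p.1 (Fin.cons t p.2)) := by
      rw [av_prod]
      exact congrArg _ (funext fun ω => by rw [av_cons, av_comm])
    rw [pow_succ', pow_mul, e1]
    refine (pow_le_pow_left₀ (by positivity) h1 _).trans (le_of_eq_of_le ?_ (h2.trans_eq ?_))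
    · congr 2
      rw [av_prod, av_prod]
      refine congrArg _ (funext fun ω => ?_)
      rw [av_prod]
      simp only [av_mul_conj]
      rw [av_comm]
      refine congrArg _ (funext fun t₀ => ?_)
      rw [av_comm]
      simp only [sub_eq_add_neg, AddChar.map_add_eq_mul, AddChar.map_neg_eq_conj]
    · congr 1
      rw [av_prod]
      refine congrArg _ (funext fun ω => ?_)
      rw [av_prod, av_cons]
      refine congrArg _ (funext fun t₀ => ?_)
      rw [av_comm]
      refine congrArg _ (funext fun y₀ => ?_)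
      rw [av_cons]
      refine congrArg _ (funext fun t₁ => congrArg _ (funext fun y₁ => congrArg _ ?_))
      rw [sum_cons, Fintype.sum_bool, ← sum_add_distrib]
      refine sum_congr rfl fun ε _ => ?_
      simp only [mix_cons, sgn_cons, if_true, Bool.false_eq_true, if_false]
      ring

lemma char_sum {R κ : Type} [AddCommMonoid R] (ψ : AddChar R ℂ) (s : Finset κ) (f : κ → R) :
    ψ (∑ c ∈ s, f c) = ∏ c ∈ s, ψ (f c) := by
  classical
  induction s using Finset.induction_on with
  | empty => simp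
  | insert a s ha ih => rw [sum_insert ha, prod_insert ha, AddChar.map_add_eq_mul, ih]

lemma norm_one_add_char {p : ℕ} [NeZero p] {x : ZMod p} (hx : x ≠ 0) :
    ‖1 + ZMod.stdAddChar x‖ ≤ 2 - 4 / (p : ℝ) ^ 2 := by
  have hp : (0 : ℝ) < p := Nat.cast_pos.2 (NeZero.pos p)
  have h1 : (1 : ℝ) ≤ |(x.valMinAbs : ℝ)| := by
    exact_mod_cast Int.one_le_abs fun h => hx ((ZMod.valMinAbs_eq_zero x).1 h)
  have h2 : 2 * |(x.valMinAbs : ℝ)| ≤ p := by
    have := ZMod.natAbs_valMinAbs_le x
    have h3 : 2 * |x.valMinAbs| ≤ p := by rw [Int.abs_eq_natAbs]; omega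
    exact_mod_cast h3
  set θ : ℝ := 2 * Real.pi * x.valMinAbs / p with hθ
  have e1 : ZMod.stdAddChar x = Complex.exp (θ * Complex.I) := by
    conv_lhs => rw [← ZMod.coe_valMinAbs x, ZMod.stdAddChar_coe]
    congr 1
    rw [hθ]
    push_cast
    ring
  have e2 : |θ| = 2 * Real.pi * |(x.valMinAbs : ℝ)| / p := by
    rw [hθ, abs_div, abs_mul, abs_of_pos hp, abs_of_pos (by positivity : 0 < 2 * Real.pi)]
  have h3 : Real.cos θ ≤ 1 - 8 / (p : ℝ) ^ 2 := by
    refine (Real.cos_le_one_sub_mul_cos_sq ?_).trans ?_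
    · rw [e2, div_le_iff₀ hp]
      nlinarith [Real.pi_pos]
    · have e3 : 2 / Real.pi ^ 2 * θ ^ 2 = 8 * |(x.valMinAbs : ℝ)| ^ 2 / (p : ℝ) ^ 2 := by
        rw [← sq_abs θ, e2]
        field_simp
        ring
      rw [e3]
      have : 8 / (p : ℝ) ^ 2 ≤ 8 * |(x.valMinAbs : ℝ)| ^ 2 / (p : ℝ) ^ 2 :=
        div_le_div_of_nonneg_right (by nlinarith) (by positivity)
      linarith
  have h4 : 4 / (p : ℝ) ^ 2 ≤ 1 := by
    rw [div_le_one (by positivity)]
    nlinarith
  refine abs_le_of_sq_le_sq' ?_ (by linarith) |>.2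
  rw [e1, ← Complex.normSq_eq_norm_sq, Complex.normSq_apply]
  simp only [Complex.add_re, Complex.one_re, Complex.exp_ofReal_mul_I_re, Complex.add_im,
    Complex.one_im, Complex.exp_ofReal_mul_I_im, zero_add]
  have e4 : 8 / (p : ℝ) ^ 2 = 2 * (4 / (p : ℝ) ^ 2) := by ring
  nlinarith [Real.sin_sq_add_cos_sq θ, sq_nonneg (4 / (p : ℝ) ^ 2)]

/-- if all nontrivial character sums are small then common zeros are rare -/
lemma card_zero_le {Ω : Type} [Fintype Ω] [Nonempty Ω] {p d : ℕ} [NeZero p]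
    (f : Ω → Fin d → ZMod p) {β : ℝ} (hβ : 0 ≤ β) (h : ∀ a : Fin d → ZMod p, a ≠ 0 →
      ‖av fun ω => ZMod.stdAddChar (∑ i, a i * f ω i)‖ ≤ β) (s : Finset Ω)
    (hs : ∀ ω ∈ s, f ω = 0) : (s.card : ℝ) ≤ (1 / (p : ℝ) ^ d + β) * Fintype.card Ω := by
  classical
  have hp : (0 : ℝ) < (p : ℝ) ^ d := pow_pos (Nat.cast_pos.2 (NeZero.pos p)) d
  have h0 : (0 : ℝ) < Fintype.card Ω := Nat.cast_pos.2 Fintype.card_pos
  have e1 : ∀ ω, ∑ a : Fin d → ZMod p, ZMod.stdAddChar (∑ i, a i * f ω i) =
      ((if f ω = 0 then (p : ℝ) ^ d else 0 : ℝ) : ℂ) := fun ω => by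
    simp only [char_sum]
    rw [← Fintype.prod_sum fun i x => ZMod.stdAddChar (x * f ω i)]
    simp only [AddChar.sum_mulShift _ (ZMod.isPrimitive_stdAddChar p), ZMod.card]
    split_ifs with h1
    · simp [h1]
    · obtain ⟨i, hi⟩ := Function.ne_iff.1 h1
      rw [prod_eq_zero (mem_univ i) (by simpa using fun h' => absurd h' hi)]
      simp
  have e2 : ((∑ ω, if f ω = 0 then (p : ℝ) ^ d else 0 : ℝ) : ℂ) / Fintype.card Ω =
      ∑ a : Fin d → ZMod p, av fun ω => ZMod.stdAddChar (∑ i, a i * f ω i) := by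
    simp only [av, ← sum_div]
    rw [sum_comm, sum_congr rfl fun ω _ => e1 ω, Complex.ofReal_sum]
  have h1 : (s.card : ℝ) * (p : ℝ) ^ d ≤ ∑ ω, if f ω = 0 then (p : ℝ) ^ d else 0 := by
    rw [← nsmul_eq_mul, ← sum_const]
    refine (sum_congr rfl fun ω hω => (if_pos (hs ω hω)).symm).trans_le
      (sum_le_sum_of_subset_of_nonneg (subset_univ _) fun ω _ _ => ?_)
    split_ifs <;> positivity
  have h2 : ‖∑ a : Fin d → ZMod p, av fun ω => ZMod.stdAddChar (∑ i, a i * f ω i)‖ ≤
      1 + (p : ℝ) ^ d * β := by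
    rw [← add_sum_erase _ _ (mem_univ 0)]
    refine (norm_add_le _ _).trans (add_le_add (norm_av_le fun ω => by simp) ?_)
    refine (norm_sum_le _ _).trans ((sum_le_card_nsmul _ _ β fun a ha =>
      h a (ne_of_mem_erase ha)).trans ?_)
    rw [nsmul_eq_mul]
    refine mul_le_mul_of_nonneg_right ?_ hβ
    have := card_erase_le (s := (univ : Finset (Fin d → ZMod p))) (a := 0)
    rw [card_univ, Fintype.card_fun, ZMod.card, Fintype.card_fin] at this
    exact_mod_cast this
  rw [← e2, norm_div, Complex.norm_natCast, Complex.norm_real, div_le_iff₀ h0] at h2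
  refine le_of_mul_le_mul_right (h1.trans ((le_abs_self _).trans (h2.trans_eq ?_))) hp
  field_simp

end Pool.Agent.Lib.MP_f7f352_co.L
end

-- part Pool.Agent.Lib.MP_f7f352_co.LMain
section

/-! Equidistribution of the local invariants and the union bound. -/

set_option autoImplicit false

namespace Pool.Agent.Lib.MP_f7f352_co.L

open Finset PowerSeries U SimpleGraph
open scoped symmDiff

variable {V : Type} [Fintype V] [DecidableEq V]

omit [Fintype V] [DecidableEq V] in
lemma sd_adj (G K : SimpleGraph V) (u v : V) : (G ∆ K).Adj u v ↔ ¬ (G.Adj u v ↔ K.Adj u v) := by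
  simp only [symmDiff_def, sup_adj, sdiff_adj]
  tauto

lemma av_tog {Y : Type} [Fintype Y] [Nonempty Y] (τ : Y → SimpleGraph V)
    (f : SimpleGraph V → ℂ) : av f = av fun G => av fun y => f (G ∆ τ y) := by
  rw [av_comm, ← av_const (α := Y) (av f)]
  exact congrArg _ (funext fun y => (av_equiv (symmDiff_left_involutive (τ y)).toPerm f).symm)

omit [DecidableEq V] in
lemma card_supp (T : Finset V) :
    Nat.card {k : SimpleGraph V // ∀ u v, k.Adj u v → u ∈ T ∧ v ∈ T} ≤ 2 ^ (T.card ^ 2) := by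
  classical
  refine (Nat.card_le_card_of_injective (fun k (u v : T) => k.1.Adj u v) fun k k' h => ?_).trans ?_
  · refine Subtype.ext (SimpleGraph.ext (funext fun u => funext fun v => propext ⟨fun h1 => ?_,
      fun h1 => ?_⟩))
    · exact (congrFun (congrFun h ⟨u, (k.2 u v h1).1⟩) ⟨v, (k.2 u v h1).2⟩).mp h1
    · exact (congrFun (congrFun h ⟨u, (k'.2 u v h1).1⟩) ⟨v, (k'.2 u v h1).2⟩).mpr h1
  · simp [← pow_mul, sq]

section Alg

variable {R : Type} [CommRing R] (U : Finset V) (K : SimpleGraph V) {d : ℕ} (a : Fin d → R)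

/-- the tested combination of the coefficients of the difference of the two ratios -/
noncomputable def Ev (G : SimpleGraph V) (S : Finset V) : R :=
  ∑ i, a i * coeff (i.val + 3) (rho R G U U S - rho R (G ∆ K) U U S)

variable {U}

lemma rho_congr {G G' : SimpleGraph V} {S : Finset V}
    (h : ∀ u ∈ U ∪ S, ∀ v ∈ U ∪ S, (G.Adj u v ↔ G'.Adj u v)) :
    rho R G U U S = rho R G' U U S := by
  have s1 : S \ U ∪ U ⊆ U ∪ S :=
    union_subset (sdiff_subset.trans subset_union_right) subset_union_left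
  have s2 : S \ U ⊆ U ∪ S := sdiff_subset.trans subset_union_right
  rw [rho, rho, Z_congr fun u hu v hv => h u (s1 hu) v (s1 hv),
    Zi_congr fun u hu v hv => h u (s2 hu) v (s2 hv)]

lemma Ev_congr {G G' : SimpleGraph V} {S : Finset V}
    (h : ∀ u ∈ U ∪ S, ∀ v ∈ U ∪ S, (G.Adj u v ↔ G'.Adj u v)) : Ev U K a G S = Ev U K a G' S := by
  rw [Ev, Ev, rho_congr h, rho_congr (G := G ∆ K) (G' := G' ∆ K) fun u hu v hv => by
    rw [sd_adj, sd_adj, h u hu v hv]]

variable {K a}

omit [Fintype V] [DecidableEq V] in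
lemma agree (hK : ∀ u v, K.Adj u v → u ∈ U ∧ v ∈ U) (G : SimpleGraph V) (u v : V)
    (h : ¬ (u ∈ U ∧ v ∈ U)) : G.Adj u v ↔ (G ∆ K).Adj u v := by
  have := mt (hK u v) h
  rw [sd_adj]
  tauto

lemma Ev_deg (hK : ∀ u v, K.Adj u v → u ∈ U ∧ v ∈ U) {m : ℕ} (ha : ∀ i, m < i.val → a i = 0)
    (G : SimpleGraph V) : Ev U K a G ∈ Deg R V (m + 2 : ℕ) := by
  have e : Ev U K a G = ∑ i, a i • fun S =>
      coeff (i.val + 3) (rho R G U U S - rho R (G ∆ K) U U S) := by
    funext S
    simp [Ev]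
  rw [e]
  refine Submodule.sum_mem _ fun i _ => ?_
  by_cases hi : m < i.val
  · rw [ha i hi, zero_smul]
    exact Submodule.zero_mem _
  · exact Submodule.smul_mem _ _ (Deg_mono (by push_cast; omega)
      (loc_diff (agree hK G) U U Subset.rfl Subset.rfl (i.val + 3)))

end Alg

section Templ

variable {κ : Type} {m : ℕ} (U : Finset V) (b : κ → Fin (m + 2) → V)

/-- the pairs that belong to the copy `c` -/
def msk (c : κ) : SimpleGraph V :=
  fromRel fun v w => v ∈ univ.image (b c) ∧ w ∈ U ∪ univ.image (b c)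

/-- the links of the copy `c` selected by `η` -/
def lnk (c : κ) (η : Fin (m + 1) → Bool) : SimpleGraph V :=
  fromRel fun v w => ∃ i, η i = true ∧ v = b c i.castSucc ∧ w = b c i.succ

omit [Fintype V] in
lemma lnk_le (c : κ) (η : Fin (m + 1) → Bool) : lnk b c η ≤ msk U b c := by
  rintro v w ⟨h1, ⟨i, -, rfl, rfl⟩ | ⟨i, -, rfl, rfl⟩⟩
  · exact ⟨h1, Or.inl (by simp)⟩
  · exact ⟨h1, Or.inr (by simp)⟩

variable {U b} (hb : ∀ c i c' i', b c i = b c' i' → c = c' ∧ i = i') (hU : ∀ c i, b c i ∉ U)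

include hb hU

omit [Fintype V] in
lemma sup_loc {k : κ → SimpleGraph V} (hk : ∀ c, k c ≤ msk U b c) (G : SimpleGraph V) (c : κ) :
    ∀ u ∈ U ∪ univ.image (b c), ∀ v ∈ U ∪ univ.image (b c),
      ((G ∆ ⨆ c', k c').Adj u v ↔ (G ∆ k c).Adj u v) := by
  intro u hu v hv
  have key : ∀ x ∈ U ∪ univ.image (b c), ∀ c', x ∈ univ.image (b c') → c' = c := by
    intro x hx c' hx'
    obtain ⟨i, -, rfl⟩ := mem_image.1 hx'
    obtain ⟨j, -, hj⟩ := mem_image.1 ((mem_union.1 hx).resolve_left (hU _ _))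
    exact (hb _ _ _ _ hj).1.symm
  rw [sd_adj, sd_adj, iSup_adj]
  refine not_congr (iff_congr Iff.rfl ⟨?_, fun h => ⟨c, h⟩⟩)
  rintro ⟨c', h⟩
  rcases (hk c' h).2 with h1 | h1
  · exact key u hu c' h1.1 ▸ h
  · exact key v hv c' h1.1 ▸ h

omit [Fintype V] hU in
lemma eq_copy {S : Finset V} (hS : S.card ≤ m + 2)
    (h : ∀ i : Fin (m + 1), ∃ c, b c i.castSucc ∈ S ∧ b c i.succ ∈ S) :
    ∃ c, S = univ.image (b c) := by
  have h1 : ∀ j, ∃ c, b c j ∈ S := fun j => Fin.cases ((h 0).imp fun _ h' => h'.1)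
    (fun i => (h i).imp fun _ h' => h'.2) j
  choose c' hc' using h1
  have h2 : univ.image (fun j => b (c' j) j) = S := by
    refine eq_of_subset_of_card_le (image_subset_iff.2 fun j _ => hc' j) ?_
    rw [card_image_of_injective _ fun j j' hj => (hb _ _ _ _ hj).2]
    simpa using hS
  have h3 : ∀ c j, b c j ∈ S → c = c' j := fun c j hj => by
    rw [← h2] at hj
    obtain ⟨j', -, hj'⟩ := mem_image.1 hj
    obtain ⟨e1, rfl⟩ := hb _ _ _ _ hj'
    exact e1.symm
  have h4 : ∀ j, c' j = c' 0 := fun j => by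
    induction j using Fin.induction with
    | zero => rfl
    | succ i ih =>
      obtain ⟨c, e1, e2⟩ := h i
      rw [← h3 c _ e2, h3 c _ e1, ih]
  exact ⟨c' 0, by rw [← h2]; simp only [h4]⟩

variable {R : Type} [CommRing R] {K : SimpleGraph V} {d : ℕ} {a : Fin d → R}

omit hb in
lemma alt_vanish (G : SimpleGraph V) (y₀ y₁ : Fin (m + 1) → κ → Bool) {S : Finset V}
    {i : Fin (m + 1)} (h : ∀ c, ¬ (b c i.castSucc ∈ S ∧ b c i.succ ∈ S)) :
    ∑ ε, sgn R ε * Ev U K a (G ∆ ⨆ c, lnk b c fun j => mix y₀ y₁ ε j c) S = 0 := by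
  refine sum_involution (fun ε _ => Function.update ε i (!ε i)) (fun ε _ => ?_)
    (fun ε _ _ h' => by simpa using congrFun h' i) (fun _ _ => mem_univ _) fun ε _ => by simp
  have e1 : sgn R (Function.update ε i (!ε i)) = -sgn R ε := by
    rw [sgn, sgn, ← mul_prod_erase _ _ (mem_univ i), ← mul_prod_erase _ _ (mem_univ i),
      prod_congr rfl fun j hj => by rw [Function.update_of_ne (ne_of_mem_erase hj)]]
    cases hε : ε i <;> simp
  have key : ∀ (ε ε' : Fin (m + 1) → Bool), (∀ j, j ≠ i → ε j = ε' j) → ∀ u ∈ U ∪ S, ∀ v ∈ U ∪ S,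
      ∀ c, (∃ j, mix y₀ y₁ ε j c = true ∧ u = b c j.castSucc ∧ v = b c j.succ) →
        ∃ j, mix y₀ y₁ ε' j c = true ∧ u = b c j.castSucc ∧ v = b c j.succ := by
    rintro ε ε' hε _ hu _ hv c ⟨j, h1, rfl, rfl⟩
    have hj : j ≠ i := by
      rintro rfl
      exact h c ⟨(mem_union.1 hu).resolve_left (hU _ _), (mem_union.1 hv).resolve_left (hU _ _)⟩
    exact ⟨j, by rw [← h1, mix, mix, hε j hj], rfl, rfl⟩
  have k1 := key ε (Function.update ε i (!ε i)) fun j hj => by rw [Function.update_of_ne hj]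
  have k2 := key (Function.update ε i (!ε i)) ε fun j hj => by rw [Function.update_of_ne hj]
  rw [e1, Ev_congr K a
    (G := G ∆ ⨆ c, lnk b c fun j => mix y₀ y₁ (Function.update ε i (!ε i)) j c)
    (G' := G ∆ ⨆ c, lnk b c fun j => mix y₀ y₁ ε j c), neg_mul, add_neg_cancel]
  intro u hu v hv
  rw [sd_adj, sd_adj, iSup_adj, iSup_adj]
  refine not_congr (iff_congr Iff.rfl (exists_congr fun c => and_congr_right fun _ => ?_))
  exact ⟨Or.imp (k2 u hu v hv c) (k2 v hv u hu c), Or.imp (k1 u hu v hv c) (k1 v hv u hu c)⟩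

/-- the contribution of one copy -/
noncomputable def gam (U : Finset V) (b : κ → Fin (m + 2) → V) (K : SimpleGraph V)
    (a : Fin d → R) (G : SimpleGraph V) (c : κ) (η₀ η₁ : Fin (m + 1) → Bool) : R :=
  ∑ ε, sgn R ε * Ev U K a (G ∆ lnk b c (mix η₀ η₁ ε)) (univ.image (b c))

lemma alt_split [Fintype κ] (hK : ∀ u v, K.Adj u v → u ∈ U ∧ v ∈ U)
    (ha : ∀ i, m < i.val → a i = 0) (G : SimpleGraph V) (y₀ y₁ : Fin (m + 1) → κ → Bool) :
    ∑ ε, sgn R ε * Ev U K a (G ∆ ⨆ c, lnk b c fun j => mix y₀ y₁ ε j c) univ =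
      ∑ c, gam U b K a G c (fun j => y₀ j c) fun j => y₁ j c := by
  have hd : (fun S => ∑ ε, sgn R ε * Ev U K a (G ∆ ⨆ c, lnk b c fun j => mix y₀ y₁ ε j c) S) ∈
      Deg R V (m + 2 : ℕ) := by
    have := (Deg R V (m + 2 : ℕ)).sum_mem (t := univ) fun ε _ => Submodule.smul_mem _ (sgn R ε)
      (Ev_deg hK ha (G ∆ ⨆ c, lnk b c fun j => mix y₀ y₁ ε j c))
    refine (congrArg (· ∈ Deg R V (m + 2 : ℕ)) (funext fun S => ?_)).mp this
    simp [Finset.sum_apply]
  refine (Deg_copies hd (fun c => univ.image (b c)) (fun c c' h => ?_) (fun c => ?_)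
    fun S hS hne => ?_).trans (sum_congr rfl fun c _ => sum_congr rfl fun ε _ => ?_)
  · have h' : univ.image (b c) = univ.image (b c') := h
    have : b c 0 ∈ univ.image (b c') := h' ▸ mem_image_of_mem _ (mem_univ _)
    obtain ⟨j, -, hj⟩ := mem_image.1 this
    exact (hb _ _ _ _ hj).1.symm
  · rw [card_image_of_injective _ fun j j' hj => (hb _ _ _ _ hj).2]
    simp
  · by_contra h0
    obtain ⟨c, hc⟩ := eq_copy hb hS fun i => by
      by_contra h1
      exact h0 (alt_vanish hU G y₀ y₁ fun c hc => h1 ⟨c, hc⟩)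
    exact hne c hc
  · rw [Ev_congr K a (sup_loc hb hU (fun c => lnk_le U b c _) G c)]
    congr 4
    funext j
    simp only [mix]
    split_ifs <;> rfl

lemma gam_loc {k : κ → SimpleGraph V} (hk : ∀ c, k c ≤ msk U b c) (G : SimpleGraph V) (c : κ)
    (η₀ η₁ : Fin (m + 1) → Bool) :
    gam U b K a (G ∆ ⨆ c', k c') c η₀ η₁ = gam U b K a (G ∆ k c) c η₀ η₁ :=
  sum_congr rfl fun ε _ => congrArg _ (Ev_congr K a fun u hu v hv => by
    rw [sd_adj, sd_adj (G ∆ k c), sup_loc hb hU hk G c u hu v hv])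

omit hb hU in
lemma gam_self (G : SimpleGraph V) (c : κ) (η : Fin (m + 1) → Bool) :
    gam U b K a G c η η = 0 := by
  have e : ∀ ε, mix η η ε = η := fun ε => funext fun j => by simp [mix]
  have := alt_cf (R := R) m fun _ => Ev U K a (G ∆ lnk b c η) (univ.image (b c))
  simp only [gam, e]
  rw [this, sub_self]

lemma gam_special [IsDomain R] (hK : ∀ u v, K.Adj u v → u ∈ U ∧ v ∈ U) {u₀ w₀ : V}
    (h0 : K.Adj u₀ w₀) (ha : ∀ i, m < i.val → a i = 0) {top : Fin d} (ht : top.val = m)
    (ha' : a top ≠ 0) (G : SimpleGraph V) (c : κ) :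
    ∃ k ≤ msk U b c, gam U b K a (G ∆ k) c (fun _ => false) (fun _ => true) ≠ 0 := by
  obtain ⟨A, hA, η, hη, hth⟩ := exists_probe (R := R) G (G ∆ K) (hK _ _ h0).1 (hK _ _ h0).2
    (by rw [sd_adj]; tauto)
  set Γ : SimpleGraph V := (lnk b c (fun _ => true) ⊔ fromRel fun v w => v = b c 0 ∧ w ∈ A)ᶜ
    with hΓ
  refine ⟨(G ∆ Γ) ⊓ msk U b c, inf_le_right, ?_⟩
  have hbi : Function.Injective (b c) := fun j j' hj => (hb _ _ _ _ hj).2
  have hA' : ∀ i, b c i ∉ A := fun i h => hU c i (hA h)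
  have l1 : ∀ (ε : Fin (m + 1) → Bool) (u v : V), u ∈ U → ¬ (lnk b c ε).Adj u v := by
    rintro ε u v hu ⟨-, ⟨i, -, rfl, -⟩ | ⟨i, -, -, rfl⟩⟩ <;> exact hU _ _ hu
  have l2 : ∀ (ε : Fin (m + 1) → Bool) (i j : Fin (m + 2)), i.val < j.val →
      ((lnk b c ε).Adj (b c i) (b c j) ↔ ∃ l, ε l = true ∧ i = l.castSucc ∧ j = l.succ) := by
    intro ε i j hij
    simp only [lnk, fromRel_adj, hbi.eq_iff, ne_eq]
    refine ⟨fun h => h.2.resolve_right ?_, fun h => ⟨fun h' => by simp [h'] at hij, Or.inl h⟩⟩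
    rintro ⟨l, -, rfl, rfl⟩
    simp at hij
  have key : ∀ ε, Ev U K a ((G ∆ ((G ∆ Γ) ⊓ msk U b c)) ∆ lnk b c ε) (univ.image (b c)) =
      ∑ i, a i * coeff (i.val + 3) (Z R G U - Z R (G ∆ K) U + X ^ 2 * η * cf R (m + 1) ε) := by
    intro ε
    set G' := (G ∆ ((G ∆ Γ) ⊓ msk U b c)) ∆ lnk b c ε with hG'
    have a1 : ∀ u v, (msk U b c).Adj u v →
        (G'.Adj u v ↔ ¬ (Γ.Adj u v ↔ (lnk b c ε).Adj u v)) := fun u v h => by
      rw [hG', sd_adj, sd_adj, inf_adj, sd_adj]
      tauto
    have a2 : ∀ u ∈ U, ∀ v ∈ U, (G'.Adj u v ↔ G.Adj u v) := fun u hu v hv => by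
      have h1 : ¬ (msk U b c).Adj u v := by
        rintro ⟨-, h | h⟩ <;> obtain ⟨i, -, rfl⟩ := mem_image.1 h.1
        · exact hU _ _ hu
        · exact hU _ _ hv
      have h2 := l1 ε u v hu
      rw [hG', sd_adj, sd_adj, inf_adj]
      tauto
    have a3 : ∀ u ∈ U, ∀ v ∈ U, ((G' ∆ K).Adj u v ↔ (G ∆ K).Adj u v) := fun u hu v hv => by
      rw [sd_adj G' K, sd_adj G K, a2 u hu v hv]
    have a4 : ∀ i j : Fin (m + 2), i.val < j.val → (G'.Adj (b c i) (b c j) ↔
        ¬ ((¬ ∃ l : Fin (m + 1), i = l.castSucc ∧ j = l.succ) ↔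
          ∃ l, ε l = true ∧ i = l.castSucc ∧ j = l.succ)) := fun i j hij => by
      have hne : b c i ≠ b c j := fun h => by simp [hbi h] at hij
      rw [a1 _ _ ⟨hne, Or.inl (by simp)⟩, l2 ε i j hij, hΓ, compl_adj, sup_adj, l2 _ i j hij]
      simp [hne, hA']
    have a5 : ∀ u ∈ U, ∀ i, (G'.Adj u (b c i) ↔ ¬ (i = 0 ∧ u ∈ A)) := fun u hu i => by
      have hne : u ≠ b c i := fun h => hU c i (h ▸ hu)
      have hn0 : u ≠ b c 0 := fun h => hU c 0 (h ▸ hu)
      rw [a1 _ _ ⟨hne, Or.inr (by simp [hu])⟩, hΓ, compl_adj, sup_adj]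
      simp [hne, hn0, l1 _ u _ hu, hbi.eq_iff]
    rw [Ev, diff_path (x := ε) hA (agree hK G') hbi (hU c) ?_ ?_ ?_ ?_, Z_congr a2, Z_congr a3,
      th_congr hA a2, th_congr hA a3, hth]
    · intro i j hij
      have h1 : ¬ ∃ l : Fin (m + 1), i = l.castSucc ∧ j = l.succ := by
        rintro ⟨l, rfl, rfl⟩
        simp at hij
      rw [a4 i j (by omega)]
      exact fun h => h1 ((h.1 h1).imp fun _ h' => h'.2)
    · intro i
      rw [a4 _ _ (by simp)]
      simp
    · intro u hu i
      rw [a5 u hu]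
      simp
    · intro w hw
      rw [G'.adj_comm, a5 w hw]
      simp
  have e : ∀ ε : Fin (m + 1) → Bool, mix (fun _ => false) (fun _ => true) ε = ε :=
    fun ε => funext fun j => by simp [mix]
  obtain ⟨u, hu, hu'⟩ := rr_sub (R := R) (m + 1)
  have h2 := alt_cf (R := R) m fun r =>
    ∑ i, a i * coeff (i.val + 3) (Z R G U - Z R (G ∆ K) U + X ^ 2 * η * r)
  simp only [gam, e, key]
  rw [h2, ← sum_sub_distrib, sum_eq_single top]
  · rw [← mul_sub, ← map_sub, add_sub_add_left_eq_sub, ← mul_sub, hu', ht,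
      show X ^ 2 * η * (X ^ (m + 1) * u) = X ^ (m + 3) * (η * u) by ring, coeff_X_pow_mul',
      if_pos le_rfl, Nat.sub_self, coeff_zero_mul, hu]
    exact mul_ne_zero ha' (mul_ne_zero hη (pow_ne_zero _ (by simp)))
  · intro i _ hi
    rw [← mul_sub, ← map_sub, add_sub_add_left_eq_sub, ← mul_sub, hu',
      show X ^ 2 * η * (X ^ (m + 1) * u) = X ^ (m + 3) * (η * u) by ring, coeff_X_pow_mul']
    by_cases h : m < i.val
    · rw [ha i h, zero_mul]
    · rw [if_neg (by have := mt Fin.ext hi; omega), mul_zero]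
  · simp

theorem char_bound [Fintype κ] {p : ℕ} [Fact p.Prime] {a : Fin d → ZMod p}
    (hK : ∀ u v, K.Adj u v → u ∈ U ∧ v ∈ U) {u₀ w₀ : V} (h0 : K.Adj u₀ w₀)
    (ha : ∀ i, m < i.val → a i = 0) {top : Fin d} (ht : top.val = m) (ha' : a top ≠ 0) :
    ‖av fun G => ZMod.stdAddChar (Ev U K a G univ)‖ ^ 2 ^ (m + 1) ≤
      (1 - 4 / (p : ℝ) ^ 2 / 2 ^ ((U.card + (m + 2)) ^ 2 + 2 * (m + 1))) ^ Fintype.card κ := by
  classical
  rw [av_tog fun y : Fin (m + 1) → κ → Bool => ⨆ c, lnk b c fun j => y j c]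
  refine (box (Y := κ → Bool) ZMod.stdAddChar (m + 1) (SimpleGraph V)
    fun G (y : Fin (m + 1) → κ → Bool) => Ev U K a (G ∆ ⨆ c, lnk b c fun j => y j c) univ).trans ?_
  simp only [alt_split hb hU hK ha, char_sum]
  have : ∀ c, Nonempty {k // k ≤ msk U b c} := fun c => ⟨⟨⊥, bot_le⟩⟩
  rw [av_tog fun z : ∀ c, {k // k ≤ msk U b c} => ⨆ c, (z c).1]
  refine norm_av_le fun G => ?_
  have e1 : ∀ z : ∀ c, {k // k ≤ msk U b c}, ∀ c, gam U b K a (G ∆ ⨆ c', (z c').1) c =
      gam U b K a (G ∆ (z c).1) c := fun z c =>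
    funext fun _ => funext fun _ => gam_loc hb hU (fun c => (z c).2) G c _ _
  simp only [e1]
  let e : (∀ c, {k // k ≤ msk U b c} × (Fin (m + 1) → Bool) × (Fin (m + 1) → Bool)) ≃
      (∀ c, {k // k ≤ msk U b c}) × (Fin (m + 1) → κ → Bool) × (Fin (m + 1) → κ → Bool) :=
    ⟨fun q => (fun c => (q c).1, fun j c => (q c).2.1 j, fun j c => (q c).2.2 j),
      fun q c => (q.1 c, fun j => q.2.1 j c, fun j => q.2.2 j c), fun _ => rfl, fun _ => rfl⟩
  have e2 := av_pi fun c (q : {k // k ≤ msk U b c} × (Fin (m + 1) → Bool) × (Fin (m + 1) → Bool)) =>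
    ZMod.stdAddChar (gam U b K a (G ∆ q.1.1) c q.2.1 q.2.2)
  rw [← av_equiv e.symm, av_prod] at e2
  simp only [av_prod (α := Fin (m + 1) → κ → Bool)] at e2
  refine (congrArg _ e2).trans_le ?_
  rw [norm_prod, ← card_univ, ← prod_const]
  refine prod_le_prod (fun _ _ => norm_nonneg _) fun c _ => ?_
  obtain ⟨k, hk, hx⟩ := gam_special hb hU hK h0 ha ht ha' G c
  refine (norm_av_two (fun _ => by simp) (x := (⟨k, hk⟩, fun _ => false, fun _ => false))
    (y := (⟨k, hk⟩, fun _ => false, fun _ => true)) (fun h => by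
      simpa using congrFun (congrArg (fun q => q.2.2) h) 0) (η := 4 / (p : ℝ) ^ 2) ?_).trans ?_
  · simpa [gam_self] using norm_one_add_char hx
  · refine sub_le_sub_left (div_le_div_of_nonneg_left (by positivity)
      (Nat.cast_pos.2 Fintype.card_pos) ?_) _
    have h1 : Fintype.card {k // k ≤ msk U b c} ≤ 2 ^ (U.card + (m + 2)) ^ 2 := by
      rw [← Nat.card_eq_fintype_card]
      refine (Nat.card_le_card_of_injective (fun k => (⟨k.1, fun u v h => ?_⟩ :
        {k : SimpleGraph V // ∀ u v, k.Adj u v → u ∈ U ∪ univ.image (b c) ∧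
          v ∈ U ∪ univ.image (b c)})) fun k k' h => Subtype.ext (congrArg (·.1) h)).trans
        ((card_supp _).trans (Nat.pow_le_pow_right two_pos (Nat.pow_le_pow_left ?_ 2)))
      · rcases (k.2 h).2 with h' | h'
        · exact ⟨mem_union_right _ h'.1, h'.2⟩
        · exact ⟨h'.2, mem_union_right _ h'.1⟩
      · exact (card_union_le _ _).trans (Nat.add_le_add_left (card_image_le.trans (by simp)) _)
    have h2 : Fintype.card ({k // k ≤ msk U b c} × (Fin (m + 1) → Bool) × (Fin (m + 1) → Bool)) ≤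
        2 ^ ((U.card + (m + 2)) ^ 2 + 2 * (m + 1)) := by
      simp only [Fintype.card_prod, Fintype.card_fun, Fintype.card_bool, Fintype.card_fin]
      rw [pow_add 2 _ (2 * (m + 1)), two_mul, pow_add 2 (m + 1)]
      exact Nat.mul_le_mul_right _ h1
    exact_mod_cast h2

end Templ

end Pool.Agent.Lib.MP_f7f352_co.L
end
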