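import Pool.Agent.Lib.MP_f7f352_co.LAnti

/-! Sparse path templates for the local uniqueness bound. -/

set_option autoImplicit false

namespace Pool.Agent.Lib.MP_f7f352_co.L.Sparse

open Finset PowerSeries U SimpleGraph Anti
open scoped symmDiff

variable {V : Type} [Fintype V] [DecidableEq V] {R : Type} [CommRing R]

section gen

variable {n : ℕ} (s t : Fin n → V)

/-- the links selected by `ε` -/
def lkg (ε : Fin n → Bool) : SimpleGraph V :=
  fromRel fun x y => ∃ l, ε l = true ∧ x = t l ∧ y = s l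

/-- the links inside a vertex set -/
def lkI (I : Finset V) : Finset (Fin n) := univ.filter fun l => t l ∈ I ∧ s l ∈ I

/-- the base graph with the links outside `N` added -/
def fmg (B : SimpleGraph V) (N : Finset (Fin n)) : SimpleGraph V :=
  B ⊔ lkg s t fun l => decide (l ∉ N)

omit [Fintype V] [DecidableEq V] in
lemma fmg_univ (B : SimpleGraph V) : fmg s t B univ = B := by
  ext u w
  simp [fmg, lkg]

variable {s t}

lemma fmg_ind (B : SimpleGraph V) (hst : ∀ l, t l ≠ s l) (N : Finset (Fin n))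
    (I : Finset V) : I ∈ ind (fmg s t B N) ↔ I ∈ ind (fmg s t B univ) ∧ lkI s t I ⊆ N := by
  rw [fmg_univ]
  simp only [mem_ind, fmg, sup_adj, not_or]
  constructor
  · rintro ⟨h1, h2⟩
    refine ⟨⟨h1, fun u hu w hw => (h2 u hu w hw).1⟩, fun l hl => by_contra fun hN => ?_⟩
    obtain ⟨-, a, b⟩ := mem_filter.1 hl
    exact (h2 _ a _ b).2 ⟨hst l, Or.inl ⟨l, by simpa using hN, rfl, rfl⟩⟩
  · rintro ⟨⟨h1, h2⟩, h3⟩
    refine ⟨h1, fun u hu w hw => ⟨h2 u hu w hw, ?_⟩⟩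
    rintro ⟨-, ⟨l, a, rfl, rfl⟩ | ⟨l, a, rfl, rfl⟩⟩
    · exact (by simpa using a : l ∉ N) (h3 (mem_filter.2 ⟨mem_univ _, hu, hw⟩))
    · exact (by simpa using a : l ∉ N) (h3 (mem_filter.2 ⟨mem_univ _, hw, hu⟩))

omit [Fintype V] in
lemma exists_top {I : Finset V} (H : ∀ l ∈ lkI s t I, ∀ l' ∈ lkI s t I, t l ≠ s l') {x : V}
    (hx : x ∈ I) : ∃ y ∈ I, y ∉ (lkI s t I).image s ∧ (y = x ∨ ∃ l, x = s l ∧ y = t l) := by
  by_cases h : x ∈ (lkI s t I).image s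
  · obtain ⟨l, hl, rfl⟩ := mem_image.1 h
    refine ⟨t l, (mem_filter.1 hl).2.1, fun h' => ?_, Or.inr ⟨l, rfl, rfl⟩⟩
    obtain ⟨l', hl', e⟩ := mem_image.1 h'
    exact H l hl l' hl' e.symm
  · exact ⟨x, hx, h, Or.inl rfl⟩

omit [Fintype V] in
lemma img_sub (I : Finset V) : (lkI s t I).image s ⊆ I :=
  image_subset_iff.2 fun _ hl => (mem_filter.1 hl).2.2

omit [Fintype V] in
lemma card_one (hs : Function.Injective s) {I : Finset V}
    (H : ∀ l ∈ lkI s t I, ∀ l' ∈ lkI s t I, t l ≠ s l') (hI : I.Nonempty) :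
    (lkI s t I).card + 1 ≤ I.card := by
  obtain ⟨x, hx⟩ := hI
  obtain ⟨y, h1, h2, -⟩ := exists_top H hx
  have := card_le_card (insert_subset h1 (img_sub (s := s) (t := t) I))
  rwa [card_insert_of_notMem h2, card_image_of_injective _ hs] at this

omit [Fintype V] in
lemma card_two (hs : Function.Injective s) {I : Finset V}
    (H : ∀ l ∈ lkI s t I, ∀ l' ∈ lkI s t I, t l ≠ s l') {x y : V} (hx : x ∈ I) (hy : y ∈ I)
    (h0 : x ≠ y) (h1 : ∀ l, x = s l → y ≠ t l) (h2 : ∀ l, y = s l → x ≠ t l)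
    (h3 : ∀ l l', x = s l → y = s l' → t l ≠ t l') : (lkI s t I).card + 2 ≤ I.card := by
  obtain ⟨a, a1, a2, a3⟩ := exists_top H hx
  obtain ⟨b, b1, b2, b3⟩ := exists_top H hy
  have hab : a ≠ b := by
    rintro rfl
    rcases a3 with rfl | ⟨l, rfl, rfl⟩ <;> rcases b3 with e | ⟨l', e, e'⟩
    · exact h0 e
    · exact h2 l' e e'
    · exact h1 l rfl e.symm
    · exact h3 l l' rfl e e'
  have := card_le_card (insert_subset a1 (insert_subset b1 (img_sub (s := s) (t := t) I)))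
  rwa [card_insert_of_notMem (by simp [hab, -mem_image, a2]), card_insert_of_notMem b2,
    card_image_of_injective _ hs] at this

lemma alt_ref (hs : Function.Injective s) (hst : ∀ l, t l ≠ s l) {B B' : SimpleGraph V}
    (hB : B ≤ B') (H : ∀ I ∈ ind B, ∀ l ∈ lkI s t I, ∀ l' ∈ lkI s t I, t l ≠ s l')
    (h2 : ∀ I ∈ ind B, I ∉ ind B' → (lkI s t I).card + 2 ≤ I.card) (T T' : Finset V) {k : ℕ}
    (hk : k ≤ n) :
    ∑ ε, sgn R ε * coeff k (Z R (B ⊔ lkg s t ε) T * Zi R (B ⊔ lkg s t ε) T') =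
      ∑ ε, sgn R ε * coeff k (Z R (B' ⊔ lkg s t ε) T * Zi R (B' ⊔ lkg s t ε) T') := by
  have h3 : ind B' ⊆ ind B := fun I hI => mem_ind.2 ⟨(mem_ind.1 hI).1, fun u hu w hw h =>
    (mem_ind.1 hI).2 u hu w hw (hB h)⟩
  have o1 : ∀ I ⊆ (univ : Finset V), I ∈ ind (fmg s t B univ) → (lkI s t I).card + 1 ≤ I.card :=
    fun I _ hI => by
      rw [fmg_univ] at hI
      exact card_one hs (H I hI) (mem_ind.1 hI).1
  have o2 : ∀ I ⊆ (univ : Finset V), I ∈ ind (fmg s t B' univ) → (lkI s t I).card + 1 ≤ I.card :=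
    fun I _ hI => by
      rw [fmg_univ] at hI
      exact card_one hs (H I (h3 hI)) (mem_ind.1 hI).1
  have f1 := fun N I (_ : I ⊆ univ) => fmg_ind B hst N I
  have f2 := fun N I (_ : I ⊆ univ) => fmg_ind B' hst N I
  have dd := fun T => loc_fam_diff (R := R) f1 f2 o1 (by rwa [fmg_univ, fmg_univ])
    (by rw [fmg_univ, fmg_univ]; exact fun I _ => h2 I) T (subset_univ T)
  have key := loc_ratio (loc_fam f2 o2 T (subset_univ _)) (loc_fam f1 o1 T' (subset_univ _))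
    (loc_fam f2 o2 _ (subset_univ _)) (dd _) (dd _) (fun N => Z_zero _ _)
    (fun N => Z_zero _ _) (fun N => Z_mul_Zi _ _) (fun N => Z_mul_Zi _ _)
  have h0 := alt_deg (n := n) (by omega) (key k)
  have e : ∀ (B' : SimpleGraph V) (ε : Fin n → Bool),
      fmg s t B' (off ε) = B' ⊔ lkg s t ε := fun B' ε => by
    rw [fmg]
    congr 2
    funext l
    simp [off]
  simp only [e, map_sub, mul_sub, sum_sub_distrib] at h0
  exact sub_eq_zero.1 h0

end gen

lemma rho_path {G : SimpleGraph V} {U A : Finset V} (hA : A ⊆ U) {m : ℕ} {b : Fin (m + 1) → V}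
    {x : Fin m → Bool} (hb : Function.Injective b) (hU : ∀ i, b i ∉ U)
    (h1 : ∀ i j : Fin (m + 1), i.val + 2 ≤ j.val → G.Adj (b i) (b j))
    (h2 : ∀ i : Fin m, G.Adj (b i.castSucc) (b i.succ) ↔ x i = true)
    (h3 : ∀ u ∈ U, ∀ i : Fin m, G.Adj u (b i.succ)) (h4 : ∀ w ∈ U, (G.Adj (b 0) w ↔ w ∉ A)) :
    Z R G (univ.image b ∪ U) * Zi R G (univ.image b) =
      Z R G U + (th R G U A - Z R G U) * cf R m x := by
  have e1 : univ.image b = insert (b 0) (univ.image fun i : Fin m => b i.succ) := by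
    rw [Fin.univ_succ, cons_eq_insert, image_insert, map_eq_image, image_image]
    rfl
  have hv : b 0 ∉ univ.image fun i : Fin m => b i.succ := by
    simp [hb.eq_iff, (Fin.succ_ne_zero _)]
  have tG := Z_templ (R := R) G (hU 0) hv hA (fun u hu w hw => by
    obtain ⟨i, -, rfl⟩ := mem_image.1 hw
    exact h3 u hu i) h4
  rw [← e1] at tG
  rw [tG, Z_path G m b x hb h1 h2]
  linear_combination (Z R G U + (th R G U A - Z R G U) * cf R m x) * Z_mul_Zi (R := R) G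
    (univ.image b)

section path

variable {κ : Type} {m : ℕ} {b : κ → Fin (m + 2) → V} {c : κ} {U : Finset V} {u w : V}

variable (b c u w) in
/-- the two pairs that join the path to the tested pair -/
def jn (e₀ e₁ : Bool) : SimpleGraph V :=
  fromRel fun x y => (e₀ = true ∧ x = b c 0 ∧ y = u) ∨ (e₁ = true ∧ x = b c 0 ∧ y = w)

variable (b c u w U) in
/-- the pairs that are not prescribed -/
def rest : SimpleGraph V :=
  far b c ⊔ fromRel fun x y => ∃ i, x = b c i ∧ y ∈ U ∧ ¬ (i = 0 ∧ (y = u ∨ y = w))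

lemma aux (N A B C A' B' C' : Prop) :
    N ∧ ((A ∨ B ∨ C) ∨ A' ∨ B' ∨ C') ↔ N ∧ ((A ∨ B) ∨ A' ∨ B') ∨ N ∧ (C ∨ C') := by tauto

open Classical in
lemma alt_U (hb : Function.Injective (b c)) (hU : ∀ i, b c i ∉ U) (hu : u ∈ U) (hw : w ∈ U)
    (huw : u ≠ w) {B : SimpleGraph V}
    (h2 : ∀ i j : Fin (m + 2), i.val + 2 = j.val → B.Adj (b c i) (b c j))
    (h3 : B.Adj (b c 1) u) (h4 : B.Adj (b c 1) w) (h5 : ¬ B.Adj (b c 0) u) (h6 : ¬ B.Adj (b c 0) w)
    (hL : ∀ l : Fin (m + 1), ¬ B.Adj (b c l.castSucc) (b c l.succ)) {k : ℕ} (hk : k ≤ m + 3) :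
    ∑ e₀, ∑ e₁, ∑ ε, (if e₀ = true then -1 else 1) * ((if e₁ = true then -1 else 1) * sgn R ε) *
      coeff k (rho R (B ⊔ (jn b c u w e₀ e₁ ⊔ lnk b c ε)) U U (univ.image (b c))) =
    coeff k ((if B.Adj u w then 0 else X ^ 2 * Z R B (U \ {u, w})) *
      (rr R (m + 2) - rr R (m + 1))) := by
  have hu' : ∀ i, b c i ≠ u := fun i h => hU i (h ▸ hu)
  have hw' : ∀ i, b c i ≠ w := fun i h => hU i (h ▸ hw)
  have ix : ∀ {i j : Fin (m + 2)}, b c i = b c j → i.val = j.val := fun h =>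
    congrArg Fin.val (hb h)
  obtain ⟨s, t, e, hsi, hl⟩ : ∃ s t : Fin (m + 3) → V, (∀ (e₀ e₁ : Bool) (ε : Fin (m + 1) → Bool),
      lkg s t (Fin.cons e₀ (Fin.cons e₁ ε)) = jn b c u w e₀ e₁ ⊔ lnk b c ε) ∧
      Function.Injective s ∧ ∀ l, (t l = b c 0 ∧ (s l = u ∨ s l = w)) ∨
        ∃ i : Fin (m + 1), t l = b c i.castSucc ∧ s l = b c i.succ := by
    refine ⟨Fin.cons u (Fin.cons w fun i : Fin (m + 1) => b c i.succ),
      Fin.cons (b c 0) (Fin.cons (b c 0) fun i : Fin (m + 1) => b c i.castSucc),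
      fun e₀ e₁ ε => ?_, ?_, fun l => Fin.cases (Or.inl ⟨rfl, Or.inl rfl⟩) (fun l =>
        Fin.cases (Or.inl ⟨rfl, Or.inr rfl⟩) (fun i => Or.inr ⟨i, rfl, rfl⟩) l) l⟩
    · ext x y
      simp only [lkg, jn, lnk, sup_adj, fromRel_adj, Fin.exists_fin_succ (n := m + 2),
        Fin.exists_fin_succ (n := m + 1), Fin.cons_zero, Fin.cons_succ]
      exact aux _ _ _ _ _ _ _
    · rw [Fin.cons_injective_iff, Fin.cons_injective_iff]
      refine ⟨?_, ?_, hb.comp (Fin.succ_injective _)⟩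
      · rintro ⟨l, hl⟩
        induction l using Fin.cases with
        | zero => exact huw hl.symm
        | succ l => exact hu' _ hl
      · rintro ⟨l, hl⟩
        exact hw' _ hl
  have hc : ∀ l i, b c i = s l → ∃ j : Fin (m + 1), t l = b c j.castSucc ∧ i = j.succ := by
    intro l i h
    rcases hl l with ⟨-, a | a⟩ | ⟨j, a, a'⟩
    · exact absurd (h.trans a) (hu' _)
    · exact absurd (h.trans a) (hw' _)
    · exact ⟨j, a, hb (h.trans a')⟩
  have ht : ∀ l, ∃ i, t l = b c i := fun l => (hl l).elim (fun h => ⟨_, h.1⟩) fun ⟨_, h, _⟩ => ⟨_, h⟩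
  have hst : ∀ l, t l ≠ s l := fun l h => by
    obtain ⟨i, hi⟩ := ht l
    obtain ⟨j, a, rfl⟩ := hc l i (hi.symm.trans h)
    simpa using ix (hi.symm.trans a)
  have H : ∀ I ∈ ind B, ∀ l ∈ lkI s t I, ∀ l' ∈ lkI s t I, t l ≠ s l' := by
    intro I hI l a l' a' h
    obtain ⟨i, hi⟩ := ht l
    obtain ⟨j, a1, rfl⟩ := hc l' i (hi.symm.trans h)
    rcases hl l with ⟨a2, -⟩ | ⟨i', a2, a3⟩
    · simpa using ix (hi.symm.trans a2)
    · have := ix (hi.symm.trans a2)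
      refine (mem_ind.1 hI).2 _ (mem_filter.1 a').2.1 _ (mem_filter.1 a).2.2 ?_
      rw [a1, a3]
      exact h2 _ _ (by simp at this ⊢; omega)
  have hfar : ∀ I ∈ ind B, I ∉ ind (B ⊔ rest b c U u w) → (lkI s t I).card + 2 ≤ I.card := by
    intro I hI hI'
    have k1 : ∀ i j : Fin (m + 2), i.val + 2 ≤ j.val → b c i ∈ I → b c j ∈ I →
        (lkI s t I).card + 2 ≤ I.card := fun i j hij hi hj => by
      refine card_two hsi (H I hI) hi hj (fun h => by have := ix h; omega) (fun l a a' => ?_)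
        (fun l a a' => ?_) fun l l' a a' h => ?_
      · obtain ⟨j', a1, rfl⟩ := hc l i a
        have := ix (a'.trans a1)
        simp at this hij
        omega
      · obtain ⟨j', a1, rfl⟩ := hc l j a
        have := ix (a'.trans a1)
        simp at this hij
        omega
      · obtain ⟨i', a1, rfl⟩ := hc l i a
        obtain ⟨j', a2, rfl⟩ := hc l' j a'
        have := ix (a1.symm.trans (h.trans a2))
        simp at this hij
        omega
    have k2 : ∀ i, ∀ y ∈ U, ¬ (i = 0 ∧ (y = u ∨ y = w)) → b c i ∈ I → y ∈ I →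
        (lkI s t I).card + 2 ≤ I.card := fun i y hy h0 hi hj => by
      have k3 : ∀ l, y = s l → t l = b c 0 ∧ (y = u ∨ y = w) := fun l a => by
        rcases hl l with h | ⟨j, -, h⟩
        · exact a ▸ h
        · exact absurd hy (a.trans h ▸ hU _)
      refine card_two hsi (H I hI) hi hj (fun h => hU i (h ▸ hy)) (fun l _ a' => ?_)
        (fun l a a' => h0 ⟨hb (a'.trans (k3 l a).1), (k3 l a).2⟩) fun l l' a a' h => ?_
      · obtain ⟨j, hj⟩ := ht l
        exact hU j (hj ▸ a' ▸ hy)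
      · obtain ⟨j, a1, rfl⟩ := hc l i a
        have e1 : j.succ = 1 := Fin.ext (by
          have := ix (a1.symm.trans (h.trans (k3 l' a').1))
          simpa using this)
        refine (mem_ind.1 hI).2 _ hi _ hj ?_
        rw [e1]
        rcases (k3 l' a').2 with rfl | rfl
        · exact h3
        · exact h4
    by_contra hc'
    refine hI' (mem_ind.2 ⟨(mem_ind.1 hI).1, fun x hx y hy h => hc' ?_⟩)
    rcases h with h | ⟨-, ⟨i, j, h, rfl, rfl⟩ | ⟨i, j, h, rfl, rfl⟩⟩ |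
      ⟨-, ⟨i, rfl, h, h'⟩ | ⟨i, rfl, h, h'⟩⟩
    · exact absurd h ((mem_ind.1 hI).2 x hx y hy)
    · exact k1 i j h hx hy
    · exact k1 i j h hy hx
    · exact k2 i y h h' hx hy
    · exact k2 i x h h' hy hx
  have e2 : univ.image (b c) \ U = univ.image (b c) := by
    refine sdiff_eq_self_of_disjoint (Finset.disjoint_left.2 fun w hw => ?_)
    obtain ⟨i, -, rfl⟩ := mem_image.1 hw
    exact hU i
  have key := alt_ref (R := R) hsi hst le_sup_left H hfar (univ.image (b c) ∪ U)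
    (univ.image (b c)) hk
  simp only [sum_cons (m := m + 2), sum_cons (m := m + 1), sgn_cons, e] at key
  simp only [rho, e2]
  rw [key]
  have nl : ∀ (ε : Fin (m + 1) → Bool) x, ∀ y ∈ U, ¬ (lnk b c ε).Adj x y := by
    rintro ε x y hy ⟨-, ⟨i, -, -, rfl⟩ | ⟨i, -, rfl, -⟩⟩ <;> exact hU _ hy
  have nf : ∀ x, ∀ y ∈ U, ¬ (far b c).Adj x y := by
    rintro x y hy ⟨-, ⟨i, j, -, -, rfl⟩ | ⟨i, j, -, rfl, -⟩⟩ <;> exact hU _ hy
  have a1 : ∀ e₀ e₁ (ε : Fin (m + 1) → Bool), ∀ x ∈ U, ∀ y ∈ U,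
      ((B ⊔ rest b c U u w ⊔ (jn b c u w e₀ e₁ ⊔ lnk b c ε)).Adj x y ↔ B.Adj x y) := by
    refine fun e₀ e₁ ε x hx y hy => ⟨?_, fun h => Or.inl (Or.inl h)⟩
    rintro ((h | h | ⟨-, ⟨i, rfl, -⟩ | ⟨i, rfl, -⟩⟩) |
      ⟨-, (⟨-, rfl, -⟩ | ⟨-, rfl, -⟩) | ⟨-, rfl, -⟩ | ⟨-, rfl, -⟩⟩ | h)
    · exact h
    · exact absurd h (nf _ _ hy)
    all_goals first | exact absurd hx (hU _) | exact absurd hy (hU _) | exact absurd h (nl _ _ _ hy)
  have a2 : ∀ e₀ e₁ (ε : Fin (m + 1) → Bool),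
      Z R (B ⊔ rest b c U u w ⊔ (jn b c u w e₀ e₁ ⊔ lnk b c ε)) (univ.image (b c) ∪ U) *
      Zi R (B ⊔ rest b c U u w ⊔ (jn b c u w e₀ e₁ ⊔ lnk b c ε)) (univ.image (b c)) =
      Z R B U + (th R B U ((if e₀ = true then ∅ else {u}) ∪ if e₁ = true then ∅ else {w}) -
        Z R B U) * cf R (m + 1) ε := fun e₀ e₁ ε => by
    have hA : ((if e₀ = true then ∅ else {u}) ∪ if e₁ = true then ∅ else {w} : Finset V) ⊆ U := by
      cases e₀ <;> cases e₁ <;> simp [hu, hw, insert_subset_iff]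
    rw [rho_path hA hb hU (x := ε) (fun i j hij => Or.inl (Or.inr (Or.inl
      ⟨fun h => by have := ix h; omega, Or.inl ⟨i, j, hij, rfl, rfl⟩⟩))) (fun l => ?_)
      (fun x hx i => Or.inl (Or.inr (Or.inr ⟨fun h => hU _ (h ▸ hx), Or.inr ⟨_, rfl, hx, fun h =>
        Fin.succ_ne_zero _ h.1⟩⟩))) fun x hx => ?_, Z_congr (a1 e₀ e₁ ε), th_congr hA (a1 e₀ e₁ ε)]
    · refine ⟨?_, fun h => Or.inr (Or.inr ((lnk_adj hb _ _ _).2 ⟨l, h, Or.inl ⟨rfl, rfl⟩⟩))⟩
      rintro ((h | ⟨-, ⟨i, j, h, a, a'⟩ | ⟨i, j, h, a, a'⟩⟩ | ⟨-, ⟨i, -, h, -⟩ | ⟨i, -, h, -⟩⟩) |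
        ⟨-, (⟨-, -, h⟩ | ⟨-, -, h⟩) | ⟨-, -, h⟩ | ⟨-, -, h⟩⟩ | h)
      · exact absurd h (hL l)
      · have := ix a
        have := ix a'
        simp at *
        omega
      · have := ix a
        have := ix a'
        simp at *
        omega
      · exact absurd h (hU _)
      · exact absurd h (hU _)
      · exact absurd h (hu' _)
      · exact absurd h (hw' _)
      · exact absurd h (hu' _)
      · exact absurd h (hw' _)
      · obtain ⟨l', h, ⟨-, a⟩ | ⟨a, a'⟩⟩ := (lnk_adj hb _ _ _).1 h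
        · rwa [Fin.succ_injective _ a]
        · have := congrArg Fin.val a
          have := congrArg Fin.val a'
          simp at *
          omega
    · have hne : b c 0 ≠ x := fun h => hU _ (h ▸ hx)
      simp only [sup_adj, rest, jn, fromRel_adj, nl _ _ _ hx, nf _ _ hx, hb.eq_iff, hne, hne.symm,
        hU, hx, hu', hw', ne_eq, not_false_eq_true]
      by_cases x1 : x = u
      · subst x1
        cases e₀ <;> cases e₁ <;> simp [h5, huw, eq_comm]
      by_cases x2 : x = w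
      · subst x2
        cases e₀ <;> cases e₁ <;> simp [h6, x1, eq_comm]
      · cases e₀ <;> cases e₁ <;> simp [x1, x2]
  simp only [a2, Fintype.sum_bool]
  have := alt_cf (R := R) m fun r =>
    coeff k ((if B.Adj u w then 0 else X ^ 2 * Z R B (U \ {u, w})) * r)
  rw [mul_sub, map_sub, ← this, ← sum_add_distrib, ← sum_add_distrib, ← sum_add_distrib]
  refine sum_congr rfl fun ε _ => ?_
  have e3 : ({u} ∪ {w} : Finset V) = {u, w} := by simp
  simp only [if_true, Bool.false_eq_true, if_false, empty_union, union_empty, e3, th_empty,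
    th_single, th_pair B U huw]
  simp only [map_add, add_mul, sub_mul, map_sub]
  ring

omit [Fintype V] [DecidableEq V] in
lemma tog_mix (hb : Function.Injective (b c)) (G : SimpleGraph V) {η : Fin (m + 1) → Bool}
    (hη : ∀ l, η l = true ↔ G.Adj (b c l.castSucc) (b c l.succ)) (ε : Fin (m + 1) → Bool) :
    G ∆ lnk b c (mix η (fun l => !η l) ε) = G \ lnk b c (fun _ => true) ⊔ lnk b c ε := by
  have l1 : ∀ (η : Fin (m + 1) → Bool) (l : Fin (m + 1)),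
      (lnk b c η).Adj (b c l.castSucc) (b c l.succ) ↔ η l = true := fun η l => by
    rw [lnk_adj hb]
    refine ⟨?_, fun h => ⟨l, h, Or.inl ⟨rfl, rfl⟩⟩⟩
    rintro ⟨l', h, ⟨-, b⟩ | ⟨a, b⟩⟩
    · rwa [Fin.succ_injective _ b]
    · have := congrArg Fin.val a
      have := congrArg Fin.val b
      simp at *
      omega
  ext x y
  by_cases h : (lnk b c fun _ => true).Adj x y
  · obtain ⟨-, ⟨l, -, rfl, rfl⟩ | ⟨l, -, rfl, rfl⟩⟩ := h
    · rw [sd_adj, sup_adj, sdiff_adj, l1, l1, l1, ← hη]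
      cases hε : ε l <;> simp [mix, hε]
    · rw [adj_comm, adj_comm (_ ⊔ _), sd_adj, sup_adj, sdiff_adj, l1, l1, l1, ← hη]
      cases hε : ε l <;> simp [mix, hε]
  · have h' : ∀ η, ¬ (lnk b c η).Adj x y := fun η h' => h ⟨h'.1, h'.2.imp
      (fun ⟨l, _, h⟩ => ⟨l, rfl, h⟩) fun ⟨l, _, h⟩ => ⟨l, rfl, h⟩⟩
    rw [sd_adj, sup_adj, sdiff_adj]
    simp [h']

variable (b c u w) in
/-- the prescribed pairs of a copy -/
def pre : SimpleGraph V := tw b c (fun _ => true) ⊔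
  fromRel fun x y => (x = b c 0 ∨ x = b c 1) ∧ (y = u ∨ y = w)

omit [Fintype V] in
lemma pre_le (hu : u ∈ U) (hw : w ∈ U) : pre b c u w ≤ msk U b c := by
  have k : ∀ x y, (x = b c 0 ∨ x = b c 1) ∧ (y = u ∨ y = w) →
      x ∈ univ.image (b c) ∧ y ∈ U ∪ univ.image (b c) := by
    rintro x y ⟨rfl | rfl, rfl | rfl⟩ <;> simp [hu, hw]
  rintro x y (⟨h, ⟨i, -, rfl, rfl⟩ | ⟨i, -, rfl, rfl⟩⟩ | ⟨h, h'⟩)
  · exact ⟨h, Or.inl (by simp)⟩
  · exact ⟨h, Or.inr (by simp)⟩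
  · exact ⟨h, h'.imp (k x y) (k y x)⟩

omit [Fintype V] [DecidableEq V] in
lemma card_pre : Nat.card {k // k ≤ pre b c u w} ≤ 2 ^ (m + 4) := by
  classical
  refine (Nat.card_le_card_of_injective (fun k => ((fun i : Fin m => k.1.Adj
    (b c i.castSucc.castSucc) (b c i.succ.succ)), k.1.Adj (b c 0) u, k.1.Adj (b c 0) w,
      k.1.Adj (b c 1) u, k.1.Adj (b c 1) w)) fun k k' h => ?_).trans (by simp [pow_add])
  simp only [Prod.mk.injEq, eq_iff_iff] at h
  obtain ⟨h0, h1, h2, h3, h4⟩ := h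
  have key : ∀ x y, (pre b c u w).Adj x y → (k.1.Adj x y ↔ k'.1.Adj x y) := by
    have k1 : ∀ x y, (x = b c 0 ∨ x = b c 1) ∧ (y = u ∨ y = w) → (k.1.Adj x y ↔ k'.1.Adj x y) := by
      rintro x y ⟨rfl | rfl, rfl | rfl⟩ <;> assumption
    rintro x y (⟨-, ⟨i, -, rfl, rfl⟩ | ⟨i, -, rfl, rfl⟩⟩ | ⟨-, h | h⟩)
    · exact (congrFun h0 i).to_iff
    · rw [adj_comm, adj_comm k'.1]
      exact (congrFun h0 i).to_iff
    · exact k1 x y h
    · rw [adj_comm, adj_comm k'.1]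
      exact k1 y x h
  exact Subtype.ext (SimpleGraph.ext (funext fun x => funext fun y =>
    propext ⟨fun h => (key x y (k.2 h)).1 h, fun h => (key x y (k'.2 h)).2 h⟩))

variable {K : SimpleGraph V} {d : ℕ} {a : Fin d → R}

lemma gam_special [IsDomain R] (hb : Function.Injective (b c)) (hU : ∀ i, b c i ∉ U)
    (hK : ∀ x y, K.Adj x y → x ∈ U ∧ y ∈ U) (h0 : K.Adj u w) (ha : ∀ i, m < i.val → a i = 0)
    {top : Fin d} (ht : top.val = m) (ha' : a top ≠ 0) (G : SimpleGraph V) :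
    ∃ k ≤ pre b c u w, ∃ η, L.gam U b K a (G ∆ k) c η (fun l => !η l) ≠ 0 := by
  classical
  obtain ⟨hu, hw⟩ := hK _ _ h0
  have hu' : ∀ i, b c i ≠ u := fun i h => hU i (h ▸ hu)
  have hw' : ∀ i, b c i ≠ w := fun i h => hU i (h ▸ hw)
  have ix : ∀ {i j : Fin (m + 2)}, b c i = b c j → i.val = j.val := fun h =>
    congrArg Fin.val (hb h)
  have nl : ∀ (ε : Fin (m + 1) → Bool) x, ∀ y ∈ U, ¬ (lnk b c ε).Adj x y := by
    rintro ε x y hy ⟨-, ⟨i, -, -, rfl⟩ | ⟨i, -, rfl, -⟩⟩ <;> exact hU _ hy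
  have n2 : ∀ (ε : Fin (m + 1) → Bool) (i j : Fin (m + 2)), i.val + 2 = j.val →
      ¬ (lnk b c ε).Adj (b c i) (b c j) := fun ε i j hij => by
    rw [lnk_adj hb]
    rintro ⟨l, -, ⟨rfl, rfl⟩ | ⟨rfl, rfl⟩⟩ <;> simp at hij
    omega
  have dj : ∀ (ε : Fin (m + 1) → Bool) x y, (pre b c u w).Adj x y → ¬ (lnk b c ε).Adj x y := by
    rintro ε x y (⟨-, ⟨i, -, rfl, rfl⟩ | ⟨i, -, rfl, rfl⟩⟩ | ⟨-, ⟨-, rfl | rfl⟩ | ⟨-, rfl | rfl⟩⟩)
    · exact n2 _ _ _ (by simp)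
    · exact fun h => n2 _ _ _ (by simp) h.symm
    · exact nl _ _ _ hu
    · exact nl _ _ _ hw
    · exact fun h => nl _ _ _ hu h.symm
    · exact fun h => nl _ _ _ hw h.symm
  have jl : ∀ e₀ e₁, jn b c u w e₀ e₁ ≤ pre b c u w := by
    rintro e₀ e₁ x y ⟨h, h'⟩
    refine Or.inr ⟨h, h'.imp ?_ ?_⟩ <;> rintro (⟨-, rfl, rfl⟩ | ⟨-, rfl, rfl⟩) <;> simp
  have jU : ∀ e₀ e₁ x y, (jn b c u w e₀ e₁).Adj x y → ¬ (x ∈ U ∧ y ∈ U) := by
    rintro e₀ e₁ x y ⟨-, (⟨-, rfl, -⟩ | ⟨-, rfl, -⟩) | ⟨-, rfl, -⟩ | ⟨-, rfl, -⟩⟩ h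
    exacts [hU _ h.1, hU _ h.1, hU _ h.2, hU _ h.2]
  set B := (G ⊔ pre b c u w) \ (jn b c u w true true ⊔ lnk b c fun _ => true) with hB
  have e1 : ∀ e₀ e₁ (ε : Fin (m + 1) → Bool),
      (G ∆ ((G ∆ (B ⊔ jn b c u w e₀ e₁)) ⊓ pre b c u w)) \ lnk b c (fun _ => true) ⊔ lnk b c ε =
      B ⊔ (jn b c u w e₀ e₁ ⊔ lnk b c ε) := fun e₀ e₁ ε => by
    rw [← sup_assoc]
    congr 1
    ext x y
    rw [sdiff_adj, sd_adj, inf_adj, sd_adj]
    by_cases h : (pre b c u w).Adj x y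
    · rw [and_iff_left h, and_iff_left (dj (fun _ => true) x y h)]
      by_cases h' : G.Adj x y <;> simp only [h', true_iff, false_iff, not_not]
    · have h1 := mt (@jl e₀ e₁ x y) h
      have h2 := mt (@jl true true x y) h
      rw [sup_adj, hB, sdiff_adj, sup_adj, sup_adj]
      simp [h, h1, h2]
  have e2 : ∀ e₀ e₁ (ε : Fin (m + 1) → Bool), (B ⊔ (jn b c u w e₀ e₁ ⊔ lnk b c ε)) ∆ K =
      B ∆ K ⊔ (jn b c u w e₀ e₁ ⊔ lnk b c ε) := fun e₀ e₁ ε => by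
    ext x y
    rw [sd_adj, sup_adj, sup_adj (B ∆ K), sd_adj, sup_adj]
    by_cases h : K.Adj x y
    · have h1 : ¬ (jn b c u w e₀ e₁).Adj x y := fun h' => jU e₀ e₁ x y h' (hK x y h)
      simp [h1, nl ε x y (hK x y h).2]
    · simp only [h, iff_false, not_not]
  have b2 : ∀ i j : Fin (m + 2), i.val + 2 = j.val → B.Adj (b c i) (b c j) := fun i j hij => by
    refine ⟨Or.inr (Or.inl ⟨fun h => by have := ix h; omega, Or.inl ⟨⟨i.val, by omega⟩, rfl,
      congrArg _ (Fin.ext rfl), congrArg _ (Fin.ext (by simp; omega))⟩⟩), ?_⟩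
    rintro (⟨-, (⟨-, -, h⟩ | ⟨-, -, h⟩) | ⟨-, -, h⟩ | ⟨-, -, h⟩⟩ | h)
    exacts [hu' _ h, hw' _ h, hu' _ h, hw' _ h, n2 _ _ _ hij h]
  have b3 : ∀ y, y = u ∨ y = w → B.Adj (b c 1) y := fun y hy => by
    have hy' : y ∈ U := by rcases hy with rfl | rfl <;> assumption
    refine ⟨Or.inr (Or.inr ⟨fun h => hU _ (h ▸ hy'), Or.inl ⟨Or.inr rfl, hy⟩⟩), ?_⟩
    rintro (⟨-, (⟨-, h, -⟩ | ⟨-, h, -⟩) | ⟨-, h, -⟩ | ⟨-, h, -⟩⟩ | h)
    · simpa using ix h
    · simpa using ix h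
    · exact hU _ (h ▸ hy')
    · exact hU _ (h ▸ hy')
    · exact nl _ _ _ hy' h
  have b5 : ¬ B.Adj (b c 0) u := fun h => h.2 (Or.inl ⟨hu' _, Or.inl (Or.inl ⟨rfl, rfl, rfl⟩)⟩)
  have b6 : ¬ B.Adj (b c 0) w := fun h => h.2 (Or.inl ⟨hw' _, Or.inl (Or.inr ⟨rfl, rfl, rfl⟩)⟩)
  have bL : ∀ l : Fin (m + 1), ¬ B.Adj (b c l.castSucc) (b c l.succ) := fun l h =>
    h.2 (Or.inr ((lnk_adj hb _ _ _).2 ⟨l, rfl, Or.inl ⟨rfl, rfl⟩⟩))
  have ag : ∀ i y, B.Adj (b c i) y ↔ (B ∆ K).Adj (b c i) y := fun i y =>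
    agree hK B _ _ fun h => hU i h.1
  have k1 := fun k (hk : k ≤ m + 3) => alt_U (R := R) hb hU hu hw h0.ne b2 (b3 u (Or.inl rfl))
    (b3 w (Or.inr rfl)) b5 b6 bL hk
  have k2 := fun k (hk : k ≤ m + 3) => alt_U (R := R) (B := B ∆ K) hb hU hu hw h0.ne
    (fun i j h => (ag _ _).1 (b2 i j h)) ((ag _ _).1 (b3 u (Or.inl rfl)))
    ((ag _ _).1 (b3 w (Or.inr rfl))) (mt (ag _ _).2 b5) (mt (ag _ _).2 b6)
    (fun l => mt (ag _ _).2 (bL l)) hk
  obtain ⟨ξ, x1, x2⟩ : ∃ ξ : R⟦X⟧, coeff 0 ξ ≠ 0 ∧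
      ∀ (_ : Decidable (B.Adj u w)) (_ : Decidable ((B ∆ K).Adj u w)), (if B.Adj u w then 0 else X ^ 2 * Z R B (U \ {u, w})) -
        (if (B ∆ K).Adj u w then 0 else X ^ 2 * Z R (B ∆ K) (U \ {u, w})) = X ^ 2 * ξ := by
    by_cases h : B.Adj u w
    · exact ⟨-Z R (B ∆ K) (U \ {u, w}), by simp [Z_zero, -coeff_zero_eq_constantCoeff], fun _ _ => by
        rw [if_pos h, if_neg (by rw [sd_adj]; tauto), zero_sub, mul_neg]⟩
    · exact ⟨Z R B (U \ {u, w}), by simp [Z_zero, -coeff_zero_eq_constantCoeff], fun _ _ => by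
        rw [if_neg h, if_pos (by rw [sd_adj]; tauto), sub_zero]⟩
  obtain ⟨y, y1, y2⟩ := rr_sub (R := R) (m + 1)
  by_contra hc
  push Not at hc
  have z : ∀ e₀ e₁, ∑ ε, sgn R ε *
      L.Ev U K a (B ⊔ (jn b c u w e₀ e₁ ⊔ lnk b c ε)) (univ.image (b c)) = 0 := fun e₀ e₁ => by
    have := hc ((G ∆ (B ⊔ jn b c u w e₀ e₁)) ⊓ pre b c u w) inf_le_right fun l => decide
      ((G ∆ ((G ∆ (B ⊔ jn b c u w e₀ e₁)) ⊓ pre b c u w)).Adj (b c l.castSucc) (b c l.succ))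
    simp only [L.gam, tog_mix hb _ (fun l => decide_eq_true_iff), e1] at this
    exact this
  have z2 : ∑ i, a i * coeff (i.val + 3) (X ^ (m + 3) * (ξ * y)) = 0 := by
    have z3 : ∀ i : Fin d, a i * coeff (i.val + 3) (X ^ (m + 3) * (ξ * y)) = ∑ e₀, ∑ e₁, ∑ ε,
        (if e₀ = true then -1 else 1) * ((if e₁ = true then -1 else 1) * sgn R ε) * (a i *
        coeff (i.val + 3) (rho R (B ⊔ (jn b c u w e₀ e₁ ⊔ lnk b c ε)) U U (univ.image (b c)) -
          rho R ((B ⊔ (jn b c u w e₀ e₁ ⊔ lnk b c ε)) ∆ K) U U (univ.image (b c)))) := fun i => by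
      by_cases h : m < i.val
      · simp [ha i h]
      simp only [e2, map_sub, mul_sub, sum_sub_distrib, mul_left_comm _ (a i), ← mul_sum]
      rw [k1 _ (by omega), k2 _ (by omega), ← mul_sub, ← map_sub, ← sub_mul, x2, y2]
      congr 2
      ring
    rw [sum_congr rfl fun i _ => z3 i, sum_comm]
    refine sum_eq_zero fun e₀ _ => ?_
    rw [sum_comm]
    refine sum_eq_zero fun e₁ _ => ?_
    rw [sum_comm]
    simp only [← mul_sum, mul_assoc]
    exact mul_eq_zero_of_right _ (mul_eq_zero_of_right _ (z e₀ e₁))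
  rw [sum_eq_single top, ht, coeff_X_pow_mul', if_pos le_rfl, Nat.sub_self, coeff_zero_mul,
    y1] at z2
  · exact mul_ne_zero ha' (mul_ne_zero x1 (pow_ne_zero _ (by simp))) z2
  · intro i _ hi
    by_cases h : m < i.val
    · rw [ha i h, zero_mul]
    · rw [coeff_X_pow_mul', if_neg (by have := mt Fin.ext hi; omega), mul_zero]
  · simp

theorem char_bound [Fintype κ] (hb : ∀ c i c' i', b c i = b c' i' → c = c' ∧ i = i')
    (hU : ∀ c i, b c i ∉ U) {p : ℕ} [Fact p.Prime] {a : Fin d → ZMod p}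
    (hK : ∀ u v, K.Adj u v → u ∈ U ∧ v ∈ U) (h0 : K.Adj u w)
    (ha : ∀ i, m < i.val → a i = 0) {top : Fin d} (ht : top.val = m) (ha' : a top ≠ 0) :
    ‖av fun G => ZMod.stdAddChar (L.Ev U K a G univ)‖ ^ 2 ^ (m + 1) ≤
      (1 - 4 / (p : ℝ) ^ 2 / 2 ^ (m + 4 + 2 * (m + 1))) ^ Fintype.card κ := by
  classical
  rw [av_tog fun y : Fin (m + 1) → κ → Bool => ⨆ c, lnk b c fun j => y j c]
  refine (box (Y := κ → Bool) ZMod.stdAddChar (m + 1) (SimpleGraph V) fun G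
    (y : Fin (m + 1) → κ → Bool) => L.Ev U K a (G ∆ ⨆ c, lnk b c fun j => y j c) univ).trans ?_
  simp only [L.alt_split hb hU hK ha, char_sum]
  have : ∀ c, Nonempty {k // k ≤ pre b c u w} := fun c => ⟨⟨⊥, bot_le⟩⟩
  rw [av_tog fun z : ∀ c, {k // k ≤ pre b c u w} => ⨆ c, (z c).1]
  refine norm_av_le fun G => ?_
  have e1 : ∀ z : ∀ c, {k // k ≤ pre b c u w}, ∀ c, L.gam U b K a (G ∆ ⨆ c', (z c').1) c =
      L.gam U b K a (G ∆ (z c).1) c := fun z c => funext fun _ => funext fun _ =>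
    L.gam_loc hb hU (fun c => (z c).2.trans (pre_le (hK _ _ h0).1 (hK _ _ h0).2)) G c _ _
  simp only [e1]
  let e : (∀ c, {k // k ≤ pre b c u w} × (Fin (m + 1) → Bool) × (Fin (m + 1) → Bool)) ≃
      (∀ c, {k // k ≤ pre b c u w}) × (Fin (m + 1) → κ → Bool) × (Fin (m + 1) → κ → Bool) :=
    ⟨fun q => (fun c => (q c).1, fun j c => (q c).2.1 j, fun j c => (q c).2.2 j),
      fun q c => (q.1 c, fun j => q.2.1 j c, fun j => q.2.2 j c), fun _ => rfl, fun _ => rfl⟩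
  have e2 := av_pi fun c
    (q : {k // k ≤ pre b c u w} × (Fin (m + 1) → Bool) × (Fin (m + 1) → Bool)) =>
    ZMod.stdAddChar (L.gam U b K a (G ∆ q.1.1) c q.2.1 q.2.2)
  rw [← av_equiv e.symm, av_prod] at e2
  simp only [av_prod (α := Fin (m + 1) → κ → Bool)] at e2
  refine (congrArg _ e2).trans_le ?_
  rw [norm_prod, ← card_univ, ← prod_const]
  refine prod_le_prod (fun _ _ => norm_nonneg _) fun c _ => ?_
  obtain ⟨k, hk, η, hx⟩ := gam_special (fun i j h => (hb _ _ _ _ h).2) (hU c) hK h0 ha ht ha' G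
  refine (norm_av_two (fun _ => by simp) (x := (⟨k, hk⟩, η, η))
    (y := (⟨k, hk⟩, η, fun l => !η l)) (fun h => by
      simpa using congrFun (congrArg (fun q => q.2.2) h) 0) (η := 4 / (p : ℝ) ^ 2) ?_).trans ?_
  · simpa [L.gam_self] using norm_one_add_char hx
  · refine sub_le_sub_left (div_le_div_of_nonneg_left (by positivity)
      (Nat.cast_pos.2 Fintype.card_pos) ?_) _
    have h2 : Fintype.card ({k // k ≤ pre b c u w} × (Fin (m + 1) → Bool) ×
        (Fin (m + 1) → Bool)) ≤ 2 ^ (m + 4 + 2 * (m + 1)) := by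
      simp only [Fintype.card_prod, Fintype.card_fun, Fintype.card_bool, Fintype.card_fin]
      rw [pow_add 2 _ (2 * (m + 1)), two_mul, pow_add 2 (m + 1), ← Nat.card_eq_fintype_card]
      exact Nat.mul_le_mul_right _ card_pre
    exact_mod_cast h2

end path

lemma fixed_bound {U : Finset V} {K : SimpleGraph V} (hK : ∀ u v, K.Adj u v → u ∈ U ∧ v ∈ U)
    (h0 : K ≠ ⊥) {p d N : ℕ} [hp : Fact p.Prime] (hN : N * (d + 1) + U.card ≤ Fintype.card V)
    (hβ : (1 - 4 / (p : ℝ) ^ 2 / 2 ^ (d + 3 + 2 * d)) ^ N ≤ (1 / (p : ℝ) ^ d) ^ 2 ^ d)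
    (s : Finset (SimpleGraph V)) (hs : ∀ G ∈ s, ∀ k, ncol G k = ncol (G ∆ K) k) :
    (s.card : ℝ) ≤ 2 / (p : ℝ) ^ d * Nat.card (SimpleGraph V) := by
  classical
  obtain ⟨u₀, w₀, h0⟩ : ∃ u w, K.Adj u w := by
    by_contra h
    exact h0 (SimpleGraph.ext (funext fun u => funext fun w => by
      simpa using fun h' => h ⟨u, w, h'⟩))
  have hp2 : (2 : ℝ) ≤ p := by exact_mod_cast hp.out.two_le
  rw [Nat.card_eq_fintype_card]
  refine (card_zero_le (fun (G : SimpleGraph V) (i : Fin d) => coeff (i.val + 3)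
    (rho (ZMod p) G U U univ - rho (ZMod p) (G ∆ K) U U univ)) (β := 1 / (p : ℝ) ^ d)
    (by positivity) (fun a ha => ?_) s fun G hG => funext fun i => ?_).trans_eq (by ring)
  · have hT : (univ.filter fun i => a i ≠ 0).Nonempty := by
      obtain ⟨i, hi⟩ := Function.ne_iff.1 ha
      exact ⟨i, mem_filter.2 ⟨mem_univ _, hi⟩⟩
    obtain ⟨top, h1, h2⟩ := exists_max_image _ (fun i : Fin d => i.val) hT
    have h3 := top.2
    obtain ⟨e⟩ : Nonempty (Fin N × Fin (top.val + 2) ↪ (Uᶜ : Finset V)) := by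
      refine Function.Embedding.nonempty_of_card_le ?_
      have := Nat.mul_le_mul_left N (by omega : top.val + 2 ≤ d + 1)
      simp only [Fintype.card_prod, Fintype.card_fin, Fintype.card_coe, card_compl]
      omega
    have h4 := char_bound (b := fun c i => (e (c, i)).1) (a := a)
      (fun c i c' i' h => Prod.mk.inj (e.injective (Subtype.ext h)))
      (fun c i => mem_compl.1 (e (c, i)).2) hK h0
      (fun i hi => by_contra fun h => by
        have := h2 i (mem_filter.2 ⟨mem_univ _, h⟩)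
        omega) rfl (mem_filter.1 h1).2
    rw [Fintype.card_fin] at h4
    refine le_of_pow_le_pow_left₀ (n := 2 ^ d) (by positivity) (by positivity) ?_
    refine (pow_le_pow_of_le_one (norm_nonneg _) (norm_av_le fun _ => by simp)
      (Nat.pow_le_pow_right two_pos (by omega : top.val + 1 ≤ d))).trans
      (h4.trans (le_trans (pow_le_pow_left₀ ?_ ?_ N) hβ))
    · rw [sub_nonneg, div_div, div_le_one (by positivity)]
      nlinarith [one_le_pow₀ (n := top.val + 4 + 2 * (top.val + 1)) (one_le_two (α := ℝ))]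
    · exact sub_le_sub_left (div_le_div_of_nonneg_left (by positivity) (by positivity)
        (pow_le_pow_right₀ one_le_two (by omega))) _
  · have e1 : Z (ZMod p) G univ = Z (ZMod p) (G ∆ K) univ := W_top_congr (hs G hG) _
    rw [rho, rho, sdiff_union_of_subset (subset_univ U), e1,
      Zi_congr (G := G) (H := G ∆ K) fun u hu v _ =>
        agree hK G u v fun h => (mem_sdiff.1 hu).2 h.1, sub_self, map_zero]
    rfl

theorem local_bound (n : ℕ) (r l : ℕ) (hr : 110 * r ≤ Nat.log 2 n) (hl : l = Nat.log 2 n / 6)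
    (s : Finset (SimpleGraph (Fin n))) (hs : ∀ G ∈ s, ∃ H : SimpleGraph (Fin n), H ≠ G ∧
      (∃ U : Finset (Fin n), U.card ≤ r ∧ ∀ u v, ¬ (u ∈ U ∧ v ∈ U) → (G.Adj u v ↔ H.Adj u v)) ∧
      ∀ k, ncol G k = ncol H k) :
    s.card * 2 ^ (r * l) ≤ 2 * Nat.card (SimpleGraph (Fin n)) := by
  classical
  rcases Nat.eq_zero_or_pos r with rfl | hr0
  · have := card_le_univ s
    rw [Nat.card_eq_fintype_card]
    simp only [zero_mul, pow_zero, mul_one]
    omega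
  have hn : 2 ^ Nat.log 2 n ≤ n := Nat.pow_log_le_self 2 (by rintro rfl; simp at hr; omega)
  have hn' : n ≤ 2 ^ (Nat.log 2 n + 1) := (Nat.lt_pow_succ_log_self one_lt_two n).le
  obtain ⟨p, hp, hp1, hp2⟩ := Nat.exists_prime_lt_and_le_two_mul (2 ^ l) (by positivity)
  have : Fact p.Prime := ⟨hp⟩
  have hN : 2 ^ (4 * (8 * r) + 3 * l + (8 * r + 3)) * (8 * r + 1) + r ≤ n := by
    have h1 : 1 ≤ 2 ^ (4 * (8 * r) + 3 * l + (8 * r + 3)) := Nat.one_le_two_pow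
    have h2 : 8 * r + 1 + r ≤ 2 ^ (8 * r + 1 + r) := Nat.lt_two_pow_self.le
    calc _ ≤ 2 ^ (4 * (8 * r) + 3 * l + (8 * r + 3)) * (8 * r + 1 + r) := by nlinarith
      _ ≤ 2 ^ (4 * (8 * r) + 3 * l + (8 * r + 3)) * 2 ^ (8 * r + 1 + r) := by gcongr
      _ ≤ 2 ^ Nat.log 2 n := by
        rw [← pow_add]
        exact Nat.pow_le_pow_right two_pos (by omega)
      _ ≤ n := hn
  set S : Finset (Fin n) → Finset (SimpleGraph (Fin n)) :=
    fun U => univ.filter fun K => K ≠ ⊥ ∧ ∀ u v, K.Adj u v → u ∈ U ∧ v ∈ U with hS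
  set B : SimpleGraph (Fin n) → Finset (SimpleGraph (Fin n)) :=
    fun K => univ.filter fun G => ∀ k, ncol G k = ncol (G ∆ K) k with hB
  have h1 : s ⊆ (powersetCard r univ).biUnion fun U => (S U).biUnion B := fun G hG => by
    obtain ⟨H, hH, ⟨U, hU, hU'⟩, hc⟩ := hs G hG
    obtain ⟨U', h2, -, h3⟩ := exists_subsuperset_card_eq (subset_univ U) hU
      (by rw [card_univ, Fintype.card_fin]; omega)
    refine mem_biUnion.2 ⟨U', mem_powersetCard.2 ⟨subset_univ _, h3⟩, mem_biUnion.2 ⟨G ∆ H, ?_, ?_⟩⟩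
    · refine mem_filter.2 ⟨mem_univ _, fun h => hH (symmDiff_eq_bot.1 h).symm, fun u v h => ?_⟩
      have : u ∈ U ∧ v ∈ U := by_contra fun h' => (sd_adj G H u v).1 h (hU' u v h')
      exact ⟨h2 this.1, h2 this.2⟩
    · exact mem_filter.2 ⟨mem_univ _, by rwa [symmDiff_symmDiff_cancel_left]⟩
  have h2 : (s.card : ℝ) ≤ (n ^ r : ℕ) * ((2 ^ (r ^ 2) : ℕ) *
      (2 / (p : ℝ) ^ (8 * r) * Nat.card (SimpleGraph (Fin n)))) := by
    refine (Nat.cast_le.2 ((card_le_card h1).trans card_biUnion_le)).trans ?_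
    rw [Nat.cast_sum]
    refine (sum_le_card_nsmul _ _ _ fun U hU => ?_).trans (by
      rw [nsmul_eq_mul]
      refine mul_le_mul_of_nonneg_right (Nat.cast_le.2 ?_) (by positivity)
      rw [card_powersetCard, card_univ, Fintype.card_fin]
      exact Nat.choose_le_pow n r)
    have hU' := (mem_powersetCard.1 hU).2
    refine (Nat.cast_le.2 card_biUnion_le).trans ?_
    rw [Nat.cast_sum]
    refine (sum_le_card_nsmul _ _ _ fun K hK => fixed_bound (mem_filter.1 hK).2.2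
      (mem_filter.1 hK).2.1 (d := 8 * r) (by rw [hU', Fintype.card_fin]; exact hN)
      (num_bound hp.two_le (by rw [pow_succ']; exact hp2)) _
      fun G hG => (mem_filter.1 hG).2).trans ?_
    rw [nsmul_eq_mul]
    refine mul_le_mul_of_nonneg_right (Nat.cast_le.2 ?_) (by positivity)
    have := card_supp U
    rw [hU', Nat.card_eq_fintype_card, Fintype.card_subtype] at this
    exact (card_le_card fun K hK => mem_filter.2 ⟨mem_univ _, (mem_filter.1 hK).2.2⟩).trans this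
  have h3 : n ^ r * 2 ^ (r ^ 2) * 2 ^ (r * l) ≤ p ^ (8 * r) :=
    calc _ ≤ (2 ^ (Nat.log 2 n + 1)) ^ r * 2 ^ (r ^ 2) * 2 ^ (r * l) := by gcongr
      _ = (2 ^ (Nat.log 2 n + 1 + r + l)) ^ r := by ring
      _ ≤ (2 ^ (l * 8)) ^ r := Nat.pow_le_pow_left (Nat.pow_le_pow_right two_pos (by omega)) r
      _ = (2 ^ l) ^ (8 * r) := by rw [← pow_mul, ← pow_mul, mul_assoc]
      _ ≤ _ := Nat.pow_le_pow_left hp1.le _
  have h4 : (0 : ℝ) < (p : ℝ) ^ (8 * r) := pow_pos (Nat.cast_pos.2 hp.pos) _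
  have h5 : ((n ^ r * 2 ^ (r ^ 2) * 2 ^ (r * l) : ℕ) : ℝ) / (p : ℝ) ^ (8 * r) ≤ 1 :=
    (div_le_one h4).2 (by exact_mod_cast h3)
  have h6 : ((s.card * 2 ^ (r * l) : ℕ) : ℝ) ≤ (2 * Nat.card (SimpleGraph (Fin n)) : ℕ) :=
    calc ((s.card * 2 ^ (r * l) : ℕ) : ℝ) = s.card * (2 ^ (r * l) : ℕ) := Nat.cast_mul _ _
      _ ≤ _ := mul_le_mul_of_nonneg_right h2 (by positivity)
      _ = ((n ^ r * 2 ^ (r ^ 2) * 2 ^ (r * l) : ℕ) : ℝ) / (p : ℝ) ^ (8 * r) *
          (2 * Nat.card (SimpleGraph (Fin n)) : ℕ) := by push_cast; ring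
      _ ≤ _ := mul_le_of_le_one_left (by positivity) h5
  exact_mod_cast h6

end Pool.Agent.Lib.MP_f7f352_co.L.Sparse
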