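import Mathlib

-- part Pool.Agent.Lib.MP_f7f352_co.UPart
section

set_option autoImplicit false

namespace Pool.Agent.Lib.MP_f7f352_co.U

open Finset

variable {V : Type} [DecidableEq V]

open Classical in
/-- pairwise disjoint subfamilies -/
noncomputable def pack (F : Finset (Finset V)) : Finset (Finset (Finset V)) :=
  F.powerset.filter fun M => ∀ I ∈ M, ∀ J ∈ M, I ≠ J → Disjoint I J

lemma mem_pack {F : Finset (Finset V)} {M : Finset (Finset V)} :
    M ∈ pack F ↔ M ⊆ F ∧ ∀ I ∈ M, ∀ J ∈ M, I ≠ J → Disjoint I J := by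
  simp [pack]

/-- partitions of `S` into members of `F` -/
noncomputable def part (F : Finset (Finset V)) (S : Finset V) : Finset (Finset (Finset V)) :=
  (pack F).filter fun M => M.biUnion id = S

lemma mem_part {F : Finset (Finset V)} {S : Finset V} {M : Finset (Finset V)} :
    M ∈ part F S ↔ (M ⊆ F ∧ ∀ I ∈ M, ∀ J ∈ M, I ≠ J → Disjoint I J) ∧ M.biUnion id = S := by
  simp [part, mem_pack]

variable {R : Type} [CommSemiring R]

/-- weighted number of partitions -/
noncomputable def W (w : ℕ → R) (F : Finset (Finset V)) (S : Finset V) : R :=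
  ∑ M ∈ part F S, ∏ I ∈ M, w I.card

lemma W_split (w : ℕ → R) (F₁ F₂ : Finset (Finset V)) (h : Disjoint F₁ F₂) (S : Finset V) :
    W w (F₁ ∪ F₂) S = ∑ M ∈ (pack F₁).filter (fun M => M.biUnion id ⊆ S),
      (∏ I ∈ M, w I.card) * W w F₂ (S \ M.biUnion id) := by
  unfold W
  simp_rw [Finset.mul_sum]
  rw [Finset.sum_sigma']
  symm
  refine Finset.sum_bij' (fun x _ => x.1 ∪ x.2)
    (fun π _ => ⟨π.filter (· ∈ F₁), π.filter (· ∈ F₂)⟩) ?_ ?_ ?_ ?_ ?_
  · rintro ⟨M, N⟩ hx
    simp only [mem_sigma, mem_filter, mem_pack, mem_part] at hx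
    obtain ⟨⟨⟨hM, hMd⟩, hMS⟩, ⟨hN, hNd⟩, hNS⟩ := hx
    have cross : ∀ I ∈ M, ∀ J ∈ N, Disjoint I J := by
      intro I hI J hJ
      rw [Finset.disjoint_left]
      intro v hvI hvJ
      have h1 : v ∈ N.biUnion id := mem_biUnion.2 ⟨J, hJ, hvJ⟩
      rw [hNS] at h1
      exact (mem_sdiff.1 h1).2 (mem_biUnion.2 ⟨I, hI, hvI⟩)
    rw [mem_part]
    refine ⟨⟨union_subset_union hM hN, ?_⟩, ?_⟩
    · intro I hI J hJ hIJ
      rcases mem_union.1 hI with hI | hI <;> rcases mem_union.1 hJ with hJ | hJ
      · exact hMd I hI J hJ hIJ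
      · exact cross I hI J hJ
      · exact (cross J hJ I hI).symm
      · exact hNd I hI J hJ hIJ
    · simp only
      rw [union_biUnion, hNS]
      exact union_sdiff_of_subset hMS
  · intro π hπ
    rw [mem_part] at hπ
    obtain ⟨⟨hF, hd⟩, hS⟩ := hπ
    simp only [mem_sigma, mem_filter, mem_pack, mem_part]
    refine ⟨⟨⟨fun I hI => (mem_filter.1 hI).2, fun I hI J hJ => hd I hI.1 J hJ.1⟩, ?_⟩,
      ⟨fun I hI => (mem_filter.1 hI).2, fun I hI J hJ => hd I hI.1 J hJ.1⟩, ?_⟩
    · rw [← hS]
      exact biUnion_subset_biUnion_of_subset_left _ (filter_subset _ _)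
    · ext v
      simp only [mem_biUnion, mem_filter, id, mem_sdiff, ← hS]
      constructor
      · rintro ⟨J, ⟨hJ, hJ2⟩, hv⟩
        refine ⟨⟨J, hJ, hv⟩, ?_⟩
        rintro ⟨I, ⟨hI, hI1⟩, hvI⟩
        have hne : I ≠ J := by
          rintro rfl
          exact Finset.disjoint_left.1 h hI1 hJ2
        exact Finset.disjoint_left.1 (hd I hI J hJ hne) hvI hv
      · rintro ⟨⟨J, hJ, hv⟩, hno⟩
        rcases mem_union.1 (hF hJ) with h1 | h2
        · exact absurd ⟨J, ⟨hJ, h1⟩, hv⟩ hno
        · exact ⟨J, ⟨hJ, h2⟩, hv⟩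
  · rintro ⟨M, N⟩ hx
    simp only [mem_sigma, mem_filter, mem_pack, mem_part] at hx
    obtain ⟨⟨⟨hM, _⟩, _⟩, ⟨hN, _⟩, _⟩ := hx
    have e1 : (M ∪ N).filter (· ∈ F₁) = M := by
      ext I
      simp only [mem_filter, mem_union]
      constructor
      · rintro ⟨h1 | h1, h2⟩
        · exact h1
        · exact absurd (hN h1) (Finset.disjoint_left.1 h h2)
      · intro h1; exact ⟨Or.inl h1, hM h1⟩
    have e2 : (M ∪ N).filter (· ∈ F₂) = N := by
      ext I
      simp only [mem_filter, mem_union]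
      constructor
      · rintro ⟨h1 | h1, h2⟩
        · exact absurd h2 (Finset.disjoint_left.1 h (hM h1))
        · exact h1
      · intro h1; exact ⟨Or.inr h1, hN h1⟩
    simp only [e1, e2]
  · intro π hπ
    rw [mem_part] at hπ
    ext I
    simp only [mem_union, mem_filter]
    constructor
    · rintro (h1 | h1) <;> exact h1.1
    · intro hI
      rcases mem_union.1 (hπ.1.1 hI) with h1 | h1
      · exact Or.inl ⟨hI, h1⟩
      · exact Or.inr ⟨hI, h1⟩
  · rintro ⟨M, N⟩ hx
    simp only [mem_sigma, mem_filter, mem_pack, mem_part] at hx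
    obtain ⟨⟨⟨hM, _⟩, _⟩, ⟨hN, _⟩, _⟩ := hx
    simp only
    rw [prod_union (h.mono hM hN)]

lemma W_congr (w : ℕ → R) {F F' : Finset (Finset V)} {S : Finset V}
    (h : ∀ I, I ⊆ S → (I ∈ F ↔ I ∈ F')) : W w F S = W w F' S := by
  unfold W
  congr 1
  ext M
  simp only [mem_part]
  constructor
  · rintro ⟨⟨h1, h2⟩, h3⟩
    refine ⟨⟨fun I hI => (h I ?_).1 (h1 hI), h2⟩, h3⟩
    rw [← h3]; exact subset_biUnion_of_mem id hI
  · rintro ⟨⟨h1, h2⟩, h3⟩
    refine ⟨⟨fun I hI => (h I ?_).2 (h1 hI), h2⟩, h3⟩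
    rw [← h3]; exact subset_biUnion_of_mem id hI

lemma W_empty (w : ℕ → R) {F : Finset (Finset V)} (h : ∅ ∉ F) : W w F ∅ = 1 := by
  have : part F ∅ = {∅} := by
    ext M
    simp only [mem_part, mem_singleton]
    constructor
    · rintro ⟨⟨h1, _⟩, h3⟩
      rw [eq_empty_iff_forall_notMem]
      intro I hI
      have h4 : I ⊆ ∅ := by rw [← h3]; exact subset_biUnion_of_mem id hI
      rw [subset_empty] at h4
      exact h (h4 ▸ h1 hI)
    · rintro rfl
      simp
  simp [W, this]

lemma W_vertex (w : ℕ → R) (F : Finset (Finset V)) {S : Finset V} {v : V} (hv : v ∈ S) :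
    W w F S = ∑ I ∈ F.filter (fun I => v ∈ I ∧ I ⊆ S), w I.card * W w F (S \ I) := by
  have hF : F = F.filter (v ∈ ·) ∪ F.filter (v ∉ ·) := (filter_union_filter_not_eq _ _).symm
  have hd : Disjoint (F.filter (v ∈ ·)) (F.filter (v ∉ ·)) := disjoint_filter_filter_not _ _ _
  conv_lhs => rw [hF, W_split w _ _ hd]
  have hset : (pack (F.filter (v ∈ ·))).filter (fun M => M.biUnion id ⊆ S) =
      insert ∅ ((F.filter (fun I => v ∈ I ∧ I ⊆ S)).image fun I => {I}) := by
    ext M
    simp only [mem_filter, mem_pack, mem_insert, mem_image]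
    constructor
    · rintro ⟨⟨h1, h2⟩, h3⟩
      rcases M.eq_empty_or_nonempty with rfl | ⟨I, hI⟩
      · exact Or.inl rfl
      · right
        have hI' := mem_filter.1 (h1 hI)
        refine ⟨I, ⟨hI'.1, hI'.2, (subset_biUnion_of_mem id hI).trans h3⟩, ?_⟩
        symm
        rw [eq_singleton_iff_unique_mem]
        refine ⟨hI, fun J hJ => ?_⟩
        by_contra hne
        exact Finset.disjoint_left.1 (h2 J hJ I hI hne) (mem_filter.1 (h1 hJ)).2 hI'.2
    · rintro (rfl | ⟨I, ⟨h1, h2, h3⟩, rfl⟩)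
      · simp
      · simp [h1, h2, h3]
  rw [hset, sum_insert (by simp), sum_image (fun I _ J _ h => singleton_injective h)]
  have h0 : W w (F.filter (v ∉ ·)) S = 0 := by
    unfold W
    refine sum_eq_zero fun M hM => ?_
    exfalso
    rw [mem_part] at hM
    rw [← hM.2] at hv
    obtain ⟨I, hI, hvI⟩ := mem_biUnion.1 hv
    exact (mem_filter.1 (hM.1.1 hI)).2 hvI
  simp only [prod_empty, biUnion_empty, sdiff_empty, h0, mul_zero, zero_add, prod_singleton,
    singleton_biUnion, id]
  refine sum_congr rfl fun I hI => ?_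
  congr 1
  refine W_congr w fun J hJ => ?_
  simp only [mem_filter, and_iff_left_iff_imp]
  intro _ hvJ
  exact (mem_sdiff.1 (hJ hvJ)).2 (mem_filter.1 hI).2.1

/-- weighted number of set partitions -/
def bell (w : ℕ → R) : ℕ → R
  | 0 => 1
  | p + 1 => ∑ j : Fin (p + 1), (p.choose j : R) * (w (j + 1) * bell w (p - j))
decreasing_by omega

lemma bell_zero (w : ℕ → R) : bell w 0 = 1 := by rw [bell]

lemma bell_succ (w : ℕ → R) (p : ℕ) :
    bell w (p + 1) = ∑ j ∈ range (p + 1), (p.choose j : R) * (w (j + 1) * bell w (p - j)) := by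
  rw [bell, Fin.sum_univ_eq_sum_range (fun j => (p.choose j : R) * (w (j + 1) * bell w (p - j)))]

lemma bell_vertex (w : ℕ → R) {T : Finset V} {v : V} (hv : v ∈ T) :
    ∑ I ∈ T.powerset.filter (v ∈ ·), w I.card * bell w (T.card - I.card) = bell w T.card := by
  have hc : T.card = (T.erase v).card + 1 := (card_erase_add_one hv).symm
  have hset : T.powerset.filter (v ∈ ·) = (T.erase v).powerset.image (insert v) := by
    ext I
    simp only [mem_filter, mem_powerset, mem_image]
    constructor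
    · rintro ⟨h1, h2⟩
      exact ⟨I.erase v, erase_subset_erase _ h1, insert_erase h2⟩
    · rintro ⟨J, hJ, rfl⟩
      exact ⟨insert_subset hv (hJ.trans (erase_subset _ _)), mem_insert_self _ _⟩
  have hnot : ∀ J ∈ (T.erase v).powerset, v ∉ J := fun J hJ hvJ =>
    notMem_erase v T (mem_powerset.1 hJ hvJ)
  rw [hset, sum_image]
  · rw [hc, bell_succ]
    have := sum_powerset_apply_card (x := T.erase v)
      (fun j => w (j + 1) * bell w ((T.erase v).card - j))
    simp only [nsmul_eq_mul] at this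
    rw [← this]
    refine sum_congr rfl fun J hJ => ?_
    rw [card_insert_of_notMem (hnot J hJ), Nat.add_sub_add_right]
  · intro J hJ K hK h
    rw [← erase_insert (hnot J hJ), h, erase_insert (hnot K hK)]

variable {ι : Type} [Fintype ι] [DecidableEq ι]

lemma W_classes (w : ℕ → R) (cls : V → ι) (F : Finset (Finset V))
    (hF : ∀ I, I ∈ F ↔ I.Nonempty ∧ ∀ u ∈ I, ∀ v ∈ I, cls u = cls v) (S : Finset V) :
    W w F S = ∏ i, bell w (S.filter (cls · = i)).card := by
  induction S using Finset.strongInduction with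
  | H S ih =>
    rcases S.eq_empty_or_nonempty with rfl | ⟨v, hv⟩
    · rw [W_empty w (by simp [hF])]
      simp [bell_zero]
    · rw [W_vertex w F hv]
      have hvT : v ∈ S.filter (cls · = cls v) := mem_filter.2 ⟨hv, rfl⟩
      have hset : F.filter (fun I => v ∈ I ∧ I ⊆ S) =
          (S.filter (cls · = cls v)).powerset.filter (v ∈ ·) := by
        ext I
        simp only [mem_filter, mem_powerset, hF]
        constructor
        · rintro ⟨⟨_, h2⟩, h3, h4⟩
          exact ⟨fun u hu => mem_filter.2 ⟨h4 hu, h2 u hu v h3⟩, h3⟩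
        · rintro ⟨h1, h2⟩
          refine ⟨⟨⟨v, h2⟩, fun a ha b hb => ?_⟩, h2, h1.trans (filter_subset _ _)⟩
          rw [(mem_filter.1 (h1 ha)).2, (mem_filter.1 (h1 hb)).2]
      rw [hset, ← mul_prod_erase univ _ (mem_univ (cls v)), ← bell_vertex w hvT, sum_mul]
      refine sum_congr rfl fun I hI => ?_
      obtain ⟨hI1, hI2⟩ := mem_filter.1 hI
      rw [mem_powerset] at hI1
      have hlt : S \ I ⊂ S := sdiff_ssubset (hI1.trans (filter_subset _ _)) ⟨v, hI2⟩
      rw [ih _ hlt, ← mul_prod_erase univ _ (mem_univ (cls v)), mul_assoc]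
      congr 2
      · congr 1
        rw [← card_sdiff_of_subset hI1]
        congr 1
        ext u
        simp only [mem_filter, mem_sdiff]
        tauto
      · refine prod_congr rfl fun i hi => ?_
        congr 2
        ext u
        simp only [mem_filter, mem_sdiff]
        constructor
        · tauto
        · rintro ⟨h1, h2⟩
          refine ⟨⟨h1, fun hu => ?_⟩, h2⟩
          exact (mem_erase.1 hi).1 (h2.symm.trans (mem_filter.1 (hI1 hu)).2)

end Pool.Agent.Lib.MP_f7f352_co.U
end

-- part Pool.Agent.Lib.MP_f7f352_co.UCol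
section

set_option autoImplicit false

namespace Pool.Agent.Lib.MP_f7f352_co.U

open Finset

variable {V : Type} [Fintype V] [DecidableEq V]

open Classical in
/-- nonempty independent sets -/
noncomputable def ind (G : SimpleGraph V) : Finset (Finset V) :=
  univ.filter fun I => I.Nonempty ∧ ∀ u ∈ I, ∀ v ∈ I, ¬ G.Adj u v

lemma mem_ind {G : SimpleGraph V} {I : Finset V} :
    I ∈ ind G ↔ I.Nonempty ∧ ∀ u ∈ I, ∀ v ∈ I, ¬ G.Adj u v := by
  simp [ind]

/-- number of proper colourings -/
noncomputable def ncol {V : Type} (G : SimpleGraph V) (k : ℕ) : ℕ :=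
  Nat.card {c : V → Fin k // ∀ u v, G.Adj u v → c u ≠ c v}

/-- colour classes -/
def classes {k : ℕ} (c : V → Fin k) : Finset (Finset V) :=
  univ.image fun v => univ.filter fun u => c u = c v

lemma exists_blk {G : SimpleGraph V} {π : Finset (Finset V)} (hπ : π ∈ part (ind G) univ) :
    ∃ blk : V → π, (∀ v, v ∈ (blk v).1) ∧ (∀ v (I : π), v ∈ I.1 → blk v = I) ∧
      Function.Surjective blk := by
  rw [mem_part] at hπ
  obtain ⟨⟨h1, h2⟩, h3⟩ := hπ
  have : ∀ v : V, ∃ I : π, v ∈ I.1 := by
    intro v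
    have hv : v ∈ π.biUnion id := h3 ▸ mem_univ v
    obtain ⟨I, hI, hvI⟩ := mem_biUnion.1 hv
    exact ⟨⟨I, hI⟩, hvI⟩
  choose blk hblk using this
  have huniq : ∀ v (I : π), v ∈ I.1 → blk v = I := by
    intro v I hv
    by_contra hne
    have : (blk v).1 ≠ I.1 := fun h => hne (Subtype.ext h)
    exact Finset.disjoint_left.1 (h2 _ (blk v).2 _ I.2 this) (hblk v) hv
  refine ⟨blk, hblk, huniq, fun I => ?_⟩
  obtain ⟨v, hv⟩ := (mem_ind.1 (h1 I.2)).1
  exact ⟨v, huniq v I hv⟩

lemma ncol_eq (G : SimpleGraph V) (k : ℕ) :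
    ncol G k = ∑ π ∈ part (ind G) univ, k.descFactorial π.card := by
  classical
  unfold ncol
  rw [Nat.card_eq_fintype_card, Fintype.card_subtype]
  rw [card_eq_sum_card_fiberwise (f := classes) (t := part (ind G) univ)]
  · refine sum_congr rfl fun π hπ => ?_
    obtain ⟨blk, hb1, hb2, hb3⟩ := exists_blk hπ
    have hπ' := mem_part.1 hπ
    have hcard : Fintype.card (π ↪ Fin k) = k.descFactorial π.card := by
      rw [Fintype.card_embedding_eq]; simp
    rw [← hcard, ← card_univ]
    symm
    refine card_bij (fun f _ => fun v => f (blk v)) ?_ ?_ ?_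
    · intro f _
      simp only [mem_filter, mem_univ, true_and]
      refine ⟨fun u v huv h => ?_, ?_⟩
      · have h1 : blk u = blk v := f.injective h
        exact (mem_ind.1 (hπ'.1.1 (blk u).2)).2 u (hb1 u) v (h1 ▸ hb1 v) huv
      · have key : ∀ v, (univ.filter fun u => f (blk u) = f (blk v)) = (blk v).1 := by
          intro v
          ext u
          simp only [mem_filter, mem_univ, true_and, f.injective.eq_iff]
          exact ⟨fun h => h ▸ hb1 u, fun h => hb2 u _ h⟩
        ext I
        simp only [classes, mem_image, mem_univ, true_and, key]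
        constructor
        · rintro ⟨v, rfl⟩; exact (blk v).2
        · intro hI
          obtain ⟨v, hv⟩ := hb3 ⟨I, hI⟩
          exact ⟨v, by rw [hv]⟩
    · intro f _ g _ h
      ext I
      obtain ⟨v, rfl⟩ := hb3 I
      rw [congrFun h v]
    · intro c hc
      simp only [mem_filter, mem_univ, true_and] at hc
      obtain ⟨_, hc2⟩ := hc
      have key : ∀ u v, blk u = blk v ↔ c u = c v := by
        intro u v
        have hm : (univ.filter fun x => c x = c v) ∈ π := by
          rw [← hc2]; exact mem_image.2 ⟨v, mem_univ _, rfl⟩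
        have hv : blk v = ⟨_, hm⟩ := hb2 v _ (by simp)
        constructor
        · intro h
          have := hb1 u
          rw [h, hv] at this
          simpa using this
        · intro h
          rw [hv]
          exact hb2 u _ (by simpa using h)
      refine ⟨⟨fun I => c (Function.surjInv hb3 I), fun I J h => ?_⟩, mem_univ _, ?_⟩
      · have := (key _ _).2 h
        rwa [Function.surjInv_eq hb3, Function.surjInv_eq hb3] at this
      · funext v
        exact (key _ _).1 (Function.surjInv_eq hb3 _)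
  · intro c hc
    simp only [coe_filter, mem_univ, true_and, Set.mem_setOf_eq] at hc
    simp only [mem_coe, mem_part]
    refine ⟨⟨fun I hI => ?_, fun I hI J hJ hne => ?_⟩, ?_⟩
    · obtain ⟨v, _, rfl⟩ := mem_image.1 hI
      rw [mem_ind]
      refine ⟨⟨v, by simp⟩, fun a ha b hb hab => hc a b hab ?_⟩
      rw [(mem_filter.1 ha).2, (mem_filter.1 hb).2]
    · obtain ⟨v, _, rfl⟩ := mem_image.1 hI
      obtain ⟨u, _, rfl⟩ := mem_image.1 hJ
      rw [Finset.disjoint_left]
      intro x hx hx'
      apply hne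
      rw [← (mem_filter.1 hx).2, ← (mem_filter.1 hx').2]
    · rw [eq_univ_iff_forall]
      intro v
      exact mem_biUnion.2 ⟨_, mem_image.2 ⟨v, mem_univ _, rfl⟩, by simp⟩

/-- number of partitions into `j` independent sets -/
noncomputable def acoef (G : SimpleGraph V) (j : ℕ) : ℕ :=
  ((part (ind G) univ).filter fun π => π.card = j).card

lemma sum_card_part {F : Finset (Finset V)} {S : Finset V} {π : Finset (Finset V)}
    (hπ : π ∈ part F S) : ∑ I ∈ π, I.card = S.card := by
  rw [mem_part] at hπ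
  rw [← hπ.2, card_biUnion]
  · rfl
  · intro I hI J hJ hne
    exact hπ.1.2 I hI J hJ hne

lemma card_part_le {G : SimpleGraph V} {π : Finset (Finset V)} (hπ : π ∈ part (ind G) univ) :
    π.card ≤ Fintype.card V := by
  rw [← card_univ, ← sum_card_part hπ, card_eq_sum_ones]
  exact sum_le_sum fun I hI => (mem_ind.1 ((mem_part.1 hπ).1.1 hI)).1.card_pos

lemma sum_part_eq {M : Type} [AddCommMonoid M] (G : SimpleGraph V) (φ : ℕ → M) (N : ℕ)
    (hN : Fintype.card V < N) :
    ∑ π ∈ part (ind G) univ, φ π.card = ∑ j ∈ range N, acoef G j • φ j := by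
  rw [← sum_fiberwise_of_maps_to (t := range N) (g := fun π => π.card)
    (fun π hπ => mem_range.2 ((card_part_le hπ).trans_lt hN))]
  refine sum_congr rfl fun j _ => ?_
  rw [acoef, ← sum_const]
  exact sum_congr rfl fun π hπ => by rw [(mem_filter.1 hπ).2]

lemma acoef_eq_zero (G : SimpleGraph V) {j : ℕ} (hj : Fintype.card V < j) : acoef G j = 0 := by
  rw [acoef, card_eq_zero, filter_eq_empty_iff]
  intro π hπ h
  have := card_part_le hπ
  omega

lemma acoef_card_pos (G : SimpleGraph V) : 0 < acoef G (Fintype.card V) := by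
  rw [acoef, card_pos]
  refine ⟨univ.image fun v => {v}, mem_filter.2 ⟨mem_part.2 ⟨⟨?_, ?_⟩, ?_⟩, ?_⟩⟩
  · intro I hI
    obtain ⟨v, _, rfl⟩ := mem_image.1 hI
    simp [mem_ind]
  · intro I hI J hJ hne
    obtain ⟨v, _, rfl⟩ := mem_image.1 hI
    obtain ⟨u, _, rfl⟩ := mem_image.1 hJ
    simp only [disjoint_singleton]
    rintro rfl
    exact hne rfl
  · rw [eq_univ_iff_forall]
    intro v
    exact mem_biUnion.2 ⟨{v}, mem_image.2 ⟨v, mem_univ _, rfl⟩, by simp⟩
  · rw [card_image_of_injective _ singleton_injective, card_univ]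

variable {V' : Type} [Fintype V'] [DecidableEq V']

lemma acoef_of_ncol {G : SimpleGraph V} {G' : SimpleGraph V'} (h : ∀ k, ncol G k = ncol G' k)
    (j : ℕ) : acoef G j = acoef G' j := by
  induction j using Nat.strong_induction_on with
  | _ j ih =>
    set N := Fintype.card V + Fintype.card V' + j + 1 with hN
    have h1 := h j
    rw [ncol_eq, ncol_eq, sum_part_eq G _ N (by omega), sum_part_eq G' _ N (by omega)] at h1
    have cut : ∀ a : ℕ → ℕ, ∑ i ∈ range N, a i • j.descFactorial i =
        ∑ i ∈ range j, a i • j.descFactorial i + a j * j.factorial := by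
      intro a
      rw [← Nat.descFactorial_self, ← smul_eq_mul, ← sum_range_succ (fun i => a i • j.descFactorial i)]
      symm
      refine sum_subset (range_subset_range.2 (by omega)) fun i _ hi => ?_
      rw [mem_range] at hi
      rw [Nat.descFactorial_of_lt (by omega), smul_zero]
    rw [cut, cut, sum_congr rfl (fun i hi => by rw [ih i (mem_range.1 hi)])] at h1
    exact Nat.eq_of_mul_eq_mul_right j.factorial_pos (Nat.add_left_cancel h1)

lemma card_eq_of_ncol {G : SimpleGraph V} {G' : SimpleGraph V'} (h : ∀ k, ncol G k = ncol G' k) :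
    Fintype.card V = Fintype.card V' := by
  by_contra hne
  rcases Nat.lt_or_gt_of_ne hne with h1 | h1
  · have := acoef_card_pos G'
    rw [← acoef_of_ncol h, acoef_eq_zero G h1] at this
    exact lt_irrefl _ this
  · have := acoef_card_pos G
    rw [acoef_of_ncol h, acoef_eq_zero G' h1] at this
    exact lt_irrefl _ this

lemma sum_part_congr {G : SimpleGraph V} {G' : SimpleGraph V'} (h : ∀ k, ncol G k = ncol G' k)
    {M : Type} [AddCommMonoid M] (φ : ℕ → M) :
    ∑ π ∈ part (ind G) univ, φ π.card = ∑ π ∈ part (ind G') univ, φ π.card := by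
  rw [sum_part_eq G φ (Fintype.card V + 1) (by omega),
    sum_part_eq G' φ (Fintype.card V + 1) (by rw [card_eq_of_ncol h]; omega)]
  exact sum_congr rfl fun j _ => by rw [acoef_of_ncol h]

variable {R : Type} [CommSemiring R]

lemma W_bot_congr {G : SimpleGraph V} {G' : SimpleGraph V'} (h : ∀ k, ncol G k = ncol G' k)
    (x : R) : W (fun _ => x) (ind G) univ = W (fun _ => x) (ind G') univ := by
  unfold W
  simp only [prod_const]
  exact sum_part_congr h fun j => x ^ j

lemma W_top_eq (G : SimpleGraph V) (y : R) : W (fun j => y ^ (j - 1)) (ind G) univ =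
    ∑ π ∈ part (ind G) univ, y ^ (Fintype.card V - π.card) := by
  unfold W
  refine sum_congr rfl fun π hπ => ?_
  rw [prod_pow_eq_pow_sum]
  congr 1
  have h1 := sum_card_part hπ
  have h2 : ∑ I ∈ π, I.card = ∑ I ∈ π, (I.card - 1 + 1) := sum_congr rfl fun I hI => by
    have := (mem_ind.1 ((mem_part.1 hπ).1.1 hI)).1.card_pos
    omega
  rw [sum_add_distrib, sum_const, smul_eq_mul, mul_one, h1, card_univ] at h2
  omega

lemma W_top_congr {G : SimpleGraph V} {G' : SimpleGraph V'} (h : ∀ k, ncol G k = ncol G' k)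
    (y : R) : W (fun j => y ^ (j - 1)) (ind G) univ = W (fun j => y ^ (j - 1)) (ind G') univ := by
  rw [W_top_eq, W_top_eq, ← card_eq_of_ncol h]
  exact sum_part_congr h fun j => y ^ (Fintype.card V - j)

lemma ncol_iso {G : SimpleGraph V} {G' : SimpleGraph V'} (e : G ≃g G') (k : ℕ) :
    ncol G k = ncol G' k := by
  unfold ncol
  refine Nat.card_congr (Equiv.subtypeEquiv (Equiv.arrowCongr e.toEquiv (Equiv.refl _)) ?_)
  intro c
  simp only [Equiv.arrowCongr_apply, Equiv.coe_refl, Function.comp, id]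
  constructor
  · intro h u v huv
    exact h _ _ (e.symm.map_adj_iff.2 huv)
  · intro h u v huv
    have := h (e u) (e v) (e.map_adj_iff.2 huv)
    change c (e.symm (e u)) ≠ c (e.symm (e v)) at this
    rwa [e.symm_apply_apply, e.symm_apply_apply] at this

variable {ι : Type} [Fintype ι] [DecidableEq ι]

open Classical in
/-- independent sets meeting two classes -/
noncomputable def cross (G : SimpleGraph V) (cls : V → ι) : Finset (Finset V) :=
  (ind G).filter fun I => ∃ u ∈ I, ∃ v ∈ I, cls u ≠ cls v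

lemma mem_cross {G : SimpleGraph V} {cls : V → ι} {I : Finset V} :
    I ∈ cross G cls ↔ (∀ u ∈ I, ∀ v ∈ I, ¬ G.Adj u v) ∧ ∃ u ∈ I, ∃ v ∈ I, cls u ≠ cls v := by
  simp only [cross, mem_filter, mem_ind]
  constructor
  · rintro ⟨⟨_, h1⟩, h2⟩; exact ⟨h1, h2⟩
  · rintro ⟨h1, u, hu, h2⟩; exact ⟨⟨⟨u, hu⟩, h1⟩, u, hu, h2⟩

/-- the class of index `i` -/
def cl (cls : V → ι) (i : ι) : Finset V := univ.filter (cls · = i)

@[simp] lemma mem_cl {cls : V → ι} {i : ι} {v : V} : v ∈ cl cls i ↔ cls v = i := by simp [cl]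

/-- number of vertices of class `i` not covered by `M` -/
def rest (cls : V → ι) (M : Finset (Finset V)) (i : ι) : ℕ := (cl cls i \ M.biUnion id).card

lemma W_main (w : ℕ → R) (G : SimpleGraph V) (cls : V → ι)
    (hc : ∀ u v, G.Adj u v → cls u ≠ cls v) :
    W w (ind G) univ = ∑ M ∈ pack (cross G cls),
      (∏ I ∈ M, w I.card) * ∏ i, bell w (rest cls M i) := by
  classical
  set F := (ind G).filter fun I => ¬ ∃ u ∈ I, ∃ v ∈ I, cls u ≠ cls v with hF
  have h1 : ind G = cross G cls ∪ F := by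
    ext I
    simp only [cross, hF, mem_union, mem_filter]
    rw [← and_or_left, and_iff_left (em _)]
  have h2 : Disjoint (cross G cls) F := by
    rw [Finset.disjoint_left]
    intro I hI hI'
    exact (mem_filter.1 hI').2 (mem_cross.1 hI).2
  rw [h1, W_split w _ _ h2, filter_true_of_mem (fun _ _ => subset_univ _)]
  refine sum_congr rfl fun M _ => ?_
  rw [W_classes w cls F]
  · congr 1
    refine prod_congr rfl fun i _ => ?_
    congr 1
    unfold rest
    congr 1
    ext v
    simp only [mem_filter, mem_sdiff, mem_univ, true_and, mem_cl]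
    tauto
  · intro I
    simp only [hF, mem_filter, mem_ind]
    push_neg
    constructor
    · rintro ⟨⟨h3, _⟩, h4⟩; exact ⟨h3, h4⟩
    · rintro ⟨h3, h4⟩
      exact ⟨⟨h3, fun u hu v hv huv => hc u v huv (h4 u hu v hv)⟩, h4⟩

end Pool.Agent.Lib.MP_f7f352_co.U
end

-- part Pool.Agent.Lib.MP_f7f352_co.UBell
section

set_option autoImplicit false

namespace Pool.Agent.Lib.MP_f7f352_co.U

open Finset Polynomial

section explicit
variable {R : Type} [CommSemiring R] (w : ℕ → R)

lemma bell_one : bell w 1 = w 1 := by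
  simp [bell_succ, bell_zero]

lemma bell_two : bell w 2 = w 1 ^ 2 + w 2 := by
  rw [bell_succ]; simp [sum_range_succ, bell_zero, bell_one]; ring

lemma bell_three : bell w 3 = w 1 ^ 3 + 3 * w 1 * w 2 + w 3 := by
  rw [bell_succ]; simp [sum_range_succ, bell_zero, bell_one, bell_two]; ring

lemma bell_four : bell w 4 = w 1 ^ 4 + 6 * w 1 ^ 2 * w 2 + 3 * w 2 ^ 2 + 4 * w 1 * w 3 + w 4 := by
  rw [bell_succ]
  simp [sum_range_succ, bell_zero, bell_one, bell_two, bell_three, Nat.choose]; ring

lemma coeff_one_prod {α : Type} (s : Finset α) (f : α → R[X]) (h : ∀ a ∈ s, (f a).coeff 0 = 1) :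
    (∏ a ∈ s, f a).coeff 1 = ∑ a ∈ s, (f a).coeff 1 := by
  classical
  induction s using Finset.induction_on with
  | empty => simp [coeff_one]
  | insert a s ha ih =>
    rw [prod_insert ha, sum_insert ha, mul_coeff_one, ih fun b hb => h b (mem_insert_of_mem hb),
      h a (mem_insert_self _ _), coeff_zero_prod,
      prod_eq_one fun b hb => h b (mem_insert_of_mem hb)]
    ring

lemma coeff_zero_prod_one {α : Type} (s : Finset α) (f : α → R[X])
    (h : ∀ a ∈ s, (f a).coeff 0 = 1) : (∏ a ∈ s, f a).coeff 0 = 1 := by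
  rw [coeff_zero_prod, prod_eq_one h]

lemma mul_coeff_two (p q : R[X]) : (p * q).coeff 2 =
    p.coeff 0 * q.coeff 2 + p.coeff 1 * q.coeff 1 + p.coeff 2 * q.coeff 0 := by
  rw [coeff_mul]
  simp [Finset.Nat.antidiagonal_succ, add_assoc]

end explicit

/-- Touchard polynomials -/
noncomputable def bb (q : ℕ) : ℕ[X] := bell (fun _ => X) q

/-- Touchard polynomials divided by the variable -/
noncomputable def uu : ℕ → ℕ[X]
  | 0 => 1
  | p + 1 => ∑ j ∈ range (p + 1), (p.choose j : ℕ[X]) * bb (p - j)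

lemma bb_succ (p : ℕ) : bb (p + 1) = X * uu (p + 1) := by
  rw [bb, bell_succ, uu, mul_sum]
  refine sum_congr rfl fun j _ => ?_
  rw [bb]; ring

lemma bb_zero : bb 0 = 1 := bell_zero _

lemma bb_eq (q : ℕ) : bb q = X ^ (if q = 0 then 0 else 1) * uu q := by
  cases q with
  | zero => simp [bb_zero, uu]
  | succ p => simp [bb_succ]

lemma bb_coeff_zero (q : ℕ) : (bb q).coeff 0 = if q = 0 then 1 else 0 := by
  cases q with
  | zero => simp [bb_zero]
  | succ p => simp [bb_succ]

lemma uu_coeff_zero (q : ℕ) : (uu q).coeff 0 = 1 := by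
  cases q with
  | zero => simp [uu]
  | succ p =>
    rw [uu, finset_sum_coeff, sum_eq_single p]
    · simp [bb_zero]
    · intro j hj hne
      rw [mem_range] at hj
      rw [coeff_natCast_mul, bb_coeff_zero, if_neg (by omega), mul_zero]
    · simp

lemma bb_coeff_one (q : ℕ) : (bb q).coeff 1 = if q = 0 then 0 else 1 := by
  cases q with
  | zero => simp [bb_zero, coeff_one]
  | succ p => simp [bb_succ, coeff_X_mul, uu_coeff_zero]

/-- number of splittings into two nonempty parts -/
noncomputable def sig (q : ℕ) : ℕ := (uu q).coeff 1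

lemma sig_succ (p : ℕ) : sig (p + 1) + 1 = 2 ^ p := by
  rw [sig, uu, finset_sum_coeff, ← Nat.sum_range_choose, sum_range_succ, sum_range_succ]
  simp only [coeff_natCast_mul, bb_coeff_one, Nat.sub_self, if_true, mul_zero, add_zero,
    Nat.choose_self, Nat.cast_id]
  congr 1
  refine sum_congr rfl fun j hj => ?_
  rw [mem_range] at hj
  rw [if_neg (by omega), mul_one]

lemma sig_two : sig 2 = 1 := by have := sig_succ 1; norm_num at this; omega
lemma sig_three : sig 3 = 3 := by have := sig_succ 2; norm_num at this; omega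
lemma sig_four : sig 4 = 7 := by have := sig_succ 3; norm_num at this; omega

lemma sig_ge (p : ℕ) (hp : p ≠ 0) : p + p.choose 2 ≤ sig p + 3 ∧
    (p + p.choose 2 = sig p + 3 → p = 3 ∨ p = 4) := by
  have key : ∀ q : ℕ, (q + 5) + (q + 5).choose 2 < 2 ^ (q + 4) + 2 := by
    intro q
    induction q with
    | zero => decide
    | succ q ih =>
      have h1 : (q + 1 + 5).choose 2 = (q + 5).choose 2 + (q + 5) := by
        rw [show q + 1 + 5 = (q + 5) + 1 by ring, Nat.choose_succ_succ]; simp; ring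
      have h2 : 2 ^ (q + 1 + 4) = 2 * 2 ^ (q + 4) := by ring
      have h3 : 10 ≤ (q + 5).choose 2 := Nat.choose_le_choose (a := 5) 2 (by omega)
      omega
  obtain ⟨q, rfl⟩ := Nat.exists_eq_succ_of_ne_zero hp
  have h := sig_succ q
  rcases Nat.lt_or_ge q 4 with hq | hq
  · interval_cases q <;> simp [Nat.choose] at h ⊢ <;> omega
  · obtain ⟨t, rfl⟩ := Nat.exists_eq_add_of_le' hq
    have := key t
    simp only [Nat.succ_eq_add_one, show t + 4 + 1 = t + 5 by ring] at h ⊢
    omega

/-- reversed Touchard polynomials -/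
noncomputable def bt (q : ℕ) : ℤ[X] := bell (fun j => X ^ (j - 1)) q

lemma bt_zero : bt 0 = 1 := bell_zero _

lemma bt_succ (p : ℕ) :
    bt (p + 1) = ∑ j ∈ range (p + 1), (p.choose j : ℤ[X]) * (X ^ j * bt (p - j)) := by
  rw [bt, bell_succ]; rfl

lemma bt_coeff_zero (q : ℕ) : (bt q).coeff 0 = 1 := by
  induction q with
  | zero => simp [bt_zero]
  | succ p ih =>
    rw [bt_succ, finset_sum_coeff, sum_eq_single 0]
    · simp [ih]
    · intro j _ hne
      rw [coeff_natCast_mul, coeff_X_pow_mul', if_neg (by omega), mul_zero]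
    · simp

lemma bt_coeff_one (q : ℕ) : (bt q).coeff 1 = q.choose 2 := by
  induction q with
  | zero => simp [bt_zero, coeff_one]
  | succ p ih =>
    rw [bt_succ, finset_sum_coeff, sum_range_succ']
    simp only [coeff_natCast_mul, coeff_X_pow_mul']
    rw [sum_eq_single 0]
    · simp [ih, bt_coeff_zero, Nat.choose_succ_succ]
    · intro j _ hne
      rw [if_neg (by omega), mul_zero]
    · intro h
      have : p = 0 := by simpa using h
      simp [this]

lemma bt_two : bt 2 = 1 + X := by rw [bt, bell_two]; simp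
lemma bt_three : bt 3 = 1 + 3 * X + X ^ 2 := by rw [bt, bell_three]; simp
lemma bt_four : bt 4 = 1 + 6 * X + 7 * X ^ 2 + X ^ 3 := by rw [bt, bell_four]; simp; ring

lemma bt_two_two : (bt 2).coeff 2 = 0 := by simp [bt_two, coeff_one, coeff_X]
lemma bt_three_two : (bt 3).coeff 2 = 1 := by simp [bt_three, coeff_one, coeff_X]
lemma bt_four_two : (bt 4).coeff 2 = 7 := by simp [bt_four, coeff_one, coeff_X]

section packs
variable {V : Type} [DecidableEq V]

/-- packings with `j` members -/
noncomputable def pk (C : Finset (Finset V)) (j : ℕ) : Finset (Finset (Finset V)) :=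
  (pack C).filter fun M => M.card = j

lemma mem_pk {C : Finset (Finset V)} {j : ℕ} {M : Finset (Finset V)} :
    M ∈ pk C j ↔ M ∈ pack C ∧ M.card = j := mem_filter

lemma sum_pk {A : Type} [AddCommMonoid A] (C : Finset (Finset V)) (f : Finset (Finset V) → A)
    (k : ℕ) : ∑ M ∈ (pack C).filter (fun M => M.card < k), f M =
      ∑ j ∈ range k, ∑ M ∈ pk C j, f M := by
  rw [← sum_fiberwise_of_maps_to (s := (pack C).filter (fun M => M.card < k)) (t := range k)
    (g := fun M => M.card) (fun M hM => mem_range.2 (mem_filter.1 hM).2)]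
  refine sum_congr rfl fun j hj => sum_congr ?_ fun _ _ => rfl
  ext M
  simp only [mem_filter, mem_pk, mem_range] at hj ⊢
  constructor
  · rintro ⟨⟨h1, _⟩, h2⟩; exact ⟨h1, h2⟩
  · rintro ⟨h1, h2⟩; exact ⟨⟨h1, h2 ▸ hj⟩, h2⟩

lemma sum_pack_eq {A : Type} [AddCommMonoid A] (C : Finset (Finset V))
    (f : Finset (Finset V) → A) (k : ℕ) (h : ∀ M ∈ pack C, k ≤ M.card → f M = 0) :
    ∑ M ∈ pack C, f M = ∑ j ∈ range k, ∑ M ∈ pk C j, f M := by
  rw [← sum_pk]
  symm
  refine sum_subset (filter_subset _ _) fun M hM hM' => h M hM ?_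
  by_contra hlt
  exact hM' (mem_filter.2 ⟨hM, by omega⟩)

lemma sum_pack_ge (C : Finset (Finset V)) (f : Finset (Finset V) → ℕ) (k : ℕ) :
    ∑ j ∈ range k, ∑ M ∈ pk C j, f M ≤ ∑ M ∈ pack C, f M := by
  rw [← sum_pk]
  exact sum_le_sum_of_subset (filter_subset _ _)

lemma pk_zero (C : Finset (Finset V)) : pk C 0 = {∅} := by
  ext M
  simp only [mem_pk, mem_pack, card_eq_zero, mem_singleton]
  constructor
  · exact fun h => h.2
  · rintro rfl; simp

lemma sum_pk_one {A : Type} [AddCommMonoid A] (C : Finset (Finset V))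
    (f : Finset (Finset V) → A) : ∑ M ∈ pk C 1, f M = ∑ I ∈ C, f {I} := by
  have : pk C 1 = C.image fun I => {I} := by
    ext M
    simp only [mem_pk, mem_pack, card_eq_one, mem_image]
    constructor
    · rintro ⟨⟨h1, _⟩, I, rfl⟩
      exact ⟨I, h1 (mem_singleton_self _), rfl⟩
    · rintro ⟨I, hI, rfl⟩
      simp [hI]
  rw [this, sum_image fun I _ J _ h => singleton_injective h]

lemma pk_subset (C : Finset (Finset V)) (j : ℕ) : pk C j ⊆ powersetCard j C := by
  intro M hM
  rw [mem_pk, mem_pack] at hM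
  exact mem_powersetCard.2 ⟨hM.1.1, hM.2⟩

lemma pk_eq (C : Finset (Finset V)) (h : ∀ I ∈ C, ∀ J ∈ C, I ≠ J → Disjoint I J) (j : ℕ) :
    pk C j = powersetCard j C := by
  refine Subset.antisymm (pk_subset C j) fun M hM => ?_
  rw [mem_powersetCard] at hM
  exact mem_pk.2 ⟨mem_pack.2 ⟨hM.1, fun I hI J hJ => h I (hM.1 hI) J (hM.1 hJ)⟩, hM.2⟩

end packs

lemma sum_pc2_insert {α : Type} [DecidableEq α] (s : Finset α) (x : α) (hx : x ∉ s)
    (h : Finset α → ℤ) : ∑ M ∈ powersetCard 2 (insert x s), h M =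
      ∑ M ∈ powersetCard 2 s, h M + ∑ y ∈ s, h {x, y} := by
  rw [show (2 : ℕ) = Nat.succ 1 from rfl, powersetCard_succ_insert hx, sum_union, sum_image,
    powersetCard_one, sum_map]
  · rfl
  · intro M hM N hN hMN
    have h1 : x ∉ M := fun h => hx ((mem_powersetCard.1 hM).1 h)
    have h2 : x ∉ N := fun h => hx ((mem_powersetCard.1 hN).1 h)
    rw [← erase_insert h1, hMN, erase_insert h2]
  · rw [Finset.disjoint_left]
    intro M hM hM'
    obtain ⟨N, _, rfl⟩ := mem_image.1 hM'
    exact hx ((mem_powersetCard.1 hM).1 (mem_insert_self _ _))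

lemma sum_pc2_lin {α : Type} [DecidableEq α] (s : Finset α) (t : α → ℤ) :
    ∑ M ∈ powersetCard 2 s, ∑ a ∈ M, t a = ((s.card : ℤ) - 1) * ∑ a ∈ s, t a := by
  induction s using Finset.induction_on with
  | empty => rw [powersetCard_eq_empty.2 (by simp)]; simp
  | insert x s hx ih =>
    rw [sum_pc2_insert s x hx, ih, card_insert_of_notMem hx, sum_insert hx,
      sum_congr rfl (fun y hy => sum_pair (f := t) (fun h : x = y => hx (h ▸ hy))), sum_add_distrib,
      sum_const]
    push_cast
    simp only [nsmul_eq_mul]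
    ring

lemma sum_pc2_sq {α : Type} [DecidableEq α] (s : Finset α) (t : α → ℤ) :
    ∑ M ∈ powersetCard 2 s, (∑ a ∈ M, t a) ^ 2 =
      ((s.card : ℤ) - 2) * ∑ a ∈ s, t a ^ 2 + (∑ a ∈ s, t a) ^ 2 := by
  induction s using Finset.induction_on with
  | empty => rw [powersetCard_eq_empty.2 (by simp)]; simp
  | insert x s hx ih =>
    have h1 : ∑ y ∈ s, (∑ a ∈ ({x, y} : Finset α), t a) ^ 2 =
        ∑ y ∈ s, (t x ^ 2 + 2 * t x * t y + t y ^ 2) := sum_congr rfl fun y hy => by
      rw [sum_pair (fun h : x = y => hx (h ▸ hy))]; ring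
    rw [sum_pc2_insert s x hx, ih, card_insert_of_notMem hx, sum_insert hx, sum_insert hx, h1,
      sum_add_distrib, sum_add_distrib, sum_const, ← mul_sum]
    push_cast
    simp only [nsmul_eq_mul]
    ring

end Pool.Agent.Lib.MP_f7f352_co.U
end

-- part Pool.Agent.Lib.MP_f7f352_co.UStat
section

set_option autoImplicit false

namespace Pool.Agent.Lib.MP_f7f352_co.U

open Finset Polynomial

variable {V : Type} [Fintype V] [DecidableEq V] {ι : Type} [Fintype ι] [DecidableEq ι]

/-- number of vertices of `I` in class `i` -/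
def tt (cls : V → ι) (I : Finset V) (i : ι) : ℕ := (I.filter (cls · = i)).card

lemma sum_tt (cls : V → ι) (I : Finset V) : ∑ i, tt cls I i = I.card :=
  (card_eq_sum_card_fiberwise (f := cls) (s := I) (t := univ) fun _ _ => mem_univ _).symm

lemma rest_add (cls : V → ι) {C M : Finset (Finset V)} (hM : M ∈ pack C) (i : ι) :
    rest cls M i + ∑ I ∈ M, tt cls I i = (cl cls i).card := by
  have h1 : ∑ I ∈ M, tt cls I i = (cl cls i ∩ M.biUnion id).card := by
    unfold tt
    rw [← card_biUnion]
    · congr 1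
      ext v
      simp only [mem_biUnion, mem_filter, mem_inter, mem_cl, id]
      constructor
      · rintro ⟨I, h1, h2, h3⟩; exact ⟨h3, I, h1, h2⟩
      · rintro ⟨h3, I, h1, h2⟩; exact ⟨I, h1, h2, h3⟩
    · intro I hI J hJ hne
      exact ((mem_pack.1 hM).2 I hI J hJ hne).mono (filter_subset _ _) (filter_subset _ _)
  rw [h1, rest, card_sdiff_add_card_inter]

lemma rest_empty (cls : V → ι) (i : ι) : rest cls ∅ i = (cl cls i).card := by simp [rest]

lemma singleton_mem_pack {C : Finset (Finset V)} {I : Finset V} (hI : I ∈ C) :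
    ({I} : Finset (Finset V)) ∈ pack C := by
  simp [mem_pack, hI]

lemma rest_single (cls : V → ι) (I : Finset V) (i : ι) :
    rest cls {I} i + tt cls I i = (cl cls i).card := by
  simpa using rest_add cls (singleton_mem_pack (mem_singleton_self I)) i

lemma two_le_card_cross {G : SimpleGraph V} {cls : V → ι} {I : Finset V} (hI : I ∈ cross G cls) :
    2 ≤ I.card := by
  obtain ⟨_, u, hu, v, hv, h⟩ := mem_cross.1 hI
  exact one_lt_card.2 ⟨u, hu, v, hv, fun e => h (e ▸ rfl)⟩

lemma exists_pair {G : SimpleGraph V} {cls : V → ι} {I : Finset V} (hI : I ∈ cross G cls)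
    (h2 : I.card = 2) : ∃ u v, cls u ≠ cls v ∧ I = {u, v} := by
  obtain ⟨_, u, hu, v, hv, h⟩ := mem_cross.1 hI
  have hne : u ≠ v := fun e => h (e ▸ rfl)
  refine ⟨u, v, h, (eq_of_subset_of_card_le ?_ ?_).symm⟩
  · exact insert_subset hu (singleton_subset_iff.2 hv)
  · rw [h2, card_pair hne]

lemma tt_pair (cls : V → ι) {u v : V} (h : cls u ≠ cls v) (i : ι) :
    tt cls {u, v} i = (if cls u = i then 1 else 0) + (if cls v = i then 1 else 0) := by
  have hne : u ≠ v := fun e => h (e ▸ rfl)
  rw [tt, card_filter, sum_pair hne]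

lemma tt_le_one {G : SimpleGraph V} {cls : V → ι} {I : Finset V} (hI : I ∈ cross G cls)
    (h2 : I.card = 2) (i : ι) : tt cls I i ≤ 1 := by
  obtain ⟨u, v, h, rfl⟩ := exists_pair hI h2
  rw [tt_pair cls h]
  split_ifs with h1 h3
  · exact absurd (h1.trans h3.symm) h
  all_goals omega

/-- generating polynomial of partitions into independent sets -/
noncomputable def Wb (G : SimpleGraph V) : ℕ[X] := W (fun _ => X) (ind G) univ

/-- the reversed polynomial -/
noncomputable def Wt (G : SimpleGraph V) : ℤ[X] := W (fun j => X ^ (j - 1)) (ind G) univ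

/-- number of classes not swallowed -/
def nz (cls : V → ι) (M : Finset (Finset V)) : ℕ := (univ.filter fun i => rest cls M i ≠ 0).card

lemma nz_eq {cls : V → ι} {M : Finset (Finset V)} (h : ∀ i, rest cls M i ≠ 0) :
    nz cls M = Fintype.card ι := by
  rw [nz, filter_true_of_mem fun i _ => h i, card_univ]

lemma Wb_coeff (G : SimpleGraph V) (cls : V → ι) (hc : ∀ u v, G.Adj u v → cls u ≠ cls v)
    (k : ℕ) : (Wb G).coeff k = ∑ M ∈ pack (cross G cls),
      if M.card + nz cls M ≤ k then (∏ i, uu (rest cls M i)).coeff (k - (M.card + nz cls M))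
      else 0 := by
  rw [Wb, W_main _ G cls hc, finset_sum_coeff]
  refine sum_congr rfl fun M _ => ?_
  rw [← coeff_X_pow_mul']
  congr 1
  change _ * ∏ i, bb (rest cls M i) = _
  simp only [bb_eq, prod_mul_distrib, prod_const, prod_pow_eq_pow_sum, pow_add, mul_assoc]
  congr 3
  rw [nz, card_filter]
  exact sum_congr rfl fun i _ => by split_ifs <;> simp_all

lemma Wt_coeff (G : SimpleGraph V) (cls : V → ι) (hc : ∀ u v, G.Adj u v → cls u ≠ cls v)
    (k : ℕ) : (Wt G).coeff k = ∑ M ∈ pack (cross G cls),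
      if ∑ I ∈ M, (I.card - 1) ≤ k then
        (∏ i, bt (rest cls M i)).coeff (k - ∑ I ∈ M, (I.card - 1)) else 0 := by
  rw [Wt, W_main _ G cls hc, finset_sum_coeff]
  refine sum_congr rfl fun M _ => ?_
  rw [← coeff_X_pow_mul', prod_pow_eq_pow_sum]
  rfl

lemma uu_prod_zero (q : ι → ℕ) : (∏ i, uu (q i)).coeff 0 = 1 :=
  coeff_zero_prod_one _ _ fun _ _ => uu_coeff_zero _

lemma uu_prod_one (q : ι → ℕ) : (∏ i, uu (q i)).coeff 1 = ∑ i, sig (q i) :=
  coeff_one_prod _ _ fun _ _ => uu_coeff_zero _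

lemma bt_prod_zero (q : ι → ℕ) : (∏ i, bt (q i)).coeff 0 = 1 :=
  coeff_zero_prod_one _ _ fun _ _ => bt_coeff_zero _

lemma bt_prod_one (q : ι → ℕ) : (∏ i, bt (q i)).coeff 1 = ∑ i, ((q i).choose 2 : ℤ) := by
  rw [coeff_one_prod _ _ fun _ _ => bt_coeff_zero _]
  simp only [bt_coeff_one]

lemma top_one (G : SimpleGraph V) (cls : V → ι) (hc : ∀ u v, G.Adj u v → cls u ≠ cls v) :
    (Wt G).coeff 1 = ∑ i, ((cl cls i).card.choose 2 : ℤ) +
      ((cross G cls).filter fun I => I.card = 2).card := by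
  rw [Wt_coeff G cls hc, sum_pack_eq _ _ 2]
  · simp only [sum_range_succ, range_zero, sum_empty, zero_add, pk_zero, sum_singleton, sum_pk_one,
      rest_empty, zero_le, if_true, Nat.sub_zero, bt_prod_one]
    congr 1
    rw [card_filter]
    push_cast
    refine sum_congr rfl fun I hI => ?_
    have := two_le_card_cross hI
    by_cases h : I.card = 2
    · simp [h, bt_prod_zero]
    · rw [if_neg (by omega), if_neg h]
  · intro M hM h2
    rw [if_neg]
    have : ∑ I ∈ M, 1 ≤ ∑ I ∈ M, (I.card - 1) := sum_le_sum fun I hI => by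
      have := two_le_card_cross ((mem_pack.1 hM).1 hI)
      omega
    simp only [sum_const, smul_eq_mul, mul_one] at this
    omega

lemma no_swallow (G : SimpleGraph V) (cls : V → ι) (hc : ∀ u v, G.Adj u v → cls u ≠ cls v)
    (hs : ∀ i, (cl cls i).card ≠ 0) (h0 : ∀ k < Fintype.card ι, (Wb G).coeff k = 0)
    (h1 : (Wb G).coeff (Fintype.card ι) = 1) {I : Finset V} (hI : I ∈ cross G cls) (i : ι) :
    rest cls {I} i ≠ 0 := by
  intro h
  have hlt : nz cls {I} < Fintype.card ι := by
    rw [nz, ← card_univ]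
    exact card_lt_card ⟨subset_univ _, fun hh => by simpa [h] using hh (mem_univ i)⟩
  have hge := sum_pack_ge (cross G cls) (fun M => if M.card + nz cls M ≤ 1 + nz cls {I} then
    (∏ i, uu (rest cls M i)).coeff (1 + nz cls {I} - (M.card + nz cls M)) else 0) 2
  rw [← Wb_coeff G cls hc] at hge
  simp only [sum_range_succ, range_zero, sum_empty, zero_add, pk_zero, sum_singleton,
    sum_pk_one, card_empty, card_singleton] at hge
  have h2 := single_le_sum (f := fun J => if 1 + nz cls {J} ≤ 1 + nz cls {I} then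
    (∏ i, uu (rest cls {J} i)).coeff (1 + nz cls {I} - (1 + nz cls {J})) else 0)
    (fun _ _ => Nat.zero_le _) hI
  simp only [le_refl, if_true, Nat.sub_self, uu_prod_zero] at h2
  have h3 : nz cls (∅ : Finset (Finset V)) = Fintype.card ι :=
    nz_eq fun i => by rw [rest_empty]; exact hs i
  rcases Nat.lt_or_ge (1 + nz cls {I}) (Fintype.card ι) with h4 | h4
  · rw [h0 _ h4] at hge
    omega
  · have h5 : 1 + nz cls {I} = Fintype.card ι := by omega
    rw [h5, h1, h3] at hge
    rw [h5] at h2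
    simp only [le_refl, if_true, Nat.sub_self, uu_prod_zero] at hge
    omega

lemma bot_one_ge (G : SimpleGraph V) (cls : V → ι) (hc : ∀ u v, G.Adj u v → cls u ≠ cls v)
    (hs : ∀ i, (cl cls i).card ≠ 0) (hn : ∀ I ∈ cross G cls, ∀ i, rest cls {I} i ≠ 0) :
    ∑ i, sig (cl cls i).card + (cross G cls).card ≤ (Wb G).coeff (Fintype.card ι + 1) := by
  rw [Wb_coeff G cls hc]
  refine le_trans (le_of_eq ?_) (sum_pack_ge _ _ 2)
  have h3 : nz cls (∅ : Finset (Finset V)) = Fintype.card ι :=
    nz_eq fun i => by rw [rest_empty]; exact hs i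
  simp only [sum_range_succ, range_zero, sum_empty, zero_add, pk_zero, sum_singleton,
    sum_pk_one, card_empty, card_singleton, h3, rest_empty]
  rw [if_pos (by omega), Nat.add_sub_cancel_left, uu_prod_one, card_eq_sum_ones]
  congr 1
  refine sum_congr rfl fun I hI => ?_
  rw [nz_eq (hn I hI), if_pos (by omega), add_comm 1, Nat.sub_self, uu_prod_zero]

/-- classes of size three or four, all cross independent sets are pairs -/
structure Good (G : SimpleGraph V) (cls : V → ι) (lab : ι → Bool) : Prop where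
  proper : ∀ u v, G.Adj u v → cls u ≠ cls v
  size : ∀ i, (cl cls i).card = 3 + (lab i).toNat
  pair : ∀ I ∈ cross G cls, I.card = 2

/-- number of endpoints in big classes -/
def be (cls : V → ι) (lab : ι → Bool) (I : Finset V) : ℕ := ∑ i, tt cls I i * (lab i).toNat

/-- number of cross pairs at a class -/
noncomputable def dg (G : SimpleGraph V) (cls : V → ι) (i : ι) : ℕ := ∑ I ∈ cross G cls, tt cls I i

/-- the rigid structure -/
structure Full (G : SimpleGraph V) (cls : V → ι) (lab : ι → Bool) : Prop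
    extends Good G cls lab where
  disj : ∀ I ∈ cross G cls, ∀ J ∈ cross G cls, I ≠ J → Disjoint I J
  deg : ∀ i, dg G cls i = 2
  nobb : ∀ I ∈ cross G cls, be cls lab I ≤ 1

/-- number of big classes -/
def nb (lab : ι → Bool) : ℕ := ∑ i, (lab i).toNat

lemma prod_lab {A : Type} [CommMonoid A] (lab : ι → Bool) (φ : Bool → A) :
    ∏ i, φ (lab i) = φ true ^ nb lab * φ false ^ (Fintype.card ι - nb lab) := by
  have h1 : nb lab = (univ.filter fun i => lab i = true).card := by
    rw [nb, card_filter]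
    exact sum_congr rfl fun i _ => by cases lab i <;> simp
  have h2 : Fintype.card ι - nb lab = (univ.filter fun i => ¬ lab i = true).card := by
    rw [h1, ← card_univ, ← card_filter_add_card_filter_not (fun i => lab i = true)]
    omega
  rw [h2, h1, ← prod_filter_mul_prod_filter_not univ (fun i => lab i = true), ← prod_const,
    ← prod_const]
  congr 1
  · exact prod_congr rfl fun i hi => by rw [(mem_filter.1 hi).2]
  · exact prod_congr rfl fun i hi => by rw [eq_false_of_ne_true (mem_filter.1 hi).2]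

variable {G : SimpleGraph V} {cls : V → ι} {lab : ι → Bool}

lemma Good.dsum (h : Good G cls lab) {M : Finset (Finset V)} (hM : M ∈ pack (cross G cls)) :
    ∑ I ∈ M, (I.card - 1) = M.card := by
  rw [card_eq_sum_ones M]
  exact sum_congr rfl fun I hI => by rw [h.pair I ((mem_pack.1 hM).1 hI)]

lemma Good.tt_le (h : Good G cls lab) {I : Finset V} (hI : I ∈ cross G cls) (i : ι) :
    tt cls I i ≤ 1 := tt_le_one hI (h.pair I hI) i

lemma Good.sum_dg (h : Good G cls lab) : ∑ i, dg G cls i = 2 * (cross G cls).card := by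
  unfold dg
  rw [sum_comm, card_eq_sum_ones, mul_sum]
  exact sum_congr rfl fun I hI => by rw [sum_tt, h.pair I hI, mul_one]

lemma sum_be (G : SimpleGraph V) (cls : V → ι) (lab : ι → Bool) :
    ∑ I ∈ cross G cls, be cls lab I = ∑ i, dg G cls i * (lab i).toNat := by
  unfold be dg
  rw [sum_comm]
  exact sum_congr rfl fun i _ => by rw [sum_mul]

lemma Good.Wt_coeff (h : Good G cls lab) (k : ℕ) : (Wt G).coeff k =
    ∑ j ∈ range (k + 1), ∑ M ∈ pk (cross G cls) j, (∏ i, bt (rest cls M i)).coeff (k - j) := by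
  rw [U.Wt_coeff G cls h.proper, sum_pack_eq _ _ (k + 1)]
  · refine sum_congr rfl fun j hj => sum_congr rfl fun M hM => ?_
    obtain ⟨h1, h2⟩ := mem_pk.1 hM
    rw [mem_range] at hj
    rw [h.dsum h1, h2, if_pos (by omega)]
  · intro M hM h2
    rw [h.dsum hM, if_neg (by omega)]

lemma Good.rest_ne (h : Good G cls lab) {M : Finset (Finset V)} (hM : M ∈ pack (cross G cls))
    (h2 : M.card ≤ 2) (i : ι) : rest cls M i ≠ 0 := by
  have h1 := rest_add cls hM i
  have h3 : ∑ I ∈ M, tt cls I i ≤ ∑ I ∈ M, 1 :=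
    sum_le_sum fun I hI => h.tt_le ((mem_pack.1 hM).1 hI) i
  simp only [sum_const, smul_eq_mul, mul_one] at h3
  have := h.size i
  omega

lemma Full.rest_ne (h : Full G cls lab) {M : Finset (Finset V)} (hM : M ∈ pack (cross G cls))
    (i : ι) : rest cls M i ≠ 0 := by
  have h1 := rest_add cls hM i
  have h3 : ∑ I ∈ M, tt cls I i ≤ dg G cls i := sum_le_sum_of_subset (mem_pack.1 hM).1
  have := h.size i
  have := h.deg i
  omega

lemma Full.Wb_coeff (h : Full G cls lab) (k : ℕ) : (Wb G).coeff (Fintype.card ι + k) =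
    ∑ j ∈ range (k + 1), ∑ M ∈ pk (cross G cls) j, (∏ i, uu (rest cls M i)).coeff (k - j) := by
  rw [U.Wb_coeff G cls h.proper, sum_pack_eq _ _ (k + 1)]
  · refine sum_congr rfl fun j hj => sum_congr rfl fun M hM => ?_
    obtain ⟨h1, h2⟩ := mem_pk.1 hM
    rw [mem_range] at hj
    rw [nz_eq (h.rest_ne h1), h2, if_pos (by omega)]
    congr 1
    omega
  · intro M hM h2
    rw [nz_eq (h.rest_ne hM), if_neg (by omega)]

lemma Full.Wb_lt (h : Full G cls lab) {k : ℕ} (hk : k < Fintype.card ι) : (Wb G).coeff k = 0 := by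
  rw [U.Wb_coeff G cls h.proper]
  exact sum_eq_zero fun M hM => by rw [nz_eq (h.rest_ne hM), if_neg (by omega)]

lemma Good.Wb_ge (h : Good G cls lab) :
    ∑ j ∈ range 3, ∑ M ∈ pk (cross G cls) j, (∏ i, uu (rest cls M i)).coeff (2 - j) ≤
      (Wb G).coeff (Fintype.card ι + 2) := by
  rw [U.Wb_coeff G cls h.proper]
  refine le_trans (le_of_eq ?_) (sum_pack_ge _ _ 3)
  refine sum_congr rfl fun j hj => sum_congr rfl fun M hM => ?_
  obtain ⟨h1, h2⟩ := mem_pk.1 hM
  rw [mem_range] at hj
  rw [nz_eq (h.rest_ne h1 (by omega)), h2, if_pos (by omega)]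
  congr 1
  omega

end Pool.Agent.Lib.MP_f7f352_co.U
end
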