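import Mathlib

set_option autoImplicit false

namespace Pool.Agent.Lib.MP_f7f352_co.U

open Finset

section ultra
variable {K : Type} [NormedField K] [IsUltrametricDist K]

lemma nle_add {a b : K} {r : ℝ} (ha : ‖a‖ ≤ r) (hb : ‖b‖ ≤ r) : ‖a + b‖ ≤ r :=
  (IsUltrametricDist.norm_add_le_max a b).trans (max_le ha hb)

lemma nle_sub {a b : K} {r : ℝ} (ha : ‖a‖ ≤ r) (hb : ‖b‖ ≤ r) : ‖a - b‖ ≤ r := by
  rw [sub_eq_add_neg]; exact nle_add ha (by rwa [norm_neg])

lemma nlt_add {a b : K} {r : ℝ} (ha : ‖a‖ < r) (hb : ‖b‖ < r) : ‖a + b‖ < r :=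
  (IsUltrametricDist.norm_add_le_max a b).trans_lt (max_lt ha hb)

lemma nlt_sub {a b : K} {r : ℝ} (ha : ‖a‖ < r) (hb : ‖b‖ < r) : ‖a - b‖ < r := by
  rw [sub_eq_add_neg]; exact nlt_add ha (by rwa [norm_neg])

lemma neq_add {a b : K} (h : ‖b‖ < ‖a‖) : ‖a + b‖ = ‖a‖ := by
  rw [IsUltrametricDist.norm_add_eq_max_of_norm_ne_norm h.ne', max_eq_left h.le]

lemma neq_of_sub {a b : K} (h : ‖a - b‖ < ‖b‖) : ‖a‖ = ‖b‖ := by
  rw [← neq_add h]; congr 1; ring

lemma neq_one {a : K} (h : ‖a - 1‖ < 1) : ‖a‖ = 1 := by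
  rw [neq_of_sub (b := 1) (by rwa [norm_one]), norm_one]

omit [IsUltrametricDist K] in
lemma nle_mul {a b : K} {r s : ℝ} (ha : ‖a‖ ≤ r) (hb : ‖b‖ ≤ s) : ‖a * b‖ ≤ r * s := by
  rw [norm_mul]
  exact mul_le_mul ha hb (norm_nonneg _) ((norm_nonneg _).trans ha)

lemma prod_one_add {α : Type} (s : Finset α) (y : α → K) {η : ℝ} (h0 : 0 ≤ η) (h1 : η ≤ 1)
    (hy : ∀ a ∈ s, ‖y a‖ ≤ η) :
    ‖∏ a ∈ s, (1 + y a) - 1‖ ≤ η ∧ ‖∏ a ∈ s, (1 + y a) - 1 - ∑ a ∈ s, y a‖ ≤ η * η := by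
  classical
  induction s using Finset.induction_on with
  | empty => simp [h0, mul_nonneg h0 h0]
  | insert a s ha ih =>
    obtain ⟨i1, i2⟩ := ih fun b hb => hy b (mem_insert_of_mem hb)
    have h2 := hy a (mem_insert_self _ _)
    have h3 := nle_mul h2 i1
    rw [prod_insert ha, sum_insert ha]
    constructor
    · have : (1 + y a) * ∏ a ∈ s, (1 + y a) - 1 =
        (∏ a ∈ s, (1 + y a) - 1) + (y a + y a * (∏ a ∈ s, (1 + y a) - 1)) := by ring
      rw [this]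
      exact nle_add i1 (nle_add h2 (h3.trans (by nlinarith)))
    · have : (1 + y a) * ∏ a ∈ s, (1 + y a) - 1 - (y a + ∑ a ∈ s, y a) =
        (∏ a ∈ s, (1 + y a) - 1 - ∑ a ∈ s, y a) + y a * (∏ a ∈ s, (1 + y a) - 1) := by ring
      rw [this]
      exact nle_add i2 h3

end ultra

lemma exists_root (p : ℕ) [Fact p.Prime] (b c : ℤ) (hb : ‖((b : ℚ_[p])) - 1‖ < 1)
    (hc : ‖(c : ℚ_[p])‖ < 1) : ∃ z : ℚ_[p], z ^ 2 - b * z + c = 0 ∧ ‖z - 1‖ < 1 := by
  let F : Polynomial ℤ := Polynomial.X ^ 2 - Polynomial.C b * Polynomial.X + Polynomial.C c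
  have h1 : ‖F.derivative.aeval (1 : ℤ_[p])‖ = 1 := by
    rw [PadicInt.norm_def]
    have : ((F.derivative.aeval (1 : ℤ_[p]) : ℤ_[p]) : ℚ_[p]) = 2 - b := by
      simp [F, map_ofNat]
      norm_cast
    rw [this]
    apply neq_one
    rw [← norm_neg, show -((2 : ℚ_[p]) - b - 1) = b - 1 by ring]
    exact hb
  have h2 : ‖F.aeval (1 : ℤ_[p])‖ < ‖F.derivative.aeval (1 : ℤ_[p])‖ ^ 2 := by
    rw [h1, one_pow, PadicInt.norm_def]
    have : ((F.aeval (1 : ℤ_[p]) : ℤ_[p]) : ℚ_[p]) = c - (b - 1) := by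
      simp [F]
      ring
    rw [this]
    exact nlt_sub hc hb
  obtain ⟨z, hz, hz1, _⟩ := hensels_lemma h2
  refine ⟨z, ?_, ?_⟩
  · have := congrArg (fun t : ℤ_[p] => (t : ℚ_[p])) hz
    simpa [F] using this
  · rw [h1, PadicInt.norm_def] at hz1
    simpa using hz1

/-- the Lucas sequence of `t ^ 2 - t + 2` -/
def VV : ℕ → ℤ
  | 0 => 2
  | 1 => 1
  | m + 2 => VV (m + 1) - 2 * VV m

lemma VV_eq {R : Type} [CommRing R] (a b : R) (h1 : a + b = 1) (h2 : a * b = 2) (m : ℕ) :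
    (VV m : R) = a ^ m + b ^ m := by
  induction m using Nat.strong_induction_on with
  | _ m ih =>
    match m with
    | 0 => simp [VV]; norm_num
    | 1 => simp [VV, h1]
    | m + 2 =>
      rw [VV]
      push_cast
      rw [ih (m + 1) (by omega), ih m (by omega)]
      linear_combination (-(a ^ (m + 1) + b ^ (m + 1))) * h1 + (a ^ m + b ^ m) * h2

lemma VV_odd (m : ℕ) : Odd (VV (m + 1)) := by
  induction m with
  | zero => simp [VV]
  | succ m ih =>
    rw [VV]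
    exact ih.sub_even (even_two_mul _)

lemma dvd_of_common (l : ℕ) (hl : l.Prime) (m a q : ℕ) (hm : m ≠ 0) (hq : Odd q)
    (h1 : (l : ℤ) ∣ VV m) (h2 : (l : ℤ) ∣ VV (2 ^ a * q)) : 2 ^ a ∣ m := by
  haveI := Fact.mk hl
  have hl2 : l ≠ 2 := by
    rintro rfl
    obtain ⟨k, rfl⟩ := Nat.exists_eq_succ_of_ne_zero hm
    exact (Int.not_even_iff_odd.2 (VV_odd k)) (even_iff_two_dvd.2 h1)
  let F := AlgebraicClosure (ZMod l)
  have h2F : (2 : F) ≠ 0 := by
    intro h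
    have := (CharP.cast_eq_zero_iff F l 2).1 (by exact_mod_cast h)
    exact hl2 ((Nat.prime_dvd_prime_iff_eq hl Nat.prime_two).1 this)
  obtain ⟨z, hz⟩ := IsAlgClosed.exists_eq_mul_self (-7 : F)
  have e1 : (1 + z) / 2 + (1 - z) / 2 = 1 := by
    rw [← add_div, div_eq_iff h2F]; ring
  have e2 : (1 + z) / 2 * ((1 - z) / 2) = 2 := by
    rw [div_mul_div_comm, div_eq_iff (mul_ne_zero h2F h2F)]
    linear_combination hz
  have hb : (1 - z) / 2 ≠ 0 := fun h => h2F (by rw [← e2, h, mul_zero])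
  have key : ∀ n : ℕ, (l : ℤ) ∣ VV n → ((1 + z) / 2 / ((1 - z) / 2)) ^ n = -1 := by
    intro n hn
    have := (CharP.intCast_eq_zero_iff F l (VV n)).2 hn
    rw [VV_eq _ _ e1 e2] at this
    rw [div_pow, div_eq_iff (pow_ne_zero _ hb)]
    linear_combination this
  have k1 := key _ h1
  have k2 := key _ h2
  generalize (1 + z) / 2 / ((1 - z) / 2) = u at k1 k2
  obtain ⟨b, m0, hm0, rfl⟩ := Nat.exists_eq_two_pow_mul_odd hm
  by_contra hn
  have hba : b < a := by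
    by_contra hab
    exact hn ((pow_dvd_pow 2 (by omega)).mul_right _)
  obtain ⟨d, rfl⟩ := Nat.exists_eq_add_of_lt hba
  have e3 : (u ^ (2 ^ (b + d + 1) * q)) ^ m0 = ((u ^ (2 ^ b * m0)) ^ 2) ^ (2 ^ d * q) := by
    rw [← pow_mul, ← pow_mul, ← pow_mul]; congr 1; ring
  rw [k1, k2, hm0.neg_one_pow] at e3
  apply h2F
  simp only [even_two, Even.neg_pow, one_pow] at e3
  linear_combination -e3

lemma norm_two : ‖(2 : ℚ_[2])‖ = 2⁻¹ := by
  simpa using Padic.norm_p (p := 2)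

lemma lte (z : ℚ_[2]) (hz : ‖z - 1‖ = 8⁻¹) (m : ℕ) (hm : m ≠ 0) :
    ‖z ^ m - 1‖ ≤ 8⁻¹ ∧ (8 * (m : ℝ))⁻¹ ≤ ‖z ^ m - 1‖ := by
  have hz1 : ‖z‖ = 1 := neq_one (by rw [hz]; norm_num)
  have up : ∀ k : ℕ, ‖z ^ k - 1‖ ≤ 8⁻¹ := by
    intro k
    induction k with
    | zero => simp
    | succ k ih =>
      have : z ^ (k + 1) - 1 = z * (z ^ k - 1) + (z - 1) := by ring
      rw [this]
      exact nle_add (by rwa [norm_mul, hz1, one_mul]) hz.le
  refine ⟨up m, ?_⟩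
  induction m using Nat.strong_induction_on with
  | _ m ih =>
    rcases Nat.even_or_odd' m with ⟨k, rfl | rfl⟩
    · have hk : k ≠ 0 := by omega
      have h1 := ih k (by omega) hk
      have h2 : z ^ (2 * k) - 1 = (z ^ k - 1) * (2 + (z ^ k - 1)) := by ring
      rw [h2, norm_mul, neq_add (a := 2) (by rw [norm_two]; linarith [up k]), norm_two]
      push_cast
      have : (8 * (2 * (k : ℝ)))⁻¹ = (8 * (k : ℝ))⁻¹ * 2⁻¹ := by rw [← mul_inv]; congr 1; ring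
      rw [this]
      gcongr
    · have h2 : z ^ (2 * k + 1) - 1 = (z - 1) + z * ((z ^ k - 1) * (2 + (z ^ k - 1))) := by ring
      have h3 : ‖z * ((z ^ k - 1) * (2 + (z ^ k - 1)))‖ < ‖z - 1‖ := by
        rw [norm_mul, norm_mul, neq_add (a := 2) (by rw [norm_two]; linarith [up k]), norm_two,
          hz1, hz]
        linarith [up k]
      rw [h2, neq_add h3, hz]
      apply inv_anti₀ (by norm_num)
      push_cast
      have : (0 : ℝ) ≤ k := Nat.cast_nonneg k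
      linarith

theorem lucas_single {Q : Type} [Fintype Q] (L : Q → ℕ) (hpos : ∀ c, L c ≠ 0) (a q : ℕ)
    (hq : Odd q) (hsum : ∑ c, L c = 2 ^ a * q) (hbig : 8 * (2 ^ a * q) < 2 ^ 2 ^ a)
    (hprod : ∏ c, VV (L c) = VV (2 ^ a * q)) : Subsingleton Q := by
  classical
  obtain ⟨w, hw, hw1⟩ := exists_root 2 1 2 (by simp) (by
    rw [Int.cast_ofNat, norm_two]; norm_num)
  simp only [Int.cast_one, one_mul, Int.cast_ofNat] at hw
  have nw : ‖w‖ = 1 := neq_one hw1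
  have w0 : w ≠ 0 := by rintro rfl; simp at nw
  have e2 : w * (1 - w) = 2 := by linear_combination -hw
  set u := (1 - w) / w with hu
  have nu : ‖u‖ = 2⁻¹ := by
    have := congrArg norm e2
    rw [norm_mul, nw, one_mul, norm_two] at this
    rw [hu, norm_div, this, nw, div_one]
  have hV : ∀ m, (VV m : ℚ_[2]) = w ^ m * (1 + u ^ m) := by
    intro m
    rw [VV_eq w (1 - w) (by ring) e2, hu, div_pow]
    field_simp
  have nz : ‖w ^ 2 - 1‖ = 8⁻¹ := by
    have h1 : (w ^ 2 - 1) * (w + 2) = -2 ^ 3 := by linear_combination (w + 3) * hw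
    have h2 := congrArg norm h1
    rw [norm_mul, neq_add (a := w) (by rw [nw, norm_two]; norm_num), nw, norm_neg, norm_pow,
      norm_two] at h2
    rw [mul_one] at h2
    rw [h2]; norm_num
  set K := 2 ^ a with hK
  set N := K * q with hN
  have nup : ∀ m, K ≤ m → ‖u ^ m‖ ≤ (2⁻¹ : ℝ) ^ K := by
    intro m hm
    rw [norm_pow, nu]
    exact pow_le_pow_of_le_one (by norm_num) (by norm_num) hm
  have hη0 : (0 : ℝ) ≤ 2⁻¹ ^ K := by positivity
  have hη1 : (2⁻¹ : ℝ) ^ K ≤ 1 := pow_le_one₀ (by norm_num) (by norm_num)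
  have hq0 : q ≠ 0 := by rintro rfl; simp at hq
  have hKN : K ≤ N := Nat.le_mul_of_pos_right _ (Nat.pos_of_ne_zero hq0)
  have hdvd : ∀ c, ¬ (VV (L c)) ^ 2 = 1 → K ∣ L c := by
    intro c hc
    have h1 : (VV (L c)).natAbs ≠ 1 := by
      intro h
      apply hc
      rw [← Int.natAbs_sq, h]; rfl
    obtain ⟨l, hl, hl2⟩ := Nat.exists_prime_and_dvd h1
    have h2 : (l : ℤ) ∣ VV (L c) := Int.natCast_dvd.2 hl2
    refine dvd_of_common l hl _ a q (hpos c) hq h2 ?_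
    rw [← hK, ← hN, ← hprod]
    exact h2.trans (dvd_prod_of_mem _ (mem_univ c))
  have hall : ∀ c, K ∣ L c := by
    intro c0
    apply hdvd
    intro hc0
    set E := univ.filter fun c => (VV (L c)) ^ 2 = 1 with hE
    set E' := univ.filter fun c => ¬ (VV (L c)) ^ 2 = 1 with hE'
    have h1 : (∏ c ∈ E', VV (L c)) ^ 2 = VV N ^ 2 := by
      rw [← hprod, ← prod_filter_mul_prod_filter_not univ (fun c => (VV (L c)) ^ 2 = 1), mul_pow,
        ← prod_pow E, prod_eq_one (s := E) fun c hc => (mem_filter.1 hc).2, one_mul]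
    have h2 : ∑ c ∈ E, L c + ∑ c ∈ E', L c = N := by
      rw [← hsum, sum_filter_add_sum_filter_not]
    have h3 : 0 < ∑ c ∈ E, L c := lt_of_lt_of_le (Nat.pos_of_ne_zero (hpos c0))
      (single_le_sum (f := L) (fun _ _ => Nat.zero_le _) (mem_filter.2 ⟨mem_univ _, hc0⟩))
    have h4 := congrArg (fun t : ℤ => (t : ℚ_[2])) h1
    simp only [Int.cast_pow, Int.cast_prod, hV, prod_mul_distrib, prod_pow_eq_pow_sum] at h4
    obtain ⟨h5, _⟩ := prod_one_add E' (fun c => u ^ L c) hη0 hη1 fun c hc =>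
      nup _ (Nat.le_of_dvd (Nat.pos_of_ne_zero (hpos c)) (hdvd c (mem_filter.1 hc).2))
    generalize ∏ c ∈ E', (1 + u ^ L c) = P at h4 h5
    have h6 := nup N hKN
    generalize u ^ N = y at h4 h6
    rw [← h2, pow_add] at h4
    have h7 : P ^ 2 = (w ^ 2) ^ (∑ c ∈ E, L c) * (1 + y) ^ 2 := by
      apply mul_left_cancel₀ (pow_ne_zero 2 (pow_ne_zero (∑ c ∈ E', L c) w0))
      linear_combination h4
    have h8 : (w ^ 2) ^ (∑ c ∈ E, L c) - 1 = (P - 1) * (2 + (P - 1)) -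
        (w ^ 2) ^ (∑ c ∈ E, L c) * (y * (2 + y)) := by linear_combination -h7
    have n2 : ‖(2 : ℚ_[2])‖ ≤ 1 := by rw [norm_two]; norm_num
    have h9 : ‖(w ^ 2) ^ (∑ c ∈ E, L c) - 1‖ ≤ 2⁻¹ ^ K := by
      rw [h8]
      refine nle_sub ?_ ?_
      · simpa using nle_mul h5 (nle_add n2 (h5.trans hη1))
      · rw [norm_mul, norm_pow, norm_pow, nw, one_pow, one_pow, one_mul]
        simpa using nle_mul h6 (nle_add n2 (h6.trans hη1))
    have h10 := ((lte _ nz _ h3.ne').2).trans h9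
    rw [inv_pow, inv_le_inv₀ (by positivity) (by positivity)] at h10
    have h11 : 2 ^ K ≤ 8 * ∑ c ∈ E, L c := by exact_mod_cast h10
    omega
  by_contra hns
  rw [not_subsingleton_iff_nontrivial] at hns
  obtain ⟨c0, _, hc0⟩ := exists_min_image univ L univ_nonempty
  obtain ⟨c1, hc1⟩ := exists_ne c0
  set m := L c0 with hm
  have hKm : K ≤ m := Nat.le_of_dvd (Nat.pos_of_ne_zero (hpos c0)) (hall c0)
  have hmN : m + K ≤ N := by
    have h1 : ∑ c ∈ ({c0, c1} : Finset Q), L c ≤ ∑ c, L c := sum_le_sum_of_subset (subset_univ _)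
    rw [sum_pair hc1.symm, hsum] at h1
    have := hc0 c1 (mem_univ _)
    omega
  have nup' : ∀ k l, k ≤ l → ‖u ^ l‖ ≤ (2⁻¹ : ℝ) ^ k := by
    intro k l hkl
    rw [norm_pow, nu]
    exact pow_le_pow_of_le_one (by norm_num) (by norm_num) hkl
  have h1 : ∏ c, (1 + u ^ L c) = 1 + u ^ N := by
    have h4 := congrArg (fun t : ℤ => (t : ℚ_[2])) hprod
    simp only [Int.cast_prod, hV, prod_mul_distrib, prod_pow_eq_pow_sum, hsum] at h4
    exact mul_left_cancel₀ (pow_ne_zero _ w0) h4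
  obtain ⟨_, h2⟩ := prod_one_add univ (fun c => u ^ L c) (η := 2⁻¹ ^ m) (by positivity)
    (pow_le_one₀ (by norm_num) (by norm_num)) fun c _ => nup' _ _ (hc0 c (mem_univ _))
  rw [h1, ← pow_add] at h2
  have h3 : ‖1 + u ^ N - 1 - ∑ c, u ^ L c‖ ≤ 2⁻¹ ^ (m + K) :=
    h2.trans (pow_le_pow_of_le_one (by norm_num) (by norm_num) (by omega))
  have h4 : ‖∑ c ∈ univ.filter (fun c => ¬ L c = m), u ^ L c‖ ≤ 2⁻¹ ^ (m + K) := by
    refine IsUltrametricDist.norm_sum_le_of_forall_le_of_nonneg (by positivity) fun c hc => ?_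
    apply nup'
    have h5 := hc0 c (mem_univ _)
    have h6 := (mem_filter.1 hc).2
    have h7 : K ∣ L c - m := Nat.dvd_sub (hall c) (hall c0)
    have := Nat.le_of_dvd (by omega) h7
    omega
  set k := (univ.filter fun c => L c = m).card with hk
  have h5 : (k : ℚ_[2]) * u ^ m = u ^ N - (1 + u ^ N - 1 - ∑ c, u ^ L c) -
      ∑ c ∈ univ.filter (fun c => ¬ L c = m), u ^ L c := by
    rw [← sum_filter_add_sum_filter_not univ (fun c => L c = m),
      sum_congr rfl (fun c hc => by rw [(mem_filter.1 hc).2] :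
        ∀ c ∈ univ.filter (fun c => L c = m), u ^ L c = u ^ m), sum_const, nsmul_eq_mul]
    ring
  have h6 : ‖(k : ℚ_[2]) * u ^ m‖ ≤ 2⁻¹ ^ (m + K) := by
    rw [h5]
    exact nle_sub (nle_sub (nup' _ _ hmN) h3) h4
  rw [norm_mul, norm_pow, nu, pow_add, mul_comm, mul_le_mul_iff_right₀ (by positivity)] at h6
  have h7 : ((2 : ℕ) ^ K : ℤ) ∣ (k : ℤ) := by
    rw [← Padic.norm_int_le_pow_iff_dvd]
    simpa [zpow_neg] using h6
  have h8 : 2 ^ K ∣ k := by exact_mod_cast h7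
  have h9 : 0 < k := card_pos.2 ⟨c0, mem_filter.2 ⟨mem_univ _, rfl⟩⟩
  have h10 : k ≤ ∑ c, L c := by
    refine (card_filter_le _ _).trans ?_
    rw [card_eq_sum_ones]
    exact sum_le_sum fun c _ => Nat.pos_of_ne_zero (hpos c)
  have := Nat.le_of_dvd h9 h8
  omega

end Pool.Agent.Lib.MP_f7f352_co.U
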