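import Mathlib
import Pool.Agent.Lib.MP_f7f352_co.UStat
import Pool.Agent.Lib.MP_f7f352_co.ULucas

-- part Pool.Agent.Lib.MP_f7f352_co.UClose
section

set_option autoImplicit false

namespace Pool.Agent.Lib.MP_f7f352_co.U

open Finset Polynomial

variable {V : Type} [Fintype V] [DecidableEq V] {ι : Type} [Fintype ι] [DecidableEq ι]
variable {G : SimpleGraph V} {cls : V → ι} {lab : ι → Bool}

/-- the top polynomial without cross pairs -/
noncomputable def FF (r s : ℕ) : ℤ[X] := bt 4 ^ s * bt 3 ^ (r - s)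

/-- the bottom polynomial without cross pairs -/
noncomputable def UU (r s : ℕ) : ℕ[X] := uu 4 ^ s * uu 3 ^ (r - s)

lemma Good.prod_bt (h : Good G cls lab) :
    ∏ i, bt (cl cls i).card = FF (Fintype.card ι) (nb lab) := by
  simp only [h.size]
  exact prod_lab lab fun b => bt (3 + b.toNat)

lemma Good.prod_uu (h : Good G cls lab) :
    ∏ i, uu (cl cls i).card = UU (Fintype.card ι) (nb lab) := by
  simp only [h.size]
  exact prod_lab lab fun b => uu (3 + b.toNat)

lemma Good.top_single (h : Good G cls lab) {I : Finset V} (hI : I ∈ cross G cls) :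
    (∏ i, bt (rest cls {I} i)).coeff 1 =
      (FF (Fintype.card ι) (nb lab)).coeff 1 - 4 - be cls lab I := by
  rw [← h.prod_bt, bt_prod_one, bt_prod_one]
  have h1 : ∀ i, ((rest cls {I} i).choose 2 : ℤ) =
      (cl cls i).card.choose 2 - 2 * tt cls I i - tt cls I i * (lab i).toNat := by
    intro i
    have h2 := rest_single cls I i
    have h3 := h.tt_le hI i
    rw [h.size] at h2 ⊢
    obtain ⟨t, ht⟩ : ∃ t, tt cls I i = t := ⟨_, rfl⟩
    rw [ht] at h2 h3 ⊢
    have h4 : rest cls {I} i = 3 + (lab i).toNat - t := by omega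
    rw [h4]
    cases lab i <;> interval_cases t <;> decide
  have h5 : ∑ i, (tt cls I i : ℤ) = 2 := by
    have := sum_tt cls I
    rw [h.pair I hI] at this
    exact_mod_cast this
  simp only [h1, sum_sub_distrib, ← mul_sum, h5, be]
  push_cast
  ring

lemma Good.bot_single (h : Good G cls lab) {I : Finset V} (hI : I ∈ cross G cls) :
    (∏ i, uu (rest cls {I} i)).coeff 1 + 4 + 2 * be cls lab I =
      (UU (Fintype.card ι) (nb lab)).coeff 1 := by
  rw [← h.prod_uu, uu_prod_one, uu_prod_one]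
  have h1 : ∀ i, sig (cl cls i).card =
      sig (rest cls {I} i) + 2 * tt cls I i + 2 * (tt cls I i * (lab i).toNat) := by
    intro i
    have h2 := rest_single cls I i
    have h3 := h.tt_le hI i
    rw [h.size] at h2 ⊢
    obtain ⟨t, ht⟩ : ∃ t, tt cls I i = t := ⟨_, rfl⟩
    rw [ht] at h2 h3 ⊢
    have h4 : rest cls {I} i = 3 + (lab i).toNat - t := by omega
    rw [h4]
    cases lab i <;> interval_cases t <;> simp [sig_two, sig_three, sig_four]
  have h5 := sum_tt cls I
  rw [h.pair I hI] at h5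
  simp only [h1, sum_add_distrib, ← mul_sum, h5, be]
  rfl

lemma Good.top_one' (h : Good G cls lab) : (Wt G).coeff 1 =
    (FF (Fintype.card ι) (nb lab)).coeff 1 + (cross G cls).card := by
  rw [top_one G cls h.proper, ← h.prod_bt, bt_prod_one, filter_true_of_mem h.pair]

lemma Good.top_two (h : Good G cls lab) : (Wt G).coeff 2 =
    (FF (Fintype.card ι) (nb lab)).coeff 2 +
      (cross G cls).card * ((FF (Fintype.card ι) (nb lab)).coeff 1 - 4) -
      (∑ I ∈ cross G cls, be cls lab I : ℕ) + (pk (cross G cls) 2).card := by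
  rw [h.Wt_coeff]
  simp only [sum_range_succ, range_zero, sum_empty, zero_add, pk_zero, sum_singleton,
    sum_pk_one, rest_empty, h.prod_bt, Nat.sub_self, bt_prod_zero, Nat.sub_zero]
  rw [sum_congr rfl fun I hI => h.top_single hI]
  simp only [sum_sub_distrib, sum_const, nsmul_eq_mul]
  push_cast
  ring

lemma Good.bot_two (h : Good G cls lab) :
    ∑ j ∈ range 3, ∑ M ∈ pk (cross G cls) j, (∏ i, uu (rest cls M i)).coeff (2 - j) +
      4 * (cross G cls).card + 2 * ∑ I ∈ cross G cls, be cls lab I =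
    (UU (Fintype.card ι) (nb lab)).coeff 2 +
      (cross G cls).card * (UU (Fintype.card ι) (nb lab)).coeff 1 + (pk (cross G cls) 2).card := by
  simp only [sum_range_succ, range_zero, sum_empty, zero_add, pk_zero, sum_singleton,
    sum_pk_one, rest_empty, h.prod_uu, Nat.sub_self, uu_prod_zero, Nat.sub_zero]
  have := sum_congr rfl fun I hI => h.bot_single hI (lab := lab)
  simp only [sum_add_distrib, sum_const, smul_eq_mul, ← mul_sum] at this ⊢
  rw [← this]
  ring

lemma Good.top_single_two (h : Good G cls lab) {I : Finset V} (hI : I ∈ cross G cls) :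
    2 * (∏ i, bt (rest cls {I} i)).coeff 2 =
      2 * (FF (Fintype.card ι) (nb lab)).coeff 2 -
      2 * (FF (Fintype.card ι) (nb lab)).coeff 1 * (4 + be cls lab I) + 28 + 17 * be cls lab I +
      (be cls lab I : ℤ) ^ 2 := by
  obtain ⟨u, v, huv, rfl⟩ := exists_pair hI (h.pair I hI)
  have hb : be cls lab {u, v} = (lab (cls u)).toNat + (lab (cls v)).toNat := by
    simp [be, tt_pair cls huv, add_mul, sum_add_distrib]
  have hv : cls v ∈ univ.erase (cls u) := mem_erase.2 ⟨huv.symm, mem_univ _⟩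
  have split : ∀ f : ι → ℤ[X], ∏ i, f i =
      f (cls u) * f (cls v) * ∏ i ∈ (univ.erase (cls u)).erase (cls v), f i := by
    intro f
    rw [mul_assoc, mul_prod_erase _ _ hv, mul_prod_erase _ _ (mem_univ _)]
  have e1 : rest cls {{u, v}} (cls u) = 2 + (lab (cls u)).toNat := by
    have := rest_single cls {u, v} (cls u)
    rw [tt_pair cls huv, h.size, if_pos rfl, if_neg huv.symm] at this
    omega
  have e2 : rest cls {{u, v}} (cls v) = 2 + (lab (cls v)).toNat := by
    have := rest_single cls {u, v} (cls v)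
    rw [tt_pair cls huv, h.size, if_pos rfl, if_neg huv] at this
    omega
  have e3 : ∏ i ∈ (univ.erase (cls u)).erase (cls v), bt (rest cls {{u, v}} i) =
      ∏ i ∈ (univ.erase (cls u)).erase (cls v), bt (cl cls i).card := by
    refine prod_congr rfl fun i hi => ?_
    have := rest_single cls {u, v} i
    obtain ⟨h1, h2⟩ := mem_erase.1 hi
    rw [tt_pair cls huv, if_neg (mem_erase.1 h2).1.symm, if_neg h1.symm] at this
    rw [← this]; rfl
  rw [← h.prod_bt, split, split fun i => bt (cl cls i).card, e1, e2, e3, hb, h.size, h.size]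
  have h0 : (∏ i ∈ (univ.erase (cls u)).erase (cls v), bt (cl cls i).card).coeff 0 = 1 :=
    coeff_zero_prod_one _ _ fun _ _ => bt_coeff_zero _
  generalize (∏ i ∈ (univ.erase (cls u)).erase (cls v), bt (cl cls i).card) = R at h0 ⊢
  cases lab (cls u) <;> cases lab (cls v) <;>
    simp [mul_coeff_two, mul_coeff_one, bt_coeff_zero, bt_coeff_one, bt_two_two, bt_three_two,
      bt_four_two, h0, Nat.choose] <;> ring

lemma Good.top_pair (h : Good G cls lab) {M : Finset (Finset V)} (hM : M ∈ pk (cross G cls) 2) :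
    2 * (∏ i, bt (rest cls M i)).coeff 1 = 2 * (FF (Fintype.card ι) (nb lab)).coeff 1 +
      ∑ i, ((∑ I ∈ M, (tt cls I i : ℤ)) ^ 2 -
        (5 + 2 * (lab i).toNat) * ∑ I ∈ M, (tt cls I i : ℤ)) := by
  obtain ⟨hM1, hM2⟩ := mem_pk.1 hM
  rw [← h.prod_bt, bt_prod_one, bt_prod_one, mul_sum, mul_sum, ← sum_add_distrib]
  refine sum_congr rfl fun i _ => ?_
  have h2 := rest_add cls hM1 i
  have h3 : ∑ I ∈ M, tt cls I i ≤ ∑ I ∈ M, 1 :=
    sum_le_sum fun I hI => h.tt_le ((mem_pack.1 hM1).1 hI) i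
  simp only [sum_const, smul_eq_mul, mul_one, hM2] at h3
  rw [h.size] at h2 ⊢
  rw [← Nat.cast_sum]
  obtain ⟨t, ht⟩ : ∃ t, ∑ I ∈ M, tt cls I i = t := ⟨_, rfl⟩
  rw [ht] at h2 h3 ⊢
  have h4 : rest cls M i = 3 + (lab i).toNat - t := by omega
  rw [h4]
  cases lab i <;> interval_cases t <;> decide

lemma Good.top_three (h : Good G cls lab)
    (hd : ∀ I ∈ cross G cls, ∀ J ∈ cross G cls, I ≠ J → Disjoint I J) (c X : ℕ)
    (hc : (cross G cls).card = c) (hX : ∑ I ∈ cross G cls, be cls lab I = X) :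
    2 * (Wt G).coeff 3 = 2 * (FF (Fintype.card ι) (nb lab)).coeff 3 +
      c * (2 * (FF (Fintype.card ι) (nb lab)).coeff 2 -
        8 * (FF (Fintype.card ι) (nb lab)).coeff 1 + 28) +
      X * (17 - 2 * (FF (Fintype.card ι) (nb lab)).coeff 1) +
      c.choose 2 * (2 * (FF (Fintype.card ι) (nb lab)).coeff 1) + 2 * c.choose 3 +
      ((c - 2) * (2 * c) - (c - 1) * (10 * c + 2 * X)) +
      (∑ I ∈ cross G cls, (be cls lab I : ℤ) ^ 2 + ∑ i, (dg G cls i : ℤ) ^ 2) := by
  rw [h.Wt_coeff]
  simp only [sum_range_succ, range_zero, sum_empty, zero_add, pk_zero, sum_singleton,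
    sum_pk_one, rest_empty, h.prod_bt, Nat.sub_self, bt_prod_zero, Nat.sub_zero, mul_add,
    mul_sum]
  rw [sum_congr rfl fun I hI => h.top_single_two hI, sum_congr rfl fun M hM => h.top_pair hM,
    pk_eq _ hd, pk_eq _ hd, sum_add_distrib (s := powersetCard 2 _),
    sum_comm (s := powersetCard 2 _)]
  have hX' : ∑ I ∈ cross G cls, (be cls lab I : ℤ) = X := by exact_mod_cast hX
  have hsq : ∀ i, ∑ I ∈ cross G cls, (tt cls I i : ℤ) ^ 2 = dg G cls i := by
    intro i
    rw [dg]
    push_cast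
    refine sum_congr rfl fun I hI => ?_
    have := h.tt_le hI i
    interval_cases tt cls I i <;> simp
  have hl : ∀ i, ∑ I ∈ cross G cls, (tt cls I i : ℤ) = dg G cls i := by
    intro i
    rw [dg]
    push_cast
    rfl
  have h1 : ∑ i, (dg G cls i : ℤ) = 2 * c := by
    have := h.sum_dg
    rw [hc] at this
    exact_mod_cast this
  have h2 : ∑ i, (dg G cls i : ℤ) * (lab i).toNat = X := by
    have := sum_be G cls lab
    rw [hX] at this
    exact_mod_cast this.symm
  have h3 : ∑ i, ∑ M ∈ powersetCard 2 (cross G cls), ((∑ I ∈ M, (tt cls I i : ℤ)) ^ 2 -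
      (5 + 2 * (lab i).toNat) * ∑ I ∈ M, (tt cls I i : ℤ)) =
      ∑ i, ((c - 2) * (dg G cls i : ℤ) + (dg G cls i : ℤ) ^ 2 -
        (c - 1) * (5 * (dg G cls i : ℤ) + 2 * (dg G cls i * (lab i).toNat))) := by
    refine sum_congr rfl fun i _ => ?_
    rw [sum_sub_distrib, ← mul_sum, sum_pc2_lin, sum_pc2_sq, hsq, hl, hc]
    ring
  rw [h3]
  simp only [sum_add_distrib, sum_sub_distrib, ← mul_sum, h1, h2, hX', sum_const, hc,
    card_powersetCard, nsmul_eq_mul, mul_add]
  ring

lemma Full.card_cross (h : Full G cls lab) : (cross G cls).card = Fintype.card ι := by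
  have := h.toGood.sum_dg
  simp only [h.deg, sum_const, card_univ, smul_eq_mul] at this
  omega

lemma Full.sum_be (h : Full G cls lab) : ∑ I ∈ cross G cls, be cls lab I = 2 * nb lab := by
  rw [U.sum_be, nb, mul_sum]
  simp only [h.deg]

lemma Good.card_V (h : Good G cls lab) : Fintype.card V = 3 * Fintype.card ι + nb lab := by
  rw [← card_univ, card_eq_sum_card_fiberwise (f := cls) (t := univ) fun _ _ => mem_univ _]
  change ∑ i, (cl cls i).card = _
  simp only [h.size, sum_add_distrib, sum_const, card_univ, smul_eq_mul, nb]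
  ring

variable {V' : Type} [Fintype V'] [DecidableEq V']

lemma exists_cls (G' : SimpleGraph V') (r : ℕ) (h : (Wb G').coeff r ≠ 0) :
    ∃ cls' : V' → Fin r, (∀ u v, G'.Adj u v → cls' u ≠ cls' v) ∧ Function.Surjective cls' := by
  unfold Wb W at h
  rw [finset_sum_coeff] at h
  obtain ⟨π, hπ, h1⟩ := exists_ne_zero_of_sum_ne_zero h
  rw [prod_const, coeff_X_pow] at h1
  have h2 : r = π.card := by
    by_contra hne
    exact h1 (if_neg hne)
  obtain ⟨blk, hb1, _, hb3⟩ := exists_blk hπ
  have e : π ≃ Fin r := Fintype.equivFinOfCardEq (by simp [h2])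
  refine ⟨fun v => e (blk v), fun u v huv h => ?_, e.surjective.comp hb3⟩
  have h1 : blk u = blk v := e.injective h
  exact (mem_ind.1 ((mem_part.1 hπ).1.1 (blk u).2)).2 u (hb1 u) v (h1 ▸ hb1 v) huv

theorem closure (h : Full G cls lab) (G' : SimpleGraph V') (he : ∀ k, ncol G k = ncol G' k)
    (r s : ℕ) (hr : Fintype.card ι = r) (hs : nb lab = s) :
    ∃ (cls' : V' → Fin r) (lab' : Fin r → Bool), Full G' cls' lab' ∧ nb lab' = s := by
  have hb : Wb G' = Wb G := (W_bot_congr he _).symm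
  have ht : Wt G' = Wt G := (W_top_congr he _).symm
  have hn : Fintype.card V' = 3 * Fintype.card ι + nb lab := by
    rw [← card_eq_of_ncol he, h.toGood.card_V]
  have b0 : (Wb G).coeff (Fintype.card ι) = 1 := by
    have := h.Wb_coeff 0
    simpa only [sum_range_succ, range_zero, sum_empty, zero_add, pk_zero, sum_singleton, add_zero,
      Nat.sub_self, uu_prod_zero] using this
  have b1 : (Wb G).coeff (Fintype.card ι + 1) =
      (UU (Fintype.card ι) (nb lab)).coeff 1 + Fintype.card ι := by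
    rw [h.Wb_coeff 1]
    simp only [sum_range_succ, range_zero, sum_empty, zero_add, pk_zero, sum_singleton,
      rest_empty, h.toGood.prod_uu, Nat.sub_self, uu_prod_zero, Nat.sub_zero,
      sum_const, smul_eq_mul, mul_one, pk_eq _ h.disj 1, card_powersetCard, h.card_cross,
      Nat.choose_one_right]
  have hU : (UU (Fintype.card ι) (nb lab)).coeff 1 = 3 * Fintype.card ι + 4 * nb lab := by
    rw [← h.toGood.prod_uu, uu_prod_one, nb, mul_sum, ← card_univ, card_eq_sum_ones, mul_sum,
      ← sum_add_distrib]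
    refine sum_congr rfl fun i _ => ?_
    rw [h.size]
    cases lab i <;> simp [sig_three, sig_four]
  have hF : (FF (Fintype.card ι) (nb lab)).coeff 1 = 3 * Fintype.card ι + 3 * nb lab := by
    rw [← h.toGood.prod_bt, bt_prod_one, nb, ← card_univ, card_eq_sum_ones]
    push_cast
    rw [mul_sum, mul_sum, ← sum_add_distrib]
    refine sum_congr rfl fun i _ => ?_
    rw [h.size]
    cases lab i <;> simp [Nat.choose]
  have gc := h.card_cross
  have gb := h.sum_be
  have g1 := h.toGood.top_one'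
  have g2 := h.toGood.top_two
  have g3 := h.Wb_coeff 2
  have d5 := h.toGood.bot_two
  have g4 := h.toGood.top_three h.disj _ _ gc gb
  have g5 := @Full.Wb_lt _ _ _ _ _ _ _ _ _ h
  rw [gc] at g1
  rw [gc, gb, pk_eq _ h.disj 2, card_powersetCard, gc] at g2 d5
  rw [hr] at b0 g3 g5 gc
  rw [hs] at gb
  rw [hr, hs] at hn b1 hU hF g1 g2 d5 g4
  obtain ⟨cls', hc, hsurj⟩ := exists_cls G' r (by rw [hb, b0]; simp)
  have hne : ∀ i, (cl cls' i).card ≠ 0 := by
    intro i
    obtain ⟨v, hv⟩ := hsurj i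
    exact (card_pos.2 ⟨v, mem_cl.2 hv⟩).ne'
  have hsw : ∀ I ∈ cross G' cls', ∀ i, rest cls' {I} i ≠ 0 := fun I hI i =>
    no_swallow G' cls' hc hne (fun k hk => by rw [hb]; exact g5 (by simpa using hk))
      (by rw [hb, Fintype.card_fin, b0]) hI i
  have c1 := bot_one_ge G' cls' hc hne hsw
  rw [Fintype.card_fin, hb, b1, hU] at c1
  have c2 := top_one G' cls' hc
  rw [ht, g1, hF] at c2
  have c2' : 3 * r + 3 * s + r = ∑ i, (cl cls' i).card.choose 2 +
      ((cross G' cls').filter fun I => I.card = 2).card := by exact_mod_cast c2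
  have c3 : ∑ i, (cl cls' i).card = 3 * r + s := by
    rw [← hn, ← card_univ, card_eq_sum_card_fiberwise (f := cls') (t := univ)
      fun _ _ => mem_univ _]
    rfl
  have c4 : ((cross G' cls').filter fun I => I.card = 2).card ≤ (cross G' cls').card :=
    card_filter_le _ _
  have c5 : ∑ i, ((cl cls' i).card + (cl cls' i).card.choose 2) ≤
      ∑ i, (sig (cl cls' i).card + 3) := sum_le_sum fun i _ => (sig_ge _ (hne i)).1
  have c6 : ∑ i, ((cl cls' i).card + (cl cls' i).card.choose 2) =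
      ∑ i, (sig (cl cls' i).card + 3) := by
    simp only [sum_add_distrib, sum_const, card_univ, Fintype.card_fin, smul_eq_mul] at c5 ⊢
    omega
  have c7 : ((cross G' cls').filter fun I => I.card = 2).card = (cross G' cls').card := by
    simp only [sum_add_distrib, sum_const, card_univ, Fintype.card_fin, smul_eq_mul] at c5
    omega
  have c8 : ∀ i, (cl cls' i).card = 3 ∨ (cl cls' i).card = 4 := fun i =>
    (sig_ge _ (hne i)).2 ((sum_eq_sum_iff_of_le fun i _ => (sig_ge _ (hne i)).1).1 c6 i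
      (mem_univ i))
  set lab' : Fin r → Bool := fun i => decide ((cl cls' i).card = 4) with hlab'
  have hg : Good G' cls' lab' := by
    refine ⟨hc, fun i => ?_, fun I hI => ?_⟩
    · rcases c8 i with h1 | h1 <;> simp [hlab', h1]
    · exact card_filter_eq_iff.1 c7 I hI
  have hs' : nb lab' = s := by
    have := hg.card_V
    rw [hn, Fintype.card_fin] at this
    omega
  have d1 : (cross G' cls').card = r := by
    have := hg.top_one'
    rw [ht, g1, Fintype.card_fin, hs'] at this
    have h2 : ((cross G' cls').card : ℤ) = r := by linarith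
    exact_mod_cast h2
  have d2 := hg.top_two
  rw [ht, g2, Fintype.card_fin, hs', d1] at d2
  have d3 := hg.Wb_ge
  rw [Fintype.card_fin, hb, g3] at d3
  have d4 := hg.bot_two
  rw [Fintype.card_fin, hs', d1] at d4
  have d6 : (pk (cross G' cls') 2).card ≤ r.choose 2 := by
    have := card_le_card (pk_subset (cross G' cls') 2)
    rwa [card_powersetCard, d1] at this
  have d2' : r.choose 2 + ∑ I ∈ cross G' cls', be cls' lab' I =
      (pk (cross G' cls') 2).card + 2 * s := by
    have : ((r.choose 2 : ℕ) : ℤ) + (∑ I ∈ cross G' cls', be cls' lab' I : ℕ) =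
      (pk (cross G' cls') 2).card + (2 * s : ℕ) := by linarith
    exact_mod_cast this
  simp only [show 2 + 1 = 3 from rfl] at d3
  have d7 : ∑ I ∈ cross G' cls', be cls' lab' I = 2 * s := by omega
  have d8 : pk (cross G' cls') 2 = powersetCard 2 (cross G' cls') :=
    eq_of_subset_of_card_le (pk_subset _ _) (by rw [card_powersetCard, d1]; omega)
  have hd : ∀ I ∈ cross G' cls', ∀ J ∈ cross G' cls', I ≠ J → Disjoint I J := by
    intro I hI J hJ hIJ
    have : ({I, J} : Finset (Finset V')) ∈ pk (cross G' cls') 2 := by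
      rw [d8, mem_powersetCard]
      exact ⟨insert_subset hI (singleton_subset_iff.2 hJ), card_pair hIJ⟩
    exact (mem_pack.1 (mem_pk.1 this).1).2 I (by simp) J (by simp) hIJ
  have e1 := hg.top_three hd r (2 * s) d1 d7
  rw [ht, g4, Fintype.card_fin, hs'] at e1
  have e2 : ∑ I ∈ cross G cls, (be cls lab I : ℤ) ^ 2 = 2 * s := by
    have h2 : ∑ I ∈ cross G cls, (be cls lab I : ℤ) = 2 * s := by exact_mod_cast gb
    rw [← h2]
    refine sum_congr rfl fun I hI => ?_
    have := h.nobb I hI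
    interval_cases be cls lab I <;> simp
  have e3 : ∑ i, (dg G cls i : ℤ) ^ 2 = 4 * r := by
    simp [h.deg, hr, mul_comm]
  have e4 : ∑ i, (dg G' cls' i : ℤ) = 2 * r := by
    have := hg.sum_dg
    rw [d1] at this
    exact_mod_cast this
  have e5 : ∑ I ∈ cross G' cls', (be cls' lab' I : ℤ) = 2 * s := by exact_mod_cast d7
  have e6 : ∑ I ∈ cross G' cls', ((be cls' lab' I : ℤ) ^ 2 - be cls' lab' I) +
      ∑ i, ((dg G' cls' i : ℤ) - 2) ^ 2 = 0 := by
    have : ∀ i, ((dg G' cls' i : ℤ) - 2) ^ 2 = (dg G' cls' i : ℤ) ^ 2 - 4 * dg G' cls' i + 4 :=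
      fun i => by ring
    simp only [this, sum_add_distrib, sum_sub_distrib, ← mul_sum, e4, e5, sum_const, card_univ,
      Fintype.card_fin, nsmul_eq_mul]
    rw [e2, e3] at e1
    linarith
  have p1 : ∀ I ∈ cross G' cls', (0 : ℤ) ≤ (be cls' lab' I : ℤ) ^ 2 - be cls' lab' I := by
    intro I _
    have := Int.le_self_sq (be cls' lab' I : ℤ)
    linarith
  have p2 : ∀ i ∈ (univ : Finset (Fin r)), (0 : ℤ) ≤ ((dg G' cls' i : ℤ) - 2) ^ 2 :=
    fun i _ => sq_nonneg _
  have q1 := sum_nonneg p1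
  have q2 := sum_nonneg p2
  refine ⟨cls', lab', ⟨hg, hd, fun i => ?_, fun I hI => ?_⟩, hs'⟩
  · have := (sum_eq_zero_iff_of_nonneg p2).1 (by linarith) i (mem_univ i)
    have h2 : (dg G' cls' i : ℤ) = 2 := by
      have := pow_eq_zero_iff (two_ne_zero) |>.1 this
      linarith
    exact_mod_cast h2
  · have := (sum_eq_zero_iff_of_nonneg p1).1 (by linarith) I hI
    by_contra hlt
    have h2 : (2 : ℤ) ≤ be cls' lab' I := by exact_mod_cast (by omega : 2 ≤ be cls' lab' I)
    nlinarith

end Pool.Agent.Lib.MP_f7f352_co.U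
end

-- part Pool.Agent.Lib.MP_f7f352_co.UGr
section

set_option autoImplicit false

namespace Pool.Agent.Lib.MP_f7f352_co.U

open Finset

variable {V : Type} [Fintype V] [DecidableEq V] {ι : Type} [Fintype ι] [DecidableEq ι]

lemma adj_iff {G : SimpleGraph V} {cls : V → ι} (hc : ∀ u v, G.Adj u v → cls u ≠ cls v)
    (u v : V) : G.Adj u v ↔ cls u ≠ cls v ∧ ({u, v} : Finset V) ∉ cross G cls := by
  constructor
  · intro h
    exact ⟨hc u v h, fun hm => (mem_cross.1 hm).1 u (by simp) v (by simp) h⟩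
  · rintro ⟨h1, h2⟩
    by_contra h
    refine h2 (mem_cross.2 ⟨?_, u, by simp, v, by simp, h1⟩)
    intro a ha b hb hab
    simp only [mem_insert, mem_singleton] at ha hb
    rcases ha with rfl | rfl <;> rcases hb with rfl | rfl
    · exact G.irrefl hab
    · exact h hab
    · exact h hab.symm
    · exact G.irrefl hab

/-- vertex set of the model graph -/
abbrev Vx (lab : ι → Bool) : Type := {x : ι × Fin 4 // x.2.val < 3 + (lab x.1).toNat}

/-- the model graph: complete multipartite minus a matching -/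
def Gr (σ : Equiv.Perm ι) (lab : ι → Bool) : SimpleGraph (Vx lab) where
  Adj x y := x.1.1 ≠ y.1.1 ∧ ¬ (x.1.2 = 1 ∧ y.1.2 = 0 ∧ y.1.1 = σ x.1.1) ∧
    ¬ (y.1.2 = 1 ∧ x.1.2 = 0 ∧ x.1.1 = σ y.1.1)
  symm := ⟨fun _ _ h => ⟨h.1.symm, h.2.2, h.2.1⟩⟩
  loopless := ⟨fun _ h => h.1 rfl⟩

/-- class map of the model graph -/
def gc (lab : ι → Bool) (x : Vx lab) : ι := x.1.1

/-- outgoing vertex -/
def ov (lab : ι → Bool) (i : ι) : Vx lab := ⟨(i, 1), by simp only [Fin.val_one]; omega⟩

/-- incoming vertex -/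
def iv (lab : ι → Bool) (i : ι) : Vx lab := ⟨(i, 0), by simp only [Fin.val_zero]; omega⟩

/-- deleted edge -/
def ed (σ : Equiv.Perm ι) (lab : ι → Bool) (i : ι) : Finset (Vx lab) := {ov lab i, iv lab (σ i)}

variable {σ : Equiv.Perm ι} {lab : ι → Bool}

lemma ov_ne_iv (i j : ι) : ov lab i ≠ iv lab j := by simp [ov, iv]

lemma ov_inj {i j : ι} : ov lab i = ov lab j ↔ i = j := by simp [ov]

lemma iv_inj {i j : ι} : iv lab i = iv lab j ↔ i = j := by simp [iv]

lemma ed_disj {i j : ι} (h : i ≠ j) : Disjoint (ed σ lab i) (ed σ lab j) := by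
  simp [ed, ov_inj, iv_inj, ov_ne_iv, (ov_ne_iv _ _).symm, h, h.symm]

lemma ed_inj : Function.Injective (ed σ lab) := by
  intro i j h
  by_contra hne
  have := ed_disj (σ := σ) (lab := lab) hne
  rw [h, disjoint_self] at this
  simp [ed] at this

lemma Gr_proper (u v : Vx lab) (h : (Gr σ lab).Adj u v) : gc lab u ≠ gc lab v := h.1

lemma not_adj {x y : Vx lab} (h : ¬ (Gr σ lab).Adj x y) (h1 : gc lab x ≠ gc lab y) :
    ∃ i, (x = ov lab i ∧ y = iv lab (σ i)) ∨ (y = ov lab i ∧ x = iv lab (σ i)) := by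
  by_contra hno
  refine h ⟨h1, ?_, ?_⟩
  · rintro ⟨a, b, c⟩
    exact hno ⟨x.1.1, Or.inl ⟨Subtype.ext (Prod.ext rfl a), Subtype.ext (Prod.ext c b)⟩⟩
  · rintro ⟨a, b, c⟩
    exact hno ⟨y.1.1, Or.inr ⟨Subtype.ext (Prod.ext rfl a), Subtype.ext (Prod.ext c b)⟩⟩

lemma cross_Gr (hσ : ∀ i, σ i ≠ i) : cross (Gr σ lab) (gc lab) = univ.image (ed σ lab) := by
  ext I
  simp only [mem_cross, mem_image, mem_univ, true_and]
  constructor
  · rintro ⟨h1, u, hu, v, hv, huv⟩
    have key : ∀ i, ov lab i ∈ I → iv lab (σ i) ∈ I → ed σ lab i = I := by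
      intro i ho hi
      refine Subset.antisymm (insert_subset ho (singleton_subset_iff.2 hi)) fun t ht => ?_
      simp only [ed, mem_insert, mem_singleton]
      by_cases h : gc lab t = i
      · obtain ⟨j, hj | hj⟩ := not_adj (h1 t ht _ hi) (by rw [h]; exact (hσ i).symm)
        · left
          rw [hj.1, σ.injective (iv_inj.1 hj.2)]
        · exact absurd hj.1.symm (ov_ne_iv _ _)
      · obtain ⟨j, hj | hj⟩ := not_adj (h1 t ht _ ho) h
        · exact absurd hj.2 (ov_ne_iv _ _)
        · right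
          rw [hj.2, ov_inj.1 hj.1]
    obtain ⟨i, hi | hi⟩ := not_adj (h1 u hu v hv) huv
    · exact ⟨i, key i (hi.1 ▸ hu) (hi.2 ▸ hv)⟩
    · exact ⟨i, key i (hi.1 ▸ hv) (hi.2 ▸ hu)⟩
  · rintro ⟨i, rfl⟩
    refine ⟨?_, ov lab i, by simp [ed], iv lab (σ i), by simp [ed], (hσ i).symm⟩
    intro a ha b hb hab
    simp only [ed, mem_insert, mem_singleton] at ha hb
    rcases ha with rfl | rfl <;> rcases hb with rfl | rfl
    · exact hab.1 rfl
    · exact hab.2.1 ⟨rfl, rfl, rfl⟩
    · exact hab.2.2 ⟨rfl, rfl, rfl⟩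
    · exact hab.1 rfl

lemma tt_ed (hσ : ∀ i, σ i ≠ i) (i j : ι) :
    tt (gc lab) (ed σ lab i) j = (if i = j then 1 else 0) + (if i = σ⁻¹ j then 1 else 0) := by
  rw [ed, tt_pair (gc lab) (u := ov lab i) (v := iv lab (σ i)) (hσ i).symm]
  simp only [gc, ov, iv, Equiv.Perm.eq_inv_iff_eq]
  congr

lemma card_idx (b : Bool) :
    (univ.filter fun j : Fin 4 => j.val < 3 + b.toNat).card = 3 + b.toNat := by
  cases b <;> decide

lemma size_Gr (i : ι) : (cl (gc lab) i).card = 3 + (lab i).toNat := by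
  rw [← card_idx]
  refine card_bij (fun x _ => x.1.2) ?_ ?_ ?_
  · intro x hx
    have h1 : x.1.1 = i := (mem_cl (cls := gc lab)).1 hx
    simpa [h1] using x.2
  · intro x hx y hy h
    exact Subtype.ext (Prod.ext ((mem_cl.1 hx).trans (mem_cl.1 hy).symm) h)
  · intro j hj
    exact ⟨⟨(i, j), by simpa using hj⟩, mem_cl.2 rfl, rfl⟩

lemma full_Gr (hσ : ∀ i, σ i ≠ i) (hl : ∀ i, lab i = true → lab (σ i) = false) :
    Full (Gr σ lab) (gc lab) lab := by
  refine ⟨⟨Gr_proper, size_Gr, ?_⟩, ?_, ?_, ?_⟩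
  · intro I hI
    rw [cross_Gr hσ] at hI
    obtain ⟨i, _, rfl⟩ := mem_image.1 hI
    exact card_pair (ov_ne_iv _ _)
  · intro I hI J hJ hne
    rw [cross_Gr hσ] at hI hJ
    obtain ⟨i, _, rfl⟩ := mem_image.1 hI
    obtain ⟨j, _, rfl⟩ := mem_image.1 hJ
    exact ed_disj fun h => hne (h ▸ rfl)
  · intro j
    rw [dg, cross_Gr hσ, sum_image fun _ _ _ _ h => ed_inj h]
    simp [tt_ed hσ, sum_add_distrib]
  · intro I hI
    rw [cross_Gr hσ] at hI
    obtain ⟨i, _, rfl⟩ := mem_image.1 hI
    have : be (gc lab) lab (ed σ lab i) = (lab i).toNat + (lab (σ i)).toNat := by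
      simp [be, tt_ed hσ, add_mul, sum_add_distrib, Equiv.eq_symm_apply]
    rw [this]
    have := hl i
    cases h : lab i <;> cases h' : lab (σ i) <;> simp_all

theorem Full.iso {G : SimpleGraph V} {cls : V → ι} (h : Full G cls lab) :
    ∃ σ : Equiv.Perm ι, (∀ i, σ i ≠ i) ∧ (∀ i, lab i = true → lab (σ i) = false) ∧
      Nonempty (Gr σ lab ≃g G) := by
  have hall : ∀ s : Finset ι,
      s.card ≤ (s.biUnion fun i => (cross G cls).filter fun I => tt cls I i = 1).card := by
    intro s
    have h1 : 2 * s.card = ∑ I ∈ cross G cls, ∑ i ∈ s, tt cls I i := by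
      rw [sum_comm, card_eq_sum_ones, mul_sum]
      exact sum_congr rfl fun i _ => by rw [mul_one, ← h.deg i, dg]
    have h2 : ∑ I ∈ cross G cls, ∑ i ∈ s, tt cls I i =
        ∑ I ∈ s.biUnion fun i => (cross G cls).filter fun I => tt cls I i = 1,
          ∑ i ∈ s, tt cls I i := by
      symm
      refine sum_subset (biUnion_subset.2 fun i _ => filter_subset _ _) fun I hI hI' => ?_
      refine sum_eq_zero fun i hi => ?_
      have := h.toGood.tt_le hI i
      by_contra hne
      exact hI' (mem_biUnion.2 ⟨i, hi, mem_filter.2 ⟨hI, by omega⟩⟩)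
    have h3 : ∑ I ∈ s.biUnion fun i => (cross G cls).filter fun I => tt cls I i = 1,
          ∑ i ∈ s, tt cls I i ≤
        ∑ I ∈ s.biUnion fun i => (cross G cls).filter fun I => tt cls I i = 1, 2 := by
      refine sum_le_sum fun I hI => ?_
      obtain ⟨j, _, hj⟩ := mem_biUnion.1 hI
      rw [← h.pair I (mem_filter.1 hj).1, ← sum_tt cls I]
      exact sum_le_sum_of_subset (subset_univ _)
    rw [sum_const, smul_eq_mul] at h3
    omega
  obtain ⟨f, hf, hf2⟩ := (all_card_le_biUnion_card_iff_exists_injective _).1 hall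
  have hfC : ∀ i, f i ∈ cross G cls := fun i => (mem_filter.1 (hf2 i)).1
  have himg : univ.image f = cross G cls := by
    refine eq_of_subset_of_card_le (image_subset_iff.2 fun i _ => hfC i) ?_
    rw [card_image_of_injective _ hf, h.card_cross, card_univ]
  have : ∀ i, ∃ o p : V, cls o = i ∧ cls p ≠ i ∧ f i = {o, p} := by
    intro i
    obtain ⟨u, v, huv, e⟩ := exists_pair (hfC i) (h.pair _ (hfC i))
    have h1 := (mem_filter.1 (hf2 i)).2
    rw [e, tt_pair cls huv] at h1
    by_cases hu : cls u = i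
    · exact ⟨u, v, hu, fun hv => huv (hu.trans hv.symm), e⟩
    · have hv : cls v = i := by
        by_contra hv
        simp [hu, hv] at h1
      exact ⟨v, u, hv, hu, by rw [e, pair_comm]⟩
  choose o p ho hp hop using this
  have hop' : ∀ i, cls (o i) ≠ cls (p i) := fun i => by rw [ho]; exact (hp i).symm
  have hinj : Function.Injective fun i => cls (p i) := by
    intro i j hij
    by_contra hne
    simp only at hij
    have h1 : ∑ I ∈ ({f i, f j, f (cls (p i))} : Finset (Finset V)), tt cls I (cls (p i)) ≤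
        dg G cls (cls (p i)) := by
      refine sum_le_sum_of_subset ?_
      simp [insert_subset_iff, hfC]
    have n1 : f i ≠ f j := fun e => hne (hf e)
    have n2 : f i ≠ f (cls (p i)) := fun e => hp i (hf e).symm
    have n3 : f j ≠ f (cls (p i)) := fun e => hp j (hij ▸ (hf e).symm)
    rw [sum_insert (by simp [n1, n2]), sum_pair n3, h.deg, (mem_filter.1 (hf2 (cls (p i)))).2,
      hop i, hop j, tt_pair cls (hop' i), tt_pair cls (hop' j), if_pos rfl, if_pos hij.symm] at h1
    omega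
  let σ : Equiv.Perm ι := Equiv.ofBijective _ (Finite.injective_iff_bijective.1 hinj)
  have hσ : ∀ i, σ i = cls (p i) := fun _ => rfl
  have hσ' : ∀ i, σ i ≠ i := fun i => hp i
  refine ⟨σ, hσ', fun i hi => ?_, ?_⟩
  · have h1 := h.nobb _ (hfC i)
    have h2 : be cls lab (f i) = (lab i).toNat + (lab (σ i)).toNat := by
      simp [hop i, be, tt_pair cls (hop' i), add_mul, sum_add_distrib, ho, hσ]
    rw [h2, hi] at h1
    cases h' : lab (σ i) <;> simp_all
  have hq : ∀ k, cls (p (σ⁻¹ k)) = k := fun k => by rw [← hσ]; simp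
  have hoq : ∀ k, p (σ⁻¹ k) ≠ o k := by
    intro k e
    have hne : σ⁻¹ k ≠ k := fun e => hσ' k (Equiv.Perm.inv_eq_iff_eq.1 e).symm
    have := h.disj _ (hfC (σ⁻¹ k)) _ (hfC k) fun e => hne (hf e)
    rw [hop, hop, e] at this
    simp at this
  have : ∀ k, ∃ g : {j : Fin 4 // j.val < 3 + (lab k).toNat} ≃ cl cls k,
      (g ⟨0, by simp only [Fin.val_zero]; omega⟩ : V) = p (σ⁻¹ k) ∧
      (g ⟨1, by simp only [Fin.val_one]; omega⟩ : V) = o k := by
    intro k
    obtain ⟨g, hg⟩ := Finset.exists_equiv_extend_of_card_eq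
      (α := {j : Fin 4 // j.val < 3 + (lab k).toNat}) (t := cl cls k)
      (by rw [Fintype.card_subtype, card_idx, h.size])
      (s := {⟨0, by simp only [Fin.val_zero]; omega⟩, ⟨1, by simp only [Fin.val_one]; omega⟩})
      (f := fun j => if j.1 = 0 then p (σ⁻¹ k) else o k)
      (by simpa [insert_subset_iff, ho] using hq k)
      (by
        intro a ha b hb hab
        simp only [coe_insert, coe_singleton, Set.mem_insert_iff, Set.mem_singleton_iff] at ha hb
        rcases ha with rfl | rfl <;> rcases hb with rfl | rfl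
        · rfl
        · exact absurd (by simpa using hab) (hoq k)
        · exact absurd (by simpa using hab.symm) (hoq k)
        · rfl)
    exact ⟨g, by simpa using hg _ (mem_insert_self _ _),
      by simpa using hg _ (mem_insert_of_mem (mem_singleton_self _))⟩
  choose g hg0 hg1 using this
  let φ : Vx lab → V := fun x => g x.1.1 ⟨x.1.2, x.2⟩
  have hφc : ∀ x, cls (φ x) = gc lab x := fun x => mem_cl.1 (g x.1.1 ⟨x.1.2, x.2⟩).2
  have hφi : Function.Injective φ := by
    rintro ⟨⟨i, a⟩, ha⟩ ⟨⟨j, b⟩, hb⟩ e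
    have h1 : i = j := (hφc _).symm.trans ((congrArg cls e).trans (hφc _))
    subst h1
    have h2 := (g i).injective (Subtype.ext e)
    simpa using h2
  have hφs : Function.Surjective φ := by
    intro v
    obtain ⟨j, hj⟩ := (g (cls v)).surjective ⟨v, mem_cl.2 rfl⟩
    exact ⟨⟨(cls v, j.1), j.2⟩, congrArg Subtype.val hj⟩
  have hφe : ∀ i, (ed σ lab i).image φ = f i := by
    intro i
    have e1 : φ (ov lab i) = o i := hg1 i
    have e2 : φ (iv lab (σ i)) = p i := (hg0 (σ i)).trans (by simp)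
    rw [ed, image_insert, image_singleton, e1, e2, hop]
  refine ⟨⟨Equiv.ofBijective φ ⟨hφi, hφs⟩, ?_⟩⟩
  intro x y
  rw [adj_iff h.proper, adj_iff (cls := gc lab) Gr_proper, cross_Gr hσ', ← himg]
  simp only [Equiv.ofBijective_apply, hφc, mem_image, mem_univ, true_and, ← hφe]
  have : ({φ x, φ y} : Finset V) = ({x, y} : Finset (Vx lab)).image φ := by simp
  simp only [this, (image_injective hφi).eq_iff]

/-- model graphs with conjugate data are isomorphic -/
lemma Gr_iso {κ : Type} [Fintype κ] [DecidableEq κ] {τ : Equiv.Perm κ} {lab' : κ → Bool}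
    (e : ι ≃ κ) (h1 : ∀ i, e (σ i) = τ (e i)) (h2 : ∀ i, lab' (e i) = lab i) :
    Nonempty (Gr σ lab ≃g Gr τ lab') := by
  refine ⟨⟨(e.prodCongr (Equiv.refl _)).subtypeEquiv (fun x => by simp [h2]), ?_⟩⟩
  intro x y
  simp [Gr, ← h1]

variable {R : Type} [CommRing R]

/-- transfer matrices -/
def TT (x : R) : Bool → Matrix (Fin 2) (Fin 2) R
  | false => !![1 + 3 * x + x ^ 2, x + x ^ 2; 1 + x, x]
  | true => !![1 + 7 * x + 6 * x ^ 2 + x ^ 3, x + 3 * x ^ 2 + x ^ 3; 1 + 3 * x + x ^ 2, x + x ^ 2]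

/-- partition function -/
def ZZ (σ : Equiv.Perm ι) (lab : ι → Bool) (T : Bool → Matrix (Fin 2) (Fin 2) R) : R :=
  ∑ A : ι → Fin 2, ∏ i, T (lab i) (A (σ⁻¹ i)) (A i)

lemma bell_TT (x : R) (b : Bool) (a c : Fin 2) :
    x ^ c.val * bell (fun _ => x) (3 + b.toNat - (c.val + a.val)) = x * TT x b a c := by
  cases b <;> fin_cases a <;> fin_cases c <;>
    simp [TT, bell_one, bell_two, bell_three, bell_four] <;> ring

lemma W_Gr (hσ : ∀ i, σ i ≠ i) (x : R) :
    W (fun _ => x) (ind (Gr σ lab)) univ = x ^ Fintype.card ι * ZZ σ lab (TT x) := by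
  rw [W_main _ _ (gc lab) Gr_proper, ZZ, mul_sum, cross_Gr hσ]
  symm
  have hmem : ∀ A : ι → Fin 2,
      (univ.filter fun i => A i = 1).image (ed σ lab) ∈ pack (univ.image (ed σ lab)) := by
    intro A
    refine mem_pack.2 ⟨image_subset_image (subset_univ _), fun I hI J hJ hne => ?_⟩
    obtain ⟨i, _, rfl⟩ := mem_image.1 hI
    obtain ⟨j, _, rfl⟩ := mem_image.1 hJ
    exact ed_disj fun h => hne (h ▸ rfl)
  refine sum_bij' (fun A _ => (univ.filter fun i => A i = 1).image (ed σ lab))
    (fun M _ => fun i => if ed σ lab i ∈ M then 1 else 0) (fun A _ => hmem A)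
    (fun _ _ => mem_univ _) ?_ ?_ ?_
  · intro A _
    funext i
    simp only [mem_image, mem_filter, mem_univ, true_and, ed_inj.eq_iff, exists_eq_right]
    generalize A i = a
    fin_cases a <;> simp
  · intro M hM
    ext I
    simp only [mem_image, mem_filter, mem_univ, true_and]
    constructor
    · rintro ⟨i, hi, rfl⟩
      by_contra hn
      simp [hn] at hi
    · intro hI
      obtain ⟨i, _, rfl⟩ := mem_image.1 ((mem_pack.1 hM).1 hI)
      exact ⟨i, by simp [hI], rfl⟩
  · intro A _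
    have hv : ∀ a : Fin 2, (if a = 1 then 1 else 0) = a.val := by decide
    rw [prod_image fun _ _ _ _ h => ed_inj h, prod_filter, ← card_univ, ← prod_const,
      ← prod_mul_distrib, ← prod_mul_distrib]
    refine prod_congr rfl fun j _ => ?_
    have h1 := rest_add (gc lab) (hmem A) j
    rw [sum_image fun _ _ _ _ h => ed_inj h, size_Gr, sum_filter] at h1
    have h2 : ∑ i, (if A i = 1 then tt (gc lab) (ed σ lab i) j else 0) =
        (A j).val + (A (σ⁻¹ j)).val := by
      rw [← hv, ← hv]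
      simp only [tt_ed hσ]
      rw [sum_congr rfl (g := fun i => (if i = j then (if A i = 1 then 1 else 0) else 0) +
        (if i = σ⁻¹ j then (if A i = 1 then 1 else 0) else 0)), sum_add_distrib]
      · simp
      · intro i _
        split_ifs <;> simp
    rw [h2] at h1
    rw [← bell_TT, ← h1, Nat.add_sub_cancel]
    congr 1
    generalize A j = a
    fin_cases a <;> simp

lemma ZZ_congr {κ : Type} [Fintype κ] [DecidableEq κ] {τ : Equiv.Perm κ} {lab' : κ → Bool}
    (hσ : ∀ i, σ i ≠ i) (hτ : ∀ i, τ i ≠ i) (hc : Fintype.card ι = Fintype.card κ)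
    (h : ∀ k, ncol (Gr σ lab) k = ncol (Gr τ lab') k) [IsDomain R] (x : R) (hx : x ≠ 0) :
    ZZ σ lab (TT x) = ZZ τ lab' (TT x) := by
  have := W_bot_congr h x
  rw [W_Gr hσ, W_Gr hτ, hc] at this
  exact mul_left_cancel₀ (pow_ne_zero _ hx) this

end Pool.Agent.Lib.MP_f7f352_co.U
end

-- part Pool.Agent.Lib.MP_f7f352_co.UCycle
section

set_option autoImplicit false

namespace Pool.Agent.Lib.MP_f7f352_co.U

open Finset Equiv

variable {ι : Type} [Fintype ι] [DecidableEq ι] {R : Type} [CommRing R]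

lemma ZZ_diag (σ : Perm ι) (lab : ι → Bool) (T : Bool → Matrix (Fin 2) (Fin 2) R)
    (P Q : Matrix (Fin 2) (Fin 2) R) (d : Bool → Fin 2 → R) (hQP : Q * P = 1)
    (hT : ∀ b, T b = P * Matrix.diagonal (d b) * Q) :
    ZZ σ lab T = ∑ C ∈ univ.filter (fun C : ι → Fin 2 => ∀ i, C (σ i) = C i),
      ∏ i, d (lab i) (C i) := by
  have h1 : ∀ b a c, T b a c = ∑ e, P a e * d b e * Q e c := by
    intro b a c
    rw [hT, Matrix.mul_apply]
    simp only [Matrix.mul_diagonal]
  unfold ZZ
  simp only [h1]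
  simp only [Fintype.prod_sum]
  rw [sum_comm, sum_filter]
  refine sum_congr rfl fun C _ => ?_
  have h2 : ∀ A : ι → Fin 2, ∏ i, P (A (σ⁻¹ i)) (C i) * d (lab i) (C i) * Q (C i) (A i) =
      (∏ i, d (lab i) (C i)) * ∏ i, Q (C i) (A i) * P (A i) (C (σ i)) := by
    intro A
    simp only [prod_mul_distrib]
    rw [← Equiv.prod_comp σ fun i => P (A (σ⁻¹ i)) (C i)]
    simp only [Perm.coe_inv, symm_apply_apply]
    ring
  simp only [h2]
  rw [← mul_sum, ← Fintype.prod_sum (fun i a => Q (C i) a * P a (C (σ i)))]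
  simp only [← Matrix.mul_apply, hQP, Matrix.one_apply]
  split_ifs with h
  · simp [h]
  · push Not at h
    obtain ⟨i, hi⟩ := h
    rw [prod_eq_zero (f := fun i => if C i = C (σ i) then (1 : R) else 0) (mem_univ i)
      (if_neg hi.symm), mul_zero]

open Classical in
lemma sum_invariant (σ : Perm ι) (f : ι → Fin 2 → R) :
    ∑ C ∈ univ.filter (fun C : ι → Fin 2 => ∀ i, C (σ i) = C i), ∏ i, f i (C i) =
      ∏ q : Quotient (Perm.SameCycle.setoid σ),
        ∑ a, ∏ i ∈ univ.filter (fun i => Quotient.mk _ i = q), f i a := by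
  rw [Fintype.prod_sum]
  symm
  refine sum_bij (fun c _ => fun i => c (Quotient.mk _ i)) ?_ ?_ ?_ ?_
  · intro c _
    simp only [mem_filter, mem_univ, true_and]
    intro i
    congr 1
    exact Quotient.sound (Perm.SameCycle.symm ⟨1, by simp⟩)
  · intro c _ c' _ h
    funext q
    induction q using Quotient.inductionOn with
    | h i => exact congrFun h i
  · intro C hC
    simp only [mem_filter, mem_univ, true_and] at hC
    have hp : ∀ (k : ℕ) i, C ((σ ^ k) i) = C i := by
      intro k i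
      induction k with
      | zero => simp
      | succ k ih => rw [pow_succ', Perm.mul_apply, hC, ih]
    refine ⟨Quotient.lift C ?_, mem_univ _, rfl⟩
    intro i j hij
    obtain ⟨k, _, rfl⟩ := Perm.SameCycle.exists_pow_eq' (f := σ) hij
    exact (hp k i).symm
  · intro c _
    rw [← prod_fiberwise univ (fun i => Quotient.mk (Perm.SameCycle.setoid σ) i)]
    exact prod_congr rfl fun q _ => prod_congr rfl fun i hi => by
      simp only [(mem_filter.1 hi).2]

open Classical in
/-- weighted length of an orbit -/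
noncomputable def olen (σ : Perm ι) (lab : ι → Bool) (q : Quotient (Perm.SameCycle.setoid σ)) : ℕ :=
  ∑ i ∈ univ.filter (fun i => Quotient.mk _ i = q), (2 + (lab i).toNat)

open Classical in
lemma sum_olen (σ : Perm ι) (lab : ι → Bool) :
    ∑ q, olen σ lab q = 2 * Fintype.card ι + nb lab := by
  unfold olen
  rw [sum_fiberwise univ (fun i => Quotient.mk (Perm.SameCycle.setoid σ) i), sum_add_distrib, nb]
  simp [mul_comm]

lemma olen_ne (σ : Perm ι) (lab : ι → Bool) (q : Quotient (Perm.SameCycle.setoid σ)) :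
    olen σ lab q ≠ 0 := by
  classical
  induction q using Quotient.inductionOn with
  | h i =>
    rw [olen, ← Nat.pos_iff_ne_zero]
    exact sum_pos (fun _ _ => by omega) ⟨i, by simp⟩

open Classical in
lemma ZZ_neg_two (σ : Perm ι) (lab : ι → Bool) :
    ZZ σ lab (TT (-2 : ℂ)) = (-1) ^ nb lab * ((∏ q, VV (olen σ lab q) : ℤ) : ℂ) := by
  obtain ⟨z, hz⟩ := IsAlgClosed.exists_eq_mul_self (-7 : ℂ)
  have z0 : z ≠ 0 := by rintro rfl; norm_num at hz
  obtain ⟨a, b, e1, e2, e3⟩ : ∃ a b : ℂ, a + b = 1 ∧ a * b = 2 ∧ b - a ≠ 0 :=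
    ⟨(1 - z) / 2, (1 + z) / 2, by ring, by linear_combination (1 / 4 : ℂ) * hz,
      by intro h; apply z0; linear_combination h⟩
  have a2 : a ^ 2 = a - 2 := by linear_combination a * e1 - e2
  have b2 : b ^ 2 = b - 2 := by linear_combination b * e1 - e2
  have a3 : a ^ 3 = -a - 2 := by linear_combination (a + 1) * a2
  have b3 : b ^ 3 = -b - 2 := by linear_combination (b + 1) * b2
  let P : Matrix (Fin 2) (Fin 2) ℂ := !![-a, -b; 1, 1]
  let Q : Matrix (Fin 2) (Fin 2) ℂ := (b - a)⁻¹ • !![1, b; -1, -a]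
  let d : Bool → Fin 2 → ℂ := fun t e => (-1) ^ t.toNat * (![a, b] e) ^ (2 + t.toNat)
  have hQP : Q * P = 1 := by
    ext i j
    fin_cases i <;> fin_cases j <;> simp [P, Q, Matrix.mul_apply, Fin.sum_univ_two] <;>
      field_simp <;> ring
  have hPQ : P * Q = 1 := mul_eq_one_comm.1 hQP
  have hT : ∀ t, TT (-2 : ℂ) t = P * Matrix.diagonal (d t) * Q := by
    intro t
    have : TT (-2 : ℂ) t * P = P * Matrix.diagonal (d t) := by
      ext i j
      rw [Matrix.mul_diagonal]
      cases t <;> fin_cases i <;> fin_cases j <;>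
        simp [TT, P, d, Matrix.mul_apply, Fin.sum_univ_two, a2, b2, a3, b3]
      · linear_combination a2
      · linear_combination b2
      · ring
      · ring
      · linear_combination a2
      · linear_combination b2
      · ring
      · ring
    rw [← this, mul_assoc, hPQ, mul_one]
  rw [ZZ_diag σ lab _ P Q d hQP hT, sum_invariant σ fun i e => d (lab i) e]
  push_cast
  simp only [VV_eq a b e1 e2, d, prod_mul_distrib, prod_pow_eq_pow_sum, Fin.sum_univ_two,
    Matrix.cons_val_zero, Matrix.cons_val_one, ← mul_add, olen]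
  rw [sum_fiberwise univ (fun i => Quotient.mk (Perm.SameCycle.setoid σ) i), nb]

theorem one_cycle {κ : Type} [Fintype κ] [DecidableEq κ] (σ : Perm ι) (lab : ι → Bool)
    (τ : Perm κ) (lab' : κ → Bool) (hσ : ∀ i j, σ.SameCycle i j) (i0 : ι)
    (hc : Fintype.card κ = Fintype.card ι) (hn : nb lab' = nb lab) (a q : ℕ) (hq : Odd q)
    (hL : 2 * Fintype.card ι + nb lab = 2 ^ a * q) (hbig : 8 * (2 ^ a * q) < 2 ^ 2 ^ a)
    (h : ZZ σ lab (TT (-2 : ℂ)) = ZZ τ lab' (TT (-2 : ℂ))) (i j : κ) : τ.SameCycle i j := by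
  classical
  rw [ZZ_neg_two, ZZ_neg_two, hn] at h
  have h1 := Int.cast_injective (mul_left_cancel₀ (pow_ne_zero _ (by norm_num)) h)
  haveI : Unique (Quotient (Perm.SameCycle.setoid σ)) := by
    refine ⟨⟨Quotient.mk _ i0⟩, fun q => ?_⟩
    induction q using Quotient.inductionOn with
    | h i => exact Quotient.sound (hσ i i0)
  have h2 := sum_olen σ lab
  rw [Fintype.sum_unique] at h2
  rw [Fintype.prod_unique, h2, hL] at h1
  have h3 := lucas_single (olen τ lab') (olen_ne τ lab') a q hq (by rw [sum_olen, hc, hn, hL])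
    hbig h1.symm
  exact Quotient.exact (h3.elim (Quotient.mk (Perm.SameCycle.setoid τ) i) (Quotient.mk _ j))

lemma path_sum (n : ℕ) (f : Fin n → Matrix (Fin 2) (Fin 2) R) (a : Fin 2) (g : Fin 2 → R) :
    ∑ A : Fin n → Fin 2, (∏ k, f k ((Fin.cons a A : Fin (n + 1) → Fin 2) k.castSucc) (A k)) *
      g ((Fin.cons a A : Fin (n + 1) → Fin 2) (Fin.last n)) =
    ∑ b, (List.ofFn f).prod a b * g b := by
  induction n generalizing a with
  | zero => simp [Matrix.one_apply]
  | succ n ih =>
    rw [← (Fin.consEquiv fun _ => Fin 2).sum_comp, Fintype.sum_prod_type, List.ofFn_succ,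
      List.prod_cons]
    simp only [Matrix.mul_apply, sum_mul]
    rw [sum_comm (s := univ) (t := univ) (f := fun b c => f 0 a c * _ * g b)]
    refine sum_congr rfl fun c _ => ?_
    simp only [mul_assoc, ← mul_sum, ← ih]
    rw [mul_sum]
    refine sum_congr rfl fun A _ => ?_
    simp only [Fin.consEquiv_apply, Fin.prod_univ_succ, Fin.castSucc_zero, Fin.cons_zero,
      ← Fin.succ_castSucc, Fin.cons_succ, ← Fin.succ_last, mul_assoc]

lemma cyc_sum (n : ℕ) (f : Fin (n + 1) → Matrix (Fin 2) (Fin 2) R) :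
    ∑ A : Fin (n + 1) → Fin 2,
      ∏ k, f k ((Fin.cons (A (Fin.last n)) A : Fin (n + 2) → Fin 2) k.castSucc) (A k) =
    (List.ofFn f).prod.trace := by
  have h1 : (List.ofFn f).prod.trace =
      ∑ a, ∑ b, (List.ofFn f).prod a b * if b = a then 1 else 0 := by
    simp [Matrix.trace]
  rw [h1]
  simp only [← path_sum]
  rw [sum_comm]
  refine sum_congr rfl fun A _ => ?_
  simp only [← Fin.succ_last, Fin.cons_succ, mul_ite, mul_one, mul_zero]
  rw [sum_ite_eq]
  simp

lemma cycOn {σ : Perm ι} (hσ : ∀ i j, σ.SameCycle i j) : σ.IsCycleOn (univ : Finset ι) :=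
  ⟨σ.bijOn (by simp), fun i _ j _ => hσ i j⟩

lemma exists_enum {σ : Perm ι} (hσ : ∀ i j, σ.SameCycle i j) (i0 : ι) (r : ℕ)
    (hr : Fintype.card ι = r) : ∃ e : Fin r ≃ ι, ∀ k, e k = (σ ^ k.val) i0 := by
  have hinj : Function.Injective fun k : Fin r => (σ ^ k.val) i0 := by
    intro k l h
    have := ((cycOn hσ).pow_apply_eq_pow_apply (mem_univ i0)).1 h
    rw [card_univ, hr] at this
    exact Fin.ext (Nat.ModEq.eq_of_lt_of_lt this k.2 l.2)
  exact ⟨Equiv.ofBijective _ ((Fintype.bijective_iff_injective_and_card _).2 ⟨hinj, by simp [hr]⟩),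
    fun _ => rfl⟩

/-- the cyclic word of labels read from a base point -/
def word (σ : Perm ι) (lab : ι → Bool) (i0 : ι) : List Bool :=
  (List.range (Fintype.card ι)).map fun k => lab ((σ ^ k) i0)

/-- matrix of a word -/
def mat (T : Bool → Matrix (Fin 2) (Fin 2) R) (w : List Bool) : Matrix (Fin 2) (Fin 2) R :=
  (w.map T).prod

lemma ZZ_trace {σ : Perm ι} (hσ : ∀ i j, σ.SameCycle i j) (lab : ι → Bool) (i0 : ι)
    (T : Bool → Matrix (Fin 2) (Fin 2) R) : ZZ σ lab T = (mat T (word σ lab i0)).trace := by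
  obtain ⟨n, hn⟩ : ∃ n, Fintype.card ι = n + 1 :=
    Nat.exists_eq_succ_of_ne_zero (Fintype.card_pos_iff.2 ⟨i0⟩).ne'
  obtain ⟨e, he⟩ := exists_enum hσ i0 _ hn
  have h1 : (word σ lab i0).map T = List.ofFn fun k => T (lab (e k)) := by
    apply List.ext_getElem
    · simp [word, hn]
    · intro k h1 h2
      simp only [word, List.getElem_map, List.getElem_range, List.getElem_ofFn, he]
  rw [mat, h1, ← cyc_sum, ZZ, ← (Equiv.arrowCongr e (Equiv.refl (Fin 2))).sum_comp]
  refine sum_congr rfl fun A _ => ?_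
  rw [← e.prod_comp]
  refine prod_congr rfl fun k _ => ?_
  simp only [arrowCongr_apply, coe_refl, Function.comp, id, symm_apply_apply]
  congr 1
  refine Fin.cases ?_ (fun j => ?_) k
  · have : σ⁻¹ (e 0) = e (Fin.last n) := by
      rw [Perm.inv_eq_iff_eq, he, he, ← Perm.mul_apply, ← pow_succ', Fin.val_last, Fin.val_zero,
        pow_zero, Perm.one_apply, ← hn, ← card_univ, (cycOn hσ).pow_card_apply (mem_univ i0)]
    rw [this]
    simp
  · have : σ⁻¹ (e j.succ) = e j.castSucc := by
      rw [Perm.inv_eq_iff_eq, he, he, ← Perm.mul_apply, ← pow_succ']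
      simp
    rw [this, ← Fin.succ_castSucc]
    simp

lemma word_rotate {σ : Perm ι} (hσ : ∀ i j, σ.SameCycle i j) (lab : ι → Bool) (i0 : ι) (n : ℕ) :
    word σ lab ((σ ^ n) i0) = (word σ lab i0).rotate n := by
  apply List.ext_getElem
  · simp [word]
  · intro k h1 h2
    rw [List.getElem_rotate]
    simp only [word, List.getElem_map, List.getElem_range, List.length_map, List.length_range]
    congr 1
    rw [← Perm.mul_apply, ← pow_add, (cycOn hσ).pow_apply_eq_pow_apply (mem_univ i0), card_univ]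
    exact (Nat.mod_modEq _ _).symm

lemma iso_of_word {κ : Type} [Fintype κ] [DecidableEq κ] {σ : Perm ι} {τ : Perm κ}
    (hσ : ∀ i j, σ.SameCycle i j) (hτ : ∀ i j, τ.SameCycle i j) {lab : ι → Bool}
    {lab' : κ → Bool} {i0 : ι} {j0 : κ} (h : word σ lab i0 = word τ lab' j0) :
    Nonempty (Gr σ lab ≃g Gr τ lab') := by
  have hc : Fintype.card κ = Fintype.card ι := by
    simpa [word] using (congrArg List.length h).symm
  obtain ⟨e, he⟩ := exists_enum hσ i0 _ rfl
  obtain ⟨e', he'⟩ := exists_enum hτ j0 _ hc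
  have hpos : 0 < Fintype.card ι := Fintype.card_pos_iff.2 ⟨i0⟩
  have key : ∀ k : ℕ, (e.symm.trans e') ((σ ^ k) i0) = (τ ^ k) j0 := by
    intro k
    have h1 : (σ ^ k) i0 = e ⟨k % Fintype.card ι, Nat.mod_lt _ hpos⟩ := by
      rw [he, (cycOn hσ).pow_apply_eq_pow_apply (mem_univ i0), card_univ]
      exact (Nat.mod_modEq _ _).symm
    rw [h1, trans_apply, symm_apply_apply, he', (cycOn hτ).pow_apply_eq_pow_apply (mem_univ j0),
      card_univ, hc]
    exact Nat.mod_modEq _ _
  refine Gr_iso (e.symm.trans e') (fun i => ?_) (fun i => ?_)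
  · obtain ⟨k, rfl⟩ := e.surjective i
    rw [he, ← Perm.mul_apply, ← pow_succ', key, key, pow_succ', Perm.mul_apply]
  · obtain ⟨k, rfl⟩ := e.surjective i
    rw [he, key]
    have h1 : (word σ lab i0)[k.val]? = (word τ lab' j0)[k.val]? := by rw [h]
    simpa [word, hc] using h1.symm

lemma word_count {σ : Perm ι} (hσ : ∀ i j, σ.SameCycle i j) (lab : ι → Bool) (i0 : ι) :
    ((word σ lab i0).map Bool.toNat).sum = nb lab := by
  obtain ⟨e, he⟩ := exists_enum hσ i0 _ rfl
  rw [nb, ← e.sum_comp, ← List.sum_ofFn]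
  congr 1
  apply List.ext_getElem
  · simp [word]
  · intro k h1 h2
    simp only [word, List.getElem_map, List.getElem_range, List.getElem_ofFn, he]

end Pool.Agent.Lib.MP_f7f352_co.U
end
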