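import Mathlib
import Pool.Agent.Lib.MP_f7f352_co.UCycle

-- part Pool.Agent.Lib.MP_f7f352_co.UNorm
section

set_option autoImplicit false

namespace Pool.Agent.Lib.MP_f7f352_co.U

open Finset

/-- word with prescribed gaps -/
def gw (gs : List ℕ) : List Bool := gs.flatMap fun g => true :: List.replicate g false

lemma gw_nil : gw [] = [] := rfl

lemma gw_cons (g : ℕ) (gs : List ℕ) :
    gw (g :: gs) = true :: (List.replicate g false ++ gw gs) := by simp [gw]

lemma gw_append (a b : List ℕ) : gw (a ++ b) = gw a ++ gw b := by simp [gw]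

section ring
variable {R : Type} [CommRing R] (T : Bool → Matrix (Fin 2) (Fin 2) R)

lemma mat_nil : mat T [] = 1 := rfl

lemma mat_append (a b : List Bool) : mat T (a ++ b) = mat T a * mat T b := by simp [mat]

lemma mat_gw_cons (g : ℕ) (gs : List ℕ) :
    mat T (gw (g :: gs)) = T true * T false ^ g * mat T (gw gs) := by
  simp [mat, gw_cons, mul_assoc]

/-- normalised transfer matrices -/
def TH (ρ ε δ : R) : Bool → Matrix (Fin 2) (Fin 2) R
  | false => !![1, 0; 0, ρ]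
  | true => !![1, ε; 1, δ]

lemma TH_block (ρ ε δ : R) (g : ℕ) :
    TH ρ ε δ true * TH ρ ε δ false ^ g = !![1, ε * ρ ^ g; 1, δ * ρ ^ g] := by
  induction g with
  | zero => simp [TH]
  | succ g ih => rw [pow_succ, ← mul_assoc, ih]; simp [TH, pow_succ, mul_assoc]

lemma TH_symm (ρ ε δ : R) (w : List Bool) :
    (mat (TH ρ ε δ) w).transpose * !![1, 0; 0, ε] = !![1, 0; 0, ε] * mat (TH ρ ε δ) w.reverse := by
  induction w with
  | nil => simp [mat]
  | cons b w ih =>
    have h1 : (TH ρ ε δ b).transpose * !![1, 0; 0, ε] = !![1, 0; 0, ε] * TH ρ ε δ b := by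
      ext i j
      cases b <;> fin_cases i <;> fin_cases j <;>
        simp [TH, Matrix.mul_apply, Fin.sum_univ_two, mul_comm]
    have h2 : mat (TH ρ ε δ) (b :: w) = TH ρ ε δ b * mat (TH ρ ε δ) w := by simp [mat]
    have h3 : mat (TH ρ ε δ) (b :: w).reverse = mat (TH ρ ε δ) w.reverse * TH ρ ε δ b := by
      simp [mat]
    rw [h2, h3, Matrix.transpose_mul, mul_assoc, h1, ← mul_assoc, ih, mul_assoc]

lemma gw_reverse (u : List ℕ) : (gw (u ++ [0])).reverse = gw (u.reverse ++ [0]) := by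
  induction u with
  | nil => simp [gw]
  | cons g u ih =>
    rw [List.cons_append, gw_cons, List.reverse_cons, List.reverse_append, ih]
    simp [gw]

lemma det_gw (gs : List ℕ) :
    (mat T (gw gs)).det = (T true).det ^ gs.length * (T false).det ^ gs.sum := by
  induction gs with
  | nil => simp [gw_nil, mat_nil]
  | cons g gs ih =>
    rw [mat_gw_cons, Matrix.det_mul, Matrix.det_mul, Matrix.det_pow, ih]
    simp [pow_succ, pow_add]
    ring

end ring

variable {K : Type} [NormedField K] [IsUltrametricDist K]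

/-- size assumptions -/
structure Par (q : ℝ) (ρ ε δ : K) : Prop where
  q0 : 0 < q
  q1 : q < 1
  hρ : ‖ρ‖ = q ^ 2
  hε : ‖ε‖ = q ^ 3
  hδ : ‖δ - ε‖ = q ^ 2
  two : ‖(2 : K)‖ = 1

variable {q : ℝ} {ρ ε δ : K}

lemma Par.mono (h : Par q ρ ε δ) {a : K} {k : ℕ} (l : ℕ) (ha : ‖a‖ ≤ q ^ k) (hl : l ≤ k) :
    ‖a‖ ≤ q ^ l := ha.trans (pow_le_pow_of_le_one h.q0.le h.q1.le hl)

lemma Par.mul (h : Par q ρ ε δ) {a b : K} {k l : ℕ} (m : ℕ) (ha : ‖a‖ ≤ q ^ k) (hb : ‖b‖ ≤ q ^ l)
    (hm : m ≤ k + l) : ‖a * b‖ ≤ q ^ m :=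
  h.mono m (by rw [pow_add]; exact nle_mul ha hb) hm

lemma Par.lt (h : Par q ρ ε δ) {a : K} {k : ℕ} (ha : ‖a‖ ≤ q ^ k) (hk : k ≠ 0) : ‖a‖ < 1 :=
  ha.trans_lt (pow_lt_one₀ h.q0.le h.q1 hk)

lemma Par.pow (h : Par q ρ ε δ) {g : ℕ} (k : ℕ) (hg : k ≤ g) : ‖ρ ^ g‖ ≤ q ^ (2 * k) := by
  rw [norm_pow, h.hρ, ← pow_mul]
  exact pow_le_pow_of_le_one h.q0.le h.q1.le (by omega)

lemma Par.hδ' (h : Par q ρ ε δ) : ‖δ‖ ≤ q ^ 2 := by
  have : δ = (δ - ε) + ε := by ring
  rw [this]
  exact nle_add h.hδ.le (h.mono 2 h.hε.le (by omega))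

lemma Par.trace_inv (h : Par q ρ ε δ) (z : ℕ) (hz : 1 ≤ z) (l : List ℕ) (hl : ∀ g ∈ l, 1 ≤ g) :
    ‖mat (TH ρ ε δ) (gw (l ++ [z])) 0 0 - 1 - ε * (l.map (ρ ^ ·)).sum‖ ≤ q ^ 8 ∧
    ‖mat (TH ρ ε δ) (gw (l ++ [z])) 0 0 - 1‖ ≤ q ^ 4 ∧
    ‖mat (TH ρ ε δ) (gw (l ++ [z])) 1 0 - 1‖ ≤ q ^ 4 ∧
    ‖mat (TH ρ ε δ) (gw (l ++ [z])) 0 1 - ε * ρ ^ z‖ ≤ q ^ 8 ∧
    ‖mat (TH ρ ε δ) (gw (l ++ [z])) 1 1‖ ≤ q ^ 4 ∧
    (l ≠ [] → ‖mat (TH ρ ε δ) (gw (l ++ [z])) 1 1 - ε * ρ ^ z‖ ≤ q ^ 8) := by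
  have q0 := h.q0
  have hy : ∀ g, 1 ≤ g → ‖ε * ρ ^ g‖ ≤ q ^ 5 := fun g hg => h.mul 5 h.hε.le (h.pow 1 hg) le_rfl
  have hz' : ∀ g, 1 ≤ g → ‖δ * ρ ^ g‖ ≤ q ^ 4 := fun g hg => h.mul 4 h.hδ' (h.pow 1 hg) le_rfl
  induction l with
  | nil =>
    rw [List.nil_append, mat_gw_cons, TH_block, gw_nil, mat_nil, mul_one]
    simp only [Matrix.of_apply, Matrix.cons_val', Matrix.cons_val_zero, Matrix.cons_val_one,
      Matrix.cons_val_fin_one, sub_self, List.map_nil, List.sum_nil, mul_zero, norm_zero]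
    exact ⟨by positivity, by positivity, by positivity, by positivity, hz' z hz,
      fun h => absurd rfl h⟩
  | cons g l ih =>
    obtain ⟨i1, i2, i3, i4, i5, _⟩ := ih fun g hg => hl g (List.mem_cons_of_mem _ hg)
    have hg := hl g List.mem_cons_self
    rw [List.cons_append, mat_gw_cons, TH_block]
    generalize mat (TH ρ ε δ) (gw (l ++ [z])) = N at i1 i2 i3 i4 i5 ⊢
    simp only [Matrix.mul_apply, Fin.sum_univ_two, Matrix.of_apply, Matrix.cons_val',
      Matrix.cons_val_zero, Matrix.cons_val_one, Matrix.cons_val_fin_one, one_mul, List.map_cons,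
      List.sum_cons]
    have j1 : ‖N 1 0‖ ≤ q ^ 0 := by rw [neq_one (h.lt i3 (by omega)), pow_zero]
    have j2 : ‖N 0 1‖ ≤ q ^ 4 := by
      have : N 0 1 = (N 0 1 - ε * ρ ^ z) + ε * ρ ^ z := by ring
      rw [this]
      exact nle_add (h.mono 4 i4 (by omega)) (h.mono 4 (hy z hz) (by omega))
    refine ⟨?_, ?_, ?_, ?_, ?_, fun _ => ?_⟩
    · have : N 0 0 + ε * ρ ^ g * N 1 0 - 1 - ε * (ρ ^ g + (l.map (ρ ^ ·)).sum) =
        (N 0 0 - 1 - ε * (l.map (ρ ^ ·)).sum) + ε * ρ ^ g * (N 1 0 - 1) := by ring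
      rw [this]
      exact nle_add i1 (h.mul 8 (hy g hg) i3 (by omega))
    · rw [add_sub_right_comm]
      exact nle_add i2 (h.mul 4 (hy g hg) j1 (by omega))
    · rw [add_sub_right_comm]
      exact nle_add i2 (h.mul 4 (hz' g hg) j1 (by omega))
    · rw [add_sub_right_comm]
      exact nle_add i4 (h.mul 8 (hy g hg) i5 (by omega))
    · exact nle_add j2 (h.mul 4 (hz' g hg) i5 (by omega))
    · rw [add_sub_right_comm]
      exact nle_add i4 (h.mul 8 (hz' g hg) i5 (by omega))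

lemma Par.trace_est (h : Par q ρ ε δ) (gs : List ℕ) (hl : ∀ g ∈ gs, 1 ≤ g) (h2 : 2 ≤ gs.length) :
    ‖(mat (TH ρ ε δ) (gw gs)).trace - 1 - ε * (gs.count 1 * ρ + gs.count 2 * ρ ^ 2)‖ ≤ q ^ 8 := by
  have key : ∀ l : List ℕ, (∀ g ∈ l, 1 ≤ g) →
      ‖(l.map (ρ ^ ·)).sum - (l.count 1 * ρ + l.count 2 * ρ ^ 2)‖ ≤ q ^ 6 := by
    intro l hl
    induction l with
    | nil => simpa using (pow_pos h.q0 6).le
    | cons g l ih =>
      have i1 := ih fun g hg => hl g (List.mem_cons_of_mem _ hg)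
      have hg := hl g List.mem_cons_self
      rcases Nat.lt_or_ge g 3 with h3 | h3
      · interval_cases g
        · convert i1 using 2
          simp; ring
        · convert i1 using 2
          simp; ring
      · have : ((g :: l).map (ρ ^ ·)).sum - ((g :: l).count 1 * ρ + (g :: l).count 2 * ρ ^ 2) =
            ρ ^ g + ((l.map (ρ ^ ·)).sum - (l.count 1 * ρ + l.count 2 * ρ ^ 2)) := by
          rw [List.count_cons_of_ne (by omega), List.count_cons_of_ne (by omega)]
          simp; ring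
        rw [this]
        exact nle_add (h.pow 3 h3) i1
  have k1 := key gs hl
  obtain ⟨l, z, rfl⟩ : ∃ l z, gs = l ++ [z] := by
    rcases List.eq_nil_or_concat gs with rfl | ⟨l, z, rfl⟩
    · simp at h2
    · exact ⟨l, z, by simp⟩
  obtain ⟨i1, _, _, _, _, i6⟩ := h.trace_inv z (hl z (by simp)) l fun g hg => hl g (by simp [hg])
  have i7 := i6 (by rintro rfl; simp at h2)
  rw [Matrix.trace_fin_two]
  generalize ((l ++ [z]).count 1 * ρ + (l ++ [z]).count 2 * ρ ^ 2 : K) = c at k1 ⊢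
  generalize mat (TH ρ ε δ) (gw (l ++ [z])) = N at i1 i7 ⊢
  simp only [List.map_append, List.sum_append, List.map_cons, List.map_nil, List.sum_cons,
    List.sum_nil, add_zero] at k1
  have : N 0 0 + N 1 1 - 1 - ε * c = (N 0 0 - 1 - ε * (l.map (ρ ^ ·)).sum) + (N 1 1 - ε * ρ ^ z) +
    ε * ((l.map (ρ ^ ·)).sum + ρ ^ z - c) := by ring
  rw [this]
  exact nle_add (nle_add i1 i7) (h.mul 8 h.hε.le k1 (by omega))

lemma Par.counts (h : Par q ρ ε δ) (s : ℕ)
    (hint : ∀ m n : ℕ, m ≤ s → n ≤ s → ‖(m : K) - n‖ < 1 → m = n) (gs gs' : List ℕ)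
    (hl : ∀ g ∈ gs, 1 ≤ g) (hl' : ∀ g ∈ gs', 1 ≤ g) (h2 : 2 ≤ s) (hs : gs.length = s)
    (hs' : gs'.length = s)
    (ht : (mat (TH ρ ε δ) (gw gs)).trace = (mat (TH ρ ε δ) (gw gs')).trace) :
    gs.count 1 = gs'.count 1 ∧ gs.count 2 = gs'.count 2 := by
  have q0 := h.q0
  have e1 := h.trace_est gs hl (by omega)
  have e2 := h.trace_est gs' hl' (by omega)
  rw [ht] at e1
  have e3 := nle_sub e2 e1
  have e4 : ‖((gs.count 1 : K) - gs'.count 1) + ((gs.count 2 : K) - gs'.count 2) * ρ‖ ≤ q ^ 3 := by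
    have : (mat (TH ρ ε δ) (gw gs')).trace - 1 - ε * (gs'.count 1 * ρ + gs'.count 2 * ρ ^ 2) -
      ((mat (TH ρ ε δ) (gw gs')).trace - 1 - ε * (gs.count 1 * ρ + gs.count 2 * ρ ^ 2)) =
      ε * ρ * (((gs.count 1 : K) - gs'.count 1) + ((gs.count 2 : K) - gs'.count 2) * ρ) := by ring
    rw [this, norm_mul, norm_mul, h.hε, h.hρ, show q ^ 8 = q ^ 3 * q ^ 2 * q ^ 3 by ring] at e3
    exact le_of_mul_le_mul_left e3 (by positivity)
  have e5 : ‖((gs.count 2 : K) - gs'.count 2) * ρ‖ ≤ q ^ 2 :=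
    h.mul 2 (k := 0) (by
      rw [pow_zero]
      exact nle_sub (IsUltrametricDist.norm_natCast_le_one K _)
        (IsUltrametricDist.norm_natCast_le_one K _)) h.hρ.le le_rfl
  have e6 : gs.count 1 = gs'.count 1 := by
    refine hint _ _ (hs ▸ List.count_le_length) (hs' ▸ List.count_le_length) ?_
    have := nle_sub (h.mono 2 e4 (by omega)) e5
    rw [add_sub_cancel_right] at this
    exact h.lt this (by omega)
  refine ⟨e6, hint _ _ (hs ▸ List.count_le_length) (hs' ▸ List.count_le_length) ?_⟩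
  rw [e6, sub_self, zero_add, norm_mul, h.hρ, show q ^ 3 = q ^ 1 * q ^ 2 by ring] at e4
  exact h.lt (le_of_mul_le_mul_right e4 (by positivity)) (by omega)

/-- slope attached to a gap sequence -/
noncomputable def ph (ρ ε δ : K) : List ℕ → K
  | [] => 1
  | g :: u => (1 + δ * ρ ^ g * ph ρ ε δ u) / (1 + ε * ρ ^ g * ph ρ ε δ u)

lemma Par.den (h : Par q ρ ε δ) {a : K} (ha : ‖a‖ ≤ q ^ 2) (g : ℕ) {t : K} (ht : ‖t - 1‖ < 1) :
    ‖(1 + a * ρ ^ g * t) - 1‖ < 1 := by
  rw [add_sub_cancel_left, norm_mul, neq_one ht, mul_one]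
  exact h.lt (h.mul 2 ha (h.pow 0 (Nat.zero_le g)) (by omega)) (by omega)

lemma near_div {a b : K} (ha : ‖a - 1‖ < 1) (hb : ‖b - 1‖ < 1) : ‖a / b - 1‖ < 1 := by
  have h1 := neq_one hb
  have h2 : b ≠ 0 := by rintro rfl; simp at h1
  have : a / b - 1 = ((a - 1) - (b - 1)) / b := by field_simp; ring
  rw [this, norm_div, h1, div_one]
  exact nlt_sub ha hb

lemma near_mul {a b : K} (ha : ‖a - 1‖ < 1) (hb : ‖b - 1‖ < 1) : ‖a * b - 1‖ < 1 := by
  have : a * b - 1 = (a - 1) * b + (b - 1) := by ring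
  rw [this]
  exact nlt_add (by rwa [norm_mul, neq_one hb, mul_one]) hb

lemma Par.hε' (h : Par q ρ ε δ) : ‖ε‖ ≤ q ^ 2 := h.mono 2 h.hε.le (by omega)

lemma Par.ph_near (h : Par q ρ ε δ) (u : List ℕ) : ‖ph ρ ε δ u - 1‖ < 1 := by
  induction u with
  | nil => simp [ph]
  | cons g u ih => exact near_div (h.den h.hδ' g ih) (h.den h.hε' g ih)

lemma Par.ph_mat (h : Par q ρ ε δ) (u : List ℕ) :
    mat (TH ρ ε δ) (gw (u ++ [0])) 0 0 ≠ 0 ∧
    mat (TH ρ ε δ) (gw (u ++ [0])) 1 0 = ph ρ ε δ u * mat (TH ρ ε δ) (gw (u ++ [0])) 0 0 := by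
  induction u with
  | nil => simp [mat, gw, TH, ph]
  | cons g u ih =>
    have h1 := neq_one (h.den h.hε' g (h.ph_near u))
    have h2 : 1 + ε * ρ ^ g * ph ρ ε δ u ≠ 0 := by
      intro e; rw [e] at h1; simp at h1
    rw [List.cons_append, mat_gw_cons, TH_block, ph]
    generalize mat (TH ρ ε δ) (gw (u ++ [0])) = N at ih ⊢
    simp only [Matrix.mul_apply, Fin.sum_univ_two, Matrix.of_apply, Matrix.cons_val',
      Matrix.cons_val_zero, Matrix.cons_val_one, Matrix.cons_val_fin_one, one_mul, ih.2]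
    constructor
    · convert mul_ne_zero h2 ih.1 using 1
      ring
    · rw [div_mul_eq_mul_div, eq_div_iff h2]
      ring

lemma Par.ph_sub (h : Par q ρ ε δ) (g g' : ℕ) (u v : List ℕ) : ∃ U : K, ‖U - 1‖ < 1 ∧
    ph ρ ε δ (g :: u) - ph ρ ε δ (g' :: v) =
      (δ - ε) * ((ρ ^ g * ph ρ ε δ u - ρ ^ g' * ph ρ ε δ v) * U) := by
  have h1 := h.den h.hε' g (h.ph_near u)
  have h2 := h.den h.hε' g' (h.ph_near v)
  have h3 : 1 + ε * ρ ^ g * ph ρ ε δ u ≠ 0 := by
    intro e; rw [e] at h1; simp at h1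
  have h4 : 1 + ε * ρ ^ g' * ph ρ ε δ v ≠ 0 := by
    intro e; rw [e] at h2; simp at h2
  refine ⟨1 / ((1 + ε * ρ ^ g * ph ρ ε δ u) * (1 + ε * ρ ^ g' * ph ρ ε δ v)),
    near_div (by simp) (near_mul h1 h2), ?_⟩
  rw [ph, ph, div_sub_div _ _ h3 h4]
  generalize (1 + ε * ρ ^ g * ph ρ ε δ u) * (1 + ε * ρ ^ g' * ph ρ ε δ v) = D
  ring

lemma near_scale {κ η c U : K} (hκ : κ ≠ 0) (hU : ‖U - 1‖ < 1) (h : ‖η - c‖ < ‖c‖) :
    ‖κ * (η * U) - κ * c‖ < ‖κ * c‖ := by
  have hc : 0 < ‖c‖ := (norm_nonneg _).trans_lt h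
  have : η * U - c = (η - c) * U + c * (U - 1) := by ring
  rw [← mul_sub, norm_mul, norm_mul, this]
  refine mul_lt_mul_of_pos_left (nlt_add ?_ ?_) (norm_pos_iff.2 hκ)
  · rwa [norm_mul, neq_one hU, mul_one]
  · rw [norm_mul]
    exact mul_lt_of_lt_one_right hc hU

lemma small_scale {κ η c U : K} (hκ : κ ≠ 0) (hU : ‖U - 1‖ < 1) (h : ‖η‖ < ‖c‖) :
    ‖κ * (η * U)‖ < ‖κ * c‖ := by
  rw [norm_mul, norm_mul, norm_mul, neq_one hU, mul_one]
  exact mul_lt_mul_of_pos_left h (norm_pos_iff.2 hκ)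

lemma Par.sep (h : Par q ρ ε δ) (w u v : List ℕ) (hw : ∀ g ∈ w, g = 1 ∨ g = 2)
    (hu : ∀ g ∈ u, g = 1 ∨ g = 2) (hv : ∀ g ∈ v, g = 1 ∨ g = 2) (lu : u.length = w.length)
    (lv : v.length = w.length) (hne : ¬ (u = w ∧ v = w)) : ∃ c : K, ‖c‖ < 1 ∧
      (‖ph ρ ε δ u - ph ρ ε δ w - c‖ < ‖c‖ ∨ ‖ph ρ ε δ u - ph ρ ε δ w‖ < ‖c‖) ∧
      (‖ph ρ ε δ v - ph ρ ε δ w - c‖ < ‖c‖ ∨ ‖ph ρ ε δ v - ph ρ ε δ w‖ < ‖c‖) ∧
      (‖ph ρ ε δ u - ph ρ ε δ w - c‖ < ‖c‖ ∨ ‖ph ρ ε δ v - ph ρ ε δ w - c‖ < ‖c‖) := by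
  have q0 := h.q0
  have κ0 : δ - ε ≠ 0 := by
    rw [← norm_pos_iff, h.hδ]; positivity
  have ρ0 : ρ ≠ 0 := by
    rw [← norm_pos_iff, h.hρ]; positivity
  have ρ1 : ‖ρ‖ < 1 := h.lt h.hρ.le (by omega)
  have κ1 : ‖δ - ε‖ < 1 := h.lt h.hδ.le (by omega)
  induction w generalizing u v with
  | nil =>
    exfalso
    exact hne ⟨List.length_eq_zero_iff.1 lu, List.length_eq_zero_iff.1 lv⟩
  | cons g w ih =>
    obtain ⟨a, u, rfl⟩ := List.exists_cons_of_length_eq_add_one lu
    obtain ⟨b, v, rfl⟩ := List.exists_cons_of_length_eq_add_one lv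
    obtain ⟨U, hU, eU⟩ := h.ph_sub a g u w
    obtain ⟨V, hV, eV⟩ := h.ph_sub b g v w
    rw [eU, eV]
    by_cases hab : a = g ∧ b = g
    · obtain ⟨rfl, rfl⟩ := hab
      obtain ⟨c, c1, c2, c3, c4⟩ := ih u v (fun g hg => hw g (List.mem_cons_of_mem _ hg))
        (fun g hg => hu g (List.mem_cons_of_mem _ hg))
        (fun g hg => hv g (List.mem_cons_of_mem _ hg)) (by simpa using lu) (by simpa using lv)
        (by simpa using hne)
      have k0 : (δ - ε) * ρ ^ b ≠ 0 := mul_ne_zero κ0 (pow_ne_zero _ ρ0)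
      have r : ∀ s t Z : K, (δ - ε) * ((ρ ^ b * s - ρ ^ b * t) * Z) =
        (δ - ε) * ρ ^ b * ((s - t) * Z) := fun s t Z => by ring
      simp only [r]
      refine ⟨(δ - ε) * ρ ^ b * c, ?_, c2.imp (near_scale k0 hU) (small_scale k0 hU),
        c3.imp (near_scale k0 hV) (small_scale k0 hV),
        c4.imp (near_scale k0 hU) (near_scale k0 hV)⟩
      rw [norm_mul, norm_mul, norm_pow]
      exact mul_lt_one_of_nonneg_of_lt_one_right
        (mul_le_one₀ κ1.le (by positivity) (pow_le_one₀ (norm_nonneg _) ρ1.le)) (norm_nonneg _) c1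
    · have hg := hw g List.mem_cons_self
      have n0 : ‖ρ ^ (3 - g) - ρ ^ g‖ = ‖ρ‖ := by
        have : ‖ρ - ρ ^ 2‖ = ‖ρ‖ := by
          rw [sub_eq_add_neg]
          apply neq_add
          rw [norm_neg, norm_pow, sq]
          exact mul_lt_of_lt_one_right (norm_pos_iff.2 ρ0) ρ1
        rcases hg with rfl | rfl
        · rw [← norm_neg, ← this]; simp
        · rw [← this]; simp
      have n1 : ∀ (k : ℕ) (t : K), 1 ≤ k → ‖t‖ < 1 → ‖ρ ^ k * t‖ < ‖ρ‖ := by
        intro k t hk ht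
        rw [norm_mul]
        refine (mul_lt_of_lt_one_right (norm_pos_iff.2 (pow_ne_zero _ ρ0)) ht).trans_le ?_
        rw [h.hρ]
        exact h.pow 1 hk
      have near : ∀ (a : ℕ) (u : List ℕ), (a = 1 ∨ a = 2) → a ≠ g →
          ‖ρ ^ a * ph ρ ε δ u - ρ ^ g * ph ρ ε δ w - (ρ ^ (3 - g) - ρ ^ g)‖ <
            ‖ρ ^ (3 - g) - ρ ^ g‖ := by
        intro a u ha hag
        have : 3 - g = a := by omega
        rw [n0, this, show ρ ^ a * ph ρ ε δ u - ρ ^ g * ph ρ ε δ w - (ρ ^ a - ρ ^ g) =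
          ρ ^ a * (ph ρ ε δ u - 1) - ρ ^ g * (ph ρ ε δ w - 1) by ring]
        exact nlt_sub (n1 _ _ (by omega) (h.ph_near u)) (n1 _ _ (by omega) (h.ph_near w))
      have small : ∀ u : List ℕ,
          ‖ρ ^ g * ph ρ ε δ u - ρ ^ g * ph ρ ε δ w‖ < ‖ρ ^ (3 - g) - ρ ^ g‖ := by
        intro u
        rw [n0, ← mul_sub]
        refine n1 _ _ (by omega) ?_
        rw [show ph ρ ε δ u - ph ρ ε δ w = (ph ρ ε δ u - 1) - (ph ρ ε δ w - 1) by ring]
        exact nlt_sub (h.ph_near u) (h.ph_near w)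
      have ha := hu a List.mem_cons_self
      have hb := hv b List.mem_cons_self
      refine ⟨(δ - ε) * (ρ ^ (3 - g) - ρ ^ g), ?_, ?_, ?_, ?_⟩
      · rw [norm_mul, n0]
        exact mul_lt_one_of_nonneg_of_lt_one_right κ1.le (norm_nonneg _) ρ1
      · by_cases e : a = g
        · subst e; exact Or.inr (small_scale κ0 hU (small u))
        · exact Or.inl (near_scale κ0 hU (near a u ha e))
      · by_cases e : b = g
        · subst e; exact Or.inr (small_scale κ0 hV (small v))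
        · exact Or.inl (near_scale κ0 hV (near b v hb e))
      · by_cases e : a = g
        · exact Or.inr (near_scale κ0 hV (near b v hb fun e' => hab ⟨e, e'⟩))
        · exact Or.inl (near_scale κ0 hU (near a u ha e))

lemma Par.eq_of_sq (h : Par q ρ ε δ) (w u v : List ℕ) (hw : ∀ g ∈ w, g = 1 ∨ g = 2)
    (hu : ∀ g ∈ u, g = 1 ∨ g = 2) (hv : ∀ g ∈ v, g = 1 ∨ g = 2) (lu : u.length = w.length)
    (lv : v.length = w.length) (he : ph ρ ε δ u * ph ρ ε δ v = ph ρ ε δ w ^ 2) : u = w := by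
  by_contra hne
  obtain ⟨c, c1, c2, c3, c4⟩ := h.sep w u v hw hu hv lu lv fun e => hne e.1
  have nw := neq_one (h.ph_near w)
  generalize ph ρ ε δ u = a at *
  generalize ph ρ ε δ v = b at *
  generalize ph ρ ε δ w = t at *
  have c0 : 0 < ‖c‖ := by
    rcases c4 with c4 | c4 <;> exact (norm_nonneg _).trans_lt c4
  have l1 : ‖a - t‖ ≤ ‖c‖ := c2.elim (fun e => (neq_of_sub e).le) le_of_lt
  have l2 : ‖b - t‖ ≤ ‖c‖ := c3.elim (fun e => (neq_of_sub e).le) le_of_lt
  have l3 : ‖(a - t) + (b - t)‖ = ‖c‖ := by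
    rcases c2 with c2 | c2 <;> rcases c3 with c3 | c3
    · have h2 : ‖2 * c‖ = ‖c‖ := by rw [norm_mul, h.two, one_mul]
      rw [← h2]
      apply neq_of_sub
      rw [h2, show a - t + (b - t) - 2 * c = (a - t - c) + (b - t - c) by ring]
      exact nlt_add c2 c3
    · apply neq_of_sub
      rw [add_sub_right_comm]
      exact nlt_add c2 c3
    · apply neq_of_sub
      rw [add_sub_assoc]
      exact nlt_add c2 c3
    · rcases c4 with c4 | c4
      · exact absurd (neq_of_sub c4) c2.ne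
      · exact absurd (neq_of_sub c4) c3.ne
  have l4 : t * ((a - t) + (b - t)) = -((a - t) * (b - t)) := by linear_combination he
  have l5 := congrArg norm l4
  rw [norm_mul, nw, one_mul, l3, norm_neg] at l5
  have l6 := nle_mul l1 l2
  nlinarith

lemma Par.decode (h : Par q ρ ε δ) (w u : List ℕ) (hw : ∀ g ∈ w, g = 1 ∨ g = 2)
    (hu : ∀ g ∈ u, g = 1 ∨ g = 2) (lu : u.length = w.length) (su : u.sum = w.sum)
    (hp : w.reverse = w)
    (t0 : (mat (TH ρ ε δ) (gw (u ++ [0]))).trace = (mat (TH ρ ε δ) (gw (w ++ [0]))).trace)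
    (t1 : (mat (TH ρ ε δ) (gw (u ++ [1]))).trace = (mat (TH ρ ε δ) (gw (w ++ [1]))).trace) :
    u = w := by
  have q0 := h.q0
  have e1 : ∀ l : List ℕ, mat (TH ρ ε δ) (gw (l ++ [1])) =
      mat (TH ρ ε δ) (gw (l ++ [0])) * TH ρ ε δ false := by
    intro l
    simp only [gw_append, mat_append, mat_gw_cons, gw_nil, mat_nil, mul_one, pow_one, pow_zero,
      mul_assoc]
  have d : (mat (TH ρ ε δ) (gw (u ++ [0]))).det = (mat (TH ρ ε δ) (gw (w ++ [0]))).det := by
    simp [det_gw, lu, su]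
  have s1 := TH_symm ρ ε δ (gw (u.reverse ++ [0]))
  have s2 := TH_symm ρ ε δ (gw (w ++ [0]))
  rw [gw_reverse, List.reverse_reverse] at s1
  rw [gw_reverse, hp] at s2
  obtain ⟨a1, a2⟩ := h.ph_mat u
  obtain ⟨_, b2⟩ := h.ph_mat u.reverse
  obtain ⟨_, c2⟩ := h.ph_mat w
  rw [e1, e1] at t1
  refine h.eq_of_sq w u u.reverse hw hu (by simpa using hu) lu (by simpa using lu) ?_
  generalize mat (TH ρ ε δ) (gw (u ++ [0])) = M at *
  generalize mat (TH ρ ε δ) (gw (u.reverse ++ [0])) = M' at *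
  generalize mat (TH ρ ε δ) (gw (w ++ [0])) = N at *
  have s10 := congrFun (congrFun s1 0) 0
  have s11 := congrFun (congrFun s1 0) 1
  have s21 := congrFun (congrFun s2 0) 1
  simp [Matrix.mul_apply, Fin.sum_univ_two] at s10 s11 s21
  simp [Matrix.trace_fin_two, Matrix.mul_apply, Fin.sum_univ_two, TH] at t0 t1
  rw [Matrix.det_fin_two, Matrix.det_fin_two] at d
  have ρ1 : 1 - ρ ≠ 0 := by
    intro e
    have := h.lt h.hρ.le (by omega)
    rw [show ρ = 1 by linear_combination -e] at this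
    simp at this
  have ε0 : ε ≠ 0 := by
    rw [← norm_pos_iff, h.hε]; positivity
  have f1 : M 1 1 = N 1 1 := mul_left_cancel₀ ρ1 (by linear_combination t0 - t1)
  have f0 : M 0 0 = N 0 0 := by linear_combination t0 - f1
  have f2 : M 0 1 * M 1 0 = N 0 1 * N 1 0 := by
    rw [f0, f1] at d
    linear_combination -d
  rw [← s11, ← s21, a2, b2, c2, s10, ← f0] at f2
  apply mul_left_cancel₀ (mul_ne_zero ε0 (pow_ne_zero 2 a1))
  linear_combination f2

end Pool.Agent.Lib.MP_f7f352_co.U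
end

-- part Pool.Agent.Lib.MP_f7f352_co.UDecode
section

set_option autoImplicit false

namespace Pool.Agent.Lib.MP_f7f352_co.U

open Finset Polynomial

section conj
variable {K : Type} [Field K]

lemma trace_conj (T T' : Bool → Matrix (Fin 2) (Fin 2) K) (P : Matrix (Fin 2) (Fin 2) K)
    (c : Bool → K) (hP : P.det ≠ 0) (h : ∀ b, T b * P = c b • (P * T' b)) (w : List Bool) :
    (mat T w).trace = (w.map c).prod * (mat T' w).trace := by
  have h1 : mat T w * P = (w.map c).prod • (P * mat T' w) := by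
    induction w with
    | nil => simp [mat]
    | cons b w ih =>
      have e1 : mat T (b :: w) = T b * mat T w := by simp [mat]
      have e2 : mat T' (b :: w) = T' b * mat T' w := by simp [mat]
      rw [e1, e2, mul_assoc, ih, Matrix.mul_smul, ← mul_assoc, h, Matrix.smul_mul, smul_smul,
        List.map_cons, List.prod_cons, mul_comm (c b), mul_assoc]
  have h2 : mat T w = (w.map c).prod • (P * mat T' w * P⁻¹) := by
    rw [← Matrix.smul_mul, ← h1, mul_assoc, Matrix.mul_nonsing_inv _ (Ne.isUnit hP), mul_one]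
  rw [h2, Matrix.trace_smul, Matrix.trace_mul_cycle, Matrix.nonsing_inv_mul _ (Ne.isUnit hP),
    one_mul, smul_eq_mul]

lemma prod_gw (c : Bool → K) (gs : List ℕ) :
    ((gw gs).map c).prod = c true ^ gs.length * c false ^ gs.sum := by
  induction gs with
  | nil => simp [gw_nil]
  | cons g gs ih =>
    simp only [gw_cons, List.map_cons, List.prod_cons, List.map_append, List.prod_append, ih,
      List.map_replicate, List.prod_replicate, List.length_cons, List.sum_cons]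
    ring

lemma conj_TT (y z x κ a t ρ ε δ : K) (h1 : y + z = 1 + x) (h2 : y * z = -x)
    (hκ : κ * (y - z) = x * (x + 2)) (ha : a = y ^ 3 + κ * y) (ht : a * t = -κ * y)
    (hε : a * ε = t * κ * z) (hδ : a * δ = z ^ 3 - κ * z) (hρ : y ^ 2 * ρ = z ^ 2) (b : Bool) :
    TT x b * !![y, t * z; 1, t] =
      (if b then a else y ^ 2) • (!![y, t * z; 1, t] * TH ρ ε δ b) := by
  have y2 : y ^ 2 = (1 + x) * y + x := by linear_combination y * h1 - h2
  have z2 : z ^ 2 = (1 + x) * z + x := by linear_combination z * h1 - h2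
  have y3 : y ^ 3 = (1 + 3 * x + x ^ 2) * y + (x + x ^ 2) := by
    linear_combination (y + 1 + x) * y2
  have z3 : z ^ 3 = (1 + 3 * x + x ^ 2) * z + (x + x ^ 2) := by
    linear_combination (z + 1 + x) * z2
  have y4 : y ^ 4 = (1 + 5 * x + 5 * x ^ 2 + x ^ 3) * y + (x + 3 * x ^ 2 + x ^ 3) := by
    linear_combination y * y3 + (1 + 3 * x + x ^ 2) * y2
  have z4 : z ^ 4 = (1 + 5 * x + 5 * x ^ 2 + x ^ 3) * z + (x + 3 * x ^ 2 + x ^ 3) := by
    linear_combination z * z3 + (1 + 3 * x + x ^ 2) * z2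
  ext i j
  cases b <;> fin_cases i <;> fin_cases j <;>
    simp [TT, TH, Matrix.mul_apply, Fin.sum_univ_two]
  · linear_combination -y3
  · linear_combination -t * z3 - t * z * hρ
  · linear_combination -y2
  · linear_combination -t * z2 - t * hρ
  · linear_combination -y4 - y * ha - z * ht - y * hκ
  · linear_combination -t * z4 - y * hε - t * z * hδ - t * z * hκ
  · linear_combination -y3 - ha - ht
  · linear_combination -t * z3 - hε - t * hδ

end conj

lemma exists_par (p : ℕ) [Fact p.Prime] (hp : 2 < p) :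
    ∃ (x ρ ε δ : ℚ_[p]) (c : Bool → ℚ_[p]), x ≠ 0 ∧ Par (p : ℝ)⁻¹ ρ ε δ ∧ (∀ b, c b ≠ 0) ∧
      ∀ w, (mat (TT x) w).trace = (w.map c).prod * (mat (TH ρ ε δ) w).trace := by
  have hs : ‖(p : ℚ_[p])‖ = (p : ℝ)⁻¹ := Padic.norm_p
  have hp' : (2 : ℝ) < p := by exact_mod_cast hp
  have q0 : (0 : ℝ) < (p : ℝ)⁻¹ := by positivity
  have q1 : (p : ℝ)⁻¹ < 1 := inv_lt_one_of_one_lt₀ (by linarith)
  have n2 : ‖(2 : ℚ_[p])‖ = 1 := by
    have := (Padic.norm_natCast_eq_one_iff (p := p) (n := 2)).2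
      ((Nat.coprime_primes Fact.out Nat.prime_two).2 (by omega))
    simpa using this
  generalize (p : ℝ)⁻¹ = q at *
  generalize (p : ℚ_[p]) = s at hs
  have ne0 : ∀ {u : ℚ_[p]} {r : ℝ}, ‖u‖ = r → 0 < r → u ≠ 0 := fun h hr => by
    rw [← norm_pos_iff, h]; exact hr
  have m1 : ‖(1 - s) - 1‖ < 1 := by simpa [hs] using q1
  have m2 : ‖(1 + s) - 1‖ < 1 := by simpa [hs] using q1
  have s1 : 1 - s ≠ 0 := ne0 (neq_one m1) one_pos
  set y := (1 + s) / (1 - s) with hy
  have my : ‖y - 1‖ < 1 := near_div m2 m1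
  have ny := neq_one my
  have y0 : y ≠ 0 := ne0 ny one_pos
  have nx : ‖s * y‖ = q := by rw [norm_mul, hs, ny, mul_one]
  have nys : ‖y + s‖ = 1 := by rw [neq_add (by rw [hs, ny]; exact q1), ny]
  have ys0 : y + s ≠ 0 := ne0 nys one_pos
  set κ := s * y * (s * y + 2) / (y + s) with hκ
  have nκ : ‖κ‖ = q := by
    rw [hκ, norm_div, norm_mul, nys, nx, add_comm, neq_add (by rw [nx, n2]; exact q1), n2]
    simp
  set a := y ^ 3 + κ * y with ha
  have na : ‖a‖ = 1 := by
    rw [ha, neq_add (by rw [norm_mul, norm_pow, nκ, ny]; simpa using q1), norm_pow, ny, one_pow]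
  have a0 : a ≠ 0 := ne0 na one_pos
  refine ⟨s * y, s ^ 2 / y ^ 2, -κ * y / a * κ * (-s) / a, ((-s) ^ 3 - κ * (-s)) / a,
    fun b => if b then a else y ^ 2, ne0 nx q0, ⟨q0, q1, ?_, ?_, ?_, n2⟩, ?_, ?_⟩
  · rw [norm_div, norm_pow, norm_pow, hs, ny]; simp
  · simp only [norm_div, norm_mul, norm_neg, nκ, ny, na, hs]; ring
  · have : ((-s) ^ 3 - κ * (-s)) / a - -κ * y / a * κ * (-s) / a =
        (κ * y ^ 3 * s + -(s ^ 3 * a)) / a ^ 2 := by
      field_simp
      rw [ha]; ring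
    have e1 : ‖κ * y ^ 3 * s‖ = q ^ 2 := by
      simp only [norm_mul, norm_pow, nκ, ny, hs]; ring
    rw [this, norm_div, norm_pow, na, neq_add, e1]
    · simp
    · rw [e1, norm_neg, norm_mul, norm_pow, hs, na, mul_one]
      exact pow_lt_pow_right_of_lt_one₀ q0 q1 (by omega)
  · intro b
    cases b
    · exact pow_ne_zero _ y0
    · exact a0
  · intro w
    have κ0 : κ ≠ 0 := ne0 nκ q0
    refine trace_conj _ _ !![y, -κ * y / a * (-s); 1, -κ * y / a] _ ?_
      (conj_TT y (-s) (s * y) κ a (-κ * y / a) _ _ _ ?_ (by ring) ?_ ha ?_ ?_ ?_ ?_) w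
    · rw [Matrix.det_fin_two_of, show y * (-κ * y / a) - -κ * y / a * (-s) * 1 =
        -κ * y / a * (y - s + 2 * s) by ring, show y - s + 2 * s = y + s by ring]
      exact mul_ne_zero (div_ne_zero (mul_ne_zero (neg_ne_zero.2 κ0) y0) a0) ys0
    · rw [hy]; field_simp; ring
    · rw [sub_neg_eq_add, hκ]; field_simp
    · field_simp
    · field_simp
    · field_simp
    · field_simp

/-- Chebyshev type polynomials of the small matrix -/
noncomputable def SS : ℕ → ℤ[X]
  | 0 => 0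
  | 1 => 1
  | k + 2 => (X ^ 2 + 4 * X + 1) * SS (k + 1) - X ^ 2 * SS k

lemma SS_monic (k : ℕ) : (SS (k + 1)).Monic ∧ (SS (k + 1)).natDegree = 2 * k ∧
    (SS k).natDegree ≤ 2 * k - 2 := by
  induction k with
  | zero => simp [SS]
  | succ k ih =>
    obtain ⟨i1, i2, i3⟩ := ih
    have m1 : (X ^ 2 + 4 * X + 1 : ℤ[X]).Monic := by monicity!
    have m2 : (X ^ 2 + 4 * X + 1 : ℤ[X]).natDegree = 2 := by compute_degree!
    have m3 : ((X ^ 2 + 4 * X + 1) * SS (k + 1)).natDegree = 2 + 2 * k := by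
      rw [m1.natDegree_mul i1, m2, i2]
    have m4 : (X ^ 2 * SS k : ℤ[X]).natDegree < ((X ^ 2 + 4 * X + 1) * SS (k + 1)).natDegree := by
      rw [m3]
      cases k with
      | zero => simp [SS]
      | succ k =>
        refine natDegree_mul_le.trans_lt ?_
        rw [natDegree_X_pow]
        omega
    refine ⟨?_, ?_, by omega⟩
    · rw [SS]
      exact (m1.mul i1).sub_of_left (degree_lt_degree m4)
    · rw [SS, natDegree_sub_eq_left_of_natDegree_lt m4, m3]
      ring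

lemma SS_coprime (k : ℕ) : IsCoprime (SS (k + 1)) X ∧ IsCoprime (SS (k + 1)) (SS k) := by
  have h0 : ∀ k, ∃ t, SS (k + 1) = 1 + X * t := by
    intro k
    induction k with
    | zero => exact ⟨0, by simp [SS]⟩
    | succ k ih =>
      obtain ⟨t, ht⟩ := ih
      exact ⟨(X + 4) * SS (k + 1) + t - X * SS k, by rw [SS]; linear_combination ht⟩
  have h1 : ∀ k, IsCoprime (SS (k + 1)) X := by
    intro k
    obtain ⟨t, ht⟩ := h0 k
    exact ⟨1, -t, by rw [ht]; ring⟩
  refine ⟨h1 k, ?_⟩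
  induction k with
  | zero => simp [SS, isCoprime_one_left]
  | succ k ih =>
    have h2 : IsCoprime (SS (k + 1)) (-(X ^ 2 * SS k)) :=
      (((h1 k).pow_right).mul_right ih).neg_right
    have h3 := h2.symm.mul_add_right_left (X ^ 2 + 4 * X + 1)
    rw [SS]
    exact h3

lemma TT_pow (k : ℕ) : TT (X : ℤ[X]) false ^ (k + 1) =
    SS (k + 1) • TT X false - (X ^ 2 * SS k) • (1 : Matrix (Fin 2) (Fin 2) ℤ[X]) := by
  have h : TT (X : ℤ[X]) false * TT X false =
      (X ^ 2 + 4 * X + 1 : ℤ[X]) • TT X false - (X ^ 2 : ℤ[X]) • 1 := by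
    refine Matrix.ext fun i j => ?_
    fin_cases i <;> fin_cases j <;> simp [TT, Matrix.mul_apply, Fin.sum_univ_two] <;> ring
  induction k with
  | zero => simp [SS]
  | succ k ih =>
    rw [pow_succ, ih, sub_mul, Matrix.smul_mul, Matrix.smul_mul, h, SS, one_mul]
    module

lemma mat_deg (w : List Bool) (i j : Fin 2) :
    (mat (TT (X : ℤ[X])) w i j).natDegree ≤ (w.map fun b => 2 + b.toNat).sum := by
  induction w generalizing i j with
  | nil =>
    rw [mat_nil, Matrix.one_apply]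
    split_ifs <;> simp
  | cons b w ih =>
    have e1 : mat (TT (X : ℤ[X])) (b :: w) = TT X b * mat (TT X) w := by simp [mat]
    have e2 : ∀ i j, (TT (X : ℤ[X]) b i j).natDegree ≤ 2 + b.toNat := by
      intro i j
      cases b <;> fin_cases i <;> fin_cases j <;> simp [TT] <;> compute_degree!
    rw [e1, Matrix.mul_apply, Fin.sum_univ_two, List.map_cons, List.sum_cons]
    exact natDegree_add_le_of_degree_le (natDegree_mul_le.trans (add_le_add (e2 _ _) (ih _ _)))
      (natDegree_mul_le.trans (add_le_add (e2 _ _) (ih _ _)))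

lemma sum_gw (gs : List ℕ) :
    ((gw gs).map fun b => 2 + b.toNat).sum = 3 * gs.length + 2 * gs.sum := by
  induction gs with
  | nil => simp [gw_nil]
  | cons g gs ih =>
    simp only [gw_cons, List.map_cons, List.sum_cons, List.map_append, List.sum_append, ih,
      List.map_replicate, List.sum_replicate, List.length_cons]
    simp
    ring

lemma poly_step (u w : List ℕ) (D : ℕ) (lu : u.length = w.length) (su : u.sum = w.sum)
    (hD : 3 * (w.length + 1) + 2 * w.sum < 2 * D)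
    (h : (mat (TT (X : ℤ[X])) (gw (u ++ [D + 1]))).trace =
      (mat (TT (X : ℤ[X])) (gw (w ++ [D + 1]))).trace) :
    (mat (TT (X : ℤ[X])) (gw (u ++ [0]))).trace = (mat (TT (X : ℤ[X])) (gw (w ++ [0]))).trace ∧
    (mat (TT (X : ℤ[X])) (gw (u ++ [1]))).trace = (mat (TT (X : ℤ[X])) (gw (w ++ [1]))).trace := by
  have e1 : ∀ (l : List ℕ) (k : ℕ), mat (TT (X : ℤ[X])) (gw (l ++ [k])) =
      mat (TT X) (gw (l ++ [0])) * TT X false ^ k := by
    intro l k
    simp only [gw_append, mat_append, mat_gw_cons, gw_nil, mat_nil, mul_one, pow_zero, mul_assoc]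
  have e2 : ∀ l : List ℕ, (mat (TT (X : ℤ[X])) (gw (l ++ [D + 1]))).trace =
      SS (D + 1) * (mat (TT X) (gw (l ++ [1]))).trace -
        X ^ 2 * SS D * (mat (TT X) (gw (l ++ [0]))).trace := by
    intro l
    rw [e1 l (D + 1), e1 l 1, TT_pow, mul_sub, Matrix.mul_smul, Matrix.mul_smul, Matrix.trace_sub,
      Matrix.trace_smul, Matrix.trace_smul, pow_one, mul_one, smul_eq_mul, smul_eq_mul]
  have e3 : ∀ l : List ℕ, (mat (TT (X : ℤ[X])) (gw (l ++ [0]))).trace.natDegree ≤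
      3 * (l.length + 1) + 2 * l.sum := by
    intro l
    have := sum_gw (l ++ [0])
    simp only [List.length_append, List.length_singleton, List.sum_append, List.sum_singleton,
      add_zero] at this
    rw [Matrix.trace_fin_two, ← this]
    exact natDegree_add_le_of_degree_le (mat_deg _ _ _) (mat_deg _ _ _)
  rw [e2, e2] at h
  have d1 := e3 u
  have d2 := e3 w
  rw [lu, su] at d1
  generalize (mat (TT (X : ℤ[X])) (gw (u ++ [0]))).trace = a0 at *
  generalize (mat (TT (X : ℤ[X])) (gw (w ++ [0]))).trace = b0 at *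
  generalize (mat (TT (X : ℤ[X])) (gw (u ++ [1]))).trace = a1 at *
  generalize (mat (TT (X : ℤ[X])) (gw (w ++ [1]))).trace = b1 at *
  have c1 : IsCoprime (SS (D + 1)) (X ^ 2 * SS D) :=
    ((SS_coprime D).1.pow_right).mul_right (SS_coprime D).2
  have c2 : SS (D + 1) ∣ a0 - b0 :=
    c1.dvd_of_dvd_mul_left ⟨a1 - b1, by linear_combination -h⟩
  have c3 : a0 - b0 = 0 := by
    refine eq_zero_of_dvd_of_natDegree_lt c2 ?_
    rw [(SS_monic D).2.1]
    exact (natDegree_sub_le_of_le d1 d2).trans_lt (by omega)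
  have c4 : SS (D + 1) * (a1 - b1) = 0 := by linear_combination h + X ^ 2 * SS D * c3
  exact ⟨sub_eq_zero.1 c3, sub_eq_zero.1 ((mul_eq_zero.1 c4).resolve_left (SS_monic D).1.ne_zero)⟩

lemma trace_map {R S : Type} [CommRing R] [CommRing S] (φ : R →+* S) (x : R) (w : List Bool) :
    (mat (TT (φ x)) w).trace = φ (mat (TT x) w).trace := by
  have h1 : ∀ b, TT (φ x) b = φ.mapMatrix (TT x b) := by
    intro b
    ext i j
    cases b <;> fin_cases i <;> fin_cases j <;> simp [TT, map_ofNat]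
  have h2 : mat (TT (φ x)) w = φ.mapMatrix (mat (TT x) w) := by
    rw [mat, mat, map_list_prod, List.map_map]
    congr 1
    exact List.map_congr_left fun b _ => h1 b
  rw [h2, Matrix.trace_fin_two, Matrix.trace_fin_two]
  simp

lemma sum_count (l : List ℕ) (h : ∀ g ∈ l, g = 1 ∨ g = 2) :
    l.sum = l.count 1 + 2 * l.count 2 ∧ l.length = l.count 1 + l.count 2 := by
  induction l with
  | nil => simp
  | cons g l ih =>
    obtain ⟨i1, i2⟩ := ih fun g hg => h g (List.mem_cons_of_mem _ hg)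
    rcases h g List.mem_cons_self with rfl | rfl <;> simp [i1, i2] <;> omega

lemma count_le (l : List ℕ) : l.count 1 + l.count 2 ≤ l.length ∧
    (l.count 1 + l.count 2 = l.length → ∀ g ∈ l, g = 1 ∨ g = 2) := by
  induction l with
  | nil => simp
  | cons g l ih =>
    obtain ⟨i1, i2⟩ := ih
    by_cases h1 : g = 1
    · subst h1
      simp only [List.count_cons_self, List.length_cons, List.mem_cons, forall_eq_or_imp, true_or,
        true_and]
      rw [List.count_cons_of_ne (by omega)]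
      exact ⟨by omega, fun h => i2 (by omega)⟩
    · by_cases h2 : g = 2
      · subst h2
        simp only [List.count_cons_self, List.length_cons, List.mem_cons, forall_eq_or_imp,
          or_true, true_and]
        rw [List.count_cons_of_ne (by omega)]
        exact ⟨by omega, fun h => i2 (by omega)⟩
      · rw [List.count_cons_of_ne h1, List.count_cons_of_ne h2, List.length_cons]
        exact ⟨by omega, fun h => by omega⟩

theorem decode (w gs : List ℕ) (D : ℕ) (hw : ∀ g ∈ w, g = 1 ∨ g = 2) (hp : w.reverse = w)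
    (hw1 : 1 ≤ w.length) (hD : 3 * (w.length + 1) + 2 * w.sum < 2 * D) (hgs : ∀ g ∈ gs, 1 ≤ g)
    (hlen : gs.length = w.length + 1) (hsum : gs.sum = w.sum + (D + 1))
    (h : (mat (TT (X : ℤ[X])) (gw gs)).trace = (mat (TT (X : ℤ[X])) (gw (w ++ [D + 1]))).trace) :
    ∃ a b, gs = a ++ b ∧ b ++ a = w ++ [D + 1] := by
  obtain ⟨p, hp1, hp2⟩ := Nat.exists_infinite_primes (w.length + 3)
  haveI := Fact.mk hp2
  obtain ⟨x, ρ, ε, δ, c, _, hpar, hc, htr⟩ := exists_par p (by omega)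
  have trans : ∀ l l' : List ℕ, l.length = l'.length → l.sum = l'.sum →
      (mat (TT (X : ℤ[X])) (gw l)).trace = (mat (TT (X : ℤ[X])) (gw l')).trace →
      (mat (TH ρ ε δ) (gw l)).trace = (mat (TH ρ ε δ) (gw l')).trace := by
    intro l l' h1 h2 h3
    have h4 := congrArg (eval₂RingHom (Int.castRingHom ℚ_[p]) x) h3
    rw [← trace_map, ← trace_map, coe_eval₂RingHom, eval₂_X, htr, htr, prod_gw, prod_gw, h1,
      h2] at h4
    exact mul_left_cancel₀ (mul_ne_zero (pow_ne_zero _ (hc _)) (pow_ne_zero _ (hc _))) h4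
  have hint : ∀ m n : ℕ, m ≤ w.length + 1 → n ≤ w.length + 1 → ‖(m : ℚ_[p]) - n‖ < 1 → m = n := by
    intro m n hm hn hlt
    have h1 : (p : ℤ) ∣ (m : ℤ) - n := by
      rw [← Padic.norm_intCast_lt_one_iff]
      simpa using hlt
    have := Int.eq_zero_of_abs_lt_dvd h1 (abs_lt.2 ⟨by omega, by omega⟩)
    omega
  obtain ⟨c1, c2⟩ := hpar.counts (w.length + 1) hint gs (w ++ [D + 1]) hgs
    (fun g hg => by
      rcases List.mem_append.1 hg with hg | hg
      · rcases hw g hg with rfl | rfl <;> omega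
      · simp at hg; omega) (by omega) hlen (by simp)
    (trans _ _ (by simp [hlen]) (by simp [hsum]) h)
  rw [List.count_append, List.count_cons_of_ne (by omega), List.count_nil, add_zero] at c1 c2
  obtain ⟨w1, w2⟩ := sum_count w hw
  obtain ⟨z, hz, hz'⟩ : ∃ z ∈ gs, ¬ (z = 1 ∨ z = 2) := by
    by_contra hno
    push Not at hno
    have := (sum_count gs fun g hg => by have := hno g hg; tauto).2
    omega
  obtain ⟨a, b, rfl⟩ := List.append_of_mem hz
  rw [List.count_append, List.count_cons_of_ne (by omega)] at c1 c2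
  simp only [List.length_append, List.length_cons, List.sum_append, List.sum_cons] at hlen hsum
  have hu : ∀ g ∈ b ++ a, g = 1 ∨ g = 2 := by
    apply (count_le (b ++ a)).2
    simp only [List.count_append, List.length_append]
    omega
  obtain ⟨u1, _⟩ := sum_count _ hu
  simp only [List.count_append, List.sum_append] at u1
  have hzD : z = D + 1 := by omega
  subst hzD
  have lu : (b ++ a).length = w.length := by simp only [List.length_append]; omega
  have su : (b ++ a).sum = w.sum := by simp only [List.sum_append]; omega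
  have h1 : (mat (TT (X : ℤ[X])) (gw (a ++ (D + 1) :: b))).trace =
      (mat (TT (X : ℤ[X])) (gw (b ++ a ++ [D + 1]))).trace := by
    rw [show a ++ (D + 1) :: b = (a ++ [D + 1]) ++ b by simp, gw_append, mat_append,
      Matrix.trace_mul_comm, ← mat_append, ← gw_append, List.append_assoc]
  obtain ⟨t0, t1⟩ := poly_step (b ++ a) w D lu su hD (h1 ▸ h)
  have := hpar.decode w (b ++ a) hw hu lu su hp
    (trans _ _ (by rw [List.length_append, lu]; simp) (by rw [List.sum_append, su]; simp) t0)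
    (trans _ _ (by rw [List.length_append, lu]; simp) (by rw [List.sum_append, su]; simp) t1)
  exact ⟨a ++ [D + 1], b, by simp, by rw [← List.append_assoc, this]⟩

end Pool.Agent.Lib.MP_f7f352_co.U
end

-- part Pool.Agent.Lib.MP_f7f352_co.UMain
section

set_option autoImplicit false

namespace Pool.Agent.Lib.MP_f7f352_co.U

open Finset Equiv

lemma length_gw (gs : List ℕ) : (gw gs).length = gs.length + gs.sum := by
  induction gs with
  | nil => simp [gw_nil]
  | cons g gs ih => simp [gw_cons, ih]; ring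

lemma count_gw (gs : List ℕ) : ((gw gs).map Bool.toNat).sum = gs.length := by
  induction gs with
  | nil => simp [gw_nil]
  | cons g gs ih => simp [gw_cons, ih]; ring

lemma exists_gw (l : List Bool) : ∃ g gs, l = List.replicate g false ++ gw gs := by
  induction l with
  | nil => exact ⟨0, [], rfl⟩
  | cons b l ih =>
    obtain ⟨g, gs, rfl⟩ := ih
    cases b
    · exact ⟨g + 1, gs, by simp [List.replicate_succ]⟩
    · exact ⟨0, g :: gs, by simp [gw_cons]⟩

lemma gw_next (gs : List ℕ) (h : ∀ g ∈ gs, 1 ≤ g) (k : ℕ) (hk : (gw gs)[k]? = some true) :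
    (gw gs)[k + 1]? = some false := by
  induction gs generalizing k with
  | nil => simp [gw_nil] at hk
  | cons g gs ih =>
    have hg := h g List.mem_cons_self
    rw [gw_cons] at hk ⊢
    cases k with
    | zero =>
      rw [List.getElem?_cons_succ, List.getElem?_append_left (by simp; omega)]
      simp [List.getElem?_replicate]
      omega
    | succ k =>
      rw [List.getElem?_cons_succ] at hk ⊢
      rcases Nat.lt_or_ge k g with h1 | h1
      · rw [List.getElem?_append_left (by simpa using h1)] at hk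
        simp [List.getElem?_replicate] at hk
      · rw [List.getElem?_append_right (by simpa using h1)] at hk
        rw [List.getElem?_append_right (by simp; omega)]
        simp only [List.length_replicate] at hk ⊢
        rw [show k + 1 - g = k - g + 1 by omega]
        exact ih (fun g hg => h g (List.mem_cons_of_mem _ hg)) _ hk

variable {ι : Type} [Fintype ι] [DecidableEq ι]

lemma word_get (σ : Perm ι) (lab : ι → Bool) (i0 : ι) (k : ℕ) (b : Bool) :
    (word σ lab i0)[k]? = some b ↔ k < Fintype.card ι ∧ lab ((σ ^ k) i0) = b := by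
  rw [word, List.getElem?_map]
  by_cases h : k < Fintype.card ι
  · simp [h]
  · simp [h]

lemma nobb_of_word {σ : Perm ι} (hσ : ∀ i j, σ.SameCycle i j) {lab : ι → Bool} {i0 : ι}
    {gs : List ℕ} (h : word σ lab i0 = gw gs) (hg : ∀ g ∈ gs, 1 ≤ g) (i : ι) (hi : lab i = true) :
    lab (σ i) = false := by
  obtain ⟨k, hk, rfl⟩ := (cycOn hσ).exists_pow_eq (mem_univ i0) (mem_univ i)
  rw [card_univ] at hk
  have := gw_next gs hg k (by rw [← h, word_get]; exact ⟨hk, hi⟩)
  rw [← h, word_get, pow_succ', Perm.mul_apply] at this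
  exact this.2

lemma word_swap {σ : Perm ι} (hσ : ∀ i j, σ.SameCycle i j) {lab : ι → Bool} {i0 : ι}
    {a b : List ℕ} (h : word σ lab i0 = gw (a ++ b)) : ∃ i1, word σ lab i1 = gw (b ++ a) :=
  ⟨(σ ^ (gw a).length) i0, by
    rw [word_rotate hσ, h, gw_append, List.rotate_append_length_eq, gw_append]⟩

lemma exists_gaps {σ : Perm ι} (hσ : ∀ i j, σ.SameCycle i j) {lab : ι → Bool}
    (hl : ∀ i, lab i = true → lab (σ i) = false) (h2 : 2 ≤ nb lab) :
    ∃ i0 gs, word σ lab i0 = gw gs ∧ (∀ g ∈ gs, 1 ≤ g) ∧ gs.length = nb lab ∧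
      gs.length + gs.sum = Fintype.card ι := by
  obtain ⟨i0, hi0⟩ : ∃ i, lab i = true := by
    by_contra hno
    push Not at hno
    have : nb lab = 0 := sum_eq_zero fun i _ => by simp [eq_false_of_ne_true (hno i)]
    omega
  obtain ⟨g, gs, h⟩ := exists_gw (word σ lab i0)
  have h0 : (word σ lab i0)[0]? = some true := by
    rw [word_get]
    exact ⟨Fintype.card_pos_iff.2 ⟨i0⟩, by simpa using hi0⟩
  have hg : g = 0 := by
    cases g with
    | zero => rfl
    | succ g => rw [h] at h0; simp [List.replicate_succ] at h0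
  subst hg
  simp only [List.replicate_zero, List.nil_append] at h
  have hlen : gs.length = nb lab := by rw [← word_count hσ lab i0, h, count_gw]
  refine ⟨i0, gs, h, fun g hg => ?_, hlen, by rw [← length_gw, ← h]; simp [word]⟩
  by_contra hlt
  obtain rfl : g = 0 := by omega
  obtain ⟨a, b, rfl⟩ := List.append_of_mem hg
  obtain ⟨i1, h1⟩ := word_swap hσ h
  obtain ⟨c, l, hcl⟩ : ∃ c l, b ++ a = c :: l := by
    apply List.exists_cons_of_length_pos
    simp only [List.length_append, List.length_cons] at hlen ⊢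
    omega
  rw [List.cons_append, hcl, gw_cons, gw_cons] at h1
  have e0 : (word σ lab i1)[0]? = some true := by rw [h1]; simp
  have e1 : (word σ lab i1)[1]? = some true := by rw [h1]; simp
  rw [word_get] at e0 e1
  have := hl _ e0.2
  simp only [pow_zero, Perm.one_apply, pow_one] at this e1
  rw [e1.2] at this
  exact Bool.noConfusion this

/-- admissible data -/
structure Adm (σ : Perm ι) (lab : ι → Bool) (i0 : ι) (w : List ℕ) (D : ℕ) : Prop where
  cyc : ∀ i j, σ.SameCycle i j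
  fix : ∀ i, σ i ≠ i
  wd : word σ lab i0 = gw (w ++ [D + 1])
  val : ∀ g ∈ w, g = 1 ∨ g = 2
  pal : w.reverse = w
  len : 1 ≤ w.length
  long : 3 * (w.length + 1) + 2 * w.sum < 2 * D

variable {σ : Perm ι} {lab : ι → Bool} {i0 : ι} {w : List ℕ} {D : ℕ}

lemma Adm.pos (h : Adm σ lab i0 w D) : ∀ g ∈ w ++ [D + 1], 1 ≤ g := by
  intro g hg
  rcases List.mem_append.1 hg with hg | hg
  · rcases h.val g hg with rfl | rfl <;> omega
  · simp at hg; omega

lemma Adm.nb_eq (h : Adm σ lab i0 w D) : nb lab = w.length + 1 := by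
  rw [← word_count h.cyc lab i0, h.wd, count_gw]; simp

lemma Adm.card_eq (h : Adm σ lab i0 w D) : Fintype.card ι = w.length + 1 + (w.sum + (D + 1)) := by
  have := congrArg List.length h.wd
  simpa [word, length_gw] using this

lemma Adm.full (h : Adm σ lab i0 w D) : Full (Gr σ lab) (gc lab) lab :=
  full_Gr h.fix (nobb_of_word h.cyc h.wd h.pos)

lemma Adm.word_eq (h : Adm σ lab i0 w D) {κ : Type} [Fintype κ] [DecidableEq κ] {τ : Perm κ}
    {lab' : κ → Bool} {j0 : κ} {gs : List ℕ} (hτ : ∀ i j, τ.SameCycle i j) (hτ' : ∀ i, τ i ≠ i)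
    (hc : Fintype.card ι = Fintype.card κ) (hw : word τ lab' j0 = gw gs) (hg : ∀ g ∈ gs, 1 ≤ g)
    (hl : gs.length = w.length + 1) (he : ∀ k, ncol (Gr σ lab) k = ncol (Gr τ lab') k) :
    ∃ a b, gs = a ++ b ∧ b ++ a = w ++ [D + 1] := by
  have h1 := ZZ_congr h.fix hτ' hc he (Polynomial.X : Polynomial ℤ) Polynomial.X_ne_zero
  rw [ZZ_trace h.cyc lab i0, ZZ_trace hτ lab' j0, h.wd, hw] at h1
  have h2 := congrArg List.length hw
  simp only [word, List.length_map, List.length_range, length_gw, ← hc, h.card_eq] at h2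
  exact decode w gs D h.val h.pal h.len h.long hg hl (by omega) h1.symm

theorem Adm.unique (h : Adm σ lab i0 w D) (a q : ℕ) (hq : Odd q)
    (hL : 2 * Fintype.card ι + nb lab = 2 ^ a * q) (hbig : 8 * (2 ^ a * q) < 2 ^ 2 ^ a)
    {V : Type} [Fintype V] [DecidableEq V] (G : SimpleGraph V)
    (he : ∀ k, ncol (Gr σ lab) k = ncol G k) : Nonempty (Gr σ lab ≃g G) := by
  obtain ⟨cls, lab', hF, hn⟩ := closure h.full G he _ _ rfl rfl
  obtain ⟨τ, hτ', hl, ⟨e⟩⟩ := hF.iso
  have he' : ∀ k, ncol (Gr σ lab) k = ncol (Gr τ lab') k := fun k => by rw [he, ncol_iso e]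
  have hc : Fintype.card ι = Fintype.card (Fin (Fintype.card ι)) := (Fintype.card_fin _).symm
  have hτ := one_cycle σ lab τ lab' h.cyc i0 hc.symm hn a q hq hL hbig
    (ZZ_congr h.fix hτ' hc he' (-2 : ℂ) (by norm_num))
  obtain ⟨j0, gs, h1, h2, h3, _⟩ := exists_gaps hτ hl (by rw [hn, h.nb_eq]; have := h.len; omega)
  obtain ⟨u, v, rfl, h4⟩ := h.word_eq hτ hτ' hc h1 h2 (by rw [h3, hn, h.nb_eq]) he'
  obtain ⟨j1, h5⟩ := word_swap hτ h1
  obtain ⟨f⟩ := iso_of_word h.cyc hτ (h.wd.trans (h4 ▸ h5).symm)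
  exact ⟨f.trans e⟩

theorem Adm.inj (h : Adm σ lab i0 w D) {lab' : ι → Bool} {w' : List ℕ} {D' : ℕ}
    (h' : Adm σ lab' i0 w' D') (hl : w'.length = w.length)
    (he : ∀ k, ncol (Gr σ lab) k = ncol (Gr σ lab') k) : w' = w := by
  obtain ⟨a, b, h1, h2⟩ := h.word_eq h'.cyc h'.fix rfl h'.wd h'.pos (by simp [hl]) he
  rcases List.eq_nil_or_concat a with rfl | ⟨a', x, rfl⟩
  · rw [List.append_nil] at h2
    rw [List.nil_append, h2] at h1
    exact (List.append_inj' h1 rfl).1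
  rcases List.eq_nil_or_concat b with rfl | ⟨b', y, rfl⟩
  · rw [List.nil_append] at h2
    rw [List.append_nil, h2] at h1
    exact (List.append_inj' h1 rfl).1
  exfalso
  simp only [List.concat_eq_append, ← List.append_assoc] at h1 h2
  have e1 : D' + 1 = y := by simpa using (List.append_inj' h1 rfl).2
  have e2 := h.val y (by rw [← (List.append_inj' h2 rfl).1]; simp)
  have := h'.long
  omega

lemma exists_adm (r : ℕ) [Fact (1 < r)] (w : List ℕ) (D : ℕ) (val : ∀ g ∈ w, g = 1 ∨ g = 2)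
    (pal : w.reverse = w) (len : 1 ≤ w.length) (long : 3 * (w.length + 1) + 2 * w.sum < 2 * D)
    (hr : r = w.length + 1 + (w.sum + (D + 1))) :
    ∃ lab : ZMod r → Bool, Adm (Equiv.addRight (1 : ZMod r)) lab 0 w D := by
  have hp : ∀ (k : ℕ) (i : ZMod r), ((Equiv.addRight (1 : ZMod r)) ^ k) i = i + k := by
    intro k i
    induction k with
    | zero => simp
    | succ k ih => rw [pow_succ', Perm.mul_apply, ih]; simp [add_assoc]
  refine ⟨fun i => (gw (w ++ [D + 1])).getD i.val false, ?_, ?_, ?_, val, pal, len, long⟩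
  · intro i j
    exact ⟨((j - i).val : ℕ), by rw [zpow_natCast, hp]; simp⟩
  · intro i
    simp
  · have hlen : (gw (w ++ [D + 1])).length = r := by rw [length_gw, hr]; simp
    apply List.ext_getElem
    · simp [word, hlen]
    · intro k h1 h2
      simp only [word, List.getElem_map, List.getElem_range, hp, zero_add]
      rw [ZMod.val_cast_of_lt (hlen ▸ h2), List.getD_eq_getElem _ _ h2]

/-- palindromic code words -/
def pal {m : ℕ} (v : Fin m → Bool) : List ℕ :=
  List.ofFn (fun i => 1 + (v i).toNat) ++ 1 :: (List.ofFn fun i => 1 + (v i).toNat).reverse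

lemma pal_val {m : ℕ} (v : Fin m → Bool) : ∀ g ∈ pal v, g = 1 ∨ g = 2 := by
  intro g hg
  simp only [pal, List.mem_append, List.mem_cons, List.mem_reverse, List.mem_ofFn] at hg
  rcases hg with ⟨i, rfl⟩ | rfl | ⟨i, rfl⟩
  · cases v i <;> simp
  · simp
  · cases v i <;> simp

lemma pal_reverse {m : ℕ} (v : Fin m → Bool) : (pal v).reverse = pal v := by simp [pal]

lemma pal_length {m : ℕ} (v : Fin m → Bool) : (pal v).length = 2 * m + 1 := by
  simp [pal]; ring

lemma pal_sum {m : ℕ} (v : Fin m → Bool) : (pal v).sum ≤ 4 * m + 2 := by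
  obtain ⟨h1, h2⟩ := sum_count _ (pal_val v)
  rw [pal_length] at h2
  omega

lemma pal_inj {m : ℕ} : Function.Injective (pal (m := m)) := by
  intro v v' h
  have := List.ofFn_injective (List.append_inj h (by simp)).1
  funext i
  have h1 := congrFun this i
  cases hv : v i <;> cases hv' : v' i <;> simp_all

lemma exists_params (n : ℕ) (hn : 30000 ≤ n) : ∃ r m a q : ℕ, Odd q ∧ n / 50 ≤ m ∧
    3 * r + (2 * m + 2) = n ∧ 13 * (m + 1) ≤ r ∧ 2 * r + (2 * m + 2) = 2 ^ a * q ∧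
    8 * (2 ^ a * q) < 2 ^ 2 ^ a := by
  set a := Nat.log 2 (n / 800) with ha
  have h1 : 2 ^ a ≤ n / 800 := Nat.pow_log_le_self 2 (by omega)
  have h2 : n / 800 < 2 ^ (a + 1) := Nat.lt_pow_succ_log_self (by omega) _
  rw [pow_succ] at h2
  have ha0 : a ≠ 0 := by
    intro h; rw [h] at h2; omega
  obtain ⟨K', hK'⟩ : ∃ K', 2 ^ a = 2 * K' := ⟨2 ^ (a - 1), by
    rw [← pow_succ']; congr 1; omega⟩
  have h3 : ∀ K : ℕ, 18 ≤ K → 12800 * K < 2 ^ K := by
    intro K hK
    induction K, hK using Nat.le_induction with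
    | base => norm_num
    | succ K hK ih => rw [pow_succ]; omega
  have h4 := h3 (2 ^ a) (by omega)
  obtain ⟨K, hK⟩ : ∃ K, 2 ^ a = K := ⟨_, rfl⟩
  rw [hK] at h1 h2 hK' h4
  set L0 := (2 * n + n / 25 + 2) / 3 + 1 with hL0
  have h5 := Nat.div_add_mod (L0 + K) (2 * K)
  have h6 := Nat.mod_lt (L0 + K) (show 0 < 2 * K by omega)
  set j := (L0 + K) / (2 * K) with hj
  obtain ⟨t, ht⟩ : ∃ t, K' * (2 * j + 1) = t := ⟨_, rfl⟩
  have h7 : K * (2 * j + 1) = 2 * t := by rw [← ht, hK']; ring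
  have h8 : 2 * K * j + K = 2 * t := by rw [← h7]; ring
  refine ⟨n - 2 * t, 3 * t - n - 1, a, 2 * j + 1, ⟨j, rfl⟩, by omega, by omega, by omega, ?_, ?_⟩
  all_goals rw [hK, h7]; omega

theorem many_unique (n : ℕ) (hn : 30000 ≤ n) : ∃ (m : ℕ) (F : (Fin m → Bool) → SimpleGraph (Fin n)),
    n / 50 ≤ m ∧ (∀ v v', Nonempty (F v ≃g F v') → v = v') ∧
    ∀ v (l : ℕ) (H : SimpleGraph (Fin l)), (∀ k, ncol (F v) k = ncol H k) →
      Nonempty (F v ≃g H) := by
  obtain ⟨r, m, a, q, hq, h1, h2, h3, h4, h5⟩ := exists_params n hn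
  haveI : Fact (1 < r) := ⟨by omega⟩
  have : ∀ v : Fin m → Bool, ∃ (lab : ZMod r → Bool) (D : ℕ) (G : SimpleGraph (Fin n)),
      Adm (Equiv.addRight (1 : ZMod r)) lab 0 (pal v) D ∧
      Nonempty (Gr (Equiv.addRight (1 : ZMod r)) lab ≃g G) := by
    intro v
    have e1 := pal_length v
    have e2 := pal_sum v
    obtain ⟨lab, hlab⟩ := exists_adm r (pal v) (r - (2 * m + 2) - (pal v).sum - 1) (pal_val v)
      (pal_reverse v) (by omega) (by omega) (by omega)
    have hc : Fintype.card (Vx lab) = n := by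
      rw [hlab.full.toGood.card_V, hlab.nb_eq, ZMod.card, e1, ← h2]
    let e := Fintype.equivFinOfCardEq hc
    exact ⟨lab, _, (Gr _ lab).comap e.symm, hlab, ⟨(SimpleGraph.Iso.comap e.symm _).symm⟩⟩
  choose lab D F hA hF using this
  refine ⟨m, F, h1, fun v v' ⟨e⟩ => ?_, fun v l H hH => ?_⟩
  · obtain ⟨f⟩ := hF v
    obtain ⟨f'⟩ := hF v'
    exact (pal_inj ((hA v).inj (hA v') (by simp [pal_length]) fun k =>
      ncol_iso (f.trans (e.trans f'.symm)) k)).symm
  · obtain ⟨f⟩ := hF v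
    obtain ⟨g⟩ := (hA v).unique a q hq (by rw [(hA v).nb_eq, ZMod.card, pal_length, ← h4]) h5 H
      fun k => by rw [ncol_iso f, hH]
    exact ⟨f.symm.trans g⟩

end Pool.Agent.Lib.MP_f7f352_co.U
end
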